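import Pool.Agent.Helper50.PercA
import Pool.Agent.Helper19.PercBasic

/-!
# A slow percolating set in the square grid (threshold three): the graph
-/

set_option autoImplicit false

namespace Pool.Agent.Helper50.PercC

open SimpleGraph Pool.Agent.Helper19.Perco

/-- a time function gives a slow percolating set -/
theorem slow_of_time {V : Type*} [Finite V] (G : SimpleGraph V) (r : ℕ) (τ : V → ℤ)
    (h0 : ∀ v, 0 ≤ τ v) (h1 : ∀ v, 0 < τ v → cnt G {u | τ u + 2 ≤ τ v} v < r)
    (h2 : ∀ v, 0 < τ v → r ≤ cnt G {u | τ u < τ v} v) {T : ℕ} {v : V} (hv : (T : ℤ) < τ v) :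
    Slow G r T := by
  refine ⟨{v | τ v = 0}, ?_, v, ?_⟩
  · intro S hS hcl
    have key : ∀ k : ℕ, ∀ v, τ v ≤ k → v ∈ S := by
      intro k
      induction k with
      | zero =>
        intro v hv
        exact hS (le_antisymm (by exact_mod_cast hv) (h0 v))
      | succ k ih =>
        intro v hv
        rcases (h0 v).eq_or_lt with h | h
        · exact hS h.symm
        · apply hcl
          refine (h2 v h).trans (cnt_mono G ?_ v)
          intro u hu
          apply ih
          have hu' : τ u < τ v := hu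
          push_cast at hv
          omega
    intro v
    exact key (τ v).toNat v (Int.self_le_toNat _)
  · have hb := proc_subset_barrier G r {v | τ v = 0} T (fun t => {u | τ u ≤ t})
      (fun u hu => by
        have : τ u = 0 := hu
        show τ u ≤ ((0 : ℕ) : ℤ)
        rw [this]; rfl)
      (by
        intro t _ w hw
        have hw' : ((t + 1 : ℕ) : ℤ) < τ w := not_le.1 hw
        push_cast at hw'
        have hwt : (t : ℤ) < τ w := by omega
        refine ⟨not_le.2 hwt, ?_⟩
        refine lt_of_le_of_lt (cnt_mono G ?_ w) (h1 w (by omega))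
        intro u hu
        have hu' : τ u ≤ t := hu
        show τ u + 2 ≤ τ w
        omega) T le_rfl
    intro hmem
    have : τ v ≤ T := hb hmem
    omega

/-- the square grid -/
abbrev Sq (n : ℕ) : SimpleGraph (Fin n × Fin n) := pathGraph n □ pathGraph n

open Classical in
theorem cnt_sq (n : ℕ) (Q : ℕ → ℕ → Prop) (a b : Fin n) :
    cnt (Sq n) {p | Q p.1.val p.2.val} (a, b) =
      ((if 0 < a.val ∧ Q (a.val - 1) b.val then 1 else 0) +
        (if a.val + 1 < n ∧ Q (a.val + 1) b.val then 1 else 0)) +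
      ((if 0 < b.val ∧ Q a.val (b.val - 1) then 1 else 0) +
        (if b.val + 1 < n ∧ Q a.val (b.val + 1) then 1 else 0)) := by
  rw [cnt_boxProd]
  congr 1
  · exact cnt_path n (fun i => Q i b.val) a
  · exact cnt_path n (fun i => Q a.val i) b

theorem four_lt {t a b c d : ℤ} (h : Four t a b c d) (ht : 0 < t) :
    ((if a < t then 1 else 0) + (if b < t then 1 else 0)) +
      ((if c < t then 1 else 0) + (if d < t then 1 else 0)) = (3 : ℕ) := by
  have h1 := congrArg (fun M : Multiset ℤ => (M.map (fun z => if z < t then (1 : ℕ) else 0)).sum) h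
  simp only [Multiset.insert_eq_cons, Multiset.map_cons, Multiset.map_singleton,
    Multiset.sum_cons, Multiset.sum_singleton] at h1
  rw [if_pos (show t - 1 < t by omega), if_neg (show ¬ t + 1 < t by omega), if_pos ht] at h1
  omega

theorem four_le {t a b c d : ℤ} (h : Four t a b c d) :
    ((if a + 2 ≤ t then 1 else 0) + (if b + 2 ≤ t then 1 else 0)) +
      ((if c + 2 ≤ t then 1 else 0) + (if d + 2 ≤ t then 1 else 0)) ≤ (2 : ℕ) := by
  have h1 := congrArg (fun M : Multiset ℤ =>
    (M.map (fun z => if z + 2 ≤ t then (1 : ℕ) else 0)).sum) h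
  simp only [Multiset.insert_eq_cons, Multiset.map_cons, Multiset.map_singleton,
    Multiset.sum_cons, Multiset.sum_singleton] at h1
  rw [if_neg (show ¬ t - 1 + 2 ≤ t by omega), if_neg (show ¬ t + 1 + 2 ≤ t by omega)] at h1
  have h2 : (if (0 : ℤ) + 2 ≤ t then (1 : ℕ) else 0) ≤ 1 := by split_ifs <;> omega
  omega

theorem slow_sq {j n : ℕ} (hn : 6 * j + 5 ≤ n) (T : ℕ)
    (hT : (T : ℤ) < 2 * tc (2 * j + 1)) : Slow (Sq n) 3 T := by
  classical
  obtain ⟨m, hm⟩ : ∃ m : ℤ, m = 2 * j + 1 := ⟨_, rfl⟩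
  obtain ⟨o, ho⟩ : ∃ o : ℤ, o = n - (3 * m + 2) := ⟨_, rfl⟩
  rw [← hm] at hT
  have hm1 : 1 ≤ m := by omega
  have hm2 : m % 2 = 1 := by omega
  have ho0 : 0 ≤ o := by omega
  have htc := tc_ge hm1
  -- the exceptional vertex
  have s1 : tau m (3 * m + 1 - 1) (3 * m) = 2 * tc m - 1 := by
    rw [show 3 * m + 1 - 1 = 3 * m by ring, tau_high hm1 hm2 (by omega) (by omega),
      show 3 * m + 1 - 3 * m = 1 by ring, f_11, phi, if_pos (by omega)]
  have s2 : tau m (3 * m + 1) (3 * m - 1) = 0 := by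
    rw [tau_high hm1 hm2 (by omega) (by omega), f_zero_of_le (Or.inr (by omega))]
    rfl
  have s3 : tau m (3 * m + 1) (3 * m + 1) = 0 := by
    rw [tau_high hm1 hm2 (by omega) (by omega), f_zero_of_le (Or.inr (by omega))]
    rfl
  have s0 := tau_spec hm1
  refine slow_of_time (Sq n) 3 (fun p => tau m ((p.1.val : ℤ) - o) ((p.2.val : ℤ) - o))
    (fun p => tau_nonneg hm1) ?_ ?_ (v := (⟨n - 1, by omega⟩, ⟨n - 2, by omega⟩)) ?_
  · rintro ⟨a, b⟩ hpos
    simp only at hpos
    have e := cnt_sq n (fun i k => tau m ((i : ℤ) - o) ((k : ℤ) - o) + 2 ≤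
      tau m ((a.val : ℤ) - o) ((b.val : ℤ) - o)) a b
    refine lt_of_eq_of_lt e ?_
    by_cases hs : (a.val : ℤ) - o = 3 * m + 1 ∧ (b.val : ℤ) - o = 3 * m
    · have ha : ¬ a.val + 1 < n := by omega
      have hb0 : 0 < b.val := by omega
      have ha0 : 0 < a.val := by omega
      have c1 : (((a.val - 1 : ℕ) : ℤ) - o) = 3 * m + 1 - 1 := by omega
      have c2 : ((b.val : ℤ) - o) = 3 * m := hs.2
      have c3 : ((a.val : ℤ) - o) = 3 * m + 1 := hs.1
      have h1 : ¬ (0 < a.val ∧ tau m (((a.val - 1 : ℕ) : ℤ) - o) ((b.val : ℤ) - o) + 2 ≤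
          tau m ((a.val : ℤ) - o) ((b.val : ℤ) - o)) := by
        rw [c1, c2, c3, s1, s0]
        omega
      rw [if_neg h1, if_neg (fun h => ha h.1)]
      split_ifs <;> omega
    · obtain ⟨hF, i1, i2, i3, i4⟩ := tau_local hm1 hm2 hpos hs
      have h4 := four_le hF
      have c1 : (((a.val - 1 : ℕ) : ℤ) - o) = (a.val : ℤ) - o - 1 := by omega
      have c2 : (((a.val + 1 : ℕ) : ℤ) - o) = (a.val : ℤ) - o + 1 := by omega
      have c3 : (((b.val - 1 : ℕ) : ℤ) - o) = (b.val : ℤ) - o - 1 := by omega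
      have c4 : (((b.val + 1 : ℕ) : ℤ) - o) = (b.val : ℤ) - o + 1 := by omega
      have ha0 : 0 < a.val := by omega
      have hb0 : 0 < b.val := by omega
      have ha : a.val + 1 < n := by omega
      have hb : b.val + 1 < n := by omega
      simp only [c1, c2, c3, c4, ha0, hb0, ha, hb, true_and]
      omega
  · rintro ⟨a, b⟩ hpos
    simp only at hpos
    have e := cnt_sq n (fun i k => tau m ((i : ℤ) - o) ((k : ℤ) - o) <
      tau m ((a.val : ℤ) - o) ((b.val : ℤ) - o)) a b
    refine le_of_le_of_eq ?_ e.symm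
    by_cases hs : (a.val : ℤ) - o = 3 * m + 1 ∧ (b.val : ℤ) - o = 3 * m
    · have hb0 : 0 < b.val := by omega
      have ha0 : 0 < a.val := by omega
      have hb : b.val + 1 < n := by omega
      have c1 : (((a.val - 1 : ℕ) : ℤ) - o) = 3 * m + 1 - 1 := by omega
      have c2 : ((b.val : ℤ) - o) = 3 * m := hs.2
      have c3 : ((a.val : ℤ) - o) = 3 * m + 1 := hs.1
      have c4 : (((b.val - 1 : ℕ) : ℤ) - o) = 3 * m - 1 := by omega
      have c5 : (((b.val + 1 : ℕ) : ℤ) - o) = 3 * m + 1 := by omega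
      have h1 : 0 < a.val ∧ tau m (((a.val - 1 : ℕ) : ℤ) - o) ((b.val : ℤ) - o) <
          tau m ((a.val : ℤ) - o) ((b.val : ℤ) - o) := by
        rw [c1, c2, c3, s1, s0]
        omega
      have h2 : 0 < b.val ∧ tau m ((a.val : ℤ) - o) (((b.val - 1 : ℕ) : ℤ) - o) <
          tau m ((a.val : ℤ) - o) ((b.val : ℤ) - o) := by
        rw [c4, c2, c3, s2, s0]
        omega
      have h3 : b.val + 1 < n ∧ tau m ((a.val : ℤ) - o) (((b.val + 1 : ℕ) : ℤ) - o) <
          tau m ((a.val : ℤ) - o) ((b.val : ℤ) - o) := by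
        rw [c5, c2, c3, s3, s0]
        omega
      rw [if_pos h1, if_pos h2, if_pos h3]
      split_ifs <;> omega
    · obtain ⟨hF, i1, i2, i3, i4⟩ := tau_local hm1 hm2 hpos hs
      have h4 := four_lt hF hpos
      have c1 : (((a.val - 1 : ℕ) : ℤ) - o) = (a.val : ℤ) - o - 1 := by omega
      have c2 : (((a.val + 1 : ℕ) : ℤ) - o) = (a.val : ℤ) - o + 1 := by omega
      have c3 : (((b.val - 1 : ℕ) : ℤ) - o) = (b.val : ℤ) - o - 1 := by omega
      have c4 : (((b.val + 1 : ℕ) : ℤ) - o) = (b.val : ℤ) - o + 1 := by omega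
      have ha0 : 0 < a.val := by omega
      have hb0 : 0 < b.val := by omega
      have ha : a.val + 1 < n := by omega
      have hb : b.val + 1 < n := by omega
      simp only [c1, c2, c3, c4, ha0, hb0, ha, hb, true_and]
      omega
  · show (T : ℤ) < tau m (((n - 1 : ℕ) : ℤ) - o) (((n - 2 : ℕ) : ℤ) - o)
    have c1 : ((n - 1 : ℕ) : ℤ) - o = 3 * m + 1 := by omega
    have c2 : ((n - 2 : ℕ) : ℤ) - o = 3 * m := by omega
    rw [c1, c2, s0]
    exact hT

end Pool.Agent.Helper50.PercC
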