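import Mathlib
import Pool.Agent.Helper19.PercFinal

/-!
# Counting edges: an upper bound for percolation times
-/

set_option autoImplicit false

namespace Pool.Agent.Helper50.PercC

open SimpleGraph Pool.Agent.Helper19.Perco

variable {V : Type*}

/-- ordered edges inside a set -/
def inE (G : SimpleGraph V) (S : Set V) : Set (V × V) := {p | G.Adj p.1 p.2 ∧ p.1 ∈ S ∧ p.2 ∈ S}

theorem inE_step [Finite V] (G : SimpleGraph V) {S S' : Set V} (hSS : S ⊆ S') {v : V}
    (hv : v ∈ S') (hvS : v ∉ S) : (inE G S).ncard + 2 * cnt G S v ≤ (inE G S').ncard := by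
  set N := G.neighborSet v ∩ S with hN
  have h1 : ((fun u => (v, u)) '' N).ncard = cnt G S v :=
    Set.ncard_image_of_injective _ (fun a b h => (Prod.mk.inj h).2)
  have h2 : ((fun u => (u, v)) '' N).ncard = cnt G S v :=
    Set.ncard_image_of_injective _ (fun a b h => (Prod.mk.inj h).1)
  have d1 : Disjoint (inE G S) ((fun u => (v, u)) '' N) := by
    rw [Set.disjoint_left]
    rintro p ⟨_, h3, _⟩ ⟨u, _, rfl⟩
    exact hvS h3
  have d2 : Disjoint (inE G S ∪ (fun u => (v, u)) '' N) ((fun u => (u, v)) '' N) := by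
    rw [Set.disjoint_left]
    rintro p (⟨_, _, h3⟩ | ⟨u, hu, h3⟩) ⟨w, hw, h4⟩
    · rw [← h4] at h3
      exact hvS h3
    · rw [← h4] at h3
      have : v = w := (Prod.mk.inj h3).1
      exact hvS (this ▸ hw.2)
  have hsub : (inE G S ∪ (fun u => (v, u)) '' N) ∪ (fun u => (u, v)) '' N ⊆ inE G S' := by
    rintro p ((⟨h3, h4, h5⟩ | ⟨u, ⟨h3, h4⟩, rfl⟩) | ⟨u, ⟨h3, h4⟩, rfl⟩)
    · exact ⟨h3, hSS h4, hSS h5⟩
    · exact ⟨h3, hv, hSS h4⟩
    · exact ⟨h3.symm, hSS h4, hv⟩
  have h3 := Set.ncard_le_ncard hsub (Set.toFinite _)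
  rw [Set.ncard_union_eq d2 (Set.toFinite _) (Set.toFinite _),
    Set.ncard_union_eq d1 (Set.toFinite _) (Set.toFinite _), h1, h2] at h3
  omega

/-- each step of the process before stationarity uses `r` edges -/
theorem inE_proc [Finite V] (G : SimpleGraph V) (r : ℕ) (A : Set V) {T : ℕ}
    (h : ∀ t < T, proc G r A (t + 1) ≠ proc G r A t) :
    ∀ t ≤ T, 2 * r * t ≤ (inE G (proc G r A t)).ncard := by
  intro t
  induction t with
  | zero => intro _; simp
  | succ t ih =>
    intro ht
    have h1 := ih (by omega)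
    have h2 := h t (by omega)
    have h3 : proc G r A t ⊆ proc G r A (t + 1) := proc_mono_time G r A (Nat.le_succ t)
    obtain ⟨v, hv, hvn⟩ := Set.exists_of_ssubset (lt_of_le_of_ne h3 (Ne.symm h2))
    have h4 : r ≤ cnt G (proc G r A t) v := by
      rcases hv with hv | hv
      · exact absurd hv hvn
      · exact hv
    have h5 := inE_step G h3 hv hvn
    have : 2 * r * (t + 1) = 2 * r * t + 2 * r := by ring
    omega

/-- moving one step in direction `i` -/
def mv {d n : ℕ} (p : (Fin d × Bool) × (Fin d → Fin n)) : Fin d → Fin n :=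
  Function.update p.2 p.1.1 (if p.1.2 then (if h : (p.2 p.1.1 : ℕ) + 1 < n then ⟨_, h⟩
    else p.2 p.1.1) else ⟨(p.2 p.1.1 : ℕ) - 1, by have := (p.2 p.1.1).isLt; omega⟩)

theorem inE_grid (d n : ℕ) : (inE (Gd d n) Set.univ).ncard ≤ 2 * d * n ^ d := by
  have hsub : inE (Gd d n) Set.univ ⊆ Set.range (fun p : (Fin d × Bool) × (Fin d → Fin n) =>
      (p.2, mv p)) := by
    rintro ⟨x, y⟩ ⟨⟨i, h1, h2⟩, -, -⟩
    dsimp only at h1 h2
    rcases h1 with h1 | h1
    · refine ⟨((i, true), x), ?_⟩
      simp only [Prod.mk.injEq, true_and]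
      funext j
      by_cases hj : j = i
      · subst hj
        simp only [mv, Function.update_self, if_true]
        have hlt : (x j : ℕ) + 1 < n := by have := (y j).isLt; omega
        rw [dif_pos hlt]
        exact Fin.ext h1
      · simp only [mv, Function.update_of_ne hj]
        exact h2 j hj
    · refine ⟨((i, false), x), ?_⟩
      simp only [Prod.mk.injEq, true_and]
      funext j
      by_cases hj : j = i
      · subst hj
        simp only [mv, Function.update_self]
        apply Fin.ext
        simp only [Bool.false_eq_true, if_false]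
        omega
      · simp only [mv, Function.update_of_ne hj]
        exact h2 j hj
  refine (Set.ncard_le_ncard hsub (Set.toFinite _)).trans ?_
  rw [← Set.image_univ]
  refine (Set.ncard_image_le (Set.toFinite _)).trans ?_
  rw [Set.ncard_univ, Nat.card_eq_fintype_card]
  simp only [Fintype.card_prod, Fintype.card_fin, Fintype.card_bool, Fintype.card_fun]
  exact le_of_eq (by ring)

end Pool.Agent.Helper50.PercC
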