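import Mathlib

/-!
A criterion for the existence of a vector with dense orbit.
-/

namespace Pool.Agent.Helper50.HyperCrit

open Filter Topology

variable {X : Type*} [NormedAddCommGroup X] [NormedSpace ℂ X]

/-- vectors that can be perturbed slightly so as to be sent near `0`, for all late times -/
def goesToZero (A : X →L[ℂ] X) : Submodule ℂ X where
  carrier := {x | ∀ ε : ℝ, 0 < ε → ∀ᶠ n : ℕ in atTop, ∃ f : X, ‖f - x‖ < ε ∧ ‖(A ^ n) f‖ < ε}
  zero_mem' := by
    intro ε hε
    exact Eventually.of_forall fun n => ⟨0, by simpa using hε, by simpa using hε⟩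
  add_mem' := by
    intro x y hx hy ε hε
    filter_upwards [hx (ε / 2) (by positivity), hy (ε / 2) (by positivity)] with n h1 h2
    obtain ⟨f, hf1, hf2⟩ := h1
    obtain ⟨g, hg1, hg2⟩ := h2
    refine ⟨f + g, ?_, ?_⟩
    · calc ‖f + g - (x + y)‖ = ‖(f - x) + (g - y)‖ := by congr 1; abel
        _ ≤ ‖f - x‖ + ‖g - y‖ := norm_add_le _ _
        _ < ε := by linarith
    · calc ‖(A ^ n) (f + g)‖ = ‖(A ^ n) f + (A ^ n) g‖ := by rw [map_add]
        _ ≤ ‖(A ^ n) f‖ + ‖(A ^ n) g‖ := norm_add_le _ _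
        _ < ε := by linarith
  smul_mem' := by
    intro c x hx ε hε
    have hpos : 0 < ‖c‖ + 1 := by positivity
    filter_upwards [hx (ε / (‖c‖ + 1)) (by positivity)] with n h1
    obtain ⟨f, hf1, hf2⟩ := h1
    have key : ∀ t : ℝ, 0 ≤ t → t < ε / (‖c‖ + 1) → ‖c‖ * t < ε := by
      intro t ht0 ht
      rw [lt_div_iff₀ hpos] at ht
      nlinarith [norm_nonneg c]
    refine ⟨c • f, ?_, ?_⟩
    · rw [← smul_sub, norm_smul]
      exact key _ (norm_nonneg _) hf1
    · rw [map_smul, norm_smul]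
      exact key _ (norm_nonneg _) hf2

lemma goesToZero_closed (A : X →L[ℂ] X) : IsClosed (goesToZero A : Set X) := by
  rw [← isSeqClosed_iff_isClosed]
  intro u x hu hx ε hε
  rw [Metric.tendsto_atTop] at hx
  obtain ⟨k, hk⟩ := hx (ε / 2) (by positivity)
  have h1 := hk k le_rfl
  rw [dist_eq_norm] at h1
  filter_upwards [hu k (ε / 2) (by positivity)] with n h2
  obtain ⟨f, hf1, hf2⟩ := h2
  refine ⟨f, ?_, by linarith⟩
  calc ‖f - x‖ = ‖(f - u k) + (u k - x)‖ := by congr 1; abel
    _ ≤ ‖f - u k‖ + ‖u k - x‖ := norm_add_le _ _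
    _ < ε := by linarith

/-- vectors that can be reached from small vectors, for all late times -/
def comesFromZero (A : X →L[ℂ] X) : Submodule ℂ X where
  carrier := {y | ∀ ε : ℝ, 0 < ε → ∀ᶠ n : ℕ in atTop, ∃ h : X, ‖h‖ < ε ∧ ‖(A ^ n) h - y‖ < ε}
  zero_mem' := by
    intro ε hε
    exact Eventually.of_forall fun n => ⟨0, by simpa using hε, by simpa using hε⟩
  add_mem' := by
    intro x y hx hy ε hε
    filter_upwards [hx (ε / 2) (by positivity), hy (ε / 2) (by positivity)] with n h1 h2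
    obtain ⟨f, hf1, hf2⟩ := h1
    obtain ⟨g, hg1, hg2⟩ := h2
    refine ⟨f + g, ?_, ?_⟩
    · calc ‖f + g‖ ≤ ‖f‖ + ‖g‖ := norm_add_le _ _
        _ < ε := by linarith
    · calc ‖(A ^ n) (f + g) - (x + y)‖ = ‖((A ^ n) f - x) + ((A ^ n) g - y)‖ := by
            rw [map_add]; congr 1; abel
        _ ≤ ‖(A ^ n) f - x‖ + ‖(A ^ n) g - y‖ := norm_add_le _ _
        _ < ε := by linarith
  smul_mem' := by
    intro c x hx ε hε
    have hpos : 0 < ‖c‖ + 1 := by positivity
    filter_upwards [hx (ε / (‖c‖ + 1)) (by positivity)] with n h1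
    obtain ⟨f, hf1, hf2⟩ := h1
    have key : ∀ t : ℝ, 0 ≤ t → t < ε / (‖c‖ + 1) → ‖c‖ * t < ε := by
      intro t ht0 ht
      rw [lt_div_iff₀ hpos] at ht
      nlinarith [norm_nonneg c]
    refine ⟨c • f, ?_, ?_⟩
    · rw [norm_smul]
      exact key _ (norm_nonneg _) hf1
    · rw [map_smul, ← smul_sub, norm_smul]
      exact key _ (norm_nonneg _) hf2

lemma comesFromZero_closed (A : X →L[ℂ] X) : IsClosed (comesFromZero A : Set X) := by
  rw [← isSeqClosed_iff_isClosed]
  intro u x hu hx ε hε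
  rw [Metric.tendsto_atTop] at hx
  obtain ⟨k, hk⟩ := hx (ε / 2) (by positivity)
  have h1 := hk k le_rfl
  rw [dist_eq_norm] at h1
  filter_upwards [hu k (ε / 2) (by positivity)] with n h2
  obtain ⟨f, hf1, hf2⟩ := h2
  refine ⟨f, by linarith, ?_⟩
  calc ‖(A ^ n) f - x‖ = ‖((A ^ n) f - u k) + (u k - x)‖ := by congr 1; abel
    _ ≤ ‖(A ^ n) f - u k‖ + ‖u k - x‖ := norm_add_le _ _
    _ < ε := by linarith

/-- If `S` is a countable set whose closed linear span is everything and all of its elements go to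
zero and come from zero, then some vector has a dense orbit. -/
theorem exists_dense_orbit [CompleteSpace X] (A : X →L[ℂ] X) (S : Set X) (hS : S.Countable)
    (hspan : (Submodule.span ℂ S).topologicalClosure = ⊤)
    (h1 : S ⊆ goesToZero A) (h2 : S ⊆ comesFromZero A) :
    ∃ x : X, ∀ y : X, ∀ ε : ℝ, 0 < ε → ∃ n : ℕ, ‖(A ^ n) x - y‖ < ε := by
  have hP : ∀ x, x ∈ goesToZero A := by
    intro x
    have : (Submodule.span ℂ S).topologicalClosure ≤ goesToZero A :=
      Submodule.topologicalClosure_minimal _ (Submodule.span_le.mpr h1) (goesToZero_closed A)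
    rw [hspan] at this
    exact this trivial
  have hQ : ∀ x, x ∈ comesFromZero A := by
    intro x
    have : (Submodule.span ℂ S).topologicalClosure ≤ comesFromZero A :=
      Submodule.topologicalClosure_minimal _ (Submodule.span_le.mpr h2) (comesFromZero_closed A)
    rw [hspan] at this
    exact this trivial
  -- transitivity
  have htr : ∀ (x y : X) (ε : ℝ), 0 < ε → ∃ n : ℕ, ∃ f : X, ‖f - x‖ < ε ∧ ‖(A ^ n) f - y‖ < ε := by
    intro x y ε hε
    obtain ⟨n, ⟨f, hf1, hf2⟩, ⟨g, hg1, hg2⟩⟩ :=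
      ((hP x (ε / 2) (by positivity)).and (hQ y (ε / 2) (by positivity))).exists
    refine ⟨n, f + g, ?_, ?_⟩
    · calc ‖f + g - x‖ = ‖(f - x) + g‖ := by congr 1; abel
        _ ≤ ‖f - x‖ + ‖g‖ := norm_add_le _ _
        _ < ε := by linarith
    · calc ‖(A ^ n) (f + g) - y‖ = ‖(A ^ n) f + ((A ^ n) g - y)‖ := by
            rw [map_add]; congr 1; abel
        _ ≤ ‖(A ^ n) f‖ + ‖(A ^ n) g - y‖ := norm_add_le _ _
        _ < ε := by linarith
  -- separability
  have hsep : TopologicalSpace.SeparableSpace X := by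
    rw [← TopologicalSpace.isSeparable_univ_iff]
    have h3 : TopologicalSpace.IsSeparable (Submodule.span ℂ S : Set X) :=
      (hS.isSeparable).span
    have h4 := h3.closure
    have h5 : closure (Submodule.span ℂ S : Set X) = Set.univ := by
      have := congrArg (fun M : Submodule ℂ X => (M : Set X)) hspan
      simpa using this
    rwa [h5] at h4
  haveI : SecondCountableTopology X := UniformSpace.secondCountable_of_separable X
  let B := TopologicalSpace.countableBasis X
  have hB := TopologicalSpace.isBasis_countableBasis X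
  have hBc : B.Countable := TopologicalSpace.countable_countableBasis X
  have hdense : Dense (⋂ U ∈ B, ⋃ n : ℕ, (fun x => (A ^ n) x) ⁻¹' U) := by
    apply dense_biInter_of_isOpen
    · intro U hU
      exact isOpen_iUnion fun n => (hB.isOpen hU).preimage (A ^ n).continuous
    · exact hBc
    · intro U hU
      have hne : U.Nonempty := TopologicalSpace.nonempty_of_mem_countableBasis hU
      obtain ⟨y, hy⟩ := hne
      obtain ⟨δ, hδ, hball⟩ := Metric.isOpen_iff.mp (hB.isOpen hU) y hy
      rw [Metric.dense_iff]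
      intro x ε hε
      obtain ⟨n, f, hf1, hf2⟩ := htr x y (min ε δ) (lt_min hε hδ)
      refine ⟨f, ?_, ?_⟩
      · rw [Metric.mem_ball, dist_eq_norm]
        exact lt_of_lt_of_le hf1 (min_le_left _ _)
      · rw [Set.mem_iUnion]
        refine ⟨n, hball ?_⟩
        rw [Metric.mem_ball, dist_eq_norm]
        exact lt_of_lt_of_le hf2 (min_le_right _ _)
  obtain ⟨x, hx⟩ := hdense.nonempty
  refine ⟨x, ?_⟩
  intro y ε hε
  obtain ⟨U, hU, hyU, hUs⟩ := hB.exists_subset_of_mem_open (Metric.mem_ball_self hε)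
    (Metric.isOpen_ball (x := y) (ε := ε))
  rw [Set.mem_iInter₂] at hx
  obtain ⟨n, hn⟩ := Set.mem_iUnion.mp (hx U hU)
  refine ⟨n, ?_⟩
  have := hUs hn
  rwa [Metric.mem_ball, dist_eq_norm] at this

end Pool.Agent.Helper50.HyperCrit
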