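import Mathlib

/-!
Rooted trees built from a parent function and a rank function.
-/

namespace Pool.Agent.Helper50.ParentTree

open SimpleGraph

/-- The graph in which every vertex `v ≠ o` is joined to `p v`. -/
def pGraph {V : Type} (o : V) (p : V → V) : SimpleGraph V :=
  SimpleGraph.fromRel (fun u v => u ≠ o ∧ v = p u)

/-- Hypotheses on a parent function `p` with root `o` and rank `r`. -/
structure IsPar {V : Type} (o : V) (p : V → V) (r : V → ℕ) : Prop where
  r_root : r o = 0
  p_root : p o = o
  r_par : ∀ v, v ≠ o → r (p v) + 1 = r v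

variable {V : Type} {o : V} {p : V → V} {r : V → ℕ}

lemma IsPar.r_eq_zero (h : IsPar o p r) {v : V} (hv : r v = 0) : v = o := by
  by_contra hne
  have := h.r_par v hne
  omega

lemma pGraph_adj (h : IsPar o p r) (u v : V) :
    (pGraph o p).Adj u v ↔ (u ≠ o ∧ v = p u) ∨ (v ≠ o ∧ u = p v) := by
  unfold pGraph
  rw [SimpleGraph.fromRel_adj]
  constructor
  · rintro ⟨_, h1⟩
    exact h1
  · rintro (⟨h1, h2⟩ | ⟨h1, h2⟩)
    · refine ⟨?_, Or.inl ⟨h1, h2⟩⟩
      rintro rfl
      have := h.r_par u h1
      rw [← h2] at this
      omega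
    · refine ⟨?_, Or.inr ⟨h1, h2⟩⟩
      rintro rfl
      have := h.r_par u h1
      rw [← h2] at this
      omega

lemma reach_root (h : IsPar o p r) : ∀ (n : ℕ) (v : V), r v = n → ∃ w : (pGraph o p).Walk o v, w.length = n := by
  intro n
  induction n with
  | zero =>
    intro v hv
    have := h.r_eq_zero hv
    subst this
    exact ⟨Walk.nil, rfl⟩
  | succ n ih =>
    intro v hv
    have hne : v ≠ o := by
      rintro rfl
      have := h.r_root
      omega
    have h1 := h.r_par v hne
    obtain ⟨w, hw⟩ := ih (p v) (by omega)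
    have hadj : (pGraph o p).Adj (p v) v := by
      rw [pGraph_adj h]
      exact Or.inr ⟨hne, rfl⟩
    exact ⟨w.concat hadj, by simp [hw]⟩

lemma connected (h : IsPar o p r) : (pGraph o p).Connected := by
  have hreach : ∀ v, (pGraph o p).Reachable o v := fun v => by
    obtain ⟨w, _⟩ := reach_root h (r v) v rfl
    exact ⟨w⟩
  haveI : Nonempty V := ⟨o⟩
  refine SimpleGraph.Connected.mk ?_
  intro u v
  exact (hreach u).symm.trans (hreach v)

lemma r_le_of_adj (h : IsPar o p r) {u v : V} (hadj : (pGraph o p).Adj u v) : r v ≤ r u + 1 := by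
  rw [pGraph_adj h] at hadj
  rcases hadj with ⟨h1, rfl⟩ | ⟨h1, rfl⟩
  · have := h.r_par u h1
    omega
  · have := h.r_par v h1
    omega

lemma r_le_walk (h : IsPar o p r) {u v : V} (w : (pGraph o p).Walk u v) : r v ≤ r u + w.length := by
  induction w with
  | nil => simp
  | cons hadj w ih =>
    have := r_le_of_adj h hadj
    simp only [Walk.length_cons]
    omega

lemma dist_eq (h : IsPar o p r) (v : V) : (pGraph o p).dist o v = r v := by
  apply le_antisymm
  · obtain ⟨w, hw⟩ := reach_root h (r v) v rfl
    rw [← hw]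
    exact dist_le w
  · obtain ⟨w, hw⟩ := (connected h).exists_walk_length_eq_dist o v
    have := r_le_walk h w
    rw [h.r_root, hw] at this
    omega

lemma r_iterate_le (h : IsPar o p r) (k : ℕ) (v : V) : r (p^[k] v) ≤ r v := by
  induction k with
  | zero => simp
  | succ k ih =>
    rw [Function.iterate_succ_apply']
    by_cases hne : p^[k] v = o
    · rw [hne, h.p_root, h.r_root]; omega
    · have := h.r_par _ hne
      omega

lemma acyclic (h : IsPar o p r) : (pGraph o p).IsAcyclic := by
  rw [isAcyclic_iff_forall_adj_isBridge]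
  -- it is enough to treat the edges `v - p v`
  have key : ∀ v, v ≠ o → (pGraph o p).IsBridge s(v, p v) := by
    intro v hv
    rw [isBridge_iff]
    rintro ⟨w⟩
    -- descendants of `v`
    have inv : ∀ {x y : V} (w : ((pGraph o p).deleteEdges {s(v, p v)}).Walk x y),
        (∃ k, p^[k] x = v) → ∃ k, p^[k] y = v := by
      intro x y w
      induction w with
      | nil => exact id
      | @cons a b c hadj w ih =>
        rintro ⟨k, hk⟩
        apply ih
        rw [deleteEdges_adj] at hadj
        obtain ⟨hadj, hne⟩ := hadj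
        rw [pGraph_adj h] at hadj
        rcases hadj with ⟨h1, rfl⟩ | ⟨h1, rfl⟩
        · cases k with
          | zero =>
            simp only [Function.iterate_zero, id_eq] at hk
            subst hk
            simp at hne
          | succ k =>
            exact ⟨k, by rw [← hk, Function.iterate_succ_apply]⟩
        · exact ⟨k + 1, by rw [Function.iterate_succ_apply]; exact hk⟩
    obtain ⟨k, hk⟩ := inv w ⟨0, rfl⟩
    have h1 := r_iterate_le h k (p v)
    rw [hk] at h1
    have h2 := h.r_par v hv
    omega
  intro u v hadj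
  rw [pGraph_adj h] at hadj
  rcases hadj with ⟨h1, rfl⟩ | ⟨h1, rfl⟩
  · exact key u h1
  · rw [Sym2.eq_swap]
    exact key v h1

lemma isTree (h : IsPar o p r) : (pGraph o p).IsTree := ⟨connected h, acyclic h⟩

end Pool.Agent.Helper50.ParentTree
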