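import Mathlib
import Pool.Agent.Helper50.ParentTree
import Pool.Agent.Helper50.HyperCrit

/-!
The little Lipschitz space of a tree, modelled on functions vanishing at infinity.
-/

namespace Pool.Agent.Helper50.TreeSpace

open Filter Topology ParentTree HyperCrit ZeroAtInfty

variable {V : Type} (o : V) (p : V → V) (r : V → ℕ)

open Classical in
/-- the increments of `f` -/
noncomputable def D (f : V → ℂ) (v : V) : ℂ := if v = o then f o else f v - f (p v)

/-- the sum of increments along the path from the root -/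
noncomputable def S (g : V → ℂ) (v : V) : ℂ := ∑ i ∈ Finset.range (r v + 1), g (p^[i] v)

variable {o p r}

lemma D_root (f : V → ℂ) : D o p f o = f o := by simp [D]

lemma D_ne {v : V} (hv : v ≠ o) (f : V → ℂ) : D o p f v = f v - f (p v) := by simp [D, hv]

lemma D_add (f g : V → ℂ) : D o p (f + g) = D o p f + D o p g := by
  funext v
  by_cases hv : v = o
  · subst hv; simp [D_root]
  · simp only [D_ne hv, Pi.add_apply]; ring

lemma D_sub (f g : V → ℂ) : D o p (f - g) = D o p f - D o p g := by
  funext v
  by_cases hv : v = o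
  · subst hv; simp [D_root]
  · simp only [D_ne hv, Pi.sub_apply]; ring

lemma D_smul (c : ℂ) (f : V → ℂ) : D o p (c • f) = c • D o p f := by
  funext v
  by_cases hv : v = o
  · subst hv; simp [D_root]
  · simp only [D_ne hv, Pi.smul_apply, smul_eq_mul]; ring

lemma S_add (f g : V → ℂ) : S p r (f + g) = S p r f + S p r g := by
  funext v
  simp [S, Finset.sum_add_distrib]

lemma S_smul (c : ℂ) (f : V → ℂ) : S p r (c • f) = c • S p r f := by
  funext v
  simp [S, Finset.mul_sum]

lemma S_root (h : IsPar o p r) (g : V → ℂ) : S p r g o = g o := by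
  simp [S, h.r_root]

lemma S_ne (h : IsPar o p r) {v : V} (hv : v ≠ o) (g : V → ℂ) :
    S p r g v = g v + S p r g (p v) := by
  unfold S
  rw [← h.r_par v hv, Finset.sum_range_succ']
  rw [add_comm]
  rfl

lemma D_S (h : IsPar o p r) (g : V → ℂ) : D o p (S p r g) = g := by
  funext v
  by_cases hv : v = o
  · subst hv; rw [D_root, S_root h]
  · rw [D_ne hv, S_ne h hv]; ring

lemma S_D (h : IsPar o p r) (f : V → ℂ) : S p r (D o p f) = f := by
  have key : ∀ (n : ℕ) (v : V), r v = n → S p r (D o p f) v = f v := by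
    intro n
    induction n with
    | zero =>
      intro v hv
      have := h.r_eq_zero hv
      subst this
      rw [S_root h, D_root]
    | succ n ih =>
      intro v hv
      have hne : v ≠ o := by
        rintro rfl
        have := h.r_root
        omega
      have h1 := h.r_par v hne
      rw [S_ne h hne, ih (p v) (by omega), D_ne hne]
      ring
  funext v
  exact key _ v rfl

lemma norm_S_le (g : V → ℂ) (c : ℝ) (hg : ∀ v, ‖g v‖ ≤ c) (v : V) :
    ‖S p r g v‖ ≤ (r v + 1) * c := by
  unfold S
  refine (norm_sum_le _ _).trans ?_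
  refine (Finset.sum_le_sum fun i _ => hg _).trans ?_
  simp

/-- increments along edges are controlled by `D` -/
lemma edge_le (h : IsPar o p r) {f : V → ℂ} {c : ℝ} {N : ℕ}
    (hf : ∀ v, N ≤ r v → ‖D o p f v‖ ≤ c) {u v : V} (hadj : (pGraph o p).Adj u v) (hN : N ≤ r u) :
    ‖f u - f v‖ ≤ c := by
  rw [pGraph_adj h] at hadj
  rcases hadj with ⟨h1, rfl⟩ | ⟨h1, rfl⟩
  · have := hf u hN
    rwa [D_ne h1] at this
  · have h2 := h.r_par v h1
    have := hf v (by omega)
    rw [D_ne h1] at this
    rwa [norm_sub_rev] at this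

lemma walk_le (h : IsPar o p r) {f : V → ℂ} {c : ℝ} {N : ℕ}
    (hf : ∀ v, N ≤ r v → ‖D o p f v‖ ≤ c) {x y : V} (w : (pGraph o p).Walk x y)
    (hx : N + w.length ≤ r x) : ‖f x - f y‖ ≤ w.length * c := by
  induction w with
  | nil => simp
  | @cons a b d hadj w ih =>
    simp only [SimpleGraph.Walk.length_cons] at hx ⊢
    have h1 := edge_le h hf hadj (by omega)
    have h2 := r_le_of_adj h hadj.symm
    have h3 := ih (by omega)
    calc ‖f a - f d‖ = ‖(f a - f b) + (f b - f d)‖ := by congr 1; ring
      _ ≤ ‖f a - f b‖ + ‖f b - f d‖ := norm_add_le _ _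
      _ ≤ c + w.length * c := by linarith
      _ = _ := by push_cast; ring

lemma walk_le' (h : IsPar o p r) {f : V → ℂ} {c : ℝ}
    (hf : ∀ v, ‖D o p f v‖ ≤ c) {x y : V} (w : (pGraph o p).Walk x y) :
    ‖f x - f y‖ ≤ w.length * c := by
  induction w with
  | nil => simp
  | @cons a b d hadj w ih =>
    simp only [SimpleGraph.Walk.length_cons]
    have h1 := edge_le (N := 0) h (fun v _ => hf v) hadj (by omega)
    calc ‖f a - f d‖ = ‖(f a - f b) + (f b - f d)‖ := by congr 1; ring
      _ ≤ ‖f a - f b‖ + ‖f b - f d‖ := norm_add_le _ _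
      _ ≤ c + w.length * c := by linarith
      _ = _ := by push_cast; ring

/-- a symbol: injective and Lipschitz with constant `C` -/
structure IsSymbol (o : V) (p : V → V) (r : V → ℕ) (φ : V → V) (C : ℕ) : Prop where
  inj : Function.Injective φ
  lip : ∀ v, v ≠ o → ∃ w : (pGraph o p).Walk (φ v) (φ (p v)), w.length ≤ C
  root : r (φ o) + 1 ≤ C

lemma D_comp_le (h : IsPar o p r) {φ : V → V} {C : ℕ} (hφ : IsSymbol o p r φ C) {f : V → ℂ} {c : ℝ}
    (hc : 0 ≤ c) (hf : ∀ v, ‖D o p f v‖ ≤ c) (v : V) : ‖D o p (f ∘ φ) v‖ ≤ C * c := by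
  by_cases hv : v = o
  · subst hv
    rw [D_root]
    have h1 := norm_S_le (p := p) (r := r) (D v p f) c hf (φ v)
    rw [S_D h] at h1
    refine h1.trans ?_
    have : (r (φ v) : ℝ) + 1 ≤ C := by exact_mod_cast hφ.root
    exact mul_le_mul_of_nonneg_right this hc
  · rw [D_ne hv]
    obtain ⟨w, hw⟩ := hφ.lip v hv
    have h1 := walk_le' h hf w
    refine h1.trans ?_
    have : (w.length : ℝ) ≤ C := by exact_mod_cast hw
    exact mul_le_mul_of_nonneg_right this hc

lemma comp_mem (h : IsPar o p r) (hfin : ∀ N, {v | r v ≤ N}.Finite) {φ : V → V} {C : ℕ}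
    (hφ : IsSymbol o p r φ C) {f : V → ℂ} (hf : Tendsto (D o p f) cofinite (𝓝 0)) :
    Tendsto (D o p (f ∘ φ)) cofinite (𝓝 0) := by
  rw [Metric.tendsto_nhds] at hf ⊢
  intro ε hε
  have h1 := hf (ε / (C + 1)) (by positivity)
  rw [Filter.eventually_cofinite] at h1 ⊢
  -- a level beyond which the increments are small
  obtain ⟨N, hN⟩ : ∃ N, ∀ v, N ≤ r v → ‖D o p f v‖ ≤ ε / (C + 1) := by
    refine ⟨(h1.toFinset.sup r) + 1, ?_⟩
    intro v hv
    by_contra hcon
    have hmem : v ∈ h1.toFinset := by
      rw [Set.Finite.mem_toFinset, Set.mem_setOf_eq, dist_zero_right]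
      push Not at hcon
      exact not_lt.mpr hcon.le
    have := Finset.le_sup (f := r) hmem
    omega
  have h2 : {v | r (φ v) ≤ N + C}.Finite := (hfin (N + C)).preimage hφ.inj.injOn
  refine (h2.union (Set.finite_singleton o)).subset ?_
  intro v hv
  by_contra hcon
  simp only [Set.mem_union, Set.mem_setOf_eq, Set.mem_singleton_iff, not_or, not_le] at hcon
  obtain ⟨h3, h4⟩ := hcon
  apply hv
  rw [dist_zero_right, D_ne h4]
  obtain ⟨w, hw⟩ := hφ.lip v h4
  have h5 := walk_le h hN w (by omega)
  refine lt_of_le_of_lt h5 ?_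
  have h6 : (w.length : ℝ) ≤ C := by exact_mod_cast hw
  have h7 : (C : ℝ) * (ε / (C + 1)) < ε := by
    rw [mul_div_assoc', div_lt_iff₀ (by positivity)]
    nlinarith
  refine lt_of_le_of_lt ?_ h7
  exact mul_le_mul_of_nonneg_right h6 (by positivity)

section Model

variable [TopologicalSpace V] [DiscreteTopology V]

/-- package a function tending to zero along the cofinite filter -/
def mkC (g : V → ℂ) (hg : Tendsto g cofinite (𝓝 0)) : C₀(V, ℂ) where
  toFun := g
  continuous_toFun := continuous_of_discreteTopology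
  zero_at_infty' := by rwa [cocompact_eq_cofinite]

@[simp] lemma mkC_apply (g : V → ℂ) (hg : Tendsto g cofinite (𝓝 0)) (v : V) :
    mkC g hg v = g v := rfl

lemma tendsto_coe (g : C₀(V, ℂ)) : Tendsto (g : V → ℂ) cofinite (𝓝 0) := by
  have := zero_at_infty g
  rwa [cocompact_eq_cofinite] at this

lemma norm_le_iff (g : C₀(V, ℂ)) {c : ℝ} (hc : 0 ≤ c) : ‖g‖ ≤ c ↔ ∀ v, ‖g v‖ ≤ c := by
  rw [← ZeroAtInftyContinuousMap.norm_toBCF_eq_norm, BoundedContinuousFunction.norm_le hc]
  rfl

lemma norm_apply_le (g : C₀(V, ℂ)) (v : V) : ‖g v‖ ≤ ‖g‖ :=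
  (norm_le_iff g (norm_nonneg g)).mp le_rfl v

/-- the weighted composition operator in the model -/
noncomputable def opLin (h : IsPar o p r) (hfin : ∀ N, {v | r v ≤ N}.Finite) {φ : V → V} {C : ℕ}
    (hφ : IsSymbol o p r φ C) (lam : ℂ) : C₀(V, ℂ) →ₗ[ℂ] C₀(V, ℂ) where
  toFun g := lam • mkC (D o p (S p r g ∘ φ)) (comp_mem h hfin hφ (by rw [D_S h]; exact tendsto_coe g))
  map_add' := by
    intro f g
    ext v
    simp only [ZeroAtInftyContinuousMap.coe_smul, Pi.smul_apply, mkC_apply,
      ZeroAtInftyContinuousMap.coe_add, Pi.add_apply, smul_eq_mul]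
    have : S p r (f + g : V → ℂ) ∘ φ = S p r f ∘ φ + S p r g ∘ φ := by
      rw [S_add]; rfl
    rw [this, D_add]
    simp only [Pi.add_apply]
    ring
  map_smul' := by
    intro c g
    ext v
    simp only [ZeroAtInftyContinuousMap.coe_smul, Pi.smul_apply, mkC_apply, smul_eq_mul,
      RingHom.id_apply]
    have : S p r (c • (g : V → ℂ)) ∘ φ = c • (S p r g ∘ φ) := by
      rw [S_smul]; rfl
    rw [this, D_smul]
    simp only [Pi.smul_apply, smul_eq_mul]
    ring

lemma opLin_bound (h : IsPar o p r) (hfin : ∀ N, {v | r v ≤ N}.Finite) {φ : V → V} {C : ℕ}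
    (hφ : IsSymbol o p r φ C) (lam : ℂ) (g : C₀(V, ℂ)) :
    ‖opLin h hfin hφ lam g‖ ≤ (‖lam‖ * C) * ‖g‖ := by
  rw [norm_le_iff _ (by positivity)]
  intro v
  change ‖lam * D o p (S p r g ∘ φ) v‖ ≤ _
  rw [norm_mul, mul_assoc]
  apply mul_le_mul_of_nonneg_left _ (norm_nonneg _)
  apply D_comp_le h hφ (norm_nonneg _)
  intro u
  rw [D_S h]
  exact norm_apply_le g u

/-- the weighted composition operator in the model, as a bounded operator -/
noncomputable def op (h : IsPar o p r) (hfin : ∀ N, {v | r v ≤ N}.Finite) {φ : V → V} {C : ℕ}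
    (hφ : IsSymbol o p r φ C) (lam : ℂ) : C₀(V, ℂ) →L[ℂ] C₀(V, ℂ) :=
  (opLin h hfin hφ lam).mkContinuous (‖lam‖ * C) (opLin_bound h hfin hφ lam)

lemma op_apply (h : IsPar o p r) (hfin : ∀ N, {v | r v ≤ N}.Finite) {φ : V → V} {C : ℕ}
    (hφ : IsSymbol o p r φ C) (lam : ℂ) (g : C₀(V, ℂ)) :
    (op h hfin hφ lam g : V → ℂ) = D o p (fun v => lam * S p r g (φ v)) := by
  funext v
  change lam * D o p (S p r g ∘ φ) v = _
  have := congrFun (D_smul (o := o) (p := p) lam (S p r g ∘ φ)) v
  simp only [Pi.smul_apply, smul_eq_mul] at this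
  rw [← this]
  rfl

/-- iterates of the operator in the model -/
lemma op_pow (h : IsPar o p r) (hfin : ∀ N, {v | r v ≤ N}.Finite) {φ : V → V} {C : ℕ}
    (hφ : IsSymbol o p r φ C) (lam : ℂ) (g : C₀(V, ℂ)) (n : ℕ) :
    ((op h hfin hφ lam ^ n) g : V → ℂ) = D o p (fun v => lam ^ n * S p r g (φ^[n] v)) := by
  induction n with
  | zero =>
    simp only [pow_zero, ContinuousLinearMap.one_apply, Function.iterate_zero, id_eq, one_mul]
    exact (D_S h g).symm
  | succ n ih =>
    rw [pow_succ', ContinuousLinearMap.mul_apply, op_apply, ih]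
    congr 1
    funext v
    rw [S_D h, Function.iterate_succ_apply, pow_succ]
    ring

open Classical in
lemma finite_supp_D (h : IsPar o p r) (hch : ∀ v, {u | p u = v ∧ u ≠ o}.Finite) {f : V → ℂ}
    (hf : (Function.support f).Finite) : (Function.support (D o p f)).Finite := by
  have h1 : (⋃ v ∈ Function.support f, {u | p u = v ∧ u ≠ o}).Finite :=
    hf.biUnion fun v _ => hch v
  refine (hf.union h1).subset ?_
  intro u hu
  by_contra hcon
  simp only [Set.mem_union, Function.mem_support, Set.mem_iUnion, Set.mem_setOf_eq, not_or,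
    not_not, not_exists, not_and] at hcon
  obtain ⟨h2, h3⟩ := hcon
  apply hu
  by_cases huo : u = o
  · subst huo; rw [D_root, h2]
  · rw [D_ne huo, h2]
    by_cases h4 : f (p u) = 0
    · rw [h4]; ring
    · exact absurd (h3 (p u) h4 rfl) huo

lemma tendsto_of_finite_supp {g : V → ℂ} (hg : (Function.support g).Finite) :
    Tendsto g cofinite (𝓝 0) := by
  rw [Metric.tendsto_nhds]
  intro ε hε
  rw [Filter.eventually_cofinite]
  refine hg.subset ?_
  intro v hv
  simp only [Set.mem_setOf_eq, dist_zero_right, not_lt] at hv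
  rw [Function.mem_support]
  intro h0
  rw [h0, norm_zero] at hv
  linarith

open Classical in
/-- the indicator function of a vertex -/
noncomputable def ind (v : V) : V → ℂ := fun u => if u = v then 1 else 0

lemma ind_supp (v : V) : (Function.support (ind v)).Finite := by
  refine (Set.finite_singleton v).subset ?_
  intro u hu
  simp only [ind, Function.mem_support, ne_eq, ite_eq_right_iff, one_ne_zero, imp_false,
    not_not] at hu
  exact hu

lemma sum_smul_apply {ι : Type*} (s : Finset ι) (c : ι → ℂ) (x : ι → C₀(V, ℂ)) (v : V) :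
    (∑ u ∈ s, c u • x u) v = ∑ u ∈ s, c u * x u v := by
  classical
  induction s using Finset.induction_on with
  | empty => simp
  | insert a s ha ih =>
    rw [Finset.sum_insert ha, Finset.sum_insert ha, ZeroAtInftyContinuousMap.add_apply, ih]
    rfl

/-- the indicator of a vertex, seen in the model -/
noncomputable def dV (h : IsPar o p r) (hch : ∀ v, {u | p u = v ∧ u ≠ o}.Finite) (v : V) :
    C₀(V, ℂ) :=
  mkC (D o p (ind v)) (tendsto_of_finite_supp (finite_supp_D h hch (ind_supp v)))

/-- the unit vectors of the model -/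
noncomputable def eV (v : V) : C₀(V, ℂ) := mkC (ind v) (tendsto_of_finite_supp (ind_supp v))

lemma mem_span_of_finite_supp (h : IsPar o p r) (hch : ∀ v, {u | p u = v ∧ u ≠ o}.Finite)
    {f : V → ℂ} (hf : (Function.support f).Finite) :
    mkC (D o p f) (tendsto_of_finite_supp (finite_supp_D h hch hf)) ∈
      Submodule.span ℂ (Set.range (dV h hch)) := by
  have h1 : mkC (D o p f) (tendsto_of_finite_supp (finite_supp_D h hch hf)) =
      ∑ u ∈ hf.toFinset, f u • dV h hch u := by
    ext v
    have h2 : (∑ u ∈ hf.toFinset, f u • dV h hch u) v = ∑ u ∈ hf.toFinset, f u * D o p (ind u) v := by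
      rw [sum_smul_apply]
      rfl
    rw [h2]
    have h3 : f = ∑ u ∈ hf.toFinset, f u • ind u := by
      funext x
      rw [Finset.sum_apply, Finset.sum_eq_single x]
      · simp [ind]
      · intro b _ hb
        have : ¬ (x = b) := fun hh => hb hh.symm
        simp [ind, this]
      · intro hx
        have : f x = 0 := by simpa using hx
        simp [this]
    have h4 : ∀ s : Finset V, D o p (∑ u ∈ s, f u • ind u) v = ∑ u ∈ s, f u * D o p (ind u) v := by
      classical
      intro s
      induction s using Finset.induction_on with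
      | empty =>
        simp only [Finset.sum_empty]
        by_cases hv : v = o
        · subst hv; simp [D_root]
        · simp [D_ne hv]
      | insert a s ha ih =>
        rw [Finset.sum_insert ha, Finset.sum_insert ha, D_add, D_smul, Pi.add_apply, ih]
        rfl
    rw [← h4, ← h3]
    rfl
  rw [h1]
  exact Submodule.sum_mem _ fun u _ =>
    Submodule.smul_mem _ _ (Submodule.subset_span ⟨u, rfl⟩)

omit [TopologicalSpace V] [DiscreteTopology V] in
lemma max_lip (a b : ℝ) : |max 0 a - max 0 b| ≤ |a - b| := by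
  have := abs_max_sub_max_le_abs a b (0 : ℝ)
  rwa [max_comm a 0, max_comm b 0] at this

/-- the unit vectors are limits of images of finitely supported functions -/
lemma eV_mem (h : IsPar o p r) (hfin : ∀ N, {v | r v ≤ N}.Finite)
    (hch : ∀ v, {u | p u = v ∧ u ≠ o}.Finite) (v : V) :
    eV v ∈ (Submodule.span ℂ (Set.range (dV h hch))).topologicalClosure := by
  classical
  rw [← SetLike.mem_coe, Submodule.topologicalClosure_coe, Metric.mem_closure_iff]
  intro ε hε
  obtain ⟨N, hN⟩ := exists_nat_one_div_lt hε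
  -- the cut-off function on the descendants of `v`
  let F : V → ℝ := fun u => if (∃ i, p^[i] u = v) then
    max 0 (1 - ((r u : ℝ) - r v) / (N + 1)) else 0
  let f : V → ℂ := fun u => (F u : ℂ)
  have hFs : (Function.support f).Finite := by
    refine (hfin (r v + N + 1)).subset ?_
    intro u hu
    rw [Set.mem_setOf_eq]
    by_contra hcon
    push Not at hcon
    apply hu
    have : F u = 0 := by
      simp only [F]
      split_ifs
      · apply max_eq_left
        have h1 : (r v : ℝ) + N + 1 < r u := by exact_mod_cast hcon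
        rw [sub_nonpos, le_div_iff₀ (by positivity)]
        linarith
      · rfl
    simp [f, this]
  refine ⟨_, mem_span_of_finite_supp h hch hFs, ?_⟩
  rw [dist_eq_norm]
  refine lt_of_le_of_lt ?_ hN
  rw [norm_le_iff _ (by positivity)]
  intro u
  change ‖ind v u - D o p f u‖ ≤ _
  have hpos : (0 : ℝ) < N + 1 := by positivity
  have hv1 : F v = 1 := by
    simp only [F]
    rw [if_pos ⟨0, rfl⟩]
    simp
  by_cases huo : u = o
  · rw [huo, D_root]
    by_cases hvo : v = o
    · rw [hvo] at hv1
      simp only [f, hv1, hvo, ind]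
      simp
      positivity
    · have : F o = 0 := by
        simp only [F]
        rw [if_neg]
        rintro ⟨i, hi⟩
        apply hvo
        rw [← hi]
        exact Function.iterate_fixed h.p_root i
      have hov : ¬ (o = v) := fun hh => hvo hh.symm
      simp only [f, this, ind, hov]
      simp
      positivity
  · rw [D_ne huo]
    by_cases huv : u = v
    · have : F (p u) = 0 := by
        simp only [F]
        rw [if_neg]
        rintro ⟨i, hi⟩
        have h1 := r_iterate_le h i (p u)
        have h2 := h.r_par u huo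
        rw [hi, ← huv] at h1
        omega
      rw [huv] at this ⊢
      simp only [f, this, ind, hv1]
      simp
      positivity
    · simp only [ind, huv, if_false]
      have h1 := h.r_par u huo
      have h1' : (r u : ℝ) = r (p u) + 1 := by exact_mod_cast h1.symm
      by_cases hd : ∃ i, p^[i] (p u) = v
      · have hd' : ∃ i, p^[i] u = v := by
          obtain ⟨i, hi⟩ := hd
          exact ⟨i + 1, by rw [Function.iterate_succ_apply]; exact hi⟩
        have e1 : F u = max 0 (1 - ((r u : ℝ) - r v) / (N + 1)) := by simp only [F]; rw [if_pos hd']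
        have e2 : F (p u) = max 0 (1 - ((r (p u) : ℝ) - r v) / (N + 1)) := by
          simp only [F]; rw [if_pos hd]
        have e3 : |F u - F (p u)| ≤ 1 / (N + 1) := by
          rw [e1, e2]
          refine (max_lip _ _).trans ?_
          rw [h1']
          have : 1 - ((r (p u) : ℝ) + 1 - r v) / (N + 1) - (1 - ((r (p u) : ℝ) - r v) / (N + 1))
            = - (1 / (N + 1)) := by ring
          rw [this, abs_neg, abs_of_pos (by positivity)]
        have e4 : (0 : ℂ) - (f u - f (p u)) = ((-(F u - F (p u)) : ℝ) : ℂ) := by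
          simp only [f]; push_cast; ring
        rw [e4, Complex.norm_real, Real.norm_eq_abs, abs_neg]
        exact e3
      · have hd' : ¬ ∃ i, p^[i] u = v := by
          rintro ⟨i, hi⟩
          cases i with
          | zero => exact huv hi
          | succ i => exact hd ⟨i, by rw [← Function.iterate_succ_apply]; exact hi⟩
        have e1 : F u = 0 := by simp only [F]; rw [if_neg hd']
        have e2 : F (p u) = 0 := by simp only [F]; rw [if_neg hd]
        simp only [f, e1, e2]
        simp
        positivity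

/-- the closed span of the unit vectors is everything -/
lemma span_eV : (Submodule.span ℂ (Set.range (eV (V := V)))).topologicalClosure = ⊤ := by
  classical
  rw [eq_top_iff]
  intro g _
  rw [← SetLike.mem_coe, Submodule.topologicalClosure_coe, Metric.mem_closure_iff]
  intro ε hε
  have h1 := tendsto_coe g
  rw [Metric.tendsto_nhds] at h1
  have h2 := h1 (ε / 2) (by positivity)
  rw [Filter.eventually_cofinite] at h2
  refine ⟨∑ u ∈ h2.toFinset, g u • eV u, ?_, ?_⟩
  · exact Submodule.sum_mem _ fun u _ =>
      Submodule.smul_mem _ _ (Submodule.subset_span ⟨u, rfl⟩)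
  · rw [dist_eq_norm]
    refine lt_of_le_of_lt ?_ (half_lt_self hε)
    rw [norm_le_iff _ (by positivity)]
    intro v
    have h3 : (∑ u ∈ h2.toFinset, g u • eV u) v = if v ∈ h2.toFinset then g v else 0 := by
      rw [sum_smul_apply]
      have : ∀ u ∈ h2.toFinset, g u * eV u v = if v = u then g u else 0 := by
        intro u _
        change g u * ind u v = _
        simp only [ind]
        split_ifs <;> simp
      rw [Finset.sum_congr rfl this, Finset.sum_ite_eq]
    rw [ZeroAtInftyContinuousMap.sub_apply, h3]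
    split_ifs with h4
    · simp; positivity
    · rw [sub_zero]
      rw [Set.Finite.mem_toFinset, Set.mem_setOf_eq, not_not, dist_zero_right] at h4
      exact h4.le

lemma span_dV (h : IsPar o p r) (hfin : ∀ N, {v | r v ≤ N}.Finite)
    (hch : ∀ v, {u | p u = v ∧ u ≠ o}.Finite) :
    (Submodule.span ℂ (Set.range (dV h hch))).topologicalClosure = ⊤ := by
  rw [eq_top_iff, ← span_eV (V := V)]
  apply Submodule.topologicalClosure_minimal _ _ (Submodule.isClosed_topologicalClosure _)
  rw [Submodule.span_le]
  rintro _ ⟨v, rfl⟩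
  exact eV_mem h hfin hch v

end Model

end Pool.Agent.Helper50.TreeSpace
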