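import Mathlib
import Pool.Agent.Helper50.TreeSpace

/-!
Hypercyclicity of `lam C_φ` on the little Lipschitz space, `|lam| > 1`.
-/

namespace Pool.Agent.Helper50.TreeSpace

open Filter Topology ParentTree HyperCrit ZeroAtInfty

variable {V : Type} {o : V} {p : V → V} {r : V → ℕ} [TopologicalSpace V] [DiscreteTopology V]

lemma norm_dV_le (h : IsPar o p r) (hch : ∀ v, {u | p u = v ∧ u ≠ o}.Finite) (v : V) :
    ‖dV h hch v‖ ≤ 1 := by
  classical
  rw [norm_le_iff _ zero_le_one]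
  intro u
  change ‖D o p (ind v) u‖ ≤ 1
  by_cases hu : u = o
  · rw [hu, D_root]
    simp only [ind]
    split_ifs <;> simp
  · rw [D_ne hu]
    have hne : p u ≠ u := by
      intro hh
      have := h.r_par u hu
      rw [hh] at this
      omega
    simp only [ind]
    split_ifs with h1 h2 h2
    · exact absurd (h2.trans h1.symm) hne
    · simp
    · simp
    · simp

theorem hyper [Countable V] (h : IsPar o p r) (hfin : ∀ N, {v | r v ≤ N}.Finite)
    (hch : ∀ v, {u | p u = v ∧ u ≠ o}.Finite) {φ : V → V} {C : ℕ} (hφ : IsSymbol o p r φ C)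
    (lam : ℂ) (hlam : 1 < ‖lam‖)
    (H1 : ∀ v, ∀ ε : ℝ, 0 < ε → ∀ᶠ n : ℕ in atTop, ∃ f : V → ℂ,
      Tendsto (D o p f) cofinite (𝓝 0) ∧ (∀ u, ‖D o p (f - ind v) u‖ ≤ ε) ∧
      (∀ u, ‖D o p (fun w => lam ^ n * f (φ^[n] w)) u‖ ≤ ε)) :
    ∃ f : V → ℂ, Tendsto (D o p f) cofinite (𝓝 0) ∧
      ∀ g : V → ℂ, Tendsto (D o p g) cofinite (𝓝 0) → ∀ ε : ℝ, 0 < ε → ∃ n : ℕ,
        ∀ u, ‖D o p (fun w => lam ^ n * f (φ^[n] w) - g w) u‖ ≤ ε := by
  classical
  have hlam0 : lam ≠ 0 := by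
    rintro rfl
    rw [norm_zero] at hlam
    linarith
  have hA : Set.range (dV h hch) ⊆ goesToZero (op h hfin hφ lam) := by
    rintro _ ⟨v, rfl⟩ ε hε
    filter_upwards [H1 v (ε / 2) (by positivity)] with n hn
    obtain ⟨f, hf0, hf1, hf2⟩ := hn
    refine ⟨mkC (D o p f) hf0, ?_, ?_⟩
    · refine lt_of_le_of_lt ?_ (half_lt_self hε)
      rw [norm_le_iff _ (by positivity)]
      intro u
      have := hf1 u
      rw [D_sub] at this
      exact this
    · refine lt_of_le_of_lt ?_ (half_lt_self hε)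
      rw [norm_le_iff _ (by positivity)]
      intro u
      rw [op_pow]
      have h3 : S p r (mkC (D o p f) hf0 : V → ℂ) = f := S_D h f
      rw [h3]
      exact hf2 u
  have hB : Set.range (dV h hch) ⊆ comesFromZero (op h hfin hφ lam) := by
    rintro _ ⟨v, rfl⟩ ε hε
    have h1 : Tendsto (fun n : ℕ => (‖lam‖⁻¹) ^ n) atTop (𝓝 0) :=
      tendsto_pow_atTop_nhds_zero_of_lt_one (by positivity) (inv_lt_one_of_one_lt₀ hlam)
    filter_upwards [h1.eventually (gt_mem_nhds hε)] with n hn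
    refine ⟨(lam ^ n)⁻¹ • dV h hch (φ^[n] v), ?_, ?_⟩
    · rw [norm_smul, norm_inv, norm_pow]
      calc (‖lam‖ ^ n)⁻¹ * ‖dV h hch (φ^[n] v)‖ ≤ (‖lam‖ ^ n)⁻¹ * 1 :=
            mul_le_mul_of_nonneg_left (norm_dV_le h hch _) (by positivity)
        _ = (‖lam‖⁻¹) ^ n := by rw [mul_one, inv_pow]
        _ < ε := hn
    · have h2 : (op h hfin hφ lam ^ n) ((lam ^ n)⁻¹ • dV h hch (φ^[n] v)) = dV h hch v := by
        ext u
        rw [op_pow]
        change _ = D o p (ind v) u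
        congr 1
        funext w
        have h3 : S p r (((lam ^ n)⁻¹ • dV h hch (φ^[n] v) : C₀(V, ℂ)) : V → ℂ) =
          (lam ^ n)⁻¹ • ind (φ^[n] v) := by
          have : (((lam ^ n)⁻¹ • dV h hch (φ^[n] v) : C₀(V, ℂ)) : V → ℂ) =
            (lam ^ n)⁻¹ • D o p (ind (φ^[n] v)) := rfl
          rw [this, S_smul, S_D h]
        rw [h3]
        simp only [Pi.smul_apply, smul_eq_mul, ind]
        have h4 : (φ^[n] w = φ^[n] v) ↔ w = v := (hφ.inj.iterate n).eq_iff
        rw [← mul_assoc, mul_inv_cancel₀ (pow_ne_zero n hlam0), one_mul]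
        simp only [h4]
      rw [h2, sub_self, norm_zero]
      exact hε
  obtain ⟨x, hx⟩ := exists_dense_orbit (op h hfin hφ lam) (Set.range (dV h hch))
    (Set.countable_range _) (span_dV h hfin hch) hA hB
  refine ⟨S p r x, by rw [D_S h]; exact tendsto_coe x, ?_⟩
  intro g hg ε hε
  obtain ⟨n, hn⟩ := hx (mkC (D o p g) hg) ε hε
  refine ⟨n, fun u => ?_⟩
  have h1 := (norm_apply_le ((op h hfin hφ lam ^ n) x - mkC (D o p g) hg) u).trans hn.le
  rw [ZeroAtInftyContinuousMap.sub_apply, op_pow] at h1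
  have h2 : (fun w => lam ^ n * S p r x (φ^[n] w) - g w) =
    (fun w => lam ^ n * S p r x (φ^[n] w)) - g := rfl
  rw [h2, D_sub]
  exact h1

end Pool.Agent.Helper50.TreeSpace
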