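import Mathlib
import Pool.Agent.Helper50.TreeHyper

/-!
The comb tree and the zigzag symbol.
-/

namespace Pool.Agent.Helper50.Comb

open Filter Topology ParentTree TreeSpace

/-- parent function of the comb `ℤ × ℕ` -/
def par : ℤ × ℕ → ℤ × ℕ
  | (j, 0) => if 0 < j then (j - 1, 0) else if j < 0 then (j + 1, 0) else (0, 0)
  | (j, k + 1) => (j, k)

/-- level in the comb -/
def rk (v : ℤ × ℕ) : ℕ := v.1.natAbs + v.2

/-- root of the comb -/
def rt : ℤ × ℕ := (0, 0)

lemma isPar : IsPar rt par rk := by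
  refine ⟨rfl, rfl, ?_⟩
  rintro ⟨j, k⟩ hv
  cases k with
  | zero =>
    have hj : j ≠ 0 := by
      rintro rfl
      exact hv rfl
    simp only [par, rk]
    split_ifs with h1 h2
    · simp only; omega
    · simp only; omega
    · omega
  | succ k =>
    simp only [par, rk]
    omega

lemma fin_levels (N : ℕ) : {v | rk v ≤ N}.Finite := by
  have h1 : ((Set.Icc (-(N : ℤ)) N) ×ˢ (Set.Iic N) : Set (ℤ × ℕ)).Finite :=
    (Set.finite_Icc _ _).prod (Set.finite_Iic _)
  refine h1.subset ?_
  rintro ⟨j, k⟩ hv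
  simp only [rk, Set.mem_setOf_eq] at hv
  simp only [Set.mem_prod, Set.mem_Icc, Set.mem_Iic]
  omega

lemma fin_children (v : ℤ × ℕ) : {u | par u = v ∧ u ≠ rt}.Finite := by
  refine (fin_levels (rk v + 1)).subset ?_
  rintro u ⟨h1, h2⟩
  have := isPar.r_par u h2
  rw [h1] at this
  simp only [Set.mem_setOf_eq]
  omega

lemma fin_nbr (v : ℤ × ℕ) : ((pGraph rt par).neighborSet v).Finite := by
  refine (fin_levels (rk v + 1)).subset ?_
  intro u hu
  rw [SimpleGraph.mem_neighborSet] at hu
  exact r_le_of_adj isPar hu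

lemma adj_tooth (j : ℤ) (k : ℕ) : (pGraph rt par).Adj (j, k) (j, k + 1) := by
  rw [pGraph_adj isPar]
  right
  refine ⟨?_, rfl⟩
  intro h
  simp [rt] at h

lemma adj_spine (j : ℤ) : (pGraph rt par).Adj (j, 0) (j + 1, 0) := by
  rw [pGraph_adj isPar]
  by_cases hj : 0 ≤ j
  · right
    refine ⟨?_, ?_⟩
    · simp only [rt, ne_eq, Prod.mk.injEq, and_true]; omega
    · simp only [par]
      rw [if_pos (by omega)]
      simp
  · left
    refine ⟨?_, ?_⟩
    · simp only [rt, ne_eq, Prod.mk.injEq, and_true]; omega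
    · simp only [par]
      rw [if_neg (by omega), if_pos (by omega)]

lemma deg_ne (v : ℤ × ℕ) : ((pGraph rt par).neighborSet v).ncard ≠ 1 := by
  intro h
  rw [Set.ncard_eq_one] at h
  obtain ⟨a, ha⟩ := h
  have key : ∀ x y, (pGraph rt par).Adj v x → (pGraph rt par).Adj v y → x = y := by
    intro x y hx hy
    have h1 : x ∈ (pGraph rt par).neighborSet v := hx
    have h2 : y ∈ (pGraph rt par).neighborSet v := hy
    rw [ha] at h1 h2
    rw [Set.mem_singleton_iff] at h1 h2
    rw [h1, h2]
  obtain ⟨j, k⟩ := v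
  cases k with
  | zero =>
    have := key _ _ (adj_tooth j 0) (adj_spine j)
    simp at this
  | succ k =>
    have := key _ _ (adj_tooth j (k + 1)) (adj_tooth j k).symm
    simp only [Prod.mk.injEq, true_and] at this
    omega

/-! ### the parameters -/

/-- half of the number of extra steps of the zigzag on tooth `j` -/
def mm (j : ℤ) : ℤ := 2 * j.toNat * (j.toNat).factorial

/-- the height of the special vertex on tooth `j` -/
def LL (j : ℤ) : ℤ := 4 * (j.toNat + 1).factorial - j

lemma LL_rec (j : ℤ) : LL j = LL (j - 1) + 2 * mm j - 1 := by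
  unfold LL mm
  by_cases hj : 0 < j
  · obtain ⟨a, ha⟩ : ∃ a : ℕ, j = a + 1 := ⟨(j - 1).toNat, by omega⟩
    have h1 : j.toNat = a + 1 := by omega
    have h2 : (j - 1).toNat = a := by omega
    rw [h1, h2, ha]
    have h3 : ((a + 1 + 1).factorial : ℤ) = (a + 2) * (a + 1).factorial := by
      rw [Nat.factorial_succ (a + 1)]
      push_cast
      ring
    rw [h3]
    push_cast
    ring
  · have h1 : j.toNat = 0 := by omega
    have h2 : (j - 1).toNat = 0 := by omega
    rw [h1, h2]
    simp
    ring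

lemma mm_nonneg (j : ℤ) : 0 ≤ mm j := by
  unfold mm; positivity

lemma LL_ge (j : ℤ) : 3 ≤ LL j := by
  unfold LL
  have h1 : (j.toNat + 1 : ℕ) ≤ (j.toNat + 1).factorial := Nat.self_le_factorial _
  have h2 : ((j.toNat + 1 : ℕ) : ℤ) ≤ (j.toNat + 1).factorial := by exact_mod_cast h1
  have h3 : j ≤ j.toNat := Int.self_le_toNat j
  push_cast at h2
  have h4 : (0 : ℤ) ≤ j.toNat := by positivity
  linarith

lemma mm_lt (j : ℤ) : mm j < LL j := by
  unfold LL mm
  have h1 : ((j.toNat + 1).factorial : ℤ) = (j.toNat + 1) * (j.toNat).factorial := by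
    rw [Nat.factorial_succ]; push_cast; ring
  rw [h1]
  have h3 : j ≤ j.toNat := Int.self_le_toNat j
  have h4 : (0 : ℤ) ≤ j.toNat := by positivity
  have h5 : (1 : ℤ) ≤ (j.toNat).factorial := by exact_mod_cast Nat.one_le_iff_ne_zero.mpr (Nat.factorial_ne_zero _)
  nlinarith

lemma mm_growth (lam : ℝ) (hlam : 1 < lam) (j : ℤ) (ε : ℝ) (hε : 0 < ε) :
    ∀ᶠ n : ℕ in atTop, 0 < mm (j + n) ∧ lam ^ n / (mm (j + n) : ℝ) ≤ ε := by
  have h1 := FloorSemiring.tendsto_pow_div_factorial_atTop lam
  -- shift the index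
  have h2 : ∀ᶠ n : ℕ in atTop, lam ^ n / (n.factorial : ℝ) < ε * lam ^ (j : ℤ) := by
    apply h1.eventually (gt_mem_nhds _)
    positivity
  rw [eventually_atTop] at h2
  obtain ⟨N, hN⟩ := h2
  rw [eventually_atTop]
  refine ⟨(j.natAbs + N + 1), ?_⟩
  intro n hn
  obtain ⟨a, ha⟩ : ∃ a : ℕ, j + n = a := ⟨(j + n).toNat, by omega⟩
  have ha1 : 1 ≤ a := by omega
  have haN : N ≤ a := by omega
  rw [ha]
  have h3 : mm (a : ℤ) = 2 * a * a.factorial := by
    unfold mm; simp
  have h4 : (0 : ℝ) < a.factorial := by exact_mod_cast Nat.factorial_pos a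
  have h5 : (1 : ℝ) ≤ a := by exact_mod_cast ha1
  constructor
  · rw [h3]
    have : (0 : ℤ) < a := by omega
    positivity
  · rw [h3]
    push_cast
    have h6 := (hN a haN).le
    have h7 : lam ^ a = lam ^ (j : ℤ) * lam ^ n := by
      rw [← zpow_natCast lam a, ← zpow_natCast lam n, ← zpow_add₀ (by positivity), ha]
    rw [h7, div_le_iff₀ h4] at h6
    have h8 : (0 : ℝ) < lam ^ (j : ℤ) := by positivity
    have h9 : lam ^ n ≤ ε * a.factorial := by
      by_contra hcon
      push Not at hcon
      have := mul_lt_mul_of_pos_left hcon h8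
      nlinarith
    rw [div_le_iff₀ (by positivity)]
    have h10 : ε * a.factorial ≤ ε * (2 * a * a.factorial) := by
      have : (a.factorial : ℝ) ≤ 2 * a * a.factorial := by nlinarith
      exact mul_le_mul_of_nonneg_left this hε.le
    linarith

/-! ### the symbol -/

/-- the zigzag in terms of displacements from the special vertex -/
def H (m s : ℤ) : ℤ :=
  if 0 ≤ s then 3 * s else if -m ≤ s then -3 * s - 1 else
    if -2 * m ≤ s then 3 * (s + 2 * m) + 1 else s + 2 * m

/-- the symbol -/
def phi (v : ℤ × ℕ) : ℤ × ℕ :=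
  if v.2 = 0 then (v.1, 1) else
    (v.1 - 1, (LL (v.1 - 1) + H (mm v.1) (v.2 - LL v.1)).toNat)

lemma H_ge (j : ℤ) (k : ℕ) (hk : 1 ≤ k) : 2 ≤ LL (j - 1) + H (mm j) (k - LL j) := by
  have h1 := LL_rec j
  have h2 := LL_ge (j - 1)
  have h3 := mm_nonneg j
  unfold H
  split_ifs <;> omega

lemma phi_zero (j : ℤ) : phi (j, 0) = (j, 1) := by simp [phi]

lemma phi_pos (j : ℤ) (k : ℕ) (hk : 1 ≤ k) :
    ∃ k' : ℕ, phi (j, k) = (j - 1, k') ∧ (k' : ℤ) = LL (j - 1) + H (mm j) (k - LL j) ∧ 2 ≤ k' := by
  have h1 := H_ge j k hk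
  refine ⟨(LL (j - 1) + H (mm j) (k - LL j)).toNat, ?_, ?_, ?_⟩
  · simp only [phi]
    rw [if_neg (by omega)]
  · omega
  · omega

lemma phi_inj : Function.Injective phi := by
  rintro ⟨j, k⟩ ⟨j', k'⟩ heq
  by_cases hk : k = 0
  · subst hk
    rw [phi_zero] at heq
    by_cases hk' : k' = 0
    · subst hk'
      rw [phi_zero] at heq
      simp only [Prod.mk.injEq, and_true] at heq
      rw [heq]
    · obtain ⟨a, h1, _, h3⟩ := phi_pos j' k' (by omega)
      rw [h1] at heq
      simp only [Prod.mk.injEq] at heq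
      omega
  · obtain ⟨a, h1, h2, h3⟩ := phi_pos j k (by omega)
    by_cases hk' : k' = 0
    · subst hk'
      rw [phi_zero, h1] at heq
      simp only [Prod.mk.injEq] at heq
      omega
    · obtain ⟨a', h1', h2', h3'⟩ := phi_pos j' k' (by omega)
      rw [h1, h1'] at heq
      simp only [Prod.mk.injEq] at heq
      obtain ⟨e1, e2⟩ := heq
      have e3 : j = j' := by omega
      subst e3
      have h4 := mm_nonneg j
      have : k = k' := by
        unfold H at h2 h2'
        split_ifs at h2 h2' <;> omega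
      rw [this]

lemma walk_tooth (j : ℤ) (a d : ℕ) : ∃ w : (pGraph rt par).Walk (j, a) (j, a + d), w.length = d := by
  induction d with
  | zero => exact ⟨SimpleGraph.Walk.nil, rfl⟩
  | succ d ih =>
    obtain ⟨w, hw⟩ := ih
    refine ⟨w.concat (adj_tooth j (a + d)), by simp [hw]⟩

lemma walk_tooth' (j : ℤ) (a b : ℕ) (C : ℕ) (h1 : a ≤ b + C) (h2 : b ≤ a + C) :
    ∃ w : (pGraph rt par).Walk (j, a) (j, b), w.length ≤ C := by
  rcases le_total a b with h | h
  · obtain ⟨d, rfl⟩ := Nat.exists_eq_add_of_le h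
    obtain ⟨w, hw⟩ := walk_tooth j a d
    exact ⟨w, by omega⟩
  · obtain ⟨d, rfl⟩ := Nat.exists_eq_add_of_le h
    obtain ⟨w, hw⟩ := walk_tooth j b d
    exact ⟨w.reverse, by rw [SimpleGraph.Walk.length_reverse]; omega⟩

lemma isSymbol : IsSymbol rt par rk phi 4 := by
  refine ⟨phi_inj, ?_, ?_⟩
  · rintro ⟨j, k⟩ hv
    cases k with
    | zero =>
      have hj : j ≠ 0 := by
        rintro rfl
        exact hv rfl
      -- neighbours on the spine
      have key : ∀ i : ℤ, ∃ w : (pGraph rt par).Walk (i, 1) (i + 1, 1), w.length ≤ 4 := by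
        intro i
        refine ⟨SimpleGraph.Walk.cons (adj_tooth i 0).symm
          (SimpleGraph.Walk.cons (adj_spine i)
            (SimpleGraph.Walk.cons (adj_tooth (i + 1) 0) SimpleGraph.Walk.nil)), ?_⟩
        simp
      rcases lt_or_gt_of_ne hj with h1 | h1
      · have hp : par (j, 0) = (j + 1, 0) := by
          simp only [par]
          rw [if_neg (by omega), if_pos h1]
        rw [hp, phi_zero, phi_zero]
        exact key j
      · have hp : par (j, 0) = (j - 1, 0) := by
          simp only [par]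
          rw [if_pos h1]
        rw [hp, phi_zero, phi_zero]
        have : ∃ w : (pGraph rt par).Walk (j - 1, 1) (j, 1), w.length ≤ 4 := by
          have h3 := key (j - 1)
          rwa [sub_add_cancel] at h3
        obtain ⟨w, hw⟩ := this
        exact ⟨w.reverse, by rw [SimpleGraph.Walk.length_reverse]; exact hw⟩
    | succ k =>
      change ∃ w : (pGraph rt par).Walk (phi (j, k + 1)) (phi (j, k)), w.length ≤ 4
      obtain ⟨a, h1, h2, h3⟩ := phi_pos j (k + 1) (by omega)
      rw [h1]
      by_cases hk : k = 0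
      · subst hk
        rw [phi_zero]
        have ha : a = 2 := by
          have h4 := LL_rec j
          have h5 := LL_ge (j - 1)
          have h6 := mm_nonneg j
          push_cast at h2
          unfold H at h2
          split_ifs at h2 <;> omega
        subst ha
        have hsp := adj_spine (j - 1)
        rw [sub_add_cancel] at hsp
        refine ⟨SimpleGraph.Walk.cons (adj_tooth (j - 1) 1).symm
          (SimpleGraph.Walk.cons (adj_tooth (j - 1) 0).symm
          (SimpleGraph.Walk.cons hsp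
            (SimpleGraph.Walk.cons (adj_tooth j 0) SimpleGraph.Walk.nil))), ?_⟩
        simp
      · obtain ⟨a', h1', h2', h3'⟩ := phi_pos j k (by omega)
        rw [h1']
        have h6 := mm_nonneg j
        push_cast at h2
        apply walk_tooth'
        · unfold H at h2 h2'
          split_ifs at h2 h2' <;> omega
        · unfold H at h2 h2'
          split_ifs at h2 h2' <;> omega
  · simp [phi, rt, rk]

/-! ### iterates -/

/-- the special backward orbit -/
def ww (j : ℤ) : ℤ × ℕ := (j, (LL j).toNat)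

lemma iter_pos (n : ℕ) : ∀ (j s : ℤ), 0 ≤ s →
    phi^[n] (j + n, (LL (j + n) + s).toNat) = (j, (LL j + 3 ^ n * s).toNat) := by
  induction n with
  | zero => intro j s _; simp
  | succ n ih =>
    intro j s hs
    rw [Function.iterate_succ_apply]
    have h1 := LL_ge (j + (n + 1 : ℕ))
    obtain ⟨a, h2, h3, _⟩ := phi_pos (j + (n + 1 : ℕ)) (LL (j + (n + 1 : ℕ)) + s).toNat (by omega)
    rw [h2]
    have h4 : j + ((n + 1 : ℕ) : ℤ) - 1 = j + n := by push_cast; ring
    rw [h4] at h3 ⊢
    have h5 : ((LL (j + (n + 1 : ℕ)) + s).toNat : ℤ) - LL (j + (n + 1 : ℕ)) = s := by omega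
    rw [h5] at h3
    have h6 : H (mm (j + (n + 1 : ℕ))) s = 3 * s := by unfold H; rw [if_pos hs]
    rw [h6] at h3
    have h7 : a = (LL (j + n) + 3 * s).toNat := by omega
    rw [h7, ih j (3 * s) (by omega)]
    congr 2
    ring

lemma iter_neg (n : ℕ) (j s : ℤ) (hs : 0 < s) (hs' : s ≤ mm (j + (n + 1 : ℕ))) :
    phi^[n + 1] (j + (n + 1 : ℕ), (LL (j + (n + 1 : ℕ)) - s).toNat) =
      (j, (LL j + 3 ^ n * (3 * s - 1)).toNat) := by
  rw [Function.iterate_succ_apply]
  have h1 := mm_lt (j + (n + 1 : ℕ))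
  obtain ⟨a, h2, h3, _⟩ := phi_pos (j + (n + 1 : ℕ)) (LL (j + (n + 1 : ℕ)) - s).toNat (by omega)
  rw [h2]
  have h4 : j + ((n + 1 : ℕ) : ℤ) - 1 = j + n := by push_cast; ring
  rw [h4] at h3 ⊢
  have h5 : ((LL (j + (n + 1 : ℕ)) - s).toNat : ℤ) - LL (j + (n + 1 : ℕ)) = -s := by omega
  rw [h5] at h3
  have h6 : H (mm (j + (n + 1 : ℕ))) (-s) = 3 * s - 1 := by
    unfold H; rw [if_neg (by omega), if_pos (by omega)]; ring
  rw [h6] at h3
  have h7 : a = (LL (j + n) + (3 * s - 1)).toNat := by omega
  rw [h7, iter_pos n j (3 * s - 1) (by omega)]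

/-- description of the displacements of the points of the image of `phi^[n]` -/
lemma good (n : ℕ) : ∀ (u : ℤ × ℕ) (j : ℤ) (k : ℕ), phi^[n] u = (j, k) →
    (k : ℤ) - LL j ≤ 0 ∨ (3 ^ n : ℤ) ∣ (k : ℤ) - LL j ∨
    ∃ i : ℕ, i < n ∧ ∃ S : ℤ, (k : ℤ) - LL j = 3 ^ i * S ∧ ¬ (3 : ℤ) ∣ S ∧
      S < 3 * mm (j + i + 1) := by
  induction n with
  | zero =>
    intro u j k _
    right; left
    simp
  | succ n ih =>
    intro u j k h
    rw [Function.iterate_succ_apply'] at h
    rcases hv : phi^[n] u with ⟨j', k'⟩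
    rw [hv] at h
    have hih := ih u j' k' hv
    by_cases hk' : k' = 0
    · subst hk'
      rw [phi_zero] at h
      simp only [Prod.mk.injEq] at h
      obtain ⟨rfl, rfl⟩ := h
      left
      have := LL_ge j'
      push_cast
      omega
    · obtain ⟨a, h1, h2, h3⟩ := phi_pos j' k' (by omega)
      rw [h1] at h
      simp only [Prod.mk.injEq] at h
      obtain ⟨rfl, rfl⟩ := h
      have h4 := mm_nonneg j'
      by_cases hD : 0 < (k' : ℤ) - LL j'
      · have h5 : (a : ℤ) - LL (j' - 1) = 3 * ((k' : ℤ) - LL j') := by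
          rw [h2]; unfold H; rw [if_pos hD.le]; ring
        rcases hih with h6 | h6 | ⟨i, hi, S, hS1, hS2, hS3⟩
        · omega
        · right; left
          rw [h5, pow_succ']
          exact mul_dvd_mul_left 3 h6
        · right; right
          refine ⟨i + 1, by omega, S, ?_, hS2, ?_⟩
          · rw [h5, hS1]; ring
          · have : j' - 1 + ((i + 1 : ℕ) : ℤ) + 1 = j' + i + 1 := by push_cast; ring
            rw [this]; exact hS3
      · by_cases hle : (a : ℤ) - LL (j' - 1) ≤ 0
        · left; exact hle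
        · right; right
          refine ⟨0, by omega, (a : ℤ) - LL (j' - 1), by ring, ?_, ?_⟩
          · have : (a : ℤ) - LL (j' - 1) = H (mm j') (k' - LL j') := by omega
            rw [this]
            rw [this] at hle
            unfold H at hle ⊢
            split_ifs at hle ⊢ <;> omega
          · have : (a : ℤ) - LL (j' - 1) = H (mm j') (k' - LL j') := by omega
            rw [this]
            rw [this] at hle
            have h8 : j' - 1 + ((0 : ℕ) : ℤ) + 1 = j' := by push_cast; ring
            rw [h8]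
            unfold H at hle ⊢
            split_ifs at hle ⊢ <;> omega

/-- backward orbits of points below the special vertex are short -/
lemma below (n : ℕ) : ∀ (u : ℤ × ℕ) (j : ℤ) (k : ℕ), phi^[n] u = (j, k) → (k : ℤ) < LL j → n ≤ k := by
  induction n with
  | zero => intros; omega
  | succ n ih =>
    intro u j k h hk
    rw [Function.iterate_succ_apply'] at h
    rcases hv : phi^[n] u with ⟨j', k'⟩
    rw [hv] at h
    by_cases hk' : k' = 0
    · subst hk'
      rw [phi_zero] at h
      simp only [Prod.mk.injEq] at h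
      obtain ⟨rfl, rfl⟩ := h
      have h5 := LL_ge j'
      have := ih u j' 0 hv (by push_cast; omega)
      omega
    · obtain ⟨a, h1, h2, h3⟩ := phi_pos j' k' (by omega)
      rw [h1] at h
      simp only [Prod.mk.injEq] at h
      obtain ⟨rfl, rfl⟩ := h
      have h4 := mm_nonneg j'
      have h5 := LL_rec j'
      have h6 : (k' : ℤ) < LL j' ∧ (a : ℤ) = k' + 1 := by
        unfold H at h2
        split_ifs at h2 <;> omega
      have := ih u j' k' hv h6.1
      omega

/-- backward orbits of points above the special vertex are finite -/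
lemma above (D : ℕ) : 0 < D → ∀ j : ℤ, ∃ N : ℕ, ∀ (n : ℕ) (u : ℤ × ℕ) (k : ℕ),
    phi^[n] u = (j, k) → (k : ℤ) = LL j + D → n ≤ N := by
  induction D using Nat.strong_induction_on with
  | _ D ih =>
    intro hD j
    -- bound for the next step
    obtain ⟨N', hN'⟩ : ∃ N' : ℕ, ∀ D' : ℕ, 0 < D' → D' < D → ∀ (n : ℕ) (u : ℤ × ℕ) (k : ℕ),
        phi^[n] u = (j + 1, k) → (k : ℤ) = LL (j + 1) + D' → n ≤ N' := by
      classical
      have h1 : ∀ D' : ℕ, ∃ N : ℕ, 0 < D' → D' < D → ∀ (n : ℕ) (u : ℤ × ℕ) (k : ℕ),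
          phi^[n] u = (j + 1, k) → (k : ℤ) = LL (j + 1) + D' → n ≤ N := by
        intro D'
        by_cases hh : 0 < D' ∧ D' < D
        · obtain ⟨N, hN⟩ := ih D' hh.2 hh.1 (j + 1)
          exact ⟨N, fun _ _ => hN⟩
        · exact ⟨0, fun a b => absurd ⟨a, b⟩ hh⟩
      choose F hF using h1
      refine ⟨(Finset.range D).sup F, ?_⟩
      intro D' h2 h3 n u k h4 h5
      exact (hF D' h2 h3 n u k h4 h5).trans (Finset.le_sup (Finset.mem_range.mpr h3))
    refine ⟨max N' (LL (j + 1)).toNat + 1, ?_⟩
    intro n u k h hk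
    cases n with
    | zero => omega
    | succ n =>
      rw [Function.iterate_succ_apply'] at h
      rcases hv : phi^[n] u with ⟨j', k'⟩
      rw [hv] at h
      by_cases hk' : k' = 0
      · subst hk'
        rw [phi_zero] at h
        simp only [Prod.mk.injEq] at h
        obtain ⟨rfl, rfl⟩ := h
        have h5 := LL_ge j'
        push_cast at hk
        omega
      · obtain ⟨a, h1, h2, h3⟩ := phi_pos j' k' (by omega)
        rw [h1] at h
        simp only [Prod.mk.injEq] at h
        obtain ⟨h7, rfl⟩ := h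
        have h8 : j' = j + 1 := by omega
        subst h8
        rw [add_sub_cancel_right] at h2
        have h4 := mm_nonneg (j + 1)
        rcases lt_trichotomy (k' : ℤ) (LL (j + 1)) with h9 | h9 | h9
        · have := below n u (j + 1) k' hv h9
          omega
        · have : H (mm (j + 1)) (k' - LL (j + 1)) = 0 := by
            rw [h9]; simp [H]
          omega
        · have h10 : H (mm (j + 1)) (k' - LL (j + 1)) = 3 * (k' - LL (j + 1)) := by
            unfold H; rw [if_pos (by omega)]
          have := hN' ((k' : ℤ) - LL (j + 1)).toNat (by omega) (by omega) n u k' hv (by omega)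
          omega

lemma finite_back (v : ℤ × ℕ) (hv : ∀ j, v ≠ ww j) :
    ∃ N : ℕ, ∀ (n : ℕ) (u : ℤ × ℕ), phi^[n] u = v → n ≤ N := by
  obtain ⟨j, k⟩ := v
  have h1 := LL_ge j
  have hne : (k : ℤ) ≠ LL j := by
    intro h
    apply hv j
    unfold ww
    congr 1
    omega
  rcases lt_or_gt_of_ne hne with h | h
  · exact ⟨k, fun n u hu => below n u j k hu h⟩
  · obtain ⟨N, hN⟩ := above ((k : ℤ) - LL j).toNat (by omega) j
    exact ⟨N, fun n u hu => hN n u k hu (by omega)⟩

lemma phi_ww (j : ℤ) : phi (ww (j + 1)) = ww j := by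
  have := iter_pos 1 j 0 le_rfl
  simpa [ww] using this

lemma iter_ww (n : ℕ) (j : ℤ) : phi^[n] (ww (j + n)) = ww j := by
  have := iter_pos n j 0 le_rfl
  simpa [ww] using this

end Pool.Agent.Helper50.Comb
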