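import Mathlib
import Pool.Agent.Helper50.Comb

/-!
The bump functions on the comb which show that the special vertices can be killed.
-/

namespace Pool.Agent.Helper50.Comb

open Filter Topology ParentTree TreeSpace

/-- index of the nearest multiple of `q = 2 h + 1` -/
def tt (h D : ℤ) : ℤ := (D + h) / (2 * h + 1)

/-- signed distance to the nearest multiple of `q = 2 h + 1` -/
def rr (h D : ℤ) : ℤ := D - (2 * h + 1) * tt h D

lemma rr_bounds (h D : ℤ) (hh : 0 ≤ h) : -h ≤ rr h D ∧ rr h D ≤ h := by
  unfold rr tt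
  have h1 := Int.mul_ediv_self_le (x := D + h) (k := 2 * h + 1) (by omega)
  have h2 := Int.lt_mul_ediv_self_add (x := D + h) (k := 2 * h + 1) (by omega)
  constructor <;> linarith

lemma tt_unique (h D t : ℤ) (hh : 0 ≤ h) (h1 : -h ≤ D - (2 * h + 1) * t)
    (h2 : D - (2 * h + 1) * t ≤ h) : tt h D = t := by
  unfold tt
  rw [Int.ediv_eq_iff_of_pos (by omega)]
  constructor <;> nlinarith

lemma tt_mul (h t : ℤ) (hh : 0 ≤ h) : tt h ((2 * h + 1) * t) = t := by
  apply tt_unique h _ t hh <;> linarith

lemma tt_nonpos (h D : ℤ) (hh : 0 ≤ h) (hD : D ≤ h) : tt h D ≤ 0 := by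
  unfold tt
  have : (D + h) / (2 * h + 1) < 1 := by
    rw [Int.ediv_lt_iff_lt_mul (by omega)]
    omega
  omega

/-- the height of the bump around the `t`-th multiple -/
noncomputable def gam (K : ℝ) (t : ℤ) : ℝ :=
  if t ≤ 0 ∨ t % 3 = 1 then 0 else max 0 (1 - (((t + 2) / 3 : ℤ) : ℝ) / K)

lemma gam_nonneg (K : ℝ) (t : ℤ) : 0 ≤ gam K t := by
  unfold gam
  split_ifs
  · exact le_rfl
  · exact le_max_left _ _

lemma gam_le_one (K : ℝ) (hK : 0 < K) (t : ℤ) : gam K t ≤ 1 := by
  unfold gam
  split_ifs with h
  · exact zero_le_one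
  · push Not at h
    apply max_le zero_le_one
    have : (0 : ℝ) ≤ (((t + 2) / 3 : ℤ) : ℝ) := by
      have : (0 : ℤ) ≤ (t + 2) / 3 := by omega
      exact_mod_cast this
    have h2 : 0 ≤ (((t + 2) / 3 : ℤ) : ℝ) / K := by positivity
    linarith

/-- the bump function, in terms of displacements -/
noncomputable def bet (h : ℤ) (R K : ℝ) (D : ℤ) : ℝ :=
  gam K (tt h D) * max 0 (1 - |(rr h D : ℝ)| / R)

lemma bet_of_le (h : ℤ) (R K : ℝ) (D : ℤ) (hh : 0 ≤ h) (hD : D ≤ h) : bet h R K D = 0 := by
  unfold bet gam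
  rw [if_pos (Or.inl (tt_nonpos h D hh hD)), zero_mul]

lemma bet_of_far (h : ℤ) (R K : ℝ) (hR : 0 < R) (D : ℤ) (hD : R ≤ |(rr h D : ℝ)|) :
    bet h R K D = 0 := by
  unfold bet
  have : 1 - |(rr h D : ℝ)| / R ≤ 0 := by
    rw [sub_nonpos, le_div_iff₀ hR]; linarith
  rw [max_eq_left this, mul_zero]

lemma bet_mul (h : ℤ) (R K : ℝ) (hh : 0 ≤ h) (t : ℤ) :
    bet h R K ((2 * h + 1) * t) = gam K t := by
  unfold bet rr
  rw [tt_mul h t hh]
  simp

lemma bet_nonneg (h : ℤ) (R K : ℝ) (D : ℤ) : 0 ≤ bet h R K D :=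
  mul_nonneg (gam_nonneg _ _) (le_max_left _ _)

lemma hat_lip (R : ℝ) (hR : 0 < R) (x y : ℝ) (hxy : |x - y| ≤ 1) :
    |max 0 (1 - |x| / R) - max 0 (1 - |y| / R)| ≤ 1 / R := by
  refine (max_lip _ _).trans ?_
  have : 1 - |x| / R - (1 - |y| / R) = (|y| - |x|) / R := by ring
  rw [this, abs_div, abs_of_pos hR]
  apply div_le_div_of_nonneg_right _ hR.le
  have h1 := abs_abs_sub_abs_le_abs_sub y x
  rw [abs_sub_comm y x] at h1
  linarith

lemma bet_lip (h : ℤ) (R K : ℝ) (hK : 0 < K) (hR : 0 < R) (hh : 0 ≤ h) (hRh : R ≤ h) (D : ℤ) :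
    |bet h R K (D + 1) - bet h R K D| ≤ 1 / R := by
  have h1 := rr_bounds h D hh
  by_cases hc : rr h D + 1 ≤ h
  · -- same cell
    have h2 : tt h (D + 1) = tt h D := by
      apply tt_unique h _ _ hh
      · have : D + 1 - (2 * h + 1) * tt h D = rr h D + 1 := by unfold rr; ring
        rw [this]; omega
      · have : D + 1 - (2 * h + 1) * tt h D = rr h D + 1 := by unfold rr; ring
        rw [this]; omega
    have h3 : rr h (D + 1) = rr h D + 1 := by unfold rr; rw [h2]; ring
    unfold bet
    rw [h2, h3, ← mul_sub, abs_mul, abs_of_nonneg (gam_nonneg _ _)]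
    have h4 := hat_lip R hR ((rr h D + 1 : ℤ) : ℝ) (rr h D : ℝ) (by push_cast; simp)
    calc gam K (tt h D) * _ ≤ 1 * (1 / R) :=
          mul_le_mul (gam_le_one K hK _) h4 (abs_nonneg _) zero_le_one
      _ = 1 / R := one_mul _
  · have h5 : rr h D = h := by omega
    have h2 : tt h (D + 1) = tt h D + 1 := by
      apply tt_unique h _ _ hh
      · have : D + 1 - (2 * h + 1) * (tt h D + 1) = rr h D + 1 - (2 * h + 1) := by unfold rr; ring
        rw [this]; omega
      · have : D + 1 - (2 * h + 1) * (tt h D + 1) = rr h D + 1 - (2 * h + 1) := by unfold rr; ring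
        rw [this]; omega
    have h3 : rr h (D + 1) = -h := by
      have : rr h (D + 1) = rr h D + 1 - (2 * h + 1) := by unfold rr; rw [h2]; ring
      rw [this]; omega
    have hhR : (0 : ℝ) ≤ h := by exact_mod_cast hh
    rw [bet_of_far h R K hR D, bet_of_far h R K hR (D + 1)]
    · simp; positivity
    · rw [h3]; push_cast; rw [abs_neg, abs_of_nonneg hhR]; exact hRh
    · rw [h5, abs_of_nonneg hhR]; exact hRh

/-- the perturbation, as a function on the comb -/
noncomputable def bF (j h : ℤ) (R K : ℝ) (v : ℤ × ℕ) : ℝ :=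
  if v.1 = j then bet h R K (v.2 - LL j) else 0

/-- the pulled back function -/
noncomputable def cF (i : ℤ) (K : ℝ) (u : ℤ × ℕ) : ℝ :=
  if u.1 = i then max 0 (1 - |((u.2 : ℝ) - LL i)| / K) else 0

lemma bF_zero (j h : ℤ) (R K : ℝ) (hh : 0 ≤ h) (i : ℤ) : bF j h R K (i, 0) = 0 := by
  unfold bF
  split_ifs
  · apply bet_of_le _ _ _ _ hh
    have := LL_ge j
    push_cast
    omega
  · rfl

lemma D_bF (j h : ℤ) (R K : ℝ) (hK : 0 < K) (hR : 0 < R) (hh : 0 ≤ h) (hRh : R ≤ h)
    (u : ℤ × ℕ) : ‖D rt par (fun v => (bF j h R K v : ℂ)) u‖ ≤ 1 / R := by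
  by_cases hu : u = rt
  · rw [hu, D_root]
    have : bF j h R K rt = 0 := bF_zero j h R K hh 0
    rw [this]
    simp
    positivity
  · rw [D_ne hu, ← Complex.ofReal_sub, Complex.norm_real, Real.norm_eq_abs]
    obtain ⟨i, k⟩ := u
    cases k with
    | zero =>
      have h1 : ∃ i', par (i, 0) = (i', 0) := by
        simp only [par]
        split_ifs
        · exact ⟨_, rfl⟩
        · exact ⟨_, rfl⟩
        · exact ⟨_, rfl⟩
      obtain ⟨i', hi'⟩ := h1
      rw [hi', bF_zero j h R K hh i, bF_zero j h R K hh i']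
      simp
      positivity
    | succ k =>
      change |bF j h R K (i, k + 1) - bF j h R K (i, k)| ≤ _
      unfold bF
      simp only
      split_ifs
      · have := bet_lip h R K hK hR hh hRh (k - LL j)
        have h2 : (k : ℤ) - LL j + 1 = ((k + 1 : ℕ) : ℤ) - LL j := by push_cast; ring
        rw [h2] at this
        exact this
      · simp
        positivity

lemma bF_supp (j h : ℤ) (R K : ℝ) (hh : 0 ≤ h) (hK : 0 < K) :
    (Function.support (fun v => (bF j h R K v : ℂ))).Finite := by
  obtain ⟨M, hM⟩ := exists_nat_gt K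
  have h1 : (({j} : Set ℤ) ×ˢ (Set.Iic ((LL j + h + (2 * h + 1) * (3 * M)).toNat)) :
      Set (ℤ × ℕ)).Finite := (Set.finite_singleton _).prod (Set.finite_Iic _)
  refine h1.subset ?_
  rintro ⟨i, k⟩ hv
  rw [Function.mem_support] at hv
  have hv' : bF j h R K (i, k) ≠ 0 := by
    intro hh0
    apply hv
    rw [hh0]; simp
  unfold bF at hv'
  simp only at hv'
  split_ifs at hv' with hi
  · simp only [Set.mem_prod, Set.mem_singleton_iff, Set.mem_Iic]
    refine ⟨hi, ?_⟩
    by_contra hcon
    push Not at hcon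
    apply hv'
    have h2 : 3 * (M : ℤ) < tt h (k - LL j) + 1 := by
      have h3 := (rr_bounds h (k - LL j) hh).2
      unfold rr at h3
      have h4 : LL j + h + (2 * h + 1) * (3 * M) < k := by omega
      by_contra hcon2
      push Not at hcon2
      have h5 : (2 * h + 1) * (tt h (k - LL j)) ≤ (2 * h + 1) * (3 * M) :=
        mul_le_mul_of_nonneg_left (by omega) (by omega)
      omega
    unfold bet gam
    split_ifs with h5
    · ring
    · have h6 : (M : ℤ) ≤ (tt h (k - LL j) + 2) / 3 := by omega
      have h7 : (M : ℝ) ≤ (((tt h (k - LL j) + 2) / 3 : ℤ) : ℝ) := by exact_mod_cast h6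
      have h8 : 1 - (((tt h (k - LL j) + 2) / 3 : ℤ) : ℝ) / K ≤ 0 := by
        rw [sub_nonpos, le_div_iff₀ hK]
        linarith
      rw [max_eq_left h8]
      ring
  · exact absurd rfl hv'

lemma D_cF (i : ℤ) (K : ℝ) (hK : 0 < K) (hKL : K ≤ LL i) (u : ℤ × ℕ) :
    ‖D rt par (fun v => (cF i K v : ℂ)) u‖ ≤ 1 / K := by
  have hz : ∀ i', cF i K (i', 0) = 0 := by
    intro i'
    unfold cF
    split_ifs
    · apply max_eq_left
      have h1 : (0 : ℝ) < LL i := by
        have := LL_ge i
        exact_mod_cast (by omega : (0 : ℤ) < LL i)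
      push_cast
      rw [zero_sub, abs_neg, abs_of_pos h1, sub_nonpos, le_div_iff₀ hK]
      linarith
    · rfl
  by_cases hu : u = rt
  · rw [hu, D_root]
    have : cF i K rt = 0 := hz 0
    rw [this]
    simp
    positivity
  · rw [D_ne hu, ← Complex.ofReal_sub, Complex.norm_real, Real.norm_eq_abs]
    obtain ⟨a, k⟩ := u
    cases k with
    | zero =>
      have h1 : ∃ i', par (a, 0) = (i', 0) := by
        simp only [par]
        split_ifs
        · exact ⟨_, rfl⟩
        · exact ⟨_, rfl⟩
        · exact ⟨_, rfl⟩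
      obtain ⟨i', hi'⟩ := h1
      rw [hi', hz a, hz i']
      simp
      positivity
    | succ k =>
      change |cF i K (a, k + 1) - cF i K (a, k)| ≤ _
      unfold cF
      simp only
      split_ifs
      · apply hat_lip K hK
        push_cast
        have : (k : ℝ) + 1 - LL i - (k - LL i) = 1 := by ring
        rw [this]; simp
      · simp
        positivity

/-- the key identity -/
lemma key_identity (n : ℕ) (j h : ℤ) (R : ℕ) (hR : 0 < R) (hq : (3 ^ n : ℤ) = 2 * h + 1)
    (hK : 0 < mm (j + (n + 1 : ℕ)))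
    (hB : ∀ i : ℕ, i < n → 3 ^ i < R → 3 ^ i * (3 * mm (j + i + 1)) ≤ h) (u : ℤ × ℕ) :
    bF j h R (mm (j + (n + 1 : ℕ))) (phi^[n + 1] u) +
      (if phi^[n + 1] u = ww j then 1 else 0) =
      cF (j + (n + 1 : ℕ)) (mm (j + (n + 1 : ℕ))) u := by
  have hh : 0 ≤ h := by
    have : (0 : ℤ) < 3 ^ n := by positivity
    omega
  set K : ℝ := ((mm (j + (n + 1 : ℕ)) : ℤ) : ℝ) with hKdef
  have hKpos : 0 < K := by rw [hKdef]; exact_mod_cast hK
  have hmm := mm_lt (j + (n + 1 : ℕ))
  have hLj := LL_ge j
  have hinj : Function.Injective phi^[n + 1] := phi_inj.iterate (n + 1)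
  -- the three types of nice points
  have A0 : ∀ u, phi^[n + 1] u = ww j → bF j h R K (phi^[n + 1] u) +
      (if phi^[n + 1] u = ww j then 1 else 0) = cF (j + (n + 1 : ℕ)) K u := by
    intro u hu
    have h1 : u = ww (j + (n + 1 : ℕ)) := hinj (by rw [hu, iter_ww])
    rw [hu, if_pos rfl]
    have h2 : bF j h R K (ww j) = 0 := by
      unfold bF ww
      rw [if_pos rfl]
      apply bet_of_le _ _ _ _ hh
      omega
    have h3 : cF (j + (n + 1 : ℕ)) K u = 1 := by
      rw [h1]
      unfold cF ww
      rw [if_pos rfl]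
      have : (((LL (j + (n + 1 : ℕ))).toNat : ℕ) : ℝ) = ((LL (j + (n + 1 : ℕ)) : ℤ) : ℝ) := by
        have h4 : (((LL (j + (n + 1 : ℕ))).toNat : ℕ) : ℤ) = LL (j + (n + 1 : ℕ)) := by omega
        exact_mod_cast h4
      rw [this]
      simp
    rw [h2, h3, zero_add]
  have A1 : ∀ s : ℤ, 0 < s → ∀ u, phi^[n + 1] u = (j, (LL j + 3 ^ (n + 1) * s).toNat) →
      bF j h R K (phi^[n + 1] u) +
      (if phi^[n + 1] u = ww j then 1 else 0) = cF (j + (n + 1 : ℕ)) K u := by
    intro s hs u hu
    have h1 : u = (j + (n + 1 : ℕ), (LL (j + (n + 1 : ℕ)) + s).toNat) :=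
      hinj (by rw [hu, iter_pos (n + 1) j s hs.le])
    have hps : (0 : ℤ) < 3 ^ (n + 1) * s := by positivity
    have h0 : (((LL j + 3 ^ (n + 1) * s).toNat : ℕ) : ℤ) = LL j + 3 ^ (n + 1) * s := by omega
    have hne : ¬ (phi^[n + 1] u = ww j) := by
      rw [hu]
      unfold ww
      intro hh1
      simp only [Prod.mk.injEq, true_and] at hh1
      omega
    rw [if_neg hne, add_zero, hu]
    unfold bF
    rw [if_pos rfl]
    simp only
    rw [h0]
    have h2 : LL j + 3 ^ (n + 1) * s - LL j = (2 * h + 1) * (3 * s) := by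
      rw [← hq]; ring
    rw [h2, bet_mul h R K hh]
    rw [h1]
    unfold cF gam
    rw [if_pos rfl, if_neg (by omega)]
    simp only
    have h3 : (3 * s + 2) / 3 = s := by omega
    rw [h3]
    have h5 := LL_ge (j + (n + 1 : ℕ))
    have h4 : (((LL (j + (n + 1 : ℕ)) + s).toNat : ℕ) : ℝ) = ((LL (j + (n + 1 : ℕ)) : ℤ) : ℝ) + s := by
      have h6 : (((LL (j + (n + 1 : ℕ)) + s).toNat : ℕ) : ℤ) = LL (j + (n + 1 : ℕ)) + s := by omega
      exact_mod_cast h6
    rw [h4, add_sub_cancel_left, abs_of_pos (by exact_mod_cast hs)]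
  have A2 : ∀ s : ℤ, 0 < s → s ≤ mm (j + (n + 1 : ℕ)) → ∀ u,
      phi^[n + 1] u = (j, (LL j + 3 ^ n * (3 * s - 1)).toNat) →
      bF j h R K (phi^[n + 1] u) +
      (if phi^[n + 1] u = ww j then 1 else 0) = cF (j + (n + 1 : ℕ)) K u := by
    intro s hs hs2 u hu
    have h1 : u = (j + (n + 1 : ℕ), (LL (j + (n + 1 : ℕ)) - s).toNat) :=
      hinj (by rw [hu, iter_neg n j s hs hs2])
    have hps : (0 : ℤ) < 3 ^ n * (3 * s - 1) := by
      have : 0 < 3 * s - 1 := by omega
      positivity
    have h0 : (((LL j + 3 ^ n * (3 * s - 1)).toNat : ℕ) : ℤ) = LL j + 3 ^ n * (3 * s - 1) := by omega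
    have hne : ¬ (phi^[n + 1] u = ww j) := by
      rw [hu]
      unfold ww
      intro hh1
      simp only [Prod.mk.injEq, true_and] at hh1
      omega
    rw [if_neg hne, add_zero, hu]
    unfold bF
    rw [if_pos rfl]
    simp only
    rw [h0]
    have h2 : LL j + 3 ^ n * (3 * s - 1) - LL j = (2 * h + 1) * (3 * s - 1) := by
      rw [← hq]; ring
    rw [h2, bet_mul h R K hh]
    rw [h1]
    unfold cF gam
    rw [if_pos rfl, if_neg (by omega)]
    simp only
    have h3 : (3 * s - 1 + 2) / 3 = s := by omega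
    rw [h3]
    have h4 : (((LL (j + (n + 1 : ℕ)) - s).toNat : ℕ) : ℝ) = ((LL (j + (n + 1 : ℕ)) : ℤ) : ℝ) - s := by
      have h6 : (((LL (j + (n + 1 : ℕ)) - s).toNat : ℕ) : ℤ) = LL (j + (n + 1 : ℕ)) - s := by omega
      exact_mod_cast h6
    rw [h4, sub_sub_cancel_left, abs_neg, abs_of_pos (by exact_mod_cast hs)]
  by_cases hc : cF (j + (n + 1 : ℕ)) K u = 0
  · -- the image must be harmless
    by_cases hw : phi^[n + 1] u = ww j
    · exact A0 u hw
    · rcases hv : phi^[n + 1] u with ⟨j', k'⟩
      by_cases hj : j' = j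
      · subst hj
        have hk0 : (k' : ℤ) - LL j' ≠ 0 := by
          intro hk0
          apply hw
          rw [hv]
          unfold ww
          congr 1
          omega
        rcases good (n + 1) u j' k' hv with h1 | h1 | ⟨i, hi, S, hS1, hS2, hS3⟩
        · rw [← hv, if_neg hw, add_zero, hc, hv]
          unfold bF
          rw [if_pos rfl]
          exact bet_of_le _ _ _ _ hh (by simp only; omega)
        · by_cases hneg : (k' : ℤ) - LL j' ≤ 0
          · rw [← hv, if_neg hw, add_zero, hc, hv]
            unfold bF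
            rw [if_pos rfl]
            exact bet_of_le _ _ _ _ hh (by simp only; omega)
          · obtain ⟨s, hs⟩ := h1
            have hs0 : 0 < s := by
              by_contra hcon
              push Not at hcon
              have : (3 : ℤ) ^ (n + 1) * s ≤ 0 :=
                mul_nonpos_of_nonneg_of_nonpos (by positivity) hcon
              omega
            have := A1 s hs0 u (by rw [hv]; congr 1; omega)
            rw [hv] at this
            exact this
        · by_cases hneg : (k' : ℤ) - LL j' ≤ 0
          · rw [← hv, if_neg hw, add_zero, hc, hv]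
            unfold bF
            rw [if_pos rfl]
            exact bet_of_le _ _ _ _ hh (by simp only; omega)
          · have hSpos : 0 < S := by
              by_contra hcon
              push Not at hcon
              have : (3 : ℤ) ^ i * S ≤ 0 :=
                mul_nonpos_of_nonneg_of_nonpos (by positivity) hcon
              omega
            by_cases hin : i = n
            · subst hin
              by_cases hS4 : S % 3 = 1
              · rw [← hv, if_neg hw, add_zero, hc, hv]
                unfold bF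
                rw [if_pos rfl]
                simp only
                rw [hS1, hq, bet_mul h R K hh]
                unfold gam
                rw [if_pos (Or.inr hS4)]
              · obtain ⟨s, hs⟩ : ∃ s : ℤ, S = 3 * s - 1 := ⟨(S + 1) / 3, by omega⟩
                subst hs
                have h5 : j' + ((i + 1 : ℕ) : ℤ) = j' + i + 1 := by push_cast; ring
                have := A2 s (by omega) (by rw [h5]; omega) u (by
                  rw [hv]; congr 1
                  rw [← hS1]; omega)
                rw [hv] at this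
                exact this
            · rw [← hv, if_neg hw, add_zero, hc, hv]
              unfold bF
              rw [if_pos rfl]
              simp only
              by_cases hiR : 3 ^ i < R
              · have h6 := hB i (by omega) hiR
                apply bet_of_le _ _ _ _ hh
                rw [hS1]
                refine le_trans ?_ h6
                exact mul_le_mul_of_nonneg_left hS3.le (by positivity)
              · apply bet_of_far
                · exact_mod_cast hR
                · push Not at hiR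
                  have h7 : rr h ((k' : ℤ) - LL j') = 3 ^ i *
                      (S - 3 ^ (n - i) * tt h ((k' : ℤ) - LL j')) := by
                    unfold rr
                    rw [← hq, mul_sub, ← hS1, ← mul_assoc, ← pow_add]
                    congr 3
                    omega
                  have h8 : S - 3 ^ (n - i) * tt h ((k' : ℤ) - LL j') ≠ 0 := by
                    intro h9
                    apply hS2
                    have h10 : S = 3 ^ (n - i) * tt h ((k' : ℤ) - LL j') := by omega
                    rw [h10]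
                    obtain ⟨m, hm⟩ : ∃ m, n - i = m + 1 := ⟨n - i - 1, by omega⟩
                    rw [hm, pow_succ', mul_assoc]
                    exact dvd_mul_right _ _
                  have h11 : (1 : ℤ) ≤ |S - 3 ^ (n - i) * tt h ((k' : ℤ) - LL j')| :=
                    Int.one_le_abs h8
                  have h12 : ((R : ℕ) : ℤ) ≤ |rr h ((k' : ℤ) - LL j')| := by
                    rw [h7, abs_mul, abs_of_pos (by positivity : (0 : ℤ) < 3 ^ i)]
                    have h13 : ((R : ℕ) : ℤ) ≤ 3 ^ i := by exact_mod_cast hiR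
                    nlinarith
                  exact_mod_cast h12
      · have hne : ¬ (((j', k') : ℤ × ℕ) = ww j) := by
          unfold ww
          intro hh1
          simp only [Prod.mk.injEq] at hh1
          exact hj hh1.1
        rw [if_neg hne, hc]
        unfold bF
        rw [if_neg hj, add_zero]
  · -- a point of the ball around the special vertex
    have h1 : u.1 = j + (n + 1 : ℕ) := by
      by_contra hcon
      apply hc
      unfold cF
      rw [if_neg hcon]
    obtain ⟨i, k⟩ := u
    simp only at h1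
    subst h1
    rcases lt_trichotomy (k : ℤ) (LL (j + (n + 1 : ℕ))) with hk | hk | hk
    · -- below
      have h2 : LL (j + (n + 1 : ℕ)) - k ≤ mm (j + (n + 1 : ℕ)) := by
        by_contra hcon
        push Not at hcon
        apply hc
        unfold cF
        rw [if_pos rfl]
        apply max_eq_left
        have h3 : K < ((LL (j + (n + 1 : ℕ)) : ℤ) : ℝ) - k := by
          rw [hKdef]; exact_mod_cast hcon
        have h4 : |(k : ℝ) - ((LL (j + (n + 1 : ℕ)) : ℤ) : ℝ)| =
            ((LL (j + (n + 1 : ℕ)) : ℤ) : ℝ) - k := by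
          rw [abs_sub_comm, abs_of_pos (by linarith)]
        rw [h4, sub_nonpos, le_div_iff₀ hKpos]
        linarith
      have h5 : (k : ℕ) = (LL (j + (n + 1 : ℕ)) - (LL (j + (n + 1 : ℕ)) - k)).toNat := by omega
      apply A2 (LL (j + (n + 1 : ℕ)) - k) (by omega) h2
      rw [← iter_neg n j (LL (j + (n + 1 : ℕ)) - k) (by omega) h2, ← h5]
    · apply A0
      rw [← iter_ww (n + 1) j]
      congr 1
      unfold ww
      congr 1
      omega
    · have h5 : (k : ℕ) = (LL (j + (n + 1 : ℕ)) + (k - LL (j + (n + 1 : ℕ)))).toNat := by omega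
      apply A1 (k - LL (j + (n + 1 : ℕ))) (by omega)
      rw [← iter_pos (n + 1) j (k - LL (j + (n + 1 : ℕ))) (by omega), ← h5]

end Pool.Agent.Helper50.Comb
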