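import Mathlib
import Pool.Agent.Helper50.CombBump

/-!
The zigzag symbol on the comb satisfies the hypotheses of the hypercyclicity criterion.
-/

namespace Pool.Agent.Helper50.Comb

open Filter Topology ParentTree TreeSpace

lemma kill_special (lam : ℂ) (hlam : 1 < ‖lam‖) (j : ℤ) (ε : ℝ) (hε : 0 < ε) :
    ∀ᶠ n : ℕ in atTop, ∃ f : ℤ × ℕ → ℂ,
      Tendsto (D rt par f) cofinite (𝓝 0) ∧ (∀ u, ‖D rt par (f - ind (ww j)) u‖ ≤ ε) ∧
      (∀ u, ‖D rt par (fun w => lam ^ n * f (phi^[n] w)) u‖ ≤ ε) := by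
  obtain ⟨R, hR⟩ := exists_nat_gt (1 / ε)
  have hRpos : 0 < R := by
    have : (0 : ℝ) < R := lt_trans (by positivity) hR
    exact_mod_cast this
  have hgrow := mm_growth ‖lam‖ hlam j ε hε
  rw [eventually_atTop] at hgrow
  obtain ⟨N₁, hN₁⟩ := hgrow
  -- a bound for the finitely many bad scales
  let B : ℤ := R + ∑ i ∈ Finset.range R, 3 ^ i * (3 * mm (j + i + 1))
  have hBi : ∀ i : ℕ, 3 ^ i < R → 3 ^ i * (3 * mm (j + i + 1)) ≤ B := by
    intro i hi
    have h1 : i ∈ Finset.range R := by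
      rw [Finset.mem_range]
      exact lt_of_le_of_lt (Nat.lt_pow_self (by norm_num)).le hi
    have h2 : (3 : ℤ) ^ i * (3 * mm (j + i + 1)) ≤
        ∑ i ∈ Finset.range R, (3 : ℤ) ^ i * (3 * mm (j + i + 1)) :=
      Finset.single_le_sum (f := fun i : ℕ => (3 : ℤ) ^ i * (3 * mm (j + i + 1)))
        (fun i _ => by have := mm_nonneg (j + i + 1); positivity) h1
    simp only [B]
    omega
  have hRB : (R : ℤ) ≤ B := by
    have : (0 : ℤ) ≤ ∑ i ∈ Finset.range R, (3 : ℤ) ^ i * (3 * mm (j + i + 1)) :=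
      Finset.sum_nonneg fun i _ => by have := mm_nonneg (j + i + 1); positivity
    simp only [B]
    omega
  rw [eventually_atTop]
  refine ⟨N₁ + (2 * B + 2).toNat + 1, ?_⟩
  intro n' hn'
  obtain ⟨n, rfl⟩ : ∃ n, n' = n + 1 := ⟨n' - 1, by omega⟩
  obtain ⟨hK, hgr⟩ := hN₁ (n + 1) (by omega)
  obtain ⟨h, hh⟩ : ∃ h : ℤ, (3 ^ n : ℤ) = 2 * h + 1 := by
    have h1 : Odd ((3 : ℤ) ^ n) := Odd.pow (by decide)
    exact h1
  have hBh : B ≤ h := by
    have h1 : n < 3 ^ n := Nat.lt_pow_self (by norm_num)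
    have h2 : (n : ℤ) < 3 ^ n := by exact_mod_cast h1
    omega
  have hh0 : 0 ≤ h := by omega
  have hRh : (R : ℝ) ≤ h := by exact_mod_cast hRB.trans hBh
  set K : ℝ := ((mm (j + (n + 1 : ℕ)) : ℤ) : ℝ) with hKdef
  have hKpos : 0 < K := by rw [hKdef]; exact_mod_cast hK
  have hRpos' : (0 : ℝ) < R := by exact_mod_cast hRpos
  have hid := key_identity n j h R hRpos hh hK
    (fun i _ hi => (hBi i hi).trans hBh)
  have hε' : 1 / (R : ℝ) ≤ ε := by
    rw [div_le_iff₀ hRpos']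
    rw [div_lt_iff₀ hε] at hR
    linarith
  refine ⟨ind (ww j) + fun v => (bF j h R K v : ℂ), ?_, ?_, ?_⟩
  · apply tendsto_of_finite_supp
    apply finite_supp_D isPar fin_children
    refine ((ind_supp (ww j)).union (bF_supp j h R K hh0 hKpos)).subset ?_
    exact Function.support_add _ _
  · intro u
    rw [add_sub_cancel_left]
    exact (D_bF j h R K hKpos hRpos' hh0 hRh u).trans hε'
  · intro u
    have h1 : (fun w => lam ^ (n + 1) *
        (ind (ww j) + fun v => (bF j h R K v : ℂ)) (phi^[n + 1] w)) =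
        lam ^ (n + 1) • fun w => (cF (j + (n + 1 : ℕ)) K w : ℂ) := by
      funext w
      simp only [Pi.add_apply, Pi.smul_apply, smul_eq_mul]
      congr 1
      rw [← hid w]
      unfold ind
      push_cast
      rw [add_comm]
      congr 1
      split_ifs <;> simp
    rw [h1, D_smul, Pi.smul_apply, smul_eq_mul, norm_mul, norm_pow]
    have h2 := D_cF (j + (n + 1 : ℕ)) K hKpos (by
      rw [hKdef]; exact_mod_cast (mm_lt (j + (n + 1 : ℕ))).le) u
    calc ‖lam‖ ^ (n + 1) * _ ≤ ‖lam‖ ^ (n + 1) * (1 / K) :=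
          mul_le_mul_of_nonneg_left h2 (by positivity)
      _ = ‖lam‖ ^ (n + 1) / K := by ring
      _ ≤ ε := hgr

lemma kill_all (lam : ℂ) (hlam : 1 < ‖lam‖) (v : ℤ × ℕ) (ε : ℝ) (hε : 0 < ε) :
    ∀ᶠ n : ℕ in atTop, ∃ f : ℤ × ℕ → ℂ,
      Tendsto (D rt par f) cofinite (𝓝 0) ∧ (∀ u, ‖D rt par (f - ind v) u‖ ≤ ε) ∧
      (∀ u, ‖D rt par (fun w => lam ^ n * f (phi^[n] w)) u‖ ≤ ε) := by
  by_cases hv : ∃ j, v = ww j
  · obtain ⟨j, rfl⟩ := hv
    exact kill_special lam hlam j ε hε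
  · push Not at hv
    obtain ⟨N, hN⟩ := finite_back v hv
    rw [eventually_atTop]
    refine ⟨N + 1, ?_⟩
    intro n hn
    refine ⟨ind v, tendsto_of_finite_supp (finite_supp_D isPar fin_children (ind_supp v)), ?_, ?_⟩
    · intro u
      rw [sub_self]
      have : D rt par (0 : ℤ × ℕ → ℂ) u = 0 := by
        by_cases hu : u = rt
        · rw [hu, D_root]; rfl
        · rw [D_ne hu]; simp
      rw [this, norm_zero]
      exact hε.le
    · intro u
      have h1 : (fun w => lam ^ n * ind v (phi^[n] w)) = (0 : ℤ × ℕ → ℂ) := by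
        funext w
        have : ¬ (phi^[n] w = v) := by
          intro h2
          have := hN n w h2
          omega
        unfold ind
        rw [if_neg this]
        simp
      rw [h1]
      have : D rt par (0 : ℤ × ℕ → ℂ) u = 0 := by
        by_cases hu : u = rt
        · rw [hu, D_root]; rfl
        · rw [D_ne hu]; simp
      rw [this, norm_zero]
      exact hε.le

/-- there is a vector with dense orbit -/
theorem comb_hyper (lam : ℂ) (hlam : 1 < ‖lam‖) :
    ∃ f : ℤ × ℕ → ℂ, Tendsto (D rt par f) cofinite (𝓝 0) ∧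
      ∀ g : ℤ × ℕ → ℂ, Tendsto (D rt par g) cofinite (𝓝 0) → ∀ ε : ℝ, 0 < ε → ∃ n : ℕ,
        ∀ u, ‖D rt par (fun w => lam ^ n * f (phi^[n] w) - g w) u‖ ≤ ε :=
  hyper isPar fin_levels fin_children isSymbol lam hlam (kill_all lam hlam)

end Pool.Agent.Helper50.Comb
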