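import Mathlib

/-!
Hausdorff dimension of limit sets of (possibly infinite) affine systems on the unit interval.
-/

namespace Pool.Agent.Helper50.SelfSim

open MeasureTheory Filter Topology Set
open scoped ENNReal NNReal

/-- an affine system on `[0,1]`, with ratios `r` and translations `b` -/
structure Sys (ι : Type) where
  r : ι → ℝ
  b : ι → ℝ
  rho : ℝ
  rho_pos : 0 < rho
  rho_lt : rho < 1
  r_pos : ∀ e, 0 < r e
  r_le : ∀ e, r e ≤ rho
  b_nonneg : ∀ e, 0 ≤ b e
  le_one : ∀ e, b e + r e ≤ 1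

variable {ι : Type}

/-- the maps of the system -/
def Sys.f (S : Sys ι) (e : ι) (x : ℝ) : ℝ := S.r e * x + S.b e

/-- composition along the first `n` letters -/
def comp {E : Type} (φ : ι → E → E) (w : ℕ → ι) : ℕ → E → E
  | 0 => id
  | n + 1 => comp φ w n ∘ φ (w n)

/-- the limit set of the subsystem `A` -/
def Sys.J (S : Sys ι) (A : Set ι) : Set ℝ :=
  {x | ∃ w : ℕ → ι, (∀ n, w n ∈ A) ∧ ∀ n, x ∈ comp S.f w n '' Icc 0 1}

lemma comp_succ' {E : Type} (φ : ι → E → E) (w : ℕ → ι) (n : ℕ) :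
    comp φ w (n + 1) = φ (w 0) ∘ comp φ (fun k => w (k + 1)) n := by
  induction n with
  | zero => rfl
  | succ n ih =>
    change comp φ w (n + 1) ∘ φ (w (n + 1)) = _
    rw [ih]
    rfl

lemma Sys.f_mem (S : Sys ι) (e : ι) {x : ℝ} (hx : x ∈ Icc (0 : ℝ) 1) : S.f e x ∈ Icc (0 : ℝ) 1 := by
  unfold Sys.f
  have h1 := S.r_pos e
  have h2 := S.b_nonneg e
  have h3 := S.le_one e
  constructor
  · nlinarith [hx.1]
  · nlinarith [hx.2, hx.1]

/-! ### Upper bound -/

/-- words of length `n` over `A` -/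
def Word (A : Type) : ℕ → Type
  | 0 => PUnit
  | n + 1 => A × Word A n

instance instCountableWord (A : Type) [Countable A] : ∀ n, Countable (Word A n)
  | 0 => inferInstanceAs (Countable PUnit)
  | n + 1 => by
    haveI := instCountableWord A n
    exact inferInstanceAs (Countable (A × Word A n))

/-- the map of a word -/
def Sys.wmap (S : Sys ι) (A : Set ι) : (n : ℕ) → Word A n → ℝ → ℝ
  | 0, _ => id
  | n + 1, w => S.f w.1 ∘ S.wmap A n w.2

/-- the ratio of a word -/
def Sys.wr (S : Sys ι) (A : Set ι) : (n : ℕ) → Word A n → ℝ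
  | 0, _ => 1
  | n + 1, w => S.r w.1 * S.wr A n w.2

lemma Sys.wr_pos (S : Sys ι) (A : Set ι) : ∀ (n : ℕ) (w : Word A n), 0 < S.wr A n w
  | 0, _ => one_pos
  | n + 1, w => mul_pos (S.r_pos _) (S.wr_pos A n w.2)

lemma Sys.wr_le (S : Sys ι) (A : Set ι) : ∀ (n : ℕ) (w : Word A n), S.wr A n w ≤ S.rho ^ n
  | 0, _ => by simp [Sys.wr]
  | n + 1, w => by
    rw [pow_succ']
    exact mul_le_mul (S.r_le _) (S.wr_le A n w.2) (S.wr_pos A n w.2).le S.rho_pos.le

lemma Sys.wmap_sub (S : Sys ι) (A : Set ι) : ∀ (n : ℕ) (w : Word A n) (x y : ℝ),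
    S.wmap A n w x - S.wmap A n w y = S.wr A n w * (x - y)
  | 0, _, x, y => by simp [Sys.wmap, Sys.wr]
  | n + 1, w, x, y => by
    have := S.wmap_sub A n w.2 x y
    change S.r w.1 * S.wmap A n w.2 x + S.b w.1 - (S.r w.1 * S.wmap A n w.2 y + S.b w.1) =
      S.r w.1 * S.wr A n w.2 * (x - y)
    linear_combination S.r w.1 * this

lemma Sys.ediam_wmap (S : Sys ι) (A : Set ι) (n : ℕ) (w : Word A n) :
    Metric.ediam (S.wmap A n w '' Icc 0 1) ≤ ENNReal.ofReal (S.wr A n w) := by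
  apply Metric.ediam_le
  rintro _ ⟨x, hx, rfl⟩ _ ⟨y, hy, rfl⟩
  rw [edist_dist, Real.dist_eq, S.wmap_sub, abs_mul, abs_of_pos (S.wr_pos A n w)]
  apply ENNReal.ofReal_le_ofReal
  have : |x - y| ≤ 1 := by
    rw [abs_le]
    constructor <;> linarith [hx.1, hx.2, hy.1, hy.2]
  nlinarith [S.wr_pos A n w]

lemma Sys.exists_word (S : Sys ι) (A : Set ι) : ∀ (n : ℕ) (w : ℕ → ι) (_ : ∀ n, w n ∈ A),
    ∃ v : Word A n, comp S.f w n = S.wmap A n v
  | 0, _, _ => ⟨PUnit.unit, rfl⟩
  | n + 1, w, hw => by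
    obtain ⟨v, hv⟩ := S.exists_word A n (fun k => w (k + 1)) (fun k => hw (k + 1))
    refine ⟨(⟨w 0, hw 0⟩, v), ?_⟩
    rw [comp_succ', hv]
    rfl

lemma Sys.tsum_words (S : Sys ι) (A : Set ι) (t : ℝ) (hsum : ∑' e : A, ENNReal.ofReal (S.r e ^ t) ≤ 1) :
    ∀ n : ℕ, ∑' w : Word A n, ENNReal.ofReal (S.wr A n w ^ t) ≤ 1
  | 0 => by
    change ∑' w : PUnit, ENNReal.ofReal ((1 : ℝ) ^ t) ≤ 1
    rw [tsum_fintype]
    simp
  | n + 1 => by
    have ih := S.tsum_words A t hsum n
    change ∑' w : A × Word A n, ENNReal.ofReal ((S.r w.1 * S.wr A n w.2) ^ t) ≤ 1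
    have h1 : ∀ w : A × Word A n, ENNReal.ofReal ((S.r w.1 * S.wr A n w.2) ^ t) =
        ENNReal.ofReal (S.r w.1 ^ t) * ENNReal.ofReal (S.wr A n w.2 ^ t) := by
      intro w
      rw [← ENNReal.ofReal_mul (Real.rpow_nonneg (S.r_pos _).le _),
        Real.mul_rpow (S.r_pos _).le (S.wr_pos A n w.2).le]
    simp_rw [h1]
    have h2 := ENNReal.tsum_prod (f := fun (a : A) (w : Word A n) =>
      ENNReal.ofReal (S.r a ^ t) * ENNReal.ofReal (S.wr A n w ^ t))
    rw [h2]
    simp_rw [ENNReal.tsum_mul_left]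
    calc ∑' a : A, ENNReal.ofReal (S.r a ^ t) * ∑' w : Word A n, ENNReal.ofReal (S.wr A n w ^ t)
        ≤ ∑' a : A, ENNReal.ofReal (S.r a ^ t) * 1 :=
          ENNReal.tsum_le_tsum fun a => mul_le_mul_right ih _
      _ ≤ 1 := by simpa using hsum

/-- If `∑_{e ∈ A} r_e^t ≤ 1` then the dimension is at most `t`. -/
theorem Sys.dimH_le (S : Sys ι) [Countable ι] (A : Set ι) (t : ℝ≥0)
    (hsum : ∑' e : A, ENNReal.ofReal (S.r e ^ (t : ℝ)) ≤ 1) : dimH (S.J A) ≤ t := by
  apply dimH_le_of_hausdorffMeasure_ne_top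
  have h1 : Measure.hausdorffMeasure (t : ℝ) (S.J A) ≤
      liminf (fun n : ℕ => ∑' w : Word A n, Metric.ediam (S.wmap A n w '' Icc 0 1) ^ (t : ℝ)) atTop := by
    apply Measure.hausdorffMeasure_le_liminf_tsum (ι := fun n => Word A n) (t : ℝ) (S.J A)
      (fun n => ENNReal.ofReal (S.rho ^ n))
    · have h2 : Tendsto (fun n : ℕ => ENNReal.ofReal (S.rho ^ n)) atTop (𝓝 (ENNReal.ofReal 0)) :=
        ENNReal.tendsto_ofReal (tendsto_pow_atTop_nhds_zero_of_lt_one S.rho_pos.le S.rho_lt)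
      simpa using h2
    · exact Eventually.of_forall fun n w =>
        (S.ediam_wmap A n w).trans (ENNReal.ofReal_le_ofReal (S.wr_le A n w))
    · refine Eventually.of_forall fun n => ?_
      rintro x ⟨w, hw, hx⟩
      obtain ⟨v, hv⟩ := S.exists_word A n w hw
      rw [mem_iUnion]
      refine ⟨v, ?_⟩
      rw [← hv]
      exact hx n
  have h2 : liminf (fun n : ℕ => ∑' w : Word A n,
      Metric.ediam (S.wmap A n w '' Icc 0 1) ^ (t : ℝ)) atTop ≤ 1 := by
    refine liminf_le_of_frequently_le' (Frequently.of_forall fun n => ?_)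
    refine le_trans (ENNReal.tsum_le_tsum fun w => ?_) (S.tsum_words A t hsum n)
    rw [← ENNReal.ofReal_rpow_of_nonneg (S.wr_pos A n w).le t.coe_nonneg]
    exact ENNReal.rpow_le_rpow (S.ediam_wmap A n w) t.coe_nonneg
  exact ((h1.trans h2).trans_lt ENNReal.one_lt_top).ne

/-! ### Lower bound -/

/-- the address map of an affine system indexed by a type `κ` -/
noncomputable def addr {κ : Type} (a d : κ → ℝ) (w : ℕ → κ) : ℝ :=
  ∑' n, (∏ i ∈ Finset.range n, a (w i)) * d (w n)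

/-- assumptions for address maps -/
structure Good {κ : Type} (a d : κ → ℝ) (rho : ℝ) : Prop where
  rho_nonneg : 0 ≤ rho
  rho_lt : rho < 1
  a_nonneg : ∀ e, 0 ≤ a e
  a_le : ∀ e, a e ≤ rho
  d_nonneg : ∀ e, 0 ≤ d e
  le_one : ∀ e, d e + a e ≤ 1

lemma Good.prod_nonneg {κ : Type} {a d : κ → ℝ} {rho : ℝ} (h : Good a d rho) (w : ℕ → κ) (n : ℕ) :
    0 ≤ ∏ i ∈ Finset.range n, a (w i) := Finset.prod_nonneg fun _ _ => h.a_nonneg _

lemma Good.prod_le {κ : Type} {a d : κ → ℝ} {rho : ℝ} (h : Good a d rho) (w : ℕ → κ) (n : ℕ) :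
    ∏ i ∈ Finset.range n, a (w i) ≤ rho ^ n := by
  calc ∏ i ∈ Finset.range n, a (w i) ≤ ∏ i ∈ Finset.range n, rho :=
        Finset.prod_le_prod (fun _ _ => h.a_nonneg _) fun _ _ => h.a_le _
    _ = rho ^ n := by simp

lemma Good.d_le {κ : Type} {a d : κ → ℝ} {rho : ℝ} (h : Good a d rho) (e : κ) : d e ≤ 1 := by
  have := h.le_one e
  have := h.a_nonneg e
  linarith

lemma Good.summable {κ : Type} {a d : κ → ℝ} {rho : ℝ} (h : Good a d rho) (w : ℕ → κ) :
    Summable fun n => (∏ i ∈ Finset.range n, a (w i)) * d (w n) := by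
  refine Summable.of_nonneg_of_le (fun n => mul_nonneg (h.prod_nonneg w n) (h.d_nonneg _))
    (fun n => ?_) (summable_geometric_of_lt_one h.rho_nonneg h.rho_lt)
  calc _ ≤ rho ^ n * 1 := mul_le_mul (h.prod_le w n) (h.d_le _) (h.d_nonneg _)
          (pow_nonneg h.rho_nonneg n)
    _ = rho ^ n := mul_one _

lemma Good.addr_rec {κ : Type} {a d : κ → ℝ} {rho : ℝ} (h : Good a d rho) (w : ℕ → κ) :
    addr a d w = a (w 0) * addr a d (fun n => w (n + 1)) + d (w 0) := by
  unfold addr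
  rw [(h.summable w).tsum_eq_zero_add]
  simp only [Finset.range_zero, Finset.prod_empty, one_mul]
  rw [add_comm, ← tsum_mul_left]
  congr 1
  apply tsum_congr
  intro n
  rw [Finset.prod_range_succ']
  ring

lemma Good.addr_nonneg {κ : Type} {a d : κ → ℝ} {rho : ℝ} (h : Good a d rho) (w : ℕ → κ) :
    0 ≤ addr a d w := tsum_nonneg fun n => mul_nonneg (h.prod_nonneg w n) (h.d_nonneg _)

lemma Good.addr_le {κ : Type} {a d : κ → ℝ} {rho : ℝ} (h : Good a d rho) (w : ℕ → κ) :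
    addr a d w ≤ 1 := by
  apply Real.tsum_le_of_sum_range_le
  · exact fun n => mul_nonneg (h.prod_nonneg w n) (h.d_nonneg _)
  · intro n
    have key : ∀ n, ∑ i ∈ Finset.range n, (∏ j ∈ Finset.range i, a (w j)) * d (w i) +
        ∏ j ∈ Finset.range n, a (w j) ≤ 1 := by
      intro n
      induction n with
      | zero => simp
      | succ n ih =>
        rw [Finset.sum_range_succ, Finset.prod_range_succ]
        have h1 := h.le_one (w n)
        have h2 := h.prod_nonneg w n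
        nlinarith
    have := key n
    have := h.prod_nonneg w n
    linarith

lemma Good.addr_mem {κ : Type} {a d : κ → ℝ} {rho : ℝ} (h : Good a d rho) (w : ℕ → κ) :
    addr a d w ∈ Icc (0 : ℝ) 1 := ⟨h.addr_nonneg w, h.addr_le w⟩

lemma Sys.good (S : Sys ι) {κ : Type} (e : κ → ι) : Good (S.r ∘ e) (S.b ∘ e) S.rho :=
  ⟨S.rho_pos.le, S.rho_lt, fun _ => (S.r_pos _).le, fun _ => S.r_le _, fun _ => S.b_nonneg _,
    fun _ => S.le_one _⟩

lemma Sys.addr_mem_image (S : Sys ι) {κ : Type} (e : κ → ι) (n : ℕ) : ∀ w : ℕ → κ,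
    addr (S.r ∘ e) (S.b ∘ e) w ∈ comp S.f (fun k => e (w k)) n '' Icc 0 1 := by
  induction n with
  | zero => exact fun w => ⟨_, (S.good e).addr_mem w, rfl⟩
  | succ n ih =>
    intro w
    rw [comp_succ']
    obtain ⟨x, hx, hx2⟩ := ih (fun k => w (k + 1))
    refine ⟨x, hx, ?_⟩
    rw [(S.good e).addr_rec w, ← hx2]
    rfl

lemma Sys.addr_mem_J (S : Sys ι) {κ : Type} (e : κ → ι) (A : Set ι) (he : ∀ k, e k ∈ A)
    (w : ℕ → κ) : addr (S.r ∘ e) (S.b ∘ e) w ∈ S.J A :=
  ⟨fun k => e (w k), fun n => he _, fun n => S.addr_mem_image e n w⟩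

/-- Hoelder comparison of two address maps -/
lemma holder_compare {κ : Type} {r b p c : κ → ℝ} {rho rho' : ℝ} (h : Good r b rho)
    (h' : Good p c rho') (t : ℝ) (ht : 0 < t) (hpr : ∀ e, p e ≤ r e ^ t) (g : ℝ) (hg : 0 < g)
    (hgap : ∀ e e', e ≠ e' → ∀ x ∈ Icc (0 : ℝ) 1, ∀ y ∈ Icc (0 : ℝ) 1,
      g ≤ |(r e * x + b e) - (r e' * y + b e')|) (w w' : ℕ → κ) :
    |addr p c w - addr p c w'| ≤ (g ^ t)⁻¹ * |addr r b w - addr r b w'| ^ t := by
  have key : ∀ (n : ℕ) (w w' : ℕ → κ), (∀ i, i < n → w i = w' i) → w n ≠ w' n →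
      |addr p c w - addr p c w'| ≤ (g ^ t)⁻¹ * |addr r b w - addr r b w'| ^ t := by
    intro n
    induction n with
    | zero =>
      intro w w' _ hne
      have h1 : |addr p c w - addr p c w'| ≤ 1 := by
        have h2 := h'.addr_mem w
        have h3 := h'.addr_mem w'
        rw [abs_le]
        constructor <;> linarith [h2.1, h2.2, h3.1, h3.2]
      have h2 : g ≤ |addr r b w - addr r b w'| := by
        rw [h.addr_rec w, h.addr_rec w']
        exact hgap _ _ hne _ (h.addr_mem _) _ (h.addr_mem _)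
      refine h1.trans ?_
      rw [inv_mul_eq_div, le_div_iff₀ (by positivity), one_mul]
      exact Real.rpow_le_rpow hg.le h2 ht.le
    | succ n ih =>
      intro w w' hlt hne
      have h0 := hlt 0 (by omega)
      have h1 := ih (fun k => w (k + 1)) (fun k => w' (k + 1)) (fun i hi => hlt (i + 1) (by omega)) hne
      rw [h'.addr_rec w, h'.addr_rec w', h.addr_rec w, h.addr_rec w', ← h0]
      have e1 : ∀ (u v s t : ℝ), s * u + t - (s * v + t) = s * (u - v) := by intros; ring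
      rw [e1, e1, abs_mul, abs_mul, abs_of_nonneg (h'.a_nonneg _), abs_of_nonneg (h.a_nonneg _),
        Real.mul_rpow (h.a_nonneg _) (abs_nonneg _)]
      calc p (w 0) * |addr p c (fun k => w (k + 1)) - addr p c (fun k => w' (k + 1))|
          ≤ r (w 0) ^ t * ((g ^ t)⁻¹ *
            |addr r b (fun k => w (k + 1)) - addr r b (fun k => w' (k + 1))| ^ t) :=
            mul_le_mul (hpr _) h1 (abs_nonneg _) (Real.rpow_nonneg (h.a_nonneg _) _)
        _ = _ := by ring
  by_cases hw : w = w'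
  · subst hw
    simp only [sub_self, abs_zero]
    have : (0 : ℝ) ^ t = 0 := Real.zero_rpow ht.ne'
    rw [this, mul_zero]
  · have h1 : ∃ n, w n ≠ w' n := by
      by_contra hcon
      push Not at hcon
      exact hw (funext hcon)
    classical
    have h2 := Nat.find_spec h1
    refine key (Nat.find h1) w w' (fun i hi => ?_) h2
    have := Nat.find_min h1 hi
    push Not at this
    exact this

/-- the address map of a partition of `[0,1)` is onto `[0,1)` -/
lemma addr_onto {κ : Type} {p c : κ → ℝ} {rho : ℝ} (h : Good p c rho)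
    (hon : ∀ y ∈ Ico (0 : ℝ) 1, ∃ e, ∃ y' ∈ Ico (0 : ℝ) 1, y = p e * y' + c e) :
    Ico (0 : ℝ) 1 ⊆ range (addr p c) := by
  have hne : Nonempty κ := by
    obtain ⟨e, _⟩ := hon 0 ⟨le_rfl, one_pos⟩
    exact ⟨e⟩
  choose! I Y hY hI using hon
  -- itinerary
  have key : ∀ n : ℕ, ∀ y ∈ Ico (0 : ℝ) 1, |addr p c (fun k => I (Y^[k] y)) - y| ≤ rho ^ n := by
    intro n
    induction n with
    | zero =>
      intro y hy
      have h1 := h.addr_mem (fun k => I (Y^[k] y))
      rw [pow_zero, abs_le]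
      constructor <;> linarith [h1.1, h1.2, hy.1, hy.2]
    | succ n ih =>
      intro y hy
      have h1 := ih (Y y) (hY y hy)
      rw [h.addr_rec]
      have h2 : (fun n => I (Y^[n + 1] y)) = fun k => I (Y^[k] (Y y)) := by
        funext n
        rw [Function.iterate_succ_apply]
      rw [h2]
      have h3 : p (I (Y^[0] y)) * addr p c (fun k => I (Y^[k] (Y y))) + c (I (Y^[0] y)) - y =
          p (I y) * (addr p c (fun k => I (Y^[k] (Y y))) - Y y) := by
        have := hI y hy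
        simp only [Function.iterate_zero, id_eq]
        linear_combination - this
      rw [h3, abs_mul, abs_of_nonneg (h.a_nonneg _), pow_succ']
      exact mul_le_mul (h.a_le _) h1 (abs_nonneg _) h.rho_nonneg
  intro y hy
  refine ⟨fun k => I (Y^[k] y), ?_⟩
  have h1 : |addr p c (fun k => I (Y^[k] y)) - y| ≤ 0 :=
    ge_of_tendsto' (tendsto_pow_atTop_nhds_zero_of_lt_one h.rho_nonneg h.rho_lt)
      (fun n => key n y hy)
  have := abs_nonpos_iff.mp h1
  linarith

/-- If the intervals of a finite subfamily are pairwise disjoint and `∑ r_e^t ≥ 1`, then the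
dimension is at least `t`. -/
theorem Sys.le_dimH (S : Sys ι) (A : Set ι) (m : ℕ) (e : Fin m → ι) (he : ∀ k, e k ∈ A)
    (hdis : ∀ i j, i ≠ j → S.b (e i) + S.r (e i) < S.b (e j) ∨ S.b (e j) + S.r (e j) < S.b (e i))
    (t : ℝ≥0) (ht : 0 < t) (hsum : 1 ≤ ∑ k, S.r (e k) ^ (t : ℝ)) : (t : ℝ≥0∞) ≤ dimH (S.J A) := by
  classical
  have ht' : (0 : ℝ) < t := by exact_mod_cast ht
  -- the weights
  set s : ℝ := ∑ k, S.r (e k) ^ (t : ℝ) with hs
  have hs0 : 0 < s := by linarith
  let p : Fin m → ℝ := fun k => S.r (e k) ^ (t : ℝ) / s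
  let p' : ℕ → ℝ := fun n => if h : n < m then p ⟨n, h⟩ else 0
  let c : Fin m → ℝ := fun k => ∑ j ∈ Finset.range k, p' j
  have hp_nonneg : ∀ k, 0 ≤ p k := fun k => div_nonneg (Real.rpow_nonneg (S.r_pos _).le _) hs0.le
  have hp_pos : ∀ k, 0 < p k := fun k => div_pos (Real.rpow_pos_of_pos (S.r_pos _) _) hs0
  have hp'_nonneg : ∀ n, 0 ≤ p' n := by
    intro n
    simp only [p']
    split_ifs
    · exact hp_nonneg _
    · exact le_rfl
  have hsum1 : ∑ j ∈ Finset.range m, p' j = 1 := by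
    rw [Finset.sum_range]
    have : ∀ i : Fin m, p' i = p i := by
      intro i
      simp only [p', i.2, dif_pos]
    rw [Finset.sum_congr rfl fun i _ => this i]
    simp only [p]
    rw [← Finset.sum_div, ← hs, div_self hs0.ne']
  have hc_succ : ∀ k : Fin m, c k + p k = ∑ j ∈ Finset.range (k + 1), p' j := by
    intro k
    rw [Finset.sum_range_succ]
    simp only [c, p', k.2, dif_pos]
  have hp_le : ∀ k, p k ≤ S.r (e k) ^ (t : ℝ) := by
    intro k
    simp only [p]
    rw [div_le_iff₀ hs0]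
    have : 0 ≤ S.r (e k) ^ (t : ℝ) := Real.rpow_nonneg (S.r_pos _).le _
    nlinarith
  have hgp : Good p c (S.rho ^ (t : ℝ)) := by
    refine ⟨Real.rpow_nonneg S.rho_pos.le _, Real.rpow_lt_one S.rho_pos.le S.rho_lt ht', hp_nonneg,
      ?_, ?_, ?_⟩
    · intro k
      exact (hp_le k).trans (Real.rpow_le_rpow (S.r_pos _).le (S.r_le _) ht'.le)
    · intro k
      exact Finset.sum_nonneg fun j _ => hp'_nonneg j
    · intro k
      rw [hc_succ, ← hsum1]
      apply Finset.sum_le_sum_of_subset_of_nonneg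
      · apply Finset.range_mono
        exact k.2
      · intro i _ _
        exact hp'_nonneg i
  have hgr := S.good e
  -- the gap
  obtain ⟨g, hg, hgap⟩ : ∃ g : ℝ, 0 < g ∧ ∀ i j : Fin m, i ≠ j → ∀ x ∈ Icc (0 : ℝ) 1,
      ∀ y ∈ Icc (0 : ℝ) 1,
      g ≤ |((S.r ∘ e) i * x + (S.b ∘ e) i) - ((S.r ∘ e) j * y + (S.b ∘ e) j)| := by
    have hpair : ∀ q : Fin m × Fin m, ∃ g : ℝ, 0 < g ∧ (q.1 ≠ q.2 → ∀ x ∈ Icc (0 : ℝ) 1,
        ∀ y ∈ Icc (0 : ℝ) 1,
        g ≤ |((S.r ∘ e) q.1 * x + (S.b ∘ e) q.1) - ((S.r ∘ e) q.2 * y + (S.b ∘ e) q.2)|) := by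
      rintro ⟨i, j⟩
      by_cases hij : i = j
      · exact ⟨1, one_pos, fun h => absurd hij h⟩
      · have hri := S.r_pos (e i)
        have hrj := S.r_pos (e j)
        rcases hdis i j hij with h1 | h1
        · refine ⟨S.b (e j) - (S.b (e i) + S.r (e i)), by linarith, fun _ x hx y hy => ?_⟩
          simp only [Function.comp]
          rw [abs_sub_comm]
          refine le_trans ?_ (le_abs_self _)
          nlinarith [hx.1, hx.2, hy.1, hy.2]
        · refine ⟨S.b (e i) - (S.b (e j) + S.r (e j)), by linarith, fun _ x hx y hy => ?_⟩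
          simp only [Function.comp]
          refine le_trans ?_ (le_abs_self _)
          nlinarith [hx.1, hx.2, hy.1, hy.2]
    choose G hG1 hG2 using hpair
    by_cases hm : Nonempty (Fin m × Fin m)
    · obtain ⟨q0, hq0⟩ := Finite.exists_min G
      refine ⟨G q0, hG1 q0, fun i j hij x hx y hy => ?_⟩
      exact (hq0 (i, j)).trans (hG2 (i, j) hij x hx y hy)
    · refine ⟨1, one_pos, fun i j => ?_⟩
      exact absurd ⟨(i, j)⟩ hm
  have hcomp := holder_compare hgr hgp t ht' hp_le g hg hgap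
  -- onto
  have honto : Ico (0 : ℝ) 1 ⊆ range (addr p c) := by
    apply addr_onto hgp
    intro y hy
    have hex : ∃ n, y < ∑ j ∈ Finset.range (n + 1), p' j := by
      refine ⟨m, ?_⟩
      have : ∑ j ∈ Finset.range m, p' j ≤ ∑ j ∈ Finset.range (m + 1), p' j := by
        rw [Finset.sum_range_succ]
        linarith [hp'_nonneg m]
      rw [hsum1] at this
      linarith [hy.2]
    set n := Nat.find hex with hn
    have h1 : y < ∑ j ∈ Finset.range (n + 1), p' j := Nat.find_spec hex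
    have h2 : ∑ j ∈ Finset.range n, p' j ≤ y := by
      rcases Nat.eq_zero_or_pos n with h0 | h0
      · rw [h0]; simpa using hy.1
      · have := Nat.find_min hex (m := n - 1) (by omega)
        push Not at this
        have h3 : n - 1 + 1 = n := by omega
        rwa [h3] at this
    have h3 : n < m := by
      by_contra hcon
      push Not at hcon
      have : ∑ j ∈ Finset.range m, p' j ≤ ∑ j ∈ Finset.range n, p' j := by
        apply Finset.sum_le_sum_of_subset_of_nonneg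
        · exact Finset.range_mono hcon
        · intro i _ _
          exact hp'_nonneg i
      rw [hsum1] at this
      linarith [hy.2]
    have h4 := hc_succ ⟨n, h3⟩
    simp only at h4
    rw [← h4] at h1
    have h5 : c ⟨n, h3⟩ ≤ y := h2
    have h6 := hp_pos ⟨n, h3⟩
    refine ⟨⟨n, h3⟩, (y - c ⟨n, h3⟩) / p ⟨n, h3⟩, ⟨?_, ?_⟩, ?_⟩
    · exact div_nonneg (by linarith) h6.le
    · rw [div_lt_one h6]; linarith
    · field_simp
      ring
  -- the Hoelder map
  let F : ℝ → ℝ := fun x =>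
    if h : ∃ w, addr (S.r ∘ e) (S.b ∘ e) w = x then addr p c (Classical.choose h) else 0
  have hF : ∀ w, F (addr (S.r ∘ e) (S.b ∘ e) w) = addr p c w := by
    intro w
    have h : ∃ w', addr (S.r ∘ e) (S.b ∘ e) w' = addr (S.r ∘ e) (S.b ∘ e) w := ⟨w, rfl⟩
    simp only [F]
    rw [dif_pos h]
    have h1 := Classical.choose_spec h
    have h2 := hcomp (Classical.choose h) w
    rw [h1, sub_self, abs_zero, Real.zero_rpow ht'.ne', mul_zero] at h2
    have := abs_nonpos_iff.mp h2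
    linarith
  have hhol : HolderOnWith (Real.toNNReal (g ^ (t : ℝ))⁻¹) t F
      (range (addr (S.r ∘ e) (S.b ∘ e))) := by
    rintro _ ⟨w, rfl⟩ _ ⟨w', rfl⟩
    rw [hF, hF]
    have h1 := hcomp w w'
    rw [edist_dist, edist_dist, Real.dist_eq, Real.dist_eq,
      ENNReal.ofReal_rpow_of_nonneg (abs_nonneg _) ht'.le]
    change _ ≤ ENNReal.ofReal _ * _
    rw [← ENNReal.ofReal_mul (by positivity)]
    exact ENNReal.ofReal_le_ofReal h1
  have h1 := hhol.dimH_image_le ht
  have h2 : (1 : ℝ≥0∞) ≤ dimH (F '' range (addr (S.r ∘ e) (S.b ∘ e))) := by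
    have h3 : Ico (0 : ℝ) 1 ⊆ F '' range (addr (S.r ∘ e) (S.b ∘ e)) := by
      intro y hy
      obtain ⟨w, hw⟩ := honto hy
      exact ⟨_, ⟨w, rfl⟩, by rw [hF, hw]⟩
    have h4 : dimH (Ico (0 : ℝ) 1) = 1 := by
      have := Real.dimH_of_nonempty_interior (E := ℝ) (s := Ico (0 : ℝ) 1)
        (by rw [interior_Ico]; exact nonempty_Ioo.mpr one_pos)
      simpa using this
    rw [← h4]
    exact dimH_mono h3
  have h3 : dimH (range (addr (S.r ∘ e) (S.b ∘ e))) ≤ dimH (S.J A) := by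
    apply dimH_mono
    rintro _ ⟨w, rfl⟩
    exact S.addr_mem_J e A he w
  have h4 : (1 : ℝ≥0∞) ≤ dimH (S.J A) / t := (h2.trans h1).trans (ENNReal.div_le_div_right h3 _)
  rw [ENNReal.le_div_iff_mul_le (Or.inl (by exact_mod_cast ht.ne')) (Or.inl ENNReal.coe_ne_top),
    one_mul] at h4
  exact h4

end Pool.Agent.Helper50.SelfSim
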