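import Mathlib
import Pool.Agent.Helper50.SelfSim

/-!
An explicit similarity system on the unit interval whose dimension spectrum has a jump of the local
dimension at `1/2`.
-/

namespace Pool.Agent.Helper50.DimSpec

open MeasureTheory Filter Topology Set SelfSim
open scoped ENNReal NNReal

/-- the block parameters -/
def q (k : ℕ) : ℕ := 2 * ((k + 1).factorial) ^ 2

/-- number of maps in block `k` -/
def NN (k : ℕ) : ℕ := 2 ^ q k

/-- ratio of the maps in block `k` -/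
noncomputable def rr (k : ℕ) : ℝ := (2 : ℝ) ^ (-(2 * (q k : ℝ)))

/-- the alphabet -/
abbrev Alph : Type := Σ k : ℕ, Fin (NN k)

lemma q_succ (k : ℕ) : q (k + 1) = (k + 2) ^ 2 * q k := by
  unfold q
  rw [Nat.factorial_succ (k + 1)]
  ring

lemma q_zero : q 0 = 2 := by simp [q]

lemma q_gt (k : ℕ) : k + 1 < q k := by
  unfold q
  have h1 : k + 1 ≤ (k + 1).factorial := Nat.self_le_factorial _
  nlinarith

lemma q_lt_succ (k : ℕ) : q k < q (k + 1) := by
  rw [q_succ]
  have := q_gt k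
  have h4 : 4 ≤ (k + 2) ^ 2 := by nlinarith
  nlinarith

lemma q_mono : Monotone q := monotone_nat_of_le_succ fun k => (q_lt_succ k).le

lemma q_add (k m : ℕ) : q k + m ≤ q (k + m) := by
  induction m with
  | zero => simp
  | succ m ih =>
    have := q_lt_succ (k + m)
    rw [← add_assoc]
    rw [← add_assoc]
    omega

lemma NN_cast (k : ℕ) : (NN k : ℝ) = (2 : ℝ) ^ (q k : ℝ) := by
  unfold NN
  push_cast
  rw [Real.rpow_natCast]

lemma rr_pos (k : ℕ) : 0 < rr k := by unfold rr; positivity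

lemma rr_rpow (k : ℕ) (s : ℝ) : rr k ^ s = (2 : ℝ) ^ (-(2 * (q k : ℝ) * s)) := by
  unfold rr
  rw [← Real.rpow_mul (by norm_num)]
  congr 1
  ring

lemma rr_zero : rr 0 = 1 / 16 := by
  unfold rr
  rw [q_zero]
  have : (-(2 * ((2 : ℕ) : ℝ))) = ((-4 : ℤ) : ℝ) := by norm_num
  rw [this, Real.rpow_intCast]
  norm_num

lemma rr_le (k : ℕ) : rr k ≤ 1 / 16 := by
  rw [← rr_zero]
  unfold rr
  apply Real.rpow_le_rpow_of_exponent_le (by norm_num)
  have : (q 0 : ℝ) ≤ q k := by exact_mod_cast q_mono (Nat.zero_le k)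
  linarith

/-- left end points -/
noncomputable def bb (e : Alph) : ℝ := (1 / 2) ^ (e.1 + 1) * (1 + (e.2 : ℝ) / NN e.1)

lemma NN_pos (k : ℕ) : (0 : ℝ) < NN k := by
  rw [NN_cast]; positivity

lemma rr_eq (k : ℕ) : rr k = 1 / (NN k : ℝ) ^ 2 := by
  unfold rr
  rw [NN_cast, Real.rpow_neg (by norm_num), ← Real.rpow_natCast, ← Real.rpow_mul (by norm_num)]
  rw [one_div]
  congr 2
  push_cast
  ring

/-- the ratio is smaller than the spacing in the block -/
lemma rr_lt (k : ℕ) : rr k < (1 / 2) ^ (k + 1) / NN k := by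
  rw [rr_eq, sq, ← div_div]
  apply div_lt_div_of_pos_right _ (NN_pos k)
  rw [one_div_pow]
  apply one_div_lt_one_div_of_lt (by positivity)
  unfold NN
  push_cast
  exact pow_lt_pow_right₀ (by norm_num) (q_gt k)

lemma bb_top (e : Alph) : bb e + rr e.1 < (1 / 2) ^ e.1 := by
  have h1 := rr_lt e.1
  have h2 : (e.2 : ℝ) + 1 ≤ NN e.1 := by exact_mod_cast e.2.2
  have h3 := NN_pos e.1
  unfold bb
  have h4 : (0 : ℝ) < (1 / 2) ^ (e.1 + 1) := by positivity
  have h5 : (e.2 : ℝ) / NN e.1 ≤ 1 - 1 / NN e.1 := by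
    rw [div_le_iff₀ h3, sub_mul, one_mul, div_mul_cancel₀ _ h3.ne']
    linarith
  have h6 : ((1 : ℝ) / 2) ^ e.1 = 2 * (1 / 2) ^ (e.1 + 1) := by
    rw [pow_succ]; ring
  rw [h6]
  have h7 : ((1 : ℝ) / 2) ^ (e.1 + 1) * (1 + (e.2 : ℝ) / NN e.1) ≤
      (1 / 2) ^ (e.1 + 1) * (2 - 1 / NN e.1) := by
    apply mul_le_mul_of_nonneg_left _ h4.le
    linarith
  have h8 : ((1 : ℝ) / 2) ^ (e.1 + 1) * (2 - 1 / NN e.1) =
      2 * (1 / 2) ^ (e.1 + 1) - (1 / 2) ^ (e.1 + 1) / NN e.1 := by ring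
  linarith

lemma bb_ge (e : Alph) : (1 / 2) ^ (e.1 + 1) ≤ bb e := by
  unfold bb
  have h4 : (0 : ℝ) < (1 / 2) ^ (e.1 + 1) := by positivity
  have h5 : (0 : ℝ) ≤ (e.2 : ℝ) / NN e.1 := by
    have := NN_pos e.1
    positivity
  nlinarith

/-- the system -/
noncomputable def SS : Sys Alph where
  r e := rr e.1
  b := bb
  rho := 1 / 16
  rho_pos := by norm_num
  rho_lt := by norm_num
  r_pos e := rr_pos e.1
  r_le e := rr_le e.1
  b_nonneg e := le_trans (by positivity) (bb_ge e)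
  le_one e := by
    have h1 := bb_top e
    have h2 : ((1 : ℝ) / 2) ^ e.1 ≤ 1 := pow_le_one₀ (by norm_num) (by norm_num)
    linarith

lemma disj (e e' : Alph) (h : e ≠ e') :
    SS.b e + SS.r e < SS.b e' ∨ SS.b e' + SS.r e' < SS.b e := by
  -- same block
  have hsame : ∀ (k : ℕ) (i i' : Fin (NN k)), i < i' → bb ⟨k, i⟩ + rr k < bb ⟨k, i'⟩ := by
    intro k i i' hlt
    have h1 := rr_lt k
    have h3 := NN_pos k
    unfold bb
    simp only
    have h2 : (i : ℝ) + 1 ≤ i' := by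
      have : (i : ℕ) + 1 ≤ i' := hlt
      exact_mod_cast this
    have h4 : (0 : ℝ) < (1 / 2) ^ (k + 1) := by positivity
    have h5 : (1 / 2 : ℝ) ^ (k + 1) / NN k ≤ (1 / 2) ^ (k + 1) * (((i' : ℝ) - i) / NN k) := by
      rw [mul_div_assoc']
      apply div_le_div_of_nonneg_right _ h3.le
      nlinarith
    have h6 : (1 / 2 : ℝ) ^ (k + 1) * (1 + (i' : ℝ) / NN k) - (1 / 2) ^ (k + 1) * (1 + (i : ℝ) / NN k) =
      (1 / 2) ^ (k + 1) * (((i' : ℝ) - i) / NN k) := by ring
    linarith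
  have hdiff : ∀ e e' : Alph, e.1 < e'.1 → bb e' + rr e'.1 < bb e := by
    intro e e' hlt
    have h1 := bb_top e'
    have h2 := bb_ge e
    have h3 : ((1 : ℝ) / 2) ^ e'.1 ≤ (1 / 2) ^ (e.1 + 1) :=
      pow_le_pow_of_le_one (by norm_num) (by norm_num) hlt
    linarith
  obtain ⟨k, i⟩ := e
  obtain ⟨k', i'⟩ := e'
  rcases lt_trichotomy k k' with hk | hk | hk
  · right; exact hdiff ⟨k, i⟩ ⟨k', i'⟩ hk
  · subst hk
    have hne : i ≠ i' := by
      rintro rfl
      exact h rfl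
    rcases lt_or_gt_of_ne hne with hi | hi
    · left; exact hsame k i i' hi
    · right; exact hsame k i' i hi
  · left; exact hdiff ⟨k', i'⟩ ⟨k, i⟩ hk

/-- the pressure of a subsystem -/
noncomputable def PP (A : Set Alph) (s : ℝ) : ℝ≥0∞ := ∑' e : A, ENNReal.ofReal (SS.r e ^ s)

lemma dim_le (A : Set Alph) (s : ℝ≥0) (h : PP A s ≤ 1) : dimH (SS.J A) ≤ s :=
  SS.dimH_le A s h

lemma le_dim_finset (A : Set Alph) (s : ℝ≥0) (hs : 0 < s) (F : Finset A)
    (h : 1 ≤ ∑ e ∈ F, SS.r e ^ (s : ℝ)) : (s : ℝ≥0∞) ≤ dimH (SS.J A) := by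
  let e : Fin F.card → Alph := fun k => ((F.equivFin.symm k : F) : A)
  apply SS.le_dimH A F.card e (fun k => ((F.equivFin.symm k : F) : A).2) _ s hs
  · have : ∑ k, SS.r (e k) ^ (s : ℝ) = ∑ x ∈ F, SS.r x ^ (s : ℝ) := by
      rw [← Finset.sum_coe_sort F]
      exact Fintype.sum_equiv F.equivFin.symm _ _ fun _ => rfl
    rw [this]
    exact h
  · intro i j hij
    apply disj
    intro heq
    apply hij
    have : (F.equivFin.symm i : F) = F.equivFin.symm j := by
      apply Subtype.ext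
      exact Subtype.ext heq
    exact F.equivFin.symm.injective this

lemma le_dim (A : Set Alph) (s : ℝ≥0) (hs : 0 < s) (h : 1 < PP A s) :
    (s : ℝ≥0∞) ≤ dimH (SS.J A) := by
  unfold PP at h
  rw [ENNReal.tsum_eq_iSup_sum, lt_iSup_iff] at h
  obtain ⟨F, hF⟩ := h
  apply le_dim_finset A s hs F
  rw [← ENNReal.ofReal_sum_of_nonneg (fun e _ => Real.rpow_nonneg (SS.r_pos _).le _)] at hF
  have := (ENNReal.lt_ofReal_iff_toReal_lt (by simp)).mp hF
  simpa using this.le

/-- the dimension formula -/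
lemma dim_eq (A : Set Alph) (s : ℝ≥0) (hs : 0 < s) (h : PP A s = 1) : dimH (SS.J A) = s := by
  apply le_antisymm (dim_le A s h.le)
  apply le_of_forall_lt
  intro c hc
  -- choose an exponent between
  obtain ⟨u, hu1, hu2⟩ := ENNReal.lt_iff_exists_nnreal_btwn.mp hc
  have hu3 : u < s := by exact_mod_cast hu2
  refine lt_of_lt_of_le hu1 ?_
  apply le_dim A u
  · have : (0 : ℝ≥0∞) < u := bot_le.trans_lt hu1
    exact_mod_cast this
  · -- the sum is strictly larger
    have hpos : (0 : ℝ) < s - u := by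
      have : (u : ℝ) < s := by exact_mod_cast hu3
      linarith
    have h16 : (1 : ℝ) < (16 : ℝ) ^ ((s : ℝ) - u) := Real.one_lt_rpow (by norm_num) hpos
    have hle : ENNReal.ofReal ((16 : ℝ) ^ ((s : ℝ) - u)) * PP A s ≤ PP A u := by
      unfold PP
      rw [← ENNReal.tsum_mul_left]
      apply ENNReal.tsum_le_tsum
      intro e
      rw [← ENNReal.ofReal_mul (by positivity)]
      apply ENNReal.ofReal_le_ofReal
      have hr := SS.r_pos e
      have hr2 : SS.r e ≤ 1 / 16 := SS.r_le e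
      have h1 : SS.r e ^ (u : ℝ) = SS.r e ^ (-((s : ℝ) - u)) * SS.r e ^ (s : ℝ) := by
        rw [← Real.rpow_add hr]
        congr 1
        ring
      rw [h1]
      apply mul_le_mul_of_nonneg_right _ (Real.rpow_nonneg hr.le _)
      rw [Real.rpow_neg hr.le, ← Real.inv_rpow hr.le]
      apply Real.rpow_le_rpow (by norm_num) _ hpos.le
      rw [le_inv_comm₀ (by norm_num) hr]
      simpa using hr2
    rw [h, mul_one] at hle
    refine lt_of_lt_of_le ?_ hle
    rw [← ENNReal.ofReal_one]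
    exact (ENNReal.ofReal_lt_ofReal_iff (by positivity)).mpr h16

/-! ### counting -/

open Classical in
/-- number of letters of block `k` in `A` -/
noncomputable def cnt (A : Set Alph) (k : ℕ) : ℕ := (Finset.univ.filter fun i : Fin (NN k) => (⟨k, i⟩ : Alph) ∈ A).card

lemma cnt_le (A : Set Alph) (k : ℕ) : cnt A k ≤ NN k := by
  unfold cnt
  refine (Finset.card_le_univ _).trans ?_
  simp

lemma PP_eq (A : Set Alph) (s : ℝ) : PP A s = ∑' k : ℕ, (cnt A k : ℝ≥0∞) * ENNReal.ofReal (rr k ^ s) := by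
  classical
  unfold PP
  rw [tsum_subtype A (fun e : Alph => ENNReal.ofReal (SS.r e ^ s)), ENNReal.tsum_sigma']
  apply tsum_congr
  intro k
  rw [tsum_fintype]
  unfold cnt
  have : ∀ i : Fin (NN k), A.indicator (fun e : Alph => ENNReal.ofReal (SS.r e ^ s)) ⟨k, i⟩ =
      if (⟨k, i⟩ : Alph) ∈ A then ENNReal.ofReal (rr k ^ s) else 0 := by
    intro i
    rw [indicator_apply]
    rfl
  rw [Finset.sum_congr rfl fun i _ => this i, ← Finset.sum_filter, Finset.sum_const, nsmul_eq_mul]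

/-- sets with prescribed counts -/
def setOf' (j : ℕ → ℕ) : Set Alph := {e | (e.2 : ℕ) < j e.1}

open Classical in
lemma cnt_setOf' (j : ℕ → ℕ) (hj : ∀ k, j k ≤ NN k) (k : ℕ) : cnt (setOf' j) k = j k := by
  have h1 : cnt (setOf' j) k = (Finset.univ.filter fun i : Fin (NN k) => (i : ℕ) < j k).card := by
    unfold cnt
    congr 1
    ext i
    rw [Finset.mem_filter, Finset.mem_filter]
    rfl
  rw [h1]
  have h2 : ∀ n m : ℕ, n ≤ m → (Finset.univ.filter fun i : Fin m => (i : ℕ) < n).card = n := by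
    intro n m hnm
    rw [Fin.card_filter_val_lt]
    exact min_eq_right hnm
  exact h2 _ _ (hj k)

/-- the spectrum -/
def Spec : Set ℝ := {t | 0 ≤ t ∧ ∃ A : Set Alph, dimH (SS.J A) = ENNReal.ofReal t}

lemma mem_spec (t : ℝ) (ht : 0 < t) (A : Set Alph) (h : PP A t = 1) : t ∈ Spec := by
  refine ⟨ht.le, A, ?_⟩
  have := dim_eq A t.toNNReal (Real.toNNReal_pos.mpr ht) (by rwa [Real.coe_toNNReal t ht.le])
  rw [this]
  rfl

/-! ### the lower part of the spectrum -/

lemma le_mul_NN (t : ℝ) (ht : t ≤ 1 / 2) (k : ℕ) : 1 ≤ NN k * rr k ^ t := by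
  rw [rr_rpow, NN_cast, ← Real.rpow_add (by norm_num)]
  apply Real.one_le_rpow (by norm_num)
  have : (0 : ℝ) ≤ q k := Nat.cast_nonneg _
  nlinarith

/-- greedy remainders -/
noncomputable def rem (t : ℝ) : ℕ → ℝ
  | 0 => 1
  | k + 1 => rem t k - ⌊rem t k / rr k ^ t⌋₊ * rr k ^ t

lemma rem_bounds (t : ℝ) (ht0 : 0 ≤ t) (k : ℕ) : 0 ≤ rem t k ∧ rem t k ≤ 1 := by
  induction k with
  | zero => simp [rem]
  | succ k ih =>
    have hp : 0 < rr k ^ t := Real.rpow_pos_of_pos (rr_pos k) t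
    have h1 : (⌊rem t k / rr k ^ t⌋₊ : ℝ) ≤ rem t k / rr k ^ t := Nat.floor_le (div_nonneg ih.1 hp.le)
    rw [le_div_iff₀ hp] at h1
    constructor
    · simp only [rem]; linarith
    · simp only [rem]
      have : 0 ≤ (⌊rem t k / rr k ^ t⌋₊ : ℝ) * rr k ^ t := by positivity
      linarith

lemma rem_succ_lt (t : ℝ) (ht0 : 0 ≤ t) (k : ℕ) : rem t (k + 1) < rr k ^ t := by
  have hp : 0 < rr k ^ t := Real.rpow_pos_of_pos (rr_pos k) t
  have h1 := Nat.lt_floor_add_one (rem t k / rr k ^ t)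
  rw [div_lt_iff₀ hp] at h1
  simp only [rem]
  linarith

lemma rr_tendsto (t : ℝ) (ht : 0 < t) : Tendsto (fun k => rr k ^ t) atTop (𝓝 0) := by
  have h1 : ∀ k : ℕ, rr k ^ t ≤ ((2 : ℝ) ^ (-(2 * t))) ^ k := by
    intro k
    rw [rr_rpow, ← Real.rpow_natCast, ← Real.rpow_mul (by norm_num)]
    apply Real.rpow_le_rpow_of_exponent_le (by norm_num)
    have : (k : ℝ) ≤ q k := by exact_mod_cast (by have := q_gt k; omega : k ≤ q k)
    nlinarith
  have h2 : (2 : ℝ) ^ (-(2 * t)) < 1 := Real.rpow_lt_one_of_one_lt_of_neg (by norm_num) (by linarith)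
  exact squeeze_zero (fun k => (Real.rpow_pos_of_pos (rr_pos k) t).le) h1
    (tendsto_pow_atTop_nhds_zero_of_lt_one (by positivity) h2)

lemma mem_spec_of_le (t : ℝ) (ht0 : 0 < t) (ht : t ≤ 1 / 2) : t ∈ Spec := by
  let j : ℕ → ℕ := fun k => ⌊rem t k / rr k ^ t⌋₊
  have hj : ∀ k, j k ≤ NN k := by
    intro k
    have hp : 0 < rr k ^ t := Real.rpow_pos_of_pos (rr_pos k) t
    have h1 := le_mul_NN t ht k
    have h2 := (rem_bounds t ht0.le k).2
    have h3 : rem t k / rr k ^ t ≤ NN k := by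
      rw [div_le_iff₀ hp]; linarith
    exact Nat.floor_le_of_le h3
  apply mem_spec t ht0 (setOf' j)
  rw [PP_eq]
  have h1 : ∀ k, (cnt (setOf' j) k : ℝ≥0∞) * ENNReal.ofReal (rr k ^ t) =
      ENNReal.ofReal (j k * rr k ^ t) := by
    intro k
    rw [cnt_setOf' j hj k, ENNReal.ofReal_mul (by positivity), ENNReal.ofReal_natCast]
  simp_rw [h1]
  have hnn : ∀ k, 0 ≤ (j k : ℝ) * rr k ^ t := by
    intro k
    have hp : 0 < rr k ^ t := Real.rpow_pos_of_pos (rr_pos k) t
    positivity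
  have hpart : ∀ n, ∑ k ∈ Finset.range n, (j k : ℝ) * rr k ^ t = 1 - rem t n := by
    intro n
    induction n with
    | zero => simp [rem]
    | succ n ih =>
      rw [Finset.sum_range_succ, ih]
      simp only [rem, j]
      ring
  have hrem : Tendsto (fun n => rem t n) atTop (𝓝 0) := by
    rw [← tendsto_add_atTop_iff_nat 1]
    exact squeeze_zero (fun n => (rem_bounds t ht0.le (n + 1)).1)
      (fun n => (rem_succ_lt t ht0.le n).le) (rr_tendsto t ht0)
  have hsum : HasSum (fun k => (j k : ℝ) * rr k ^ t) 1 := by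
    rw [hasSum_iff_tendsto_nat_of_nonneg hnn]
    simp_rw [hpart]
    have := (tendsto_const_nhds (x := (1 : ℝ))).sub hrem
    simpa using this
  rw [← ENNReal.ofReal_tsum_of_nonneg hnn hsum.summable, hsum.tsum_eq, ENNReal.ofReal_one]

lemma zero_mem_spec : (0 : ℝ) ∈ Spec := by
  refine ⟨le_rfl, ∅, ?_⟩
  have : SS.J ∅ = ∅ := by
    rw [Set.eq_empty_iff_forall_notMem]
    rintro x ⟨w, hw, _⟩
    exact hw 0
  rw [this]
  simp

/-! ### the spectrum accumulates at `1/2` from above -/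

lemma exists_above (ε : ℝ) (hε : 0 < ε) : ∃ s ∈ Spec, 1 / 2 < s ∧ s < 1 / 2 + ε := by
  have h16 : (2 : ℝ) ^ (-(4 * ε)) < 1 := Real.rpow_lt_one_of_one_lt_of_neg (by norm_num) (by linarith)
  obtain ⟨n, hn⟩ := ((rr_tendsto (1 / 2) (by norm_num)).eventually
    (gt_mem_nhds (by linarith : (0 : ℝ) < 1 - (2 : ℝ) ^ (-(4 * ε))))).and (eventually_ge_atTop 1) |>.exists
  obtain ⟨hn1, hn2⟩ := hn
  let u : ℝ → ℝ := fun s => 4 * rr 0 ^ s + rr n ^ s
  have hu : Continuous u := by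
    have h0 := (rr_pos 0).ne'
    have h1 := (rr_pos n).ne'
    exact (continuous_const.mul (Real.continuous_const_rpow h0)).add (Real.continuous_const_rpow h1)
  have h4 : ∀ s : ℝ, 4 * rr 0 ^ s = (2 : ℝ) ^ (2 - 4 * s) := by
    intro s
    rw [rr_rpow, q_zero, Real.rpow_sub (by norm_num), Real.rpow_neg (by norm_num)]
    have : (2 : ℝ) ^ (2 : ℝ) = 4 := by
      rw [show (2 : ℝ) = ((2 : ℕ) : ℝ) by norm_num, Real.rpow_natCast]; norm_num
    rw [this]
    have h5 : 2 * ((2 : ℕ) : ℝ) * s = 4 * s := by push_cast; ring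
    rw [h5]
    ring
  have hu1 : 1 < u (1 / 2) := by
    simp only [u]
    rw [h4]
    have : (2 : ℝ) - 4 * (1 / 2) = 0 := by norm_num
    rw [this, Real.rpow_zero]
    have := Real.rpow_pos_of_pos (rr_pos n) (1 / 2)
    linarith
  have hu2 : u (1 / 2 + ε) < 1 := by
    simp only [u]
    rw [h4]
    have h5 : (2 : ℝ) - 4 * (1 / 2 + ε) = -(4 * ε) := by ring
    rw [h5]
    have h6 : rr n ^ (1 / 2 + ε) ≤ rr n ^ (1 / 2 : ℝ) := by
      apply Real.rpow_le_rpow_of_exponent_ge (rr_pos n)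
      · have := rr_le n; linarith
      · linarith
    linarith
  have hIVT := intermediate_value_Icc' (by linarith : (1 : ℝ) / 2 ≤ 1 / 2 + ε) hu.continuousOn
  obtain ⟨s, hs1, hs2⟩ := hIVT ⟨hu2.le, hu1.le⟩
  have hs3 : 1 / 2 < s := by
    rcases lt_or_eq_of_le hs1.1 with h | h
    · exact h
    · exfalso; rw [← h] at hs2; linarith
  have hs4 : s < 1 / 2 + ε := by
    rcases lt_or_eq_of_le hs1.2 with h | h
    · exact h
    · exfalso; rw [h] at hs2; linarith
  refine ⟨s, ?_, hs3, hs4⟩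
  let j : ℕ → ℕ := fun k => if k = 0 then 4 else if k = n then 1 else 0
  have hNN : ∀ k, 4 ≤ NN k := by
    intro k
    unfold NN
    have := q_gt k
    calc 4 = 2 ^ 2 := by norm_num
      _ ≤ 2 ^ q k := Nat.pow_le_pow_right (by norm_num) (by have := q_mono (Nat.zero_le k); rw [q_zero] at this; exact this)
  have hj : ∀ k, j k ≤ NN k := by
    intro k
    have := hNN k
    simp only [j]
    split_ifs <;> omega
  apply mem_spec s (by linarith) (setOf' j)
  rw [PP_eq]
  have h1 : ∀ k, (cnt (setOf' j) k : ℝ≥0∞) * ENNReal.ofReal (rr k ^ s) =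
      ENNReal.ofReal (j k * rr k ^ s) := by
    intro k
    rw [cnt_setOf' j hj k, ENNReal.ofReal_mul (by positivity), ENNReal.ofReal_natCast]
  simp_rw [h1]
  rw [tsum_eq_sum (s := {0, n})]
  · rw [Finset.sum_pair (by omega)]
    have hn0 : ¬ (n = 0) := by omega
    simp only [j, if_true, hn0, if_false]
    rw [← ENNReal.ofReal_add]
    · have : ((4 : ℕ) : ℝ) * rr 0 ^ s + ((1 : ℕ) : ℝ) * rr n ^ s = 1 := by
        push_cast
        simpa [u] using hs2
      rw [this, ENNReal.ofReal_one]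
    · have := Real.rpow_pos_of_pos (rr_pos 0) s; positivity
    · have := Real.rpow_pos_of_pos (rr_pos n) s; positivity
  · intro k hk
    simp only [Finset.mem_insert, Finset.mem_singleton, not_or] at hk
    simp [j, hk.1, hk.2]

end Pool.Agent.Helper50.DimSpec
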