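import Mathlib
import Pool.Agent.Helper50.DimSpec

/-!
The part of the spectrum above `1/2` has Hausdorff dimension zero.
-/

namespace Pool.Agent.Helper50.DimSpec

open MeasureTheory Filter Topology Set SelfSim
open scoped ENNReal NNReal

/-- bound for the tails of the pressure -/
noncomputable def tau (c : ℝ) (K : ℕ) : ℝ := (2 : ℝ) ^ (-(c * q (K + 1))) / (1 - (2 : ℝ) ^ (-c))

lemma two_lt (c : ℝ) (hc : 0 < c) : (2 : ℝ) ^ (-c) < 1 :=
  Real.rpow_lt_one_of_one_lt_of_neg (by norm_num) (by linarith)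

lemma tau_pos (c : ℝ) (hc : 0 < c) (K : ℕ) : 0 < tau c K := by
  have := two_lt c hc
  unfold tau
  have : 0 < 1 - (2 : ℝ) ^ (-c) := by linarith
  positivity

lemma tail_le (A : Set Alph) (c : ℝ) (hc : 0 < c) (s : ℝ) (hs : 1 / 2 + c / 2 ≤ s) (K : ℕ) :
    ∑' k : ℕ, (cnt A (k + (K + 1)) : ℝ≥0∞) * ENNReal.ofReal (rr (k + (K + 1)) ^ s) ≤
      ENNReal.ofReal (tau c K) := by
  have hlt := two_lt c hc
  have h2c : (0 : ℝ) < (2 : ℝ) ^ (-c) := by positivity
  have h1 : ∀ k : ℕ, (cnt A (k + (K + 1)) : ℝ≥0∞) * ENNReal.ofReal (rr (k + (K + 1)) ^ s) ≤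
      ENNReal.ofReal ((2 : ℝ) ^ (-(c * q (K + 1))) * ((2 : ℝ) ^ (-c)) ^ k) := by
    intro k
    rw [← ENNReal.ofReal_natCast, ← ENNReal.ofReal_mul (by positivity)]
    apply ENNReal.ofReal_le_ofReal
    have h3 : (cnt A (k + (K + 1)) : ℝ) ≤ NN (k + (K + 1)) := by exact_mod_cast cnt_le A _
    have h4 : rr (k + (K + 1)) ^ s ≤ rr (k + (K + 1)) ^ (1 / 2 + c / 2) := by
      apply Real.rpow_le_rpow_of_exponent_ge (rr_pos _) _ hs
      have := rr_le (k + (K + 1))
      linarith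
    have h5 : (NN (k + (K + 1)) : ℝ) * rr (k + (K + 1)) ^ (1 / 2 + c / 2) =
        (2 : ℝ) ^ (-(c * q (k + (K + 1)))) := by
      rw [rr_rpow, NN_cast, ← Real.rpow_add (by norm_num)]
      congr 1
      ring
    have h6 : (q (K + 1) : ℝ) + k ≤ q (k + (K + 1)) := by
      have := q_add (K + 1) k
      rw [add_comm (K + 1) k] at this
      exact_mod_cast this
    calc (cnt A (k + (K + 1)) : ℝ) * rr (k + (K + 1)) ^ s
        ≤ NN (k + (K + 1)) * rr (k + (K + 1)) ^ (1 / 2 + c / 2) :=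
          mul_le_mul h3 h4 (Real.rpow_nonneg (rr_pos _).le _) (Nat.cast_nonneg _)
      _ = (2 : ℝ) ^ (-(c * q (k + (K + 1)))) := h5
      _ ≤ (2 : ℝ) ^ (-(c * q (K + 1)) + -c * k) := by
          apply Real.rpow_le_rpow_of_exponent_le (by norm_num)
          nlinarith
      _ = _ := by
          rw [Real.rpow_add (by norm_num), Real.rpow_mul (by norm_num), Real.rpow_natCast]
  refine (ENNReal.tsum_le_tsum h1).trans ?_
  have hg := (hasSum_geometric_of_lt_one h2c.le hlt).mul_left ((2 : ℝ) ^ (-(c * q (K + 1))))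
  rw [← ENNReal.ofReal_tsum_of_nonneg (fun k => by positivity) hg.summable, hg.tsum_eq]
  exact le_of_eq rfl

/-- the head of the pressure -/
noncomputable def Phi (j : ℕ → ℕ) (K : ℕ) (h : ℝ) : ℝ := ∑ k ∈ Finset.range (K + 1), (j k : ℝ) * rr k ^ h

lemma Phi_cont (j : ℕ → ℕ) (K : ℕ) : Continuous (Phi j K) := by
  unfold Phi
  apply continuous_finset_sum
  intro k _
  exact continuous_const.mul (Real.continuous_const_rpow (rr_pos k).ne')

lemma Phi_nonneg (j : ℕ → ℕ) (K : ℕ) (h : ℝ) : 0 ≤ Phi j K h :=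
  Finset.sum_nonneg fun k _ => mul_nonneg (Nat.cast_nonneg _) (Real.rpow_nonneg (rr_pos k).le _)

lemma PP_split (A : Set Alph) (K : ℕ) (s : ℝ) : PP A s = ENNReal.ofReal (Phi (cnt A) K s) +
    ∑' k : ℕ, (cnt A (k + (K + 1)) : ℝ≥0∞) * ENNReal.ofReal (rr (k + (K + 1)) ^ s) := by
  rw [PP_eq, ← ENNReal.summable.sum_add_tsum_nat_add' (k := K + 1)]
  congr 1
  unfold Phi
  rw [ENNReal.ofReal_sum_of_nonneg]
  · apply Finset.sum_congr rfl
    intro k _
    rw [ENNReal.ofReal_mul (by positivity), ENNReal.ofReal_natCast]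
  · intro k _
    exact mul_nonneg (Nat.cast_nonneg _) (Real.rpow_nonneg (rr_pos k).le _)

lemma upper (A : Set Alph) (h : ℝ) (hh : 0 < h) (hA : dimH (SS.J A) = ENNReal.ofReal h) (K : ℕ) :
    Phi (cnt A) K h ≤ 1 := by
  have h1 : ∀ s : ℝ, h < s → Phi (cnt A) K s ≤ 1 := by
    intro s hs
    have h2 : PP A s ≤ 1 := by
      by_contra hcon
      push Not at hcon
      have hs0 : 0 < s := hh.trans hs
      have h3 := le_dim A s.toNNReal (Real.toNNReal_pos.mpr hs0)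
        (by rwa [Real.coe_toNNReal s hs0.le])
      rw [hA] at h3
      have h4 : ENNReal.ofReal s ≤ ENNReal.ofReal h := h3
      rw [ENNReal.ofReal_le_ofReal_iff hh.le] at h4
      linarith
    rw [PP_split A K] at h2
    have h5 : ENNReal.ofReal (Phi (cnt A) K s) ≤ 1 := le_trans le_self_add h2
    rwa [← ENNReal.ofReal_one, ENNReal.ofReal_le_ofReal_iff zero_le_one] at h5
  have h2 : Tendsto (Phi (cnt A) K) (𝓝[>] h) (𝓝 (Phi (cnt A) K h)) :=
    ((Phi_cont _ K).tendsto h).mono_left nhdsWithin_le_nhds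
  exact le_of_tendsto h2 (eventually_nhdsWithin_of_forall h1)

lemma lower (A : Set Alph) (c : ℝ) (hc : 0 < c) (h : ℝ) (hh : 1 / 2 + c ≤ h)
    (hA : dimH (SS.J A) = ENNReal.ofReal h) (K : ℕ) :
    1 - tau c K ≤ Phi (cnt A) K h := by
  have h1 : ∀ s : ℝ, s ∈ Ioo (1 / 2 + c / 2) h → 1 - tau c K ≤ Phi (cnt A) K s := by
    intro s hs
    have hs0 : 0 < s := by linarith [hs.1]
    have h2 : 1 < PP A s := by
      by_contra hcon
      push Not at hcon
      have h3 := dim_le A s.toNNReal (by rwa [Real.coe_toNNReal s hs0.le])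
      rw [hA] at h3
      have h4 : ENNReal.ofReal h ≤ ENNReal.ofReal s := h3
      rw [ENNReal.ofReal_le_ofReal_iff hs0.le] at h4
      linarith [hs.2]
    rw [PP_split A K] at h2
    have h3 := lt_of_lt_of_le h2 (add_le_add_right (tail_le A c hc s hs.1.le K)
      (ENNReal.ofReal (Phi (cnt A) K s)))
    rw [← ENNReal.ofReal_add (Phi_nonneg _ _ _) (tau_pos c hc K).le, ← ENNReal.ofReal_one,
      ENNReal.ofReal_lt_ofReal_iff_of_nonneg zero_le_one] at h3
    linarith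
  have h2 : Tendsto (Phi (cnt A) K) (𝓝[<] h) (𝓝 (Phi (cnt A) K h)) :=
    ((Phi_cont _ K).tendsto h).mono_left nhdsWithin_le_nhds
  apply ge_of_tendsto h2
  have h3 : Ioo (1 / 2 + c / 2) h ∈ 𝓝[<] h := Ioo_mem_nhdsLT (by linarith)
  exact eventually_of_mem h3 h1

/-- the pieces of the covers -/
def piece (c : ℝ) (K : ℕ) (j : (k : Fin (K + 1)) → Fin (NN k + 1)) : Set ℝ :=
  {h | ∑ k, (j k : ℝ) * rr k ^ h ≤ 1 ∧ 1 - tau c K ≤ ∑ k, (j k : ℝ) * rr k ^ h}

lemma piece_dist (c : ℝ) (hc : 0 < c) (K : ℕ) (j : (k : Fin (K + 1)) → Fin (NN k + 1))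
    (ht : tau c K ≤ 1 / 2) (x y : ℝ) (hx : x ∈ piece c K j) (hy : y ∈ piece c K j) (hxy : x ≤ y) :
    y - x ≤ 2 * tau c K := by
  have ht0 := tau_pos c hc K
  -- decay of the head
  have h1 : ∑ k, (j k : ℝ) * rr k ^ y ≤ (1 / 16 : ℝ) ^ (y - x) * ∑ k, (j k : ℝ) * rr k ^ x := by
    rw [Finset.mul_sum]
    apply Finset.sum_le_sum
    intro k _
    have h2 : rr k ^ y = rr k ^ (y - x) * rr k ^ x := by
      rw [← Real.rpow_add (rr_pos k)]; congr 1; ring
    have h3 : rr k ^ (y - x) ≤ (1 / 16 : ℝ) ^ (y - x) :=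
      Real.rpow_le_rpow (rr_pos k).le (rr_le k) (by linarith)
    rw [h2]
    have h4 : 0 ≤ (j k : ℝ) * rr k ^ x := mul_nonneg (Nat.cast_nonneg _) (Real.rpow_nonneg (rr_pos k).le _)
    nlinarith
  have h2 : (1 : ℝ) - tau c K ≤ (1 / 16 : ℝ) ^ (y - x) := by
    have h3 : (0 : ℝ) < (1 / 16 : ℝ) ^ (y - x) := by positivity
    have h4 := hx.1
    have h5 := hy.2
    nlinarith
  have h3 : 1 + (y - x) ≤ (16 : ℝ) ^ (y - x) := by
    rw [Real.rpow_def_of_pos (by norm_num)]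
    have h4 := Real.add_one_le_exp (Real.log 16 * (y - x))
    have h5 : 1 ≤ Real.log 16 := by
      rw [Real.le_log_iff_exp_le (by norm_num)]
      have := Real.exp_one_lt_d9
      linarith
    nlinarith
  have h4 : (1 / 16 : ℝ) ^ (y - x) * (16 : ℝ) ^ (y - x) = 1 := by
    rw [← Real.mul_rpow (by norm_num) (by norm_num)]
    norm_num
  have h5 : (0 : ℝ) < (16 : ℝ) ^ (y - x) := by positivity
  have h6 : (1 - tau c K) * (1 + (y - x)) ≤ 1 := by
    calc (1 - tau c K) * (1 + (y - x)) ≤ (1 / 16 : ℝ) ^ (y - x) * (16 : ℝ) ^ (y - x) :=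
          mul_le_mul h2 h3 (by linarith) (by positivity)
      _ = 1 := h4
  nlinarith

lemma piece_ediam (c : ℝ) (hc : 0 < c) (K : ℕ) (j : (k : Fin (K + 1)) → Fin (NN k + 1))
    (ht : tau c K ≤ 1 / 2) : Metric.ediam (piece c K j) ≤ ENNReal.ofReal (2 * tau c K) := by
  apply Metric.ediam_le
  intro x hx y hy
  rw [edist_dist, Real.dist_eq]
  apply ENNReal.ofReal_le_ofReal
  rcases le_total x y with h | h
  · rw [abs_sub_comm, abs_of_nonneg (by linarith)]
    exact piece_dist c hc K j ht x y hx hy h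
  · rw [abs_of_nonneg (by linarith)]
    exact piece_dist c hc K j ht y x hy hx h

lemma cover (c : ℝ) (hc : 0 < c) (K : ℕ) : Spec ∩ Ici (1 / 2 + c) ⊆ ⋃ j, piece c K j := by
  rintro h ⟨⟨h0, A, hA⟩, hh⟩
  rw [mem_Ici] at hh
  rw [mem_iUnion]
  refine ⟨fun k => ⟨cnt A k, Nat.lt_succ_of_le (cnt_le A k)⟩, ?_⟩
  have h1 : ∑ k : Fin (K + 1), ((⟨cnt A k, Nat.lt_succ_of_le (cnt_le A k)⟩ : Fin (NN k + 1)) : ℝ) * rr k ^ h =
      Phi (cnt A) K h := by
    unfold Phi
    rw [Finset.sum_range]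
  constructor
  · change ∑ k : Fin (K + 1), ((⟨cnt A k, Nat.lt_succ_of_le (cnt_le A k)⟩ : Fin (NN k + 1)) : ℝ) * rr k ^ h ≤ 1
    rw [h1]
    exact upper A h (by linarith) hA K
  · change _ ≤ ∑ k : Fin (K + 1), ((⟨cnt A k, Nat.lt_succ_of_le (cnt_le A k)⟩ : Fin (NN k + 1)) : ℝ) * rr k ^ h
    rw [h1]
    exact lower A c hc h hh hA K

lemma card_le (K : ℕ) : (Fintype.card ((k : Fin (K + 1)) → Fin (NN k + 1)) : ℝ) ≤
    (2 : ℝ) ^ (2 * (K + 1) * (q K : ℝ)) := by
  rw [Fintype.card_pi]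
  push_cast
  have h1 : ∀ k : Fin (K + 1), ((Fintype.card (Fin (NN k + 1)) : ℕ) : ℝ) ≤ (2 : ℝ) ^ (2 * (q K : ℝ)) := by
    intro k
    rw [Fintype.card_fin]
    push_cast
    rw [NN_cast]
    have h2 : (q k : ℝ) ≤ q K := by exact_mod_cast q_mono (by have := k.2; omega : (k : ℕ) ≤ K)
    have h3 : (1 : ℝ) ≤ q K := by exact_mod_cast (by have := q_gt K; omega : 1 ≤ q K)
    have h4 : (1 : ℝ) ≤ (2 : ℝ) ^ (q K : ℝ) := Real.one_le_rpow (by norm_num) (by linarith)
    have h5 : (2 : ℝ) ^ (q k : ℝ) ≤ (2 : ℝ) ^ (q K : ℝ) :=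
      Real.rpow_le_rpow_of_exponent_le (by norm_num) h2
    have h6 : (2 : ℝ) ^ (2 * (q K : ℝ)) = (2 : ℝ) ^ (q K : ℝ) * (2 : ℝ) ^ (q K : ℝ) := by
      rw [← Real.rpow_add (by norm_num)]; congr 1; ring
    have h7 : (2 : ℝ) ≤ (2 : ℝ) ^ (q K : ℝ) := by
      calc (2 : ℝ) = (2 : ℝ) ^ (1 : ℝ) := (Real.rpow_one 2).symm
        _ ≤ _ := Real.rpow_le_rpow_of_exponent_le (by norm_num) h3
    rw [h6]
    nlinarith
  calc ∏ k : Fin (K + 1), ((Fintype.card (Fin (NN k + 1)) : ℕ) : ℝ)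
      ≤ ∏ k : Fin (K + 1), (2 : ℝ) ^ (2 * (q K : ℝ)) :=
        Finset.prod_le_prod (fun _ _ => Nat.cast_nonneg _) fun k _ => h1 k
    _ = ((2 : ℝ) ^ (2 * (q K : ℝ))) ^ (K + 1) := by simp
    _ = _ := by
        rw [← Real.rpow_natCast, ← Real.rpow_mul (by norm_num)]
        congr 1
        push_cast
        ring

lemma tau_tendsto (c : ℝ) (hc : 0 < c) : Tendsto (fun K => tau c K) atTop (𝓝 0) := by
  have hlt := two_lt c hc
  have h1 : ∀ K, tau c K ≤ ((2 : ℝ) ^ (-c)) ^ K / (1 - (2 : ℝ) ^ (-c)) := by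
    intro K
    unfold tau
    apply div_le_div_of_nonneg_right _ (by linarith)
    rw [← Real.rpow_natCast, ← Real.rpow_mul (by norm_num)]
    apply Real.rpow_le_rpow_of_exponent_le (by norm_num)
    have : (K : ℝ) ≤ q (K + 1) := by exact_mod_cast (by have := q_gt (K + 1); omega : K ≤ q (K + 1))
    nlinarith
  have h2 : Tendsto (fun K : ℕ => ((2 : ℝ) ^ (-c)) ^ K / (1 - (2 : ℝ) ^ (-c))) atTop (𝓝 (0 / (1 - (2 : ℝ) ^ (-c)))) :=
    (tendsto_pow_atTop_nhds_zero_of_lt_one (by positivity) hlt).div_const _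
  rw [zero_div] at h2
  exact squeeze_zero (fun K => (tau_pos c hc K).le) h1 h2

lemma count_small (c : ℝ) (hc : 0 < c) (η : ℝ) (hη : 0 < η) : ∀ᶠ K : ℕ in atTop,
    (Fintype.card ((k : Fin (K + 1)) → Fin (NN k + 1)) : ℝ) * (2 * tau c K) ^ η ≤ 1 := by
  have hlt := two_lt c hc
  have hB : (0 : ℝ) < 2 / (1 - (2 : ℝ) ^ (-c)) := by
    have : 0 < 1 - (2 : ℝ) ^ (-c) := by linarith
    positivity
  obtain ⟨b, hb⟩ : ∃ b : ℝ, 0 ≤ b ∧ 2 / (1 - (2 : ℝ) ^ (-c)) ≤ (2 : ℝ) ^ b := by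
    obtain ⟨n, hn⟩ := pow_unbounded_of_one_lt (2 / (1 - (2 : ℝ) ^ (-c))) (by norm_num : (1 : ℝ) < 2)
    exact ⟨n, Nat.cast_nonneg _, by rw [Real.rpow_natCast]; exact hn.le⟩
  obtain ⟨K0, hK0⟩ := exists_nat_gt ((2 + b * η) / (c * η))
  rw [eventually_atTop]
  refine ⟨K0, fun K hK => ?_⟩
  have hKr : (K0 : ℝ) ≤ K := by exact_mod_cast hK
  have h1 : 2 + b * η < c * η * K := by
    rw [div_lt_iff₀ (by positivity)] at hK0
    nlinarith [mul_pos hc hη]
  have h2 : (2 * tau c K) ^ η ≤ (2 : ℝ) ^ (b * η - c * η * q (K + 1)) := by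
    have h3 : 2 * tau c K ≤ (2 : ℝ) ^ (b - c * q (K + 1)) := by
      have h4 : 2 * tau c K = 2 / (1 - (2 : ℝ) ^ (-c)) * (2 : ℝ) ^ (-(c * q (K + 1))) := by
        unfold tau; ring
      have h5 : (2 : ℝ) ^ (b - c * q (K + 1)) = (2 : ℝ) ^ b * (2 : ℝ) ^ (-(c * q (K + 1))) := by
        rw [← Real.rpow_add (by norm_num)]
        congr 1
      rw [h4, h5]
      exact mul_le_mul_of_nonneg_right hb.2 (by positivity)
    calc (2 * tau c K) ^ η ≤ ((2 : ℝ) ^ (b - c * q (K + 1))) ^ η :=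
          Real.rpow_le_rpow (by have := tau_pos c hc K; positivity) h3 hη.le
      _ = _ := by
          rw [← Real.rpow_mul (by norm_num)]
          congr 1
          ring
  calc _ ≤ (2 : ℝ) ^ (2 * (K + 1) * (q K : ℝ)) * (2 : ℝ) ^ (b * η - c * η * q (K + 1)) :=
        mul_le_mul (card_le K) h2 (Real.rpow_nonneg (by have := tau_pos c hc K; positivity) _)
          (by positivity)
    _ = (2 : ℝ) ^ (2 * (K + 1) * (q K : ℝ) + (b * η - c * η * q (K + 1))) := by
        rw [← Real.rpow_add (by norm_num)]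
    _ ≤ 1 := by
        apply Real.rpow_le_one_of_one_le_of_nonpos (by norm_num)
        have h5 : (q (K + 1) : ℝ) = ((K : ℝ) + 2) ^ 2 * q K := by
          rw [q_succ]; push_cast; ring
        rw [h5]
        have h6 : (1 : ℝ) ≤ q K := by exact_mod_cast (by have := q_gt K; omega : 1 ≤ q K)
        have h7 : (0 : ℝ) ≤ K := Nat.cast_nonneg _
        have h8 : (2 * ((K : ℝ) + 1) + b * η) ≤ c * η * ((K : ℝ) + 2) ^ 2 := by
          have h9 : 0 ≤ b * η := mul_nonneg hb.1 hη.le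
          have h10 : 0 < c * η := mul_pos hc hη
          nlinarith
        have h11 : b * η ≤ b * η * q K := by
          have h9 : 0 ≤ b * η := mul_nonneg hb.1 hη.le
          nlinarith
        nlinarith

/-- the spectrum above `1/2` has dimension zero -/
theorem dim_above (c : ℝ) (hc : 0 < c) : dimH (Spec ∩ Ici (1 / 2 + c)) = 0 := by
  have key : ∀ η : ℝ≥0, 0 < η → dimH (Spec ∩ Ici (1 / 2 + c)) ≤ η := by
    intro η hη
    have hη' : (0 : ℝ) < η := by exact_mod_cast hη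
    apply dimH_le_of_hausdorffMeasure_ne_top
    have hhalf : ∀ᶠ K : ℕ in atTop, tau c K ≤ 1 / 2 :=
      ((tau_tendsto c hc).eventually (gt_mem_nhds (by norm_num : (0 : ℝ) < 1 / 2))).mono fun K h => h.le
    have h1 : Measure.hausdorffMeasure (η : ℝ) (Spec ∩ Ici (1 / 2 + c)) ≤
        liminf (fun K : ℕ => ∑ j, Metric.ediam (piece c K j) ^ (η : ℝ)) atTop := by
      apply Measure.hausdorffMeasure_le_liminf_sum
        (ι := fun K => (k : Fin (K + 1)) → Fin (NN k + 1)) (η : ℝ) _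
        (fun K => ENNReal.ofReal (2 * tau c K))
      · have h2 := (tau_tendsto c hc).const_mul 2
        rw [mul_zero] at h2
        have := ENNReal.tendsto_ofReal h2
        simpa using this
      · filter_upwards [hhalf] with K hK j
        exact piece_ediam c hc K j hK
      · exact Eventually.of_forall fun K => cover c hc K
    have h2 : liminf (fun K : ℕ => ∑ j, Metric.ediam (piece c K j) ^ (η : ℝ)) atTop ≤ 1 := by
      apply liminf_le_of_frequently_le'
      apply Eventually.frequently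
      filter_upwards [hhalf, count_small c hc η hη'] with K hK hK2
      calc ∑ j, Metric.ediam (piece c K j) ^ (η : ℝ)
          ≤ ∑ _j : ((k : Fin (K + 1)) → Fin (NN k + 1)), ENNReal.ofReal ((2 * tau c K) ^ (η : ℝ)) := by
            apply Finset.sum_le_sum
            intro j _
            rw [← ENNReal.ofReal_rpow_of_nonneg (by have := tau_pos c hc K; positivity) hη'.le]
            exact ENNReal.rpow_le_rpow (piece_ediam c hc K j hK) hη'.le
        _ = ENNReal.ofReal ((Fintype.card ((k : Fin (K + 1)) → Fin (NN k + 1)) : ℝ) *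
              (2 * tau c K) ^ (η : ℝ)) := by
            rw [Finset.sum_const, nsmul_eq_mul, Finset.card_univ, ENNReal.ofReal_mul (by positivity),
              ENNReal.ofReal_natCast]
        _ ≤ 1 := by
            rw [← ENNReal.ofReal_one]
            exact ENNReal.ofReal_le_ofReal hK2
    exact ((h1.trans h2).trans_lt ENNReal.one_lt_top).ne
  apply le_antisymm _ bot_le
  apply ENNReal.le_of_forall_pos_le_add
  intro ε hε _
  simpa using key ε hε

end Pool.Agent.Helper50.DimSpec
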