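import Mathlib

/-!
# A slow percolating set in the square grid (threshold three): the time function

The time function `f` on the quadrant `x, y ≥ 1`: the bands `x + y ∈ {3k+2, 3k+3}` are traversed
alternately in the two directions, consecutive bands are joined through one crossing vertex with
`x + y = 3k+4`.
-/

set_option autoImplicit false

namespace Pool.Agent.Helper50.PercC

/-- the time at the coordinate `q = 0` of band `k` -/
def g (k : ℤ) : ℤ := 3 * k * k + k + 1

theorem g_succ (k : ℤ) : g (k + 1) = g k + 6 * k + 4 := by unfold g; ring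

theorem g_zero : g 0 = 1 := rfl

/-- time bounds inside a band -/
theorem g_low {k : ℤ} (hk : 1 ≤ k) : 4 ≤ g k + (2 - 3 * k) := by
  unfold g
  nlinarith [mul_nonneg (show (0 : ℤ) ≤ k - 1 by omega) (show (0 : ℤ) ≤ k by omega)]

/-- the non-seeds of band `k` (`c = 0, 1` the band, `c = 2` the crossing vertex) -/
def NS (k c q : ℤ) : Prop :=
  0 ≤ k ∧ ((c ≠ 2 ∧ (k = 0 → 0 ≤ q) ∧ (1 ≤ k → 2 - 3 * k ≤ q) ∧ q ≤ 3 * k + 1) ∨
    (c = 2 ∧ q = 3 * k + 2))

instance (k c q : ℤ) : Decidable (NS k c q) := by unfold NS; infer_instance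

/-- the time in terms of the band, the level and the coordinate along the band -/
def F (k c q : ℤ) : ℤ := if NS k c q then g k + q else 0

theorem F_pos_iff (k c q : ℤ) : 0 < F k c q ↔ NS k c q := by
  unfold F
  split_ifs with h
  · refine ⟨fun _ => h, fun _ => ?_⟩
    obtain ⟨h0, h1⟩ := h
    rcases eq_or_lt_of_le h0 with h2 | h2
    · subst h2
      rw [g_zero]
      rcases h1 with ⟨_, h3, _, _⟩ | ⟨_, h3⟩
      · have := h3 rfl; omega
      · omega
    · have := g_low (k := k) (by omega)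
      rcases h1 with ⟨_, _, h3, _⟩ | ⟨_, h3⟩
      · have := h3 (by omega); omega
      · omega
  · exact ⟨fun h' => absurd h' (lt_irrefl 0), fun h' => absurd h' h⟩

theorem F_nonneg (k c q : ℤ) : 0 ≤ F k c q := by
  by_cases h : NS k c q
  · exact ((F_pos_iff k c q).2 h).le
  · unfold F; rw [if_neg h]

theorem F_of_ns {k c q : ℤ} (h : NS k c q) : F k c q = g k + q := if_pos h

theorem F_of_not {k c q : ℤ} (h : ¬ NS k c q) : F k c q = 0 := if_neg h

/-- four numbers are `t - 1`, `t + 1`, `0`, `0` in some order -/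
def Four (t a b c d : ℤ) : Prop :=
  ({a, b, c, d} : Multiset ℤ) = {t - 1, t + 1, 0, 0}

theorem four_perm1 {t a b c d : ℤ} (h : Four t a b c d) : Four t b a c d := by
  unfold Four at *; rw [← h]
  simp only [Multiset.insert_eq_cons]
  rw [Multiset.cons_swap]

theorem four_perm2 {t a b c d : ℤ} (h : Four t a b c d) : Four t a c b d := by
  unfold Four at *; rw [← h]
  simp only [Multiset.insert_eq_cons]
  rw [Multiset.cons_swap c b]

theorem four_perm3 {t a b c d : ℤ} (h : Four t a b c d) : Four t a b d c := by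
  unfold Four at *; rw [← h]
  simp only [Multiset.insert_eq_cons]
  congr 2
  exact Multiset.pair_comm d c

/-- any permutation -/
theorem four_perm {t a b c d a' b' c' d' : ℤ} (h : Four t a b c d)
    (e : ({a', b', c', d'} : Multiset ℤ) = {a, b, c, d}) : Four t a' b' c' d' := by
  unfold Four at *; rw [e, h]

theorem four_base {t a b c d : ℤ} (h1 : a = t - 1) (h2 : b = t + 1) (h3 : c = 0) (h4 : d = 0) :
    Four t a b c d := by
  subst h1 h2 h3 h4; rfl

/-- the four neighbours in terms of the band coordinates -/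
theorem core0 {k q : ℤ} (h : NS k 0 q) (hp : (q - k) % 2 = 0) :
    Four (F k 0 q) (F k 1 (q - 1)) (F k 1 (q + 1)) (F (k - 1) 2 (-(q - 1)))
      (F (k - 1) 2 (-(q + 1))) := by
  have hs := g_succ (k - 1)
  rw [sub_add_cancel] at hs
  have hns := h
  obtain ⟨h0, h1⟩ := h
  rcases h1 with ⟨_, h1, h2, h3⟩ | ⟨h1, _⟩
  swap
  · omega
  have e1 : F k 1 (q + 1) = F k 0 q + 1 := by
    rw [F_of_ns hns, F_of_ns]
    · ring
    · refine ⟨h0, Or.inl ⟨by norm_num, fun h => ?_, fun h => ?_, ?_⟩⟩
      · have := h1 h; omega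
      · have := h2 h; omega
      · omega
  have e3 : F (k - 1) 2 (-(q + 1)) = 0 := by
    apply F_of_not
    rintro ⟨a1, ⟨a2, _⟩ | ⟨_, a3⟩⟩
    · exact a2 rfl
    · have := h2 (by omega); omega
  by_cases hq : NS k 1 (q - 1)
  · have e2 : F k 1 (q - 1) = F k 0 q - 1 := by
      rw [F_of_ns hns, F_of_ns hq]; ring
    have e4 : F (k - 1) 2 (-(q - 1)) = 0 := by
      apply F_of_not
      rintro ⟨a1, ⟨a2, _⟩ | ⟨_, a3⟩⟩
      · exact a2 rfl
      · obtain ⟨_, ⟨_, _, b3, _⟩ | ⟨b1, _⟩⟩ := hq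
        · have := b3 (by omega); omega
        · omega
    exact four_base e2 e1 e4 e3
  · have e2 : F k 1 (q - 1) = 0 := F_of_not hq
    -- `q` is the first coordinate of the band
    have hq0 : (k = 0 ∧ q = 0) ∨ (1 ≤ k ∧ q = 2 - 3 * k) := by
      by_contra hcon
      push Not at hcon
      apply hq
      refine ⟨h0, Or.inl ⟨by norm_num, fun h => ?_, fun h => ?_, by omega⟩⟩
      · have := h1 h; have := hcon.1 h; omega
      · have := h2 h; have := hcon.2 h; omega
    rcases hq0 with ⟨hk, hq0⟩ | ⟨hk, hq0⟩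
    · subst hk hq0
      have e4 : F (0 - 1) 2 (-(0 - 1)) = 0 := by
        apply F_of_not
        rintro ⟨a1, _⟩
        omega
      refine four_base ?_ e1 e4 e3
      rw [e2, F_of_ns hns, g_zero]; norm_num
    · have e4 : F (k - 1) 2 (-(q - 1)) = F k 0 q - 1 := by
        rw [F_of_ns hns, F_of_ns]
        · rw [hs]; omega
        · exact ⟨by omega, Or.inr ⟨rfl, by omega⟩⟩
      exact four_perm2 (four_perm1 (four_perm2 (four_base e4 e1 e2 e3)))

theorem core1 {k q : ℤ} (h : NS k 1 q) (hp : (q - k) % 2 = 1) :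
    Four (F k 1 q) (F k 0 (q - 1)) (F k 0 (q + 1)) (F k 2 (q - 1)) (F k 2 (q + 1)) := by
  have hns := h
  obtain ⟨h0, h1⟩ := h
  rcases h1 with ⟨_, h1, h2, h3⟩ | ⟨h1, _⟩
  swap
  · omega
  have e1 : F k 0 (q - 1) = F k 1 q - 1 := by
    rw [F_of_ns hns, F_of_ns]
    · ring
    · refine ⟨h0, Or.inl ⟨by norm_num, fun h => ?_, fun h => ?_, ?_⟩⟩
      · have := h1 h; omega
      · have := h2 h; omega
      · omega
  have e2 : F k 2 (q - 1) = 0 := by
    apply F_of_not
    rintro ⟨a1, ⟨a2, _⟩ | ⟨_, a3⟩⟩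
    · exact a2 rfl
    · omega
  by_cases hq : q = 3 * k + 1
  · have e3 : F k 0 (q + 1) = 0 := by
      apply F_of_not
      rintro ⟨a1, ⟨a2, a3, a4, a5⟩ | ⟨a2, _⟩⟩
      · omega
      · omega
    have e4 : F k 2 (q + 1) = F k 1 q + 1 := by
      rw [F_of_ns hns, F_of_ns]
      · ring
      · exact ⟨h0, Or.inr ⟨rfl, by omega⟩⟩
    exact four_perm3 (four_perm2 (four_perm3 (four_base e1 e4 e2 e3)))
  · have e3 : F k 0 (q + 1) = F k 1 q + 1 := by
      rw [F_of_ns hns, F_of_ns]
      · ring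
      · refine ⟨h0, Or.inl ⟨by norm_num, fun h => ?_, fun h => ?_, ?_⟩⟩
        · have := h1 h; omega
        · have := h2 h; omega
        · omega
    have e4 : F k 2 (q + 1) = 0 := by
      apply F_of_not
      rintro ⟨a1, ⟨a2, _⟩ | ⟨_, a3⟩⟩
      · exact a2 rfl
      · omega
    exact four_base e1 e3 e2 e4

theorem core2 {k q : ℤ} (h : NS k 2 q) :
    Four (F k 2 q) (F k 1 (q - 1)) (F (k + 1) 0 (-(q - 1))) (F k 1 (q + 1))
      (F (k + 1) 0 (-(q + 1))) := by
  have hs := g_succ k
  have hns := h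
  obtain ⟨h0, h1⟩ := h
  rcases h1 with ⟨h1, _⟩ | ⟨_, h1⟩
  · exact absurd rfl h1
  have e1 : F k 1 (q - 1) = F k 2 q - 1 := by
    rw [F_of_ns hns, F_of_ns]
    · ring
    · exact ⟨h0, Or.inl ⟨by norm_num, fun h => by omega, fun h => by omega, by omega⟩⟩
  have e2 : F (k + 1) 0 (-(q - 1)) = F k 2 q + 1 := by
    rw [F_of_ns hns, F_of_ns]
    · rw [hs]; omega
    · exact ⟨by omega, Or.inl ⟨by norm_num, fun h => by omega, fun h => by omega, by omega⟩⟩
  have e3 : F k 1 (q + 1) = 0 := by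
    apply F_of_not
    rintro ⟨a1, ⟨a2, a3, a4, a5⟩ | ⟨a2, _⟩⟩
    · omega
    · omega
  have e4 : F (k + 1) 0 (-(q + 1)) = 0 := by
    apply F_of_not
    rintro ⟨a1, ⟨a2, a3, a4, a5⟩ | ⟨a2, _⟩⟩
    · have := a4 (by omega); omega
    · omega
  exact four_base e1 e2 e3 e4

/-- the coordinate along the band -/
def qq (k x y : ℤ) : ℤ := if k % 2 = 0 then x - y else y - x

/-- the time function on the quadrant -/
def f (x y : ℤ) : ℤ := F ((x + y - 2) / 3) ((x + y - 2) % 3) (qq ((x + y - 2) / 3) x y)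

theorem f_eq {x y k c : ℤ} (h : x + y = 3 * k + 2 + c) (h0 : 0 ≤ c) (h2 : c ≤ 2) :
    f x y = F k c (qq k x y) := by
  have e1 : (x + y - 2) / 3 = k := by omega
  have e2 : (x + y - 2) % 3 = c := by omega
  rw [f, e1, e2]

theorem f_nonneg (x y : ℤ) : 0 ≤ f x y := F_nonneg _ _ _

/-- the four neighbours of a non-seed -/
theorem f_local {x y : ℤ} (h : 0 < f x y) :
    Four (f x y) (f (x + 1) y) (f (x - 1) y) (f x (y + 1)) (f x (y - 1)) := by
  obtain ⟨k, c, hkc, hc0, hc2⟩ : ∃ k c : ℤ, x + y = 3 * k + 2 + c ∧ 0 ≤ c ∧ c ≤ 2 :=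
    ⟨(x + y - 2) / 3, (x + y - 2) % 3, by omega, by omega, by omega⟩
  rw [f_eq hkc hc0 hc2] at h ⊢
  have hns := (F_pos_iff _ _ _).1 h
  rcases (by omega : c = 0 ∨ c = 1 ∨ c = 2) with rfl | rfl | rfl
  · have e1 : f (x + 1) y = F k 1 (qq k (x + 1) y) := f_eq (by omega) (by omega) (by omega)
    have e2 : f (x - 1) y = F (k - 1) 2 (qq (k - 1) (x - 1) y) :=
      f_eq (by omega) (by omega) (by omega)
    have e3 : f x (y + 1) = F k 1 (qq k x (y + 1)) := f_eq (by omega) (by omega) (by omega)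
    have e4 : f x (y - 1) = F (k - 1) 2 (qq (k - 1) x (y - 1)) :=
      f_eq (by omega) (by omega) (by omega)
    rw [e1, e2, e3, e4]
    rcases (by omega : k % 2 = 0 ∨ k % 2 = 1) with hk | hk
    · have q0 : qq k x y = x - y := if_pos hk
      have q1 : qq k (x + 1) y = (x - y) + 1 := by rw [qq, if_pos hk]; ring
      have q2 : qq (k - 1) (x - 1) y = -((x - y) - 1) := by rw [qq, if_neg (by omega)]; ring
      have q3 : qq k x (y + 1) = (x - y) - 1 := by rw [qq, if_pos hk]; ring
      have q4 : qq (k - 1) x (y - 1) = -((x - y) + 1) := by rw [qq, if_neg (by omega)]; ring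
      rw [q0] at hns
      rw [q0, q1, q2, q3, q4]
      exact four_perm (core0 hns (by omega)) (by simp only [Multiset.insert_eq_cons, ← Multiset.singleton_add]; abel)
    · have q0 : qq k x y = y - x := if_neg (by omega)
      have q1 : qq k (x + 1) y = (y - x) - 1 := by rw [qq, if_neg (by omega)]; ring
      have q2 : qq (k - 1) (x - 1) y = -((y - x) + 1) := by rw [qq, if_pos (by omega)]; ring
      have q3 : qq k x (y + 1) = (y - x) + 1 := by rw [qq, if_neg (by omega)]; ring
      have q4 : qq (k - 1) x (y - 1) = -((y - x) - 1) := by rw [qq, if_pos (by omega)]; ring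
      rw [q0] at hns
      rw [q0, q1, q2, q3, q4]
      exact four_perm (core0 hns (by omega)) (by simp only [Multiset.insert_eq_cons, ← Multiset.singleton_add]; abel)
  · have e1 : f (x + 1) y = F k 2 (qq k (x + 1) y) := f_eq (by omega) (by omega) (by omega)
    have e2 : f (x - 1) y = F k 0 (qq k (x - 1) y) := f_eq (by omega) (by omega) (by omega)
    have e3 : f x (y + 1) = F k 2 (qq k x (y + 1)) := f_eq (by omega) (by omega) (by omega)
    have e4 : f x (y - 1) = F k 0 (qq k x (y - 1)) := f_eq (by omega) (by omega) (by omega)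
    rw [e1, e2, e3, e4]
    rcases (by omega : k % 2 = 0 ∨ k % 2 = 1) with hk | hk
    · have q0 : qq k x y = x - y := if_pos hk
      have q1 : qq k (x + 1) y = (x - y) + 1 := by rw [qq, if_pos hk]; ring
      have q2 : qq k (x - 1) y = (x - y) - 1 := by rw [qq, if_pos hk]; ring
      have q3 : qq k x (y + 1) = (x - y) - 1 := by rw [qq, if_pos hk]; ring
      have q4 : qq k x (y - 1) = (x - y) + 1 := by rw [qq, if_pos hk]; ring
      rw [q0] at hns
      rw [q0, q1, q2, q3, q4]
      exact four_perm (core1 hns (by omega)) (by simp only [Multiset.insert_eq_cons, ← Multiset.singleton_add]; abel)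
    · have q0 : qq k x y = y - x := if_neg (by omega)
      have q1 : qq k (x + 1) y = (y - x) - 1 := by rw [qq, if_neg (by omega)]; ring
      have q2 : qq k (x - 1) y = (y - x) + 1 := by rw [qq, if_neg (by omega)]; ring
      have q3 : qq k x (y + 1) = (y - x) + 1 := by rw [qq, if_neg (by omega)]; ring
      have q4 : qq k x (y - 1) = (y - x) - 1 := by rw [qq, if_neg (by omega)]; ring
      rw [q0] at hns
      rw [q0, q1, q2, q3, q4]
      exact four_perm (core1 hns (by omega)) (by simp only [Multiset.insert_eq_cons, ← Multiset.singleton_add]; abel)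
  · have e1 : f (x + 1) y = F (k + 1) 0 (qq (k + 1) (x + 1) y) :=
      f_eq (by omega) (by omega) (by omega)
    have e2 : f (x - 1) y = F k 1 (qq k (x - 1) y) := f_eq (by omega) (by omega) (by omega)
    have e3 : f x (y + 1) = F (k + 1) 0 (qq (k + 1) x (y + 1)) :=
      f_eq (by omega) (by omega) (by omega)
    have e4 : f x (y - 1) = F k 1 (qq k x (y - 1)) := f_eq (by omega) (by omega) (by omega)
    rw [e1, e2, e3, e4]
    rcases (by omega : k % 2 = 0 ∨ k % 2 = 1) with hk | hk
    · have q0 : qq k x y = x - y := if_pos hk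
      have q1 : qq (k + 1) (x + 1) y = -((x - y) + 1) := by rw [qq, if_neg (by omega)]; ring
      have q2 : qq k (x - 1) y = (x - y) - 1 := by rw [qq, if_pos hk]; ring
      have q3 : qq (k + 1) x (y + 1) = -((x - y) - 1) := by rw [qq, if_neg (by omega)]; ring
      have q4 : qq k x (y - 1) = (x - y) + 1 := by rw [qq, if_pos hk]; ring
      rw [q0] at hns
      rw [q0, q1, q2, q3, q4]
      exact four_perm (core2 hns) (by simp only [Multiset.insert_eq_cons, ← Multiset.singleton_add]; abel)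
    · have q0 : qq k x y = y - x := if_neg (by omega)
      have q1 : qq (k + 1) (x + 1) y = -((y - x) - 1) := by rw [qq, if_pos (by omega)]; ring
      have q2 : qq k (x - 1) y = (y - x) + 1 := by rw [qq, if_neg (by omega)]; ring
      have q3 : qq (k + 1) x (y + 1) = -((y - x) + 1) := by rw [qq, if_pos (by omega)]; ring
      have q4 : qq k x (y - 1) = (y - x) - 1 := by rw [qq, if_neg (by omega)]; ring
      rw [q0] at hns
      rw [q0, q1, q2, q3, q4]
      exact four_perm (core2 hns) (by simp only [Multiset.insert_eq_cons, ← Multiset.singleton_add]; abel)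

/-! ### elementary facts on `f` -/

theorem f_ns {x y : ℤ} (h : 0 < f x y) : ∃ k c : ℤ, x + y = 3 * k + 2 + c ∧ 0 ≤ c ∧ c ≤ 2 ∧
    NS k c (qq k x y) ∧ f x y = g k + qq k x y := by
  refine ⟨(x + y - 2) / 3, (x + y - 2) % 3, by omega, by omega, by omega, ?_, ?_⟩
  · exact (F_pos_iff _ _ _).1 h
  · exact F_of_ns ((F_pos_iff _ _ _).1 h)

theorem f_int {x y : ℤ} (h : 0 < f x y) : 1 ≤ x ∧ 1 ≤ y := by
  obtain ⟨k, c, h1, h2, h3, ⟨h0, h4⟩, -⟩ := f_ns h
  unfold qq at h4
  split_ifs at h4 with hk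
  · rcases h4 with ⟨a1, a2, a3, a4⟩ | ⟨a1, a2⟩
    · rcases (by omega : k = 0 ∨ 1 ≤ k) with h5 | h5
      · have := a2 h5; omega
      · have := a3 h5; omega
    · omega
  · rcases h4 with ⟨a1, a2, a3, a4⟩ | ⟨a1, a2⟩
    · rcases (by omega : k = 0 ∨ 1 ≤ k) with h5 | h5
      · have := a2 h5; omega
      · have := a3 h5; omega
    · omega

theorem f_zero_of_le {x y : ℤ} (h : x ≤ 0 ∨ y ≤ 0) : f x y = 0 := by
  by_contra hne
  have h1 := f_nonneg x y
  have h2 := f_int (lt_of_le_of_ne h1 (Ne.symm hne))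
  omega

theorem f_one {x y : ℤ} (h : f x y = 1) : x = 1 ∧ y = 1 := by
  obtain ⟨k, c, h1, h2, h3, ⟨h0, h4⟩, h5⟩ := f_ns (x := x) (y := y) (by omega)
  rw [h] at h5
  rcases (by omega : k = 0 ∨ 1 ≤ k) with hk | hk
  · subst hk
    rw [g_zero] at h5
    rw [qq, if_pos (by norm_num)] at h4 h5
    rcases h4 with ⟨a1, a2, a3, a4⟩ | ⟨a1, a2⟩
    · omega
    · omega
  · have := g_low hk
    rcases h4 with ⟨a1, a2, a3, a4⟩ | ⟨a1, a2⟩
    · have := a3 hk; omega
    · omega

theorem f_11 : f 1 1 = 1 := by decide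
theorem f_21 : f 2 1 = 2 := by decide
theorem f_12 : f 1 2 = 0 := by decide

/-- the time of the centre -/
def tc (m : ℤ) : ℤ := g (m - 1) + (3 * m - 1)

theorem f_anti {m x y : ℤ} (hm : m % 2 = 1) (h : x + y = 3 * m + 1) (hf : 0 < f x y) :
    x = 3 * m ∧ y = 1 := by
  obtain ⟨k, c, h1, h2, h3, ⟨h0, h4⟩, h5⟩ := f_ns hf
  have hk : k = m - 1 ∧ c = 2 := by omega
  obtain ⟨rfl, rfl⟩ := hk
  rw [qq, if_pos (by omega)] at h4
  omega

theorem f_centre {m : ℤ} (hm : 1 ≤ m) (hm2 : m % 2 = 1) : f (3 * m) 1 = tc m := by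
  have e : f (3 * m) 1 = F (m - 1) 2 (qq (m - 1) (3 * m) 1) := f_eq (by ring) (by omega) (by omega)
  rw [e, qq, if_pos (by omega), F_of_ns, tc]
  exact ⟨by omega, Or.inr ⟨rfl, by omega⟩⟩

theorem f_centre' {m : ℤ} (hm : 1 ≤ m) (hm2 : m % 2 = 1) : f (3 * m - 1) 1 = tc m - 1 := by
  have e : f (3 * m - 1) 1 = F (m - 1) 1 (qq (m - 1) (3 * m - 1) 1) :=
    f_eq (by ring) (by omega) (by omega)
  rw [e, qq, if_pos (by omega), F_of_ns, tc]
  · ring
  · exact ⟨by omega, Or.inl ⟨by norm_num, fun h => by omega, fun h => by omega, by omega⟩⟩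

theorem tc_ge {m : ℤ} (hm : 1 ≤ m) : 3 ≤ tc m := by
  unfold tc g
  nlinarith

theorem f_le {m x y : ℤ} (h : x + y ≤ 3 * m + 1) (hm : 1 ≤ m) : f x y ≤ tc m := by
  by_cases hf : 0 < f x y
  · obtain ⟨k, c, h1, h2, h3, ⟨h0, h4⟩, h5⟩ := f_ns hf
    have hq : qq k x y ≤ 3 * k + 2 := by
      rcases h4 with ⟨a1, a2, a3, a4⟩ | ⟨a1, a2⟩ <;> omega
    have hk : k ≤ m - 1 := by omega
    have : g k + (3 * k + 2) ≤ tc m := by
      unfold tc g
      nlinarith [mul_nonneg (show (0 : ℤ) ≤ m - 1 - k by omega)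
        (show (0 : ℤ) ≤ m - 1 + k by omega)]
    omega
  · have := tc_ge hm
    have := f_nonneg x y
    omega

/-! ### the time function on the square -/

/-- the time function on the square `[0, 3m+1]²` (extended by zero) -/
def tau (m x y : ℤ) : ℤ :=
  if x + y ≤ 3 * m + 1 then f x y
  else if x = 3 * m + 1 ∧ y = 3 * m then 2 * tc m
  else if 0 < f (3 * m + 1 - y) (3 * m + 1 - x) then
    2 * tc m - f (3 * m + 1 - y) (3 * m + 1 - x) else 0

/-- the reflected times -/
def phi (m a : ℤ) : ℤ := if 0 < a then 2 * tc m - a else 0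

theorem tau_low {m x y : ℤ} (h : x + y ≤ 3 * m + 1) : tau m x y = f x y := if_pos h

theorem tau_spec {m : ℤ} (hm : 1 ≤ m) : tau m (3 * m + 1) (3 * m) = 2 * tc m := by
  rw [tau, if_neg (by omega), if_pos ⟨rfl, rfl⟩]

theorem tau_high {m x y : ℤ} (hm : 1 ≤ m) (hm2 : m % 2 = 1) (h : 3 * m + 1 ≤ x + y)
    (hs : ¬ (x = 3 * m + 1 ∧ y = 3 * m)) :
    tau m x y = phi m (f (3 * m + 1 - y) (3 * m + 1 - x)) := by
  rcases eq_or_lt_of_le h with h1 | h1
  · rw [tau_low h1.symm.le]
    have e1 : 3 * m + 1 - y = x := by omega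
    have e2 : 3 * m + 1 - x = y := by omega
    rw [e1, e2, phi]
    split_ifs with h2
    · obtain ⟨rfl, rfl⟩ := f_anti hm2 h1.symm h2
      rw [f_centre hm hm2]; ring
    · have := f_nonneg x y
      omega
  · rw [tau, if_neg (by omega), if_neg hs, phi]

theorem tau_nonneg {m x y : ℤ} (hm : 1 ≤ m) : 0 ≤ tau m x y := by
  have h1 := tc_ge hm
  unfold tau
  split_ifs with h2 h3 h4
  · exact f_nonneg x y
  · omega
  · have := f_le (m := m) (x := 3 * m + 1 - y) (y := 3 * m + 1 - x) (by omega) hm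
    omega
  · exact le_refl 0

theorem tau_local {m x y : ℤ} (hm : 1 ≤ m) (hm2 : m % 2 = 1) (h : 0 < tau m x y)
    (hs : ¬ (x = 3 * m + 1 ∧ y = 3 * m)) :
    Four (tau m x y) (tau m (x + 1) y) (tau m (x - 1) y) (tau m x (y + 1)) (tau m x (y - 1)) ∧
      1 ≤ x ∧ x ≤ 3 * m ∧ 1 ≤ y ∧ y ≤ 3 * m := by
  have htc := tc_ge hm
  rcases (by omega : x + y ≤ 3 * m ∨ x + y = 3 * m + 1 ∨ 3 * m + 2 ≤ x + y) with h1 | h1 | h1
  · rw [tau_low (by omega)] at h
    obtain ⟨i1, i2⟩ := f_int h
    refine ⟨?_, i1, by omega, i2, by omega⟩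
    rw [tau_low (by omega), tau_low (by omega), tau_low (by omega), tau_low (by omega),
      tau_low (by omega)]
    exact f_local h
  · rw [tau_low (by omega)] at h
    obtain ⟨rfl, rfl⟩ := f_anti hm2 h1 h
    refine ⟨?_, by omega, by omega, by omega, by omega⟩
    have e0 : tau m (3 * m) 1 = tc m := by rw [tau_low (by omega), f_centre hm hm2]
    have e1 : tau m (3 * m + 1) 1 = 0 := by
      rw [tau_high hm hm2 (by omega) (by omega), f_zero_of_le (Or.inr (by omega))]
      rfl
    have e2 : tau m (3 * m - 1) 1 = tc m - 1 := by rw [tau_low (by omega), f_centre' hm hm2]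
    have e3 : tau m (3 * m) (1 + 1) = tc m + 1 := by
      rw [tau_high hm hm2 (by omega) (by omega),
        show 3 * m + 1 - (1 + 1) = 3 * m - 1 by ring, show 3 * m + 1 - 3 * m = 1 by ring,
        f_centre' hm hm2, phi, if_pos (by omega)]
      ring
    have e4 : tau m (3 * m) (1 - 1) = 0 := by
      rw [tau_low (by omega), f_zero_of_le (Or.inr (by omega))]
    rw [e0, e1, e2, e3, e4]
    exact four_perm (four_base rfl rfl rfl rfl) (by simp only [Multiset.insert_eq_cons, ← Multiset.singleton_add]; abel)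
  · have h2 := tau_high hm hm2 (by omega) hs
    rw [h2] at h
    have hw : 0 < f (3 * m + 1 - y) (3 * m + 1 - x) := by
      unfold phi at h
      split_ifs at h with h3
      · exact h3
      · omega
    obtain ⟨i1, i2⟩ := f_int hw
    refine ⟨?_, by omega, by omega, by omega, by omega⟩
    by_cases hc : x = 3 * m ∧ y = 3 * m
    · obtain ⟨rfl, rfl⟩ := hc
      have e0 : tau m (3 * m) (3 * m) = 2 * tc m - 1 := by
        rw [h2, show 3 * m + 1 - 3 * m = 1 by ring, f_11, phi, if_pos (by omega)]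
      have e1 : tau m (3 * m + 1) (3 * m) = 2 * tc m := tau_spec hm
      have e2 : tau m (3 * m - 1) (3 * m) = 0 := by
        rw [tau_high hm hm2 (by omega) (by omega),
          show 3 * m + 1 - 3 * m = 1 by ring, show 3 * m + 1 - (3 * m - 1) = 2 by ring, f_12]
        rfl
      have e3 : tau m (3 * m) (3 * m + 1) = 0 := by
        rw [tau_high hm hm2 (by omega) (by omega), f_zero_of_le (Or.inl (by omega))]
        rfl
      have e4 : tau m (3 * m) (3 * m - 1) = 2 * tc m - 2 := by
        rw [tau_high hm hm2 (by omega) (by omega),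
          show 3 * m + 1 - 3 * m = 1 by ring, show 3 * m + 1 - (3 * m - 1) = 2 by ring, f_21,
          phi, if_pos (by omega)]
      rw [e0, e1, e2, e3, e4]
      exact four_perm (four_base (a := 2 * tc m - 2) (b := 2 * tc m) (by ring) (by ring) rfl rfl)
        (by simp only [Multiset.insert_eq_cons, ← Multiset.singleton_add]; abel)
    · have hu : 2 ≤ f (3 * m + 1 - y) (3 * m + 1 - x) := by
        by_contra hcon
        obtain ⟨j1, j2⟩ := f_one (x := 3 * m + 1 - y) (y := 3 * m + 1 - x) (by omega)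
        exact hc ⟨by omega, by omega⟩
      have e1 : tau m (x + 1) y = phi m (f (3 * m + 1 - y) (3 * m + 1 - x - 1)) := by
        rw [tau_high hm hm2 (by omega) (by omega),
          show 3 * m + 1 - (x + 1) = 3 * m + 1 - x - 1 by ring]
      have e2 : tau m (x - 1) y = phi m (f (3 * m + 1 - y) (3 * m + 1 - x + 1)) := by
        rw [tau_high hm hm2 (by omega) (by omega),
          show 3 * m + 1 - (x - 1) = 3 * m + 1 - x + 1 by ring]
      have e3 : tau m x (y + 1) = phi m (f (3 * m + 1 - y - 1) (3 * m + 1 - x)) := by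
        rw [tau_high hm hm2 (by omega) (by omega),
          show 3 * m + 1 - (y + 1) = 3 * m + 1 - y - 1 by ring]
      have e4 : tau m x (y - 1) = phi m (f (3 * m + 1 - y + 1) (3 * m + 1 - x)) := by
        rw [tau_high hm hm2 (by omega) (by omega),
          show 3 * m + 1 - (y - 1) = 3 * m + 1 - y + 1 by ring]
      have hF := f_local hw
      unfold Four at hF
      have hmap := congrArg (Multiset.map (phi m)) hF
      simp only [Multiset.insert_eq_cons, Multiset.map_cons, Multiset.map_singleton] at hmap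
      have p1 : phi m (f (3 * m + 1 - y) (3 * m + 1 - x) - 1) =
          2 * tc m - f (3 * m + 1 - y) (3 * m + 1 - x) + 1 := by
        rw [phi, if_pos (by omega)]; ring
      have p2 : phi m (f (3 * m + 1 - y) (3 * m + 1 - x) + 1) =
          2 * tc m - f (3 * m + 1 - y) (3 * m + 1 - x) - 1 := by
        rw [phi, if_pos (by omega)]; ring
      have p3 : phi m 0 = 0 := rfl
      have p0 : tau m x y = 2 * tc m - f (3 * m + 1 - y) (3 * m + 1 - x) := by
        rw [h2, phi, if_pos hw]
      rw [p1, p2, p3] at hmap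
      rw [e1, e2, e3, e4, p0]
      unfold Four
      simp only [Multiset.insert_eq_cons, ← Multiset.singleton_add] at hmap ⊢
      have e5 : ({phi m (f (3 * m + 1 - y) (3 * m + 1 - x - 1))} : Multiset ℤ) +
          ({phi m (f (3 * m + 1 - y) (3 * m + 1 - x + 1))} +
          ({phi m (f (3 * m + 1 - y - 1) (3 * m + 1 - x))} +
          {phi m (f (3 * m + 1 - y + 1) (3 * m + 1 - x))})) =
          ({phi m (f (3 * m + 1 - y + 1) (3 * m + 1 - x))} : Multiset ℤ) +
          ({phi m (f (3 * m + 1 - y - 1) (3 * m + 1 - x))} +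
          ({phi m (f (3 * m + 1 - y) (3 * m + 1 - x + 1))} +
          {phi m (f (3 * m + 1 - y) (3 * m + 1 - x - 1))})) := by abel
      rw [e5, hmap]
      abel

end Pool.Agent.Helper50.PercC
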