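import Pool.Agent.Helper50.PicLF

/-!
# Test functions of small energy on the graph of a univalent packing of the plane
-/

set_option autoImplicit false

namespace Pool.Agent.Helper50.Pic

open Metric Set MeasureTheory

universe u

variable {V : Type u} {K : Cplx V}

/-- The cut-off function. -/
noncomputable def psi (R : ℝ) (z : ℂ) : ℝ := max 0 (min 1 (2 - ‖z‖ / R))

theorem psi_nonneg (R : ℝ) (z : ℂ) : 0 ≤ psi R z := le_max_left _ _

theorem psi_le_one (R : ℝ) (z : ℂ) : psi R z ≤ 1 := max_le zero_le_one (min_le_left _ _)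

theorem psi_eq_one {R : ℝ} (hR : 0 < R) {z : ℂ} (h : ‖z‖ ≤ R) : psi R z = 1 := by
  unfold psi
  have : ‖z‖ / R ≤ 1 := (div_le_one hR).2 h
  rw [min_eq_left (by linarith)]
  exact max_eq_right zero_le_one

theorem psi_eq_zero {R : ℝ} (hR : 0 < R) {z : ℂ} (h : 2 * R ≤ ‖z‖) : psi R z = 0 := by
  unfold psi
  have : 2 ≤ ‖z‖ / R := (le_div_iff₀ hR).2 h
  exact max_eq_left ((min_le_right _ _).trans (by linarith))

theorem abs_psi_sub_le {R : ℝ} (hR : 0 < R) (x y : ℂ) : |psi R x - psi R y| ≤ ‖x - y‖ / R := by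
  unfold psi
  refine (abs_max_sub_max_le_max _ _ _ _).trans ?_
  refine max_le (by simp; positivity) ?_
  refine (abs_min_sub_min_le_max _ _ _ _).trans ?_
  refine max_le (by simp; positivity) ?_
  have e : 2 - ‖x‖ / R - (2 - ‖y‖ / R) = (‖y‖ - ‖x‖) / R := by ring
  rw [e, abs_div, abs_of_pos hR]
  gcongr
  rw [abs_sub_comm]
  exact abs_norm_sub_norm_le x y

open Classical in
/-- A bound for the oscillation of `psi R` on the disc with center `c` and radius `r`. -/
noncomputable def bd (R : ℝ) (c : ℂ) (r : ℝ) : ℝ :=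
  if (closedBall c r ∩ closedBall 0 (2 * R)).Nonempty ∧ ¬ closedBall c r ⊆ ball 0 R then
    2 * min r R / R else 0

theorem bd_nonneg {R r : ℝ} (hR : 0 < R) (hr : 0 < r) (c : ℂ) : 0 ≤ bd R c r := by
  unfold bd
  split_ifs
  · have := lt_min hr hR
    positivity
  · exact le_rfl

theorem osc_le {R r : ℝ} (hR : 0 < R) (hr : 0 < r) {c x y : ℂ} (hx : x ∈ closedBall c r)
    (hy : y ∈ closedBall c r) : |psi R x - psi R y| ≤ bd R c r := by
  unfold bd
  split_ifs with h
  · rcases le_total r R with hrR | hrR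
    · rw [min_eq_left hrR]
      refine (abs_psi_sub_le hR x y).trans ?_
      gcongr
      rw [mem_closedBall] at hx hy
      rw [← dist_eq_norm]
      have := dist_triangle_right x y c
      linarith
    · rw [min_eq_right hrR, mul_div_assoc, div_self hR.ne', mul_one]
      have h1 := psi_nonneg R x
      have h2 := psi_nonneg R y
      have h3 := psi_le_one R x
      have h4 := psi_le_one R y
      rw [abs_le]
      constructor <;> linarith
  · rw [not_and_or, not_not] at h
    rcases h with h | h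
    · have key : ∀ z ∈ closedBall c r, psi R z = 0 := by
        intro z hz
        apply psi_eq_zero hR
        by_contra hcon
        push Not at hcon
        exact h ⟨z, hz, by rw [mem_closedBall, dist_zero_right]; exact hcon.le⟩
      rw [key x hx, key y hy]; simp
    · have key : ∀ z ∈ closedBall c r, psi R z = 1 := by
        intro z hz
        apply psi_eq_one hR
        have := h hz
        rw [mem_ball, dist_zero_right] at this
        exact this.le
      rw [key x hx, key y hy]; simp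

/-- A smaller disc, of radius `min r R`, inside a disc meeting `D(2R)`. -/
theorem exists_small {R r : ℝ} (hR : 0 < R) (hr : 0 < r) {c : ℂ}
    (h : (closedBall c r ∩ closedBall 0 (2 * R)).Nonempty) :
    ∃ y : ℂ, ball y (min r R) ⊆ ball c r ∧ ball y (min r R) ⊆ ball 0 (4 * R) := by
  obtain ⟨x, hx1, hx2⟩ := h
  set ρ := min r R with hρ
  have hρ0 : 0 < ρ := lt_min hr hR
  have hρr : ρ ≤ r := min_le_left _ _
  have hρR : ρ ≤ R := min_le_right _ _
  have hq1 : ρ / r ≤ 1 := (div_le_one hr).2 hρr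
  have hq0 : 0 ≤ ρ / r := by positivity
  rw [mem_closedBall, dist_eq_norm] at hx1
  rw [mem_closedBall, dist_zero_right] at hx2
  refine ⟨c + ((1 - ρ / r : ℝ) : ℂ) * (x - c), ball_subset_ball' ?_, ball_subset_ball' ?_⟩
  · rw [dist_eq_norm, add_sub_cancel_left, norm_mul, Complex.norm_real, Real.norm_eq_abs,
      abs_of_nonneg (by linarith)]
    have : (1 - ρ / r) * ‖x - c‖ ≤ (1 - ρ / r) * r := by gcongr
    have e : (1 - ρ / r) * r = r - ρ := by field_simp
    linarith
  · rw [dist_zero_right]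
    have e : c + ((1 - ρ / r : ℝ) : ℂ) * (x - c) = x - ((ρ / r : ℝ) : ℂ) * (x - c) := by
      push_cast; ring
    have h1 : ‖x - ((ρ / r : ℝ) : ℂ) * (x - c)‖ ≤ ‖x‖ + ‖((ρ / r : ℝ) : ℂ) * (x - c)‖ :=
      norm_sub_le _ _
    have h2 : ‖((ρ / r : ℝ) : ℂ) * (x - c)‖ ≤ ρ := by
      rw [norm_mul, Complex.norm_real, Real.norm_eq_abs, abs_of_nonneg hq0]
      calc ρ / r * ‖x - c‖ ≤ ρ / r * r := by gcongr
        _ = ρ := by field_simp
    rw [e]
    linarith

/-- Area bound. -/
theorem sum_sq_le_of_disjoint {ι : Type u} (S : Finset ι) (y : ι → ℂ) (ρ : ι → ℝ) {R : ℝ}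
    (hR : 0 < R) (hρ : ∀ i ∈ S, 0 < ρ i)
    (hd : ∀ i ∈ S, ∀ j ∈ S, i ≠ j → Disjoint (ball (y i) (ρ i)) (ball (y j) (ρ j)))
    (hs : ∀ i ∈ S, ball (y i) (ρ i) ⊆ ball 0 R) : ∑ i ∈ S, ρ i ^ 2 ≤ R ^ 2 := by
  have h1 : volume (⋃ i ∈ S, ball (y i) (ρ i)) = ∑ i ∈ S, volume (ball (y i) (ρ i)) := by
    apply measure_biUnion_finset
    · intro i hi j hj hij
      exact hd i hi j hj hij
    · intro i _
      exact measurableSet_ball
  have h2 : volume (⋃ i ∈ S, ball (y i) (ρ i)) ≤ volume (ball (0:ℂ) R) :=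
    measure_mono (iUnion₂_subset hs)
  rw [h1, Complex.volume_ball] at h2
  simp only [Complex.volume_ball] at h2
  rw [← Finset.sum_mul] at h2
  have hpi0 : (NNReal.pi : ENNReal) ≠ 0 := by simp [NNReal.pi_ne_zero]
  have hpit : (NNReal.pi : ENNReal) ≠ ⊤ := ENNReal.coe_ne_top
  have h3 := (ENNReal.mul_le_mul_iff_left hpi0 hpit).1 h2
  have h4 : ∑ i ∈ S, ENNReal.ofReal (ρ i) ^ 2 = ENNReal.ofReal (∑ i ∈ S, ρ i ^ 2) := by
    rw [ENNReal.ofReal_sum_of_nonneg (fun i _ => sq_nonneg _)]
    apply Finset.sum_congr rfl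
    intro i hi
    rw [ENNReal.ofReal_pow (hρ i hi).le]
  rw [h4, ← ENNReal.ofReal_pow hR.le, ENNReal.ofReal_le_ofReal_iff (by positivity)] at h3
  exact h3

theorem sum_bd_sq_le (P : Packing K) (hU : P.Univalent) {R : ℝ} (hR : 0 < R) (S : Finset V) :
    ∑ v ∈ S, bd R (P.c v) (P.r v) ^ 2 ≤ 64 := by
  classical
  set T := S.filter fun v => (closedBall (P.c v) (P.r v) ∩ closedBall 0 (2 * R)).Nonempty with hT
  have h1 : ∑ v ∈ S, bd R (P.c v) (P.r v) ^ 2 = ∑ v ∈ T, bd R (P.c v) (P.r v) ^ 2 := by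
    symm
    apply Finset.sum_subset (Finset.filter_subset _ _)
    intro v hv hvT
    have : ¬ (closedBall (P.c v) (P.r v) ∩ closedBall 0 (2 * R)).Nonempty := fun h =>
      hvT (Finset.mem_filter.2 ⟨hv, h⟩)
    unfold bd
    rw [if_neg (fun h => this h.1)]; simp
  have h2 : ∀ v ∈ T, bd R (P.c v) (P.r v) ^ 2 ≤ (4 / R ^ 2) * min (P.r v) R ^ 2 := by
    intro v _
    unfold bd
    split_ifs
    · apply le_of_eq; field_simp; ring
    · have := lt_min (P.r_pos v) hR
      rw [zero_pow two_ne_zero]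
      positivity
  have h3 : ∀ v : V, ∃ y : ℂ, v ∈ T → ball y (min (P.r v) R) ⊆ ball (P.c v) (P.r v) ∧
      ball y (min (P.r v) R) ⊆ ball 0 (4 * R) := by
    intro v
    by_cases hv : v ∈ T
    · obtain ⟨y, hy⟩ := exists_small hR (P.r_pos v) (Finset.mem_filter.1 hv).2
      exact ⟨y, fun _ => hy⟩
    · exact ⟨0, fun h => absurd h hv⟩
  choose y hy using h3
  have h4 : ∑ v ∈ T, min (P.r v) R ^ 2 ≤ (4 * R) ^ 2 := by
    apply sum_sq_le_of_disjoint T y _ (by positivity) (fun v _ => lt_min (P.r_pos v) hR)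
    · intro i hi j hj hij
      exact (hU i j hij).mono (hy i hi).1 (hy j hj).1
    · intro i hi
      exact (hy i hi).2
  rw [h1]
  calc ∑ v ∈ T, bd R (P.c v) (P.r v) ^ 2 ≤ ∑ v ∈ T, (4 / R ^ 2) * min (P.r v) R ^ 2 :=
        Finset.sum_le_sum h2
    _ = (4 / R ^ 2) * ∑ v ∈ T, min (P.r v) R ^ 2 := by rw [Finset.mul_sum]
    _ ≤ (4 / R ^ 2) * (4 * R) ^ 2 := by gcongr
    _ = 64 := by field_simp; norm_num

theorem sum_fst_le {D : ℕ} (hD : ∀ v, {u | K.Adj v u}.encard ≤ D) (F : Finset (V × V))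
    (hF : ∀ e ∈ F, K.Adj e.1 e.2) (g : V → ℝ) (hg : ∀ v, 0 ≤ g v) {C : ℝ}
    (hC : ∀ S : Finset V, ∑ v ∈ S, g v ≤ C) : ∑ e ∈ F, g e.1 ≤ D * C := by
  classical
  rw [← Finset.sum_fiberwise_of_maps_to (t := F.image Prod.fst)
    (fun e he => Finset.mem_image_of_mem _ he)]
  calc ∑ v ∈ F.image Prod.fst, ∑ e ∈ F with e.1 = v, g e.1
      ≤ ∑ v ∈ F.image Prod.fst, (D : ℝ) * g v := by
        apply Finset.sum_le_sum
        intro v _
        have h1 : ∑ e ∈ F with e.1 = v, g e.1 = ∑ e ∈ F with e.1 = v, g v := by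
          apply Finset.sum_congr rfl
          intro e he
          rw [(Finset.mem_filter.1 he).2]
        rw [h1, Finset.sum_const, nsmul_eq_mul]
        gcongr
        · exact hg v
        · have h2 : ((F.filter fun e => e.1 = v).image Prod.snd : Set V) ⊆ {u | K.Adj v u} := by
            intro u hu
            rw [Finset.coe_image] at hu
            obtain ⟨e, he, rfl⟩ := hu
            have he' := Finset.mem_filter.1 (Finset.mem_coe.1 he)
            have := hF e he'.1
            rw [he'.2] at this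
            exact this
          have h3 : (F.filter fun e => e.1 = v).card =
              ((F.filter fun e => e.1 = v).image Prod.snd).card := by
            rw [Finset.card_image_of_injOn]
            rintro ⟨a, b⟩ hab ⟨c, d⟩ hcd (hbd : b = d)
            have h1 := (Finset.mem_filter.1 (Finset.mem_coe.1 hab)).2
            have h2 := (Finset.mem_filter.1 (Finset.mem_coe.1 hcd)).2
            simp only at h1 h2
            rw [h1, h2, hbd]
          have h4 := (Set.encard_le_encard h2).trans (hD v)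
          rw [Set.encard_coe_eq_coe_finsetCard, ← h3] at h4
          exact_mod_cast h4
    _ = D * ∑ v ∈ F.image Prod.fst, g v := by rw [Finset.mul_sum]
    _ ≤ D * C := by
        gcongr
        exact hC _

theorem sum_snd_le {D : ℕ} (hD : ∀ v, {u | K.Adj v u}.encard ≤ D) (F : Finset (V × V))
    (hF : ∀ e ∈ F, K.Adj e.1 e.2) (g : V → ℝ) (hg : ∀ v, 0 ≤ g v) {C : ℝ}
    (hC : ∀ S : Finset V, ∑ v ∈ S, g v ≤ C) : ∑ e ∈ F, g e.2 ≤ D * C := by
  have := sum_fst_le hD (F.map (Equiv.prodComm V V).toEmbedding) (by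
    intro e he
    obtain ⟨e', he', rfl⟩ := Finset.mem_map.1 he
    exact (hF e' he').symm) g hg hC
  rw [Finset.sum_map] at this
  exact this

theorem exists_common {P : Packing K} {a b : V} (h : K.Adj a b) :
    ∃ p, p ∈ closedBall (P.c a) (P.r a) ∧ p ∈ closedBall (P.c b) (P.r b) := by
  have ha := P.r_pos a
  have hb := P.r_pos b
  have t := P.tangent a b h
  refine ⟨AffineMap.lineMap (P.c a) (P.c b) (P.r a / (P.r a + P.r b)), ?_, ?_⟩
  · rw [mem_closedBall, dist_lineMap_left, t, Real.norm_eq_abs, abs_of_pos (by positivity)]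
    apply le_of_eq; field_simp
  · rw [mem_closedBall, dist_lineMap_right, t]
    have : 1 - P.r a / (P.r a + P.r b) = P.r b / (P.r a + P.r b) := by field_simp; ring
    rw [this, Real.norm_eq_abs, abs_of_pos (by positivity)]
    apply le_of_eq; field_simp

theorem exists_next (P : Packing K)
    (hfin : ∀ R, {y | (ball (P.c y) (P.r y) ∩ closedBall 0 R).Nonempty}.Finite) (R : ℝ) :
    ∃ R', R ≤ R' ∧ ∀ v, (closedBall (P.c v) (P.r v) ∩ closedBall 0 (2 * R)).Nonempty →
      closedBall (P.c v) (P.r v) ⊆ ball 0 R' := by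
  obtain ⟨M, hM⟩ := ((hfin (2 * R + 1)).image fun v => ‖P.c v‖ + P.r v).bddAbove
  refine ⟨max R (M + 1), le_max_left _ _, ?_⟩
  rintro v ⟨x, hx1, hx2⟩ y hy
  have hv : v ∈ {y | (ball (P.c y) (P.r y) ∩ closedBall 0 (2 * R + 1)).Nonempty} := by
    rw [← closure_ball _ (P.r_pos v).ne', Metric.mem_closure_iff] at hx1
    obtain ⟨z, hz, hxz⟩ := hx1 1 one_pos
    refine ⟨z, hz, ?_⟩
    rw [mem_closedBall] at hx2 ⊢
    have := dist_triangle z x 0
    rw [dist_comm z x] at this
    linarith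
  have h1 : ‖P.c v‖ + P.r v ≤ M := hM (Set.mem_image_of_mem _ hv)
  rw [mem_closedBall] at hy
  rw [mem_ball]
  have h2 := dist_triangle y (P.c v) 0
  rw [dist_zero_right (P.c v)] at h2
  have h3 := le_max_right R (M + 1)
  linarith

/-- On the graph of a univalent packing of the whole plane there are finitely supported functions
of arbitrarily small energy which are `1` at a given vertex. -/
theorem exists_test (P : Packing K) (hU : P.Univalent)
    (hfin : ∀ R, {y | (ball (P.c y) (P.r y) ∩ closedBall 0 R).Nonempty}.Finite)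
    {D : ℕ} (hD : ∀ v, {u | K.Adj v u}.encard ≤ D) (v0 : V) {ε : ℝ} (hε : 0 < ε) :
    ∃ u : V → ℝ, (∀ v, 0 ≤ u v) ∧ {v | u v ≠ 0}.Finite ∧ u v0 = 1 ∧
      ∀ F : Finset (V × V), (∀ e ∈ F, K.Adj e.1 e.2) → ∑ e ∈ F, (u e.1 - u e.2) ^ 2 ≤ ε := by
  choose next hnext1 hnext2 using exists_next P hfin
  let R : ℕ → ℝ := fun k => Nat.rec (max 1 ‖P.c v0‖) (fun _ x => next x) k
  have R0 : R 0 = max 1 ‖P.c v0‖ := rfl
  have Rs : ∀ k, R (k + 1) = next (R k) := fun k => rfl
  have hmono : Monotone R := monotone_nat_of_le_succ fun k => by rw [Rs]; exact hnext1 _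
  have hR1 : ∀ k, 1 ≤ R k := fun k => (le_max_left 1 ‖P.c v0‖).trans (hmono (Nat.zero_le k))
  have hRpos : ∀ k, 0 < R k := fun k => one_pos.trans_le (hR1 k)
  have hRv0 : ∀ k, ‖P.c v0‖ ≤ R k := fun k =>
    (le_max_right 1 ‖P.c v0‖).trans (hmono (Nat.zero_le k))
  -- at most one annulus is met
  have hdis : ∀ v j k, j < k → bd (R j) (P.c v) (P.r v) ≠ 0 → bd (R k) (P.c v) (P.r v) = 0 := by
    intro v j k hjk hj
    have h1 : (closedBall (P.c v) (P.r v) ∩ closedBall 0 (2 * R j)).Nonempty := by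
      by_contra h
      apply hj
      unfold bd
      rw [if_neg (fun h' => h h'.1)]
    have h2 := hnext2 _ v h1
    have h3 : closedBall (P.c v) (P.r v) ⊆ ball 0 (R k) :=
      h2.trans (ball_subset_ball (by rw [← Rs]; exact hmono hjk))
    unfold bd
    rw [if_neg (fun h' => h'.2 h3)]
  obtain ⟨N, hN⟩ := exists_nat_gt (256 * D / ε)
  have hN0 : (0:ℝ) < N := lt_of_le_of_lt (by positivity) hN
  have hN1 : 256 * (D:ℝ) / N ≤ ε := by
    rw [div_le_iff₀ hN0]
    rw [div_lt_iff₀ hε] at hN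
    linarith
  set o : V → ℝ := fun v => ∑ k ∈ Finset.range N, bd (R k) (P.c v) (P.r v) with ho
  have hosq : ∀ v, o v ^ 2 = ∑ k ∈ Finset.range N, bd (R k) (P.c v) (P.r v) ^ 2 := by
    intro v
    by_cases hall : ∀ k ∈ Finset.range N, bd (R k) (P.c v) (P.r v) = 0
    · rw [ho]
      simp only
      rw [Finset.sum_eq_zero hall, Finset.sum_eq_zero (fun k hk => by rw [hall k hk]; simp)]
      simp
    · push Not at hall
      obtain ⟨k, hk, hk0⟩ := hall
      have hz : ∀ j, j ≠ k → bd (R j) (P.c v) (P.r v) = 0 := by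
        intro j hj
        rcases lt_or_gt_of_ne hj with h | h
        · by_contra hcon
          exact hk0 (hdis v j k h hcon)
        · exact hdis v k j h hk0
      rw [ho]
      simp only
      rw [Finset.sum_eq_single k (fun j _ hj => hz j hj) (fun h => absurd hk h),
        Finset.sum_eq_single k (fun j _ hj => by rw [hz j hj]; simp) (fun h => absurd hk h)]
  have hosum : ∀ S : Finset V, ∑ v ∈ S, o v ^ 2 ≤ 64 * N := by
    intro S
    simp only [hosq]
    rw [Finset.sum_comm]
    calc ∑ k ∈ Finset.range N, ∑ v ∈ S, bd (R k) (P.c v) (P.r v) ^ 2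
        ≤ ∑ k ∈ Finset.range N, (64:ℝ) :=
          Finset.sum_le_sum fun k _ => sum_bd_sq_le P hU (hRpos k) S
      _ = 64 * N := by rw [Finset.sum_const, Finset.card_range, nsmul_eq_mul]; ring
  set w : V → ℝ := fun v => (∑ k ∈ Finset.range N, psi (R k) (P.c v)) / N with hw
  refine ⟨w, ?_, ?_, ?_, ?_⟩
  · intro v
    exact div_nonneg (Finset.sum_nonneg fun k _ => psi_nonneg _ _) hN0.le
  · refine (hfin (2 * R N)).subset ?_
    intro v hv
    by_contra hcon
    apply hv
    have hn : 2 * R N ≤ ‖P.c v‖ := by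
      by_contra h
      push Not at h
      exact hcon ⟨P.c v, mem_ball_self (P.r_pos v), by
        rw [mem_closedBall, dist_zero_right]; exact h.le⟩
    rw [hw]
    simp only
    rw [Finset.sum_eq_zero, zero_div]
    intro k hk
    apply psi_eq_zero (hRpos k)
    have := hmono (Finset.mem_range.1 hk).le
    linarith
  · rw [hw]
    simp only
    rw [Finset.sum_congr rfl (fun k _ => psi_eq_one (hRpos k) (hRv0 k))]
    simp only [Finset.sum_const, Finset.card_range, nsmul_eq_mul, mul_one]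
    exact div_self hN0.ne'
  · intro F hF
    have hdiff : ∀ e ∈ F, (w e.1 - w e.2) ^ 2 ≤ (2 / N ^ 2) * (o e.1 ^ 2 + o e.2 ^ 2) := by
      intro e he
      obtain ⟨p, hp1, hp2⟩ := exists_common (P := P) (hF e he)
      have h1 : |w e.1 - w e.2| ≤ (o e.1 + o e.2) / N := by
        rw [hw]
        simp only
        rw [← sub_div, abs_div, abs_of_pos hN0]
        gcongr
        rw [← Finset.sum_sub_distrib, ho]
        simp only
        rw [← Finset.sum_add_distrib]
        refine (Finset.abs_sum_le_sum_abs _ _).trans (Finset.sum_le_sum fun k _ => ?_)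
        have a1 := osc_le (hRpos k) (P.r_pos e.1) (mem_closedBall_self (P.r_pos e.1).le) hp1
        have a2 := osc_le (hRpos k) (P.r_pos e.2) hp2 (mem_closedBall_self (P.r_pos e.2).le)
        have a3 := abs_sub_le (psi (R k) (P.c e.1)) (psi (R k) p) (psi (R k) (P.c e.2))
        linarith
      have h2 : (w e.1 - w e.2) ^ 2 ≤ ((o e.1 + o e.2) / N) ^ 2 := by
        rw [← sq_abs]
        gcongr
      refine h2.trans ?_
      rw [div_pow, div_mul_eq_mul_div]
      gcongr
      nlinarith [sq_nonneg (o e.1 - o e.2)]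
    have hs1 := sum_fst_le hD F hF (fun v => o v ^ 2) (fun v => sq_nonneg _) hosum
    have hs2 := sum_snd_le hD F hF (fun v => o v ^ 2) (fun v => sq_nonneg _) hosum
    calc ∑ e ∈ F, (w e.1 - w e.2) ^ 2
        ≤ ∑ e ∈ F, (2 / (N:ℝ) ^ 2) * (o e.1 ^ 2 + o e.2 ^ 2) := Finset.sum_le_sum hdiff
      _ = (2 / (N:ℝ) ^ 2) * (∑ e ∈ F, o e.1 ^ 2 + ∑ e ∈ F, o e.2 ^ 2) := by
          rw [← Finset.mul_sum, Finset.sum_add_distrib]
      _ ≤ (2 / (N:ℝ) ^ 2) * (D * (64 * N) + D * (64 * N)) := by gcongr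
      _ = 256 * (D:ℝ) / N := by field_simp; ring
      _ ≤ ε := hN1

end Pool.Agent.Helper50.Pic
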