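import Pool.Agent.Helper50.PicFlower
import Pool.Agent.Helper50.PicEnergy

/-!
# The summation argument
-/

set_option autoImplicit false

namespace Pool.Agent.Helper50.Pic

universe u

variable {V : Type u} {K : Cplx V}

/-- Rotation of a flag. -/
def rotE (V : Type u) : (V × V × V) ≃ (V × V × V) where
  toFun x := (x.2.1, x.2.2, x.1)
  invFun x := (x.2.2, x.1, x.2.1)
  left_inv _ := rfl
  right_inv _ := rfl

/-- The flags based at a vertex form a finite set. -/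
theorem exists_flags_at (K : Cplx V) (X : V → V → V → ℝ) (v : V) {m : ℝ}
    (h : ∀ (n : ℕ) (p : ℕ → V), 3 ≤ n → (∀ i, p (i + n) = p i) →
      (∀ a b, K.face v a b ↔ ∃ i < n, a = p i ∧ b = p (i + 1)) →
      m ≤ ∑ i ∈ Finset.range n, X v (p i) (p (i + 1))) :
    ∃ A : Finset (V × V × V), (∀ x, x ∈ A ↔ x.1 = v ∧ K.face x.1 x.2.1 x.2.2) ∧
      m ≤ ∑ x ∈ A, X x.1 x.2.1 x.2.2 := by
  classical
  obtain ⟨n, p, hn, hper, hinj, hne, hf⟩ := K.flower v
  refine ⟨(Finset.range n).image fun i => (v, p i, p (i + 1)), ?_, ?_⟩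
  · rintro ⟨a, b, c⟩
    simp only [Finset.mem_image, Finset.mem_range, Prod.mk.injEq]
    constructor
    · rintro ⟨i, hi, rfl, rfl, rfl⟩
      exact ⟨rfl, (hf _ _).2 ⟨i, hi, rfl, rfl⟩⟩
    · rintro ⟨rfl, hface⟩
      obtain ⟨i, hi, rfl, rfl⟩ := (hf _ _).1 hface
      exact ⟨i, hi, rfl, rfl, rfl⟩
  · rw [Finset.sum_image]
    · exact h n p hn hper hf
    · intro i hi j hj hij
      simp only [Prod.mk.injEq] at hij
      exact hinj i (by simpa using hi) j (by simpa using hj) hij.2.1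

/-- The elementary inequality on a face. -/
theorem face_ineq {xa xb xc ua ub uc la lb lc C : ℝ} (hC : 0 ≤ C)
    (ua0 : 0 ≤ ua) (ub0 : 0 ≤ ub) (uc0 : 0 ≤ uc) (la0 : 0 ≤ la) (lb0 : 0 ≤ lb) (lc0 : 0 ≤ lc)
    (hsum : xa + xb + xc ≤ 0) (ha : |xa| ≤ C * la) (hb : |xb| ≤ C * lb) (hc : |xc| ≤ C * lc) :
    ua ^ 2 * xa + ub ^ 2 * xb + uc ^ 2 * xc ≤
      C * (|ua - ub| * (ua * la + ub * lb) + |ub - uc| * (ub * lb + uc * lc) +
        |uc - ua| * (uc * lc + ua * la)) := by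
  -- it is enough to treat the case where `la` is maximal
  have main : ∀ {xa xb xc ua ub uc la lb lc : ℝ}, 0 ≤ ua → 0 ≤ ub → 0 ≤ uc → 0 ≤ la → 0 ≤ lb →
      0 ≤ lc → xa + xb + xc ≤ 0 → |xa| ≤ C * la → |xb| ≤ C * lb → |xc| ≤ C * lc → lb ≤ la →
      lc ≤ la → ua ^ 2 * xa + ub ^ 2 * xb + uc ^ 2 * xc ≤
      C * (|ua - ub| * (ua * la + ub * lb) + |ub - uc| * (ub * lb + uc * lc) +
        |uc - ua| * (uc * lc + ua * la)) := by
    intro xa xb xc ua ub uc la lb lc ua0 ub0 uc0 la0 lb0 lc0 hsum ha hb hc h1 h2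
    have e : ua ^ 2 * xa + ub ^ 2 * xb + uc ^ 2 * xc =
        ua ^ 2 * (xa + xb + xc) + (ub - ua) * (ub + ua) * xb + (uc - ua) * (uc + ua) * xc := by
      ring
    have b1 : ua ^ 2 * (xa + xb + xc) ≤ 0 := mul_nonpos_of_nonneg_of_nonpos (sq_nonneg _) hsum
    have b2 : (ub - ua) * (ub + ua) * xb ≤ C * (|ua - ub| * (ua * la + ub * lb)) := by
      calc (ub - ua) * (ub + ua) * xb ≤ |(ub - ua) * (ub + ua) * xb| := le_abs_self _
        _ = |ua - ub| * (ub + ua) * |xb| := by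
            rw [abs_mul, abs_mul, abs_sub_comm, abs_of_nonneg (by positivity : 0 ≤ ub + ua)]
        _ ≤ |ua - ub| * (ub + ua) * (C * lb) := by gcongr
        _ = C * (|ua - ub| * (ua * lb + ub * lb)) := by ring
        _ ≤ C * (|ua - ub| * (ua * la + ub * lb)) := by gcongr
    have b3 : (uc - ua) * (uc + ua) * xc ≤ C * (|uc - ua| * (uc * lc + ua * la)) := by
      calc (uc - ua) * (uc + ua) * xc ≤ |(uc - ua) * (uc + ua) * xc| := le_abs_self _
        _ = |uc - ua| * (uc + ua) * |xc| := by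
            rw [abs_mul, abs_mul, abs_of_nonneg (by positivity : 0 ≤ uc + ua)]
        _ ≤ |uc - ua| * (uc + ua) * (C * lc) := by gcongr
        _ = C * (|uc - ua| * (uc * lc + ua * lc)) := by ring
        _ ≤ C * (|uc - ua| * (uc * lc + ua * la)) := by gcongr
    have b4 : 0 ≤ C * (|ub - uc| * (ub * lb + uc * lc)) := by positivity
    have e2 : C * (|ua - ub| * (ua * la + ub * lb) + |ub - uc| * (ub * lb + uc * lc) +
        |uc - ua| * (uc * lc + ua * la)) = C * (|ua - ub| * (ua * la + ub * lb)) +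
        C * (|ub - uc| * (ub * lb + uc * lc)) + C * (|uc - ua| * (uc * lc + ua * la)) := by ring
    rw [e, e2]
    linarith
  rcases le_total lb la with h1 | h1
  · rcases le_total lc la with h2 | h2
    · exact main ua0 ub0 uc0 la0 lb0 lc0 hsum ha hb hc h1 h2
    · have := main uc0 ua0 ub0 lc0 la0 lb0 (by linarith) hc ha hb h2 (h1.trans h2)
      linarith
  · rcases le_total lc lb with h2 | h2
    · have := main ub0 uc0 ua0 lb0 lc0 la0 (by linarith) hb hc ha h2 h1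
      linarith
    · have := main uc0 ua0 ub0 lc0 la0 lb0 (by linarith) hc ha hb (h1.trans h2) h2
      linarith

/-- The summation argument: corner terms with the three properties contradict the existence of
test functions of small energy. -/
theorem no_corner_terms {D : ℕ} (hD : ∀ v, {u | K.Adj v u}.encard ≤ D) (v0 : V) (l : V → ℝ)
    (hl : ∀ v, 0 < l v) (X : V → V → V → ℝ) {C : ℝ} (hC : 0 ≤ C)
    (h1 : ∀ v (n : ℕ) (p : ℕ → V), 3 ≤ n → (∀ i, p (i + n) = p i) →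
      (∀ a b, K.face v a b ↔ ∃ i < n, a = p i ∧ b = p (i + 1)) →
      2 * l v ^ 2 ≤ ∑ i ∈ Finset.range n, X v (p i) (p (i + 1)))
    (h2 : ∀ v a b, K.face v a b → |X v a b| ≤ C * l v)
    (h3 : ∀ v a b, K.face v a b → X v a b + X a b v + X b v a ≤ 0)
    (ht : ∀ ε : ℝ, 0 < ε → ∃ u : V → ℝ, (∀ v, 0 ≤ u v) ∧ {v | u v ≠ 0}.Finite ∧ u v0 = 1 ∧
      ∀ F : Finset (V × V), (∀ e ∈ F, K.Adj e.1 e.2) → ∑ e ∈ F, (u e.1 - u e.2) ^ 2 ≤ ε) :
    False := by
  classical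
  set ε : ℝ := l v0 ^ 2 / (C ^ 2 * (D + 1) + 1) / 2 with hε
  have hden : 0 < C ^ 2 * ((D:ℝ) + 1) + 1 := by positivity
  have hl0 := hl v0
  have hε0 : 0 < ε := by positivity
  obtain ⟨u, hu0, hufin, huv0, hE⟩ := ht ε hε0
  -- the support
  set S : Finset V := hufin.toFinset with hS
  have hSmem : ∀ v, v ∈ S ↔ u v ≠ 0 := fun v => by simp [hS]
  set T : ℝ := ∑ v ∈ S, u v ^ 2 * l v ^ 2 with hT
  choose A hA1 hA2 using fun v => exists_flags_at K X v (h1 v)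
  set A0 : Finset (V × V × V) := S.biUnion A with hA0
  have hA0mem : ∀ x, x ∈ A0 ↔ x.1 ∈ S ∧ K.face x.1 x.2.1 x.2.2 := by
    intro x
    rw [hA0, Finset.mem_biUnion]
    constructor
    · rintro ⟨v, hv, hx⟩
      obtain ⟨rfl, hf⟩ := (hA1 v x).1 hx
      exact ⟨hv, hf⟩
    · rintro ⟨hv, hf⟩
      exact ⟨x.1, hv, (hA1 _ x).2 ⟨rfl, hf⟩⟩
  set Fl : Finset (V × V × V) := A0 ∪ A0.map (rotE V).toEmbedding ∪
    (A0.map (rotE V).toEmbedding).map (rotE V).toEmbedding with hFl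
  have hFlmem : ∀ x, x ∈ Fl ↔ K.face x.1 x.2.1 x.2.2 ∧ (x.1 ∈ S ∨ x.2.1 ∈ S ∨ x.2.2 ∈ S) := by
    rintro ⟨a, b, c⟩
    simp only [hFl, Finset.mem_union, Finset.mem_map_equiv]
    have e1 : (rotE V).symm (a, b, c) = (c, a, b) := rfl
    have e2 : (rotE V).symm (c, a, b) = (b, c, a) := rfl
    rw [e1, e2, hA0mem, hA0mem, hA0mem]
    constructor
    · rintro ((⟨h, hf⟩ | ⟨h, hf⟩) | ⟨h, hf⟩)
      · exact ⟨hf, Or.inl h⟩
      · exact ⟨K.rot hf, Or.inr (Or.inr h)⟩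
      · exact ⟨K.rot2 hf, Or.inr (Or.inl h)⟩
    · rintro ⟨hf, h | h | h⟩
      · exact Or.inl (Or.inl ⟨h, hf⟩)
      · exact Or.inr ⟨h, K.rot hf⟩
      · exact Or.inl (Or.inr ⟨h, K.rot2 hf⟩)
  -- rotation invariance of sums over `Fl`
  have hrot : ∀ f : V × V × V → ℝ, ∑ x ∈ Fl, f (rotE V x) = ∑ x ∈ Fl, f x := by
    intro f
    apply Finset.sum_equiv (rotE V)
    · rintro ⟨a, b, c⟩
      change (a, b, c) ∈ Fl ↔ (b, c, a) ∈ Fl
      rw [hFlmem, hFlmem]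
      constructor
      · rintro ⟨hf, h⟩
        exact ⟨K.rot hf, by tauto⟩
      · rintro ⟨hf, h⟩
        exact ⟨K.rot2 hf, by simp only at h ⊢; tauto⟩
    · intro x _
      rfl
  -- lower bound
  have hlow : 2 * T ≤ ∑ x ∈ Fl, u x.1 ^ 2 * X x.1 x.2.1 x.2.2 := by
    have e1 : ∑ x ∈ Fl, u x.1 ^ 2 * X x.1 x.2.1 x.2.2 =
        ∑ x ∈ A0, u x.1 ^ 2 * X x.1 x.2.1 x.2.2 := by
      symm
      apply Finset.sum_subset
      · intro x hx
        rw [hFl, Finset.mem_union, Finset.mem_union]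
        exact Or.inl (Or.inl hx)
      · intro x hx hx'
        have hf := ((hFlmem x).1 hx).1
        have : x.1 ∉ S := fun h => hx' ((hA0mem x).2 ⟨h, hf⟩)
        rw [hSmem, not_not] at this
        rw [this]; simp
    have e2 : ∑ x ∈ A0, u x.1 ^ 2 * X x.1 x.2.1 x.2.2 =
        ∑ v ∈ S, ∑ x ∈ A v, u x.1 ^ 2 * X x.1 x.2.1 x.2.2 := by
      rw [hA0]
      apply Finset.sum_biUnion
      intro v _ w _ hvw
      rw [Function.onFun, Finset.disjoint_left]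
      intro x hx hx'
      exact hvw (((hA1 v x).1 hx).1.symm.trans ((hA1 w x).1 hx').1)
    rw [e1, e2, hT, Finset.mul_sum]
    apply Finset.sum_le_sum
    intro v _
    have e3 : ∑ x ∈ A v, u x.1 ^ 2 * X x.1 x.2.1 x.2.2 =
        u v ^ 2 * ∑ x ∈ A v, X x.1 x.2.1 x.2.2 := by
      rw [Finset.mul_sum]
      apply Finset.sum_congr rfl
      intro x hx
      rw [((hA1 v x).1 hx).1]
    rw [e3]
    have := hA2 v
    nlinarith [sq_nonneg (u v)]
  -- upper bound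
  set W : V → V → ℝ := fun a b => |u a - u b| * (u a * l a + u b * l b) with hW
  have hup : ∑ x ∈ Fl, u x.1 ^ 2 * X x.1 x.2.1 x.2.2 ≤ C * ∑ x ∈ Fl, W x.1 x.2.1 := by
    have s1 := hrot fun x => u x.1 ^ 2 * X x.1 x.2.1 x.2.2
    have s2 := hrot fun x => u (rotE V x).1 ^ 2 *
      X (rotE V x).1 (rotE V x).2.1 (rotE V x).2.2
    have t1 := hrot fun x => W x.1 x.2.1
    have t2 := hrot fun x => W (rotE V x).1 (rotE V x).2.1
    have key : ∀ x ∈ Fl, u x.1 ^ 2 * X x.1 x.2.1 x.2.2 + u x.2.1 ^ 2 * X x.2.1 x.2.2 x.1 +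
        u x.2.2 ^ 2 * X x.2.2 x.1 x.2.1 ≤
        C * (W x.1 x.2.1 + W x.2.1 x.2.2 + W x.2.2 x.1) := by
      intro x hx
      have hf := ((hFlmem x).1 hx).1
      exact face_ineq hC (hu0 _) (hu0 _) (hu0 _) (hl _).le (hl _).le (hl _).le
        (h3 _ _ _ hf) (h2 _ _ _ hf) (h2 _ _ _ (K.rot hf)) (h2 _ _ _ (K.rot2 hf))
    have hsum := Finset.sum_le_sum key
    rw [Finset.sum_add_distrib, Finset.sum_add_distrib, ← Finset.mul_sum,
      Finset.sum_add_distrib, Finset.sum_add_distrib] at hsum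
    simp only [rotE, Equiv.coe_fn_mk] at s1 s2 t1 t2
    rw [s1] at s2
    rw [t1] at t2
    rw [s1, s2, t1, t2] at hsum
    linarith
  -- projection to oriented edges
  set F : Finset (V × V) := Fl.image fun x => (x.1, x.2.1) with hF
  have hFadj : ∀ e ∈ F, K.Adj e.1 e.2 := by
    intro e he
    obtain ⟨x, hx, rfl⟩ := Finset.mem_image.1 he
    exact ⟨x.2.2, ((hFlmem x).1 hx).1⟩
  have hproj : ∀ f : V → V → ℝ, ∑ x ∈ Fl, f x.1 x.2.1 = ∑ e ∈ F, f e.1 e.2 := by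
    intro f
    rw [hF, Finset.sum_image]
    rintro ⟨a, b, c⟩ hx ⟨a', b', c'⟩ hy hxy
    have h1 := ((hFlmem _).1 (Finset.mem_coe.1 hx)).1
    have h2 := ((hFlmem _).1 (Finset.mem_coe.1 hy)).1
    simp only [Prod.mk.injEq] at hxy h1 h2
    obtain ⟨rfl, rfl⟩ := hxy
    rw [Cplx.face_unique h1 h2]
  have hTbd : ∀ S' : Finset V, ∑ v ∈ S', u v ^ 2 * l v ^ 2 ≤ T := by
    intro S'
    calc ∑ v ∈ S', u v ^ 2 * l v ^ 2 ≤ ∑ v ∈ S' ∪ S, u v ^ 2 * l v ^ 2 :=
          Finset.sum_le_sum_of_subset_of_nonneg Finset.subset_union_left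
            fun v _ _ => by positivity
      _ = ∑ v ∈ S, u v ^ 2 * l v ^ 2 := by
          symm
          apply Finset.sum_subset Finset.subset_union_right
          intro v _ hv
          rw [hSmem, not_not] at hv
          rw [hv]; simp
  have hs1 := sum_fst_le hD F hFadj (fun v => u v ^ 2 * l v ^ 2) (fun v => by positivity) hTbd
  have hs2 := sum_snd_le hD F hFadj (fun v => u v ^ 2 * l v ^ 2) (fun v => by positivity) hTbd
  have hDpos : (0:ℝ) < D + 1 := by positivity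
  have hWle : C * ∑ x ∈ Fl, W x.1 x.2.1 ≤
      C ^ 2 * (D + 1) * ∑ e ∈ F, (u e.1 - u e.2) ^ 2 + T := by
    rw [hproj, Finset.mul_sum]
    have hpt : ∀ e ∈ F, C * W e.1 e.2 ≤ C ^ 2 * (D + 1) * (u e.1 - u e.2) ^ 2 +
        (u e.1 ^ 2 * l e.1 ^ 2 + u e.2 ^ 2 * l e.2 ^ 2) / (2 * (D + 1)) := by
      intro e _
      set d := |u e.1 - u e.2| with hd
      have hd2 : d ^ 2 = (u e.1 - u e.2) ^ 2 := sq_abs _
      set p := u e.1 * l e.1
      set q := u e.2 * l e.2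
      have e1 : u e.1 ^ 2 * l e.1 ^ 2 = p ^ 2 := by ring
      have e2 : u e.2 ^ 2 * l e.2 ^ 2 = q ^ 2 := by ring
      rw [← hd2, e1, e2]
      change C * (d * (p + q)) ≤ _
      have k1 : C * (d * (p + q)) ≤ C ^ 2 * (D + 1) * d ^ 2 + (p + q) ^ 2 / (4 * (D + 1)) := by
        have : C ^ 2 * (D + 1) * d ^ 2 + (p + q) ^ 2 / (4 * (D + 1)) - C * (d * (p + q)) =
            (2 * (D + 1) * C * d - (p + q)) ^ 2 / (4 * (D + 1)) := by
          field_simp
          ring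
        have h0 : 0 ≤ (2 * ((D:ℝ) + 1) * C * d - (p + q)) ^ 2 / (4 * (D + 1)) := by positivity
        linarith
      have k2 : (p + q) ^ 2 / (4 * ((D:ℝ) + 1)) ≤ (p ^ 2 + q ^ 2) / (2 * (D + 1)) := by
        rw [div_le_div_iff₀ (by positivity) (by positivity)]
        nlinarith [sq_nonneg (p - q)]
      linarith
    refine (Finset.sum_le_sum hpt).trans ?_
    rw [Finset.sum_add_distrib, ← Finset.mul_sum, ← Finset.sum_div, Finset.sum_add_distrib]
    have hT0 : 0 ≤ T := Finset.sum_nonneg fun v _ => by positivity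
    have : (∑ e ∈ F, u e.1 ^ 2 * l e.1 ^ 2 + ∑ e ∈ F, u e.2 ^ 2 * l e.2 ^ 2) /
        (2 * ((D:ℝ) + 1)) ≤ T := by
      rw [div_le_iff₀ (by positivity)]
      nlinarith
    linarith
  have hEF := hE F hFadj
  have hTv0 : l v0 ^ 2 ≤ T := by
    have := hTbd {v0}
    rw [Finset.sum_singleton, huv0] at this
    linarith
  have hfin : T ≤ C ^ 2 * (D + 1) * ε := by
    have : C ^ 2 * ((D:ℝ) + 1) * ∑ e ∈ F, (u e.1 - u e.2) ^ 2 ≤ C ^ 2 * (D + 1) * ε := by gcongr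
    linarith
  have hlast : C ^ 2 * ((D:ℝ) + 1) * ε ≤ l v0 ^ 2 / 2 := by
    rw [hε]
    have e : C ^ 2 * ((D:ℝ) + 1) * (l v0 ^ 2 / (C ^ 2 * (D + 1) + 1) / 2) =
        (C ^ 2 * ((D:ℝ) + 1) / (C ^ 2 * (D + 1) + 1)) * (l v0 ^ 2 / 2) := by ring
    rw [e]
    have : C ^ 2 * ((D:ℝ) + 1) / (C ^ 2 * (D + 1) + 1) ≤ 1 := by
      rw [div_le_one hden]; linarith
    nlinarith [sq_nonneg (l v0)]
  nlinarith [sq_pos_of_pos hl0]

end Pool.Agent.Helper50.Pic
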