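import Pool.Agent.Helper50.PicCone

/-!
# Arcs and the three corners of a face
-/

set_option autoImplicit false

namespace Pool.Agent.Helper50.Pic

open Metric Set MeasureTheory

theorem exp_arg {a : ℂ} (ha : ‖a‖ = 1) : Complex.exp (a.arg * Complex.I) = a := by
  have := Complex.norm_mul_exp_arg_mul_I a
  rwa [ha, Complex.ofReal_one, one_mul] at this

theorem circleMap_arg (c : ℂ) (r : ℝ) {a : ℂ} (ha : ‖a‖ = 1) :
    circleMap c r a.arg = c + r * a := by
  unfold circleMap
  rw [exp_arg ha]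

theorem exp_arg_add {a b : ℂ} (ha : ‖a‖ = 1) (hb : ‖b‖ = 1) :
    Complex.exp (((a.arg + (b / a).arg : ℝ) : ℂ) * Complex.I) = b := by
  have hba : ‖b / a‖ = 1 := by rw [norm_div, ha, hb, div_one]
  have ha0 : a ≠ 0 := by
    intro h; rw [h, norm_zero] at ha; exact zero_ne_one ha
  push_cast
  rw [add_mul, Complex.exp_add, exp_arg ha, exp_arg hba]
  field_simp

theorem circleMap_arg_add (c : ℂ) (r : ℝ) {a b : ℂ} (ha : ‖a‖ = 1) (hb : ‖b‖ = 1) :
    circleMap c r (a.arg + (b / a).arg) = c + r * b := by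
  unfold circleMap
  rw [exp_arg_add ha hb]

theorem cos_sin_of_exp {α : ℝ} {a : ℂ} (h : Complex.exp (α * Complex.I) = a) :
    Real.cos α = a.re ∧ Real.sin α = a.im := by
  rw [← h, Complex.exp_ofReal_mul_I_re, Complex.exp_ofReal_mul_I_im]
  exact ⟨rfl, rfl⟩

theorem im_div_unit {a b : ℂ} (ha : ‖a‖ = 1) : (b / a).im = cross a b := by
  have h : Complex.normSq a = 1 := by rw [Complex.normSq_eq_norm_sq, ha]; norm_num
  rw [Complex.div_im, h]
  unfold cross
  ring

theorem angle_pos {a b : ℂ} (ha : ‖a‖ = 1) (h : 0 < cross a b) : 0 < (b / a).arg := by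
  rw [← im_div_unit ha] at h
  refine lt_of_le_of_ne (Complex.arg_nonneg_iff.2 h.le) fun e => ?_
  have := (Complex.arg_eq_zero_iff.1 e.symm).2
  linarith

theorem angle_lt_pi {a b : ℂ} (ha : ‖a‖ = 1) (h : 0 < cross a b) : (b / a).arg < Real.pi := by
  rw [← im_div_unit ha] at h
  refine lt_of_le_of_ne (Complex.arg_le_pi _) fun e => ?_
  have := (Complex.arg_eq_pi_iff.1 e).2
  linarith

/-- The integral of the potential over the counterclockwise arc of the circle of center `c` and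
radius `r` from the direction `a` to the direction `b`. -/
noncomputable def arcI (c : ℂ) (r : ℝ) (a b : ℂ) : ℝ :=
  ∫ φ in a.arg..a.arg + (b / a).arg, gg c r φ

theorem integral_shift (c : ℂ) (r : ℝ) {α α' θ : ℝ}
    (h : Complex.exp (α * Complex.I) = Complex.exp (α' * Complex.I)) :
    ∫ φ in α..α + θ, gg c r φ = ∫ φ in α'..α' + θ, gg c r φ := by
  obtain ⟨n, hn⟩ := Complex.exp_eq_exp_iff_exists_int.1 h
  have h1 : α = α' + n * (2 * Real.pi) := by
    have h2 := congrArg Complex.im hn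
    simp at h2
    exact h2
  have h3 : ∀ φ, gg c r (φ + n * (2 * Real.pi)) = gg c r φ := by
    intro φ
    exact (periodic_gg c r).int_mul n φ
  have h4 := intervalIntegral.integral_comp_add_right (gg c r) (n * (2 * Real.pi)) (a := α')
    (b := α' + θ)
  simp_rw [h3] at h4
  rw [h4, h1]
  congr 1
  ring

theorem arcI_eq (c : ℂ) (r : ℝ) {a b : ℂ} (ha : ‖a‖ = 1) {α : ℝ}
    (h : Complex.exp (α * Complex.I) = a) :
    arcI c r a b = ∫ φ in α..α + (b / a).arg, gg c r φ := by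
  unfold arcI
  apply integral_shift
  rw [exp_arg ha, h]

/-- The integral of the potential over the segment from `q` to `b`. -/
noncomputable def Lseg (q b : ℂ) : ℝ :=
  ∫ s in (0:ℝ)..1, (q.re * b.im - q.im * b.re) / (1 + ‖q + s * (b - q)‖ ^ 2)

theorem circleMap_re (c : ℂ) (r φ : ℝ) : (circleMap c r φ).re = c.re + r * Real.cos φ := by
  simp [circleMap, Complex.exp_ofReal_mul_I_re]

theorem circleMap_im (c : ℂ) (r φ : ℝ) : (circleMap c r φ).im = c.im + r * Real.sin φ := by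
  simp [circleMap, Complex.exp_ofReal_mul_I_im]

theorem ck_eq_gg (q c : ℂ) (r φ : ℝ) : ck q.re q.im c.re c.im r 1 φ = gg c r φ := by
  unfold ck gg cF cX cY
  have e : ‖circleMap c r φ‖ ^ 2 = (c.re + r * Real.cos φ) ^ 2 + (c.im + r * Real.sin φ) ^ 2 := by
    rw [Complex.sq_norm, Complex.normSq_apply, circleMap_re, circleMap_im]; ring
  rw [e, Complex.mul_re, Complex.conj_re, Complex.conj_im, circleMap_re, circleMap_im,
    circleMap_re, circleMap_im]
  simp only [Complex.zero_re, Complex.zero_im, zero_add]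
  congr 1
  · ring
  · ring

theorem cm_eq (q c : ℂ) (r φ s : ℝ) : cm q.re q.im c.re c.im r s φ =
    (q.re * (circleMap c r φ).im - q.im * (circleMap c r φ).re) /
      (1 + ‖q + s * (circleMap c r φ - q)‖ ^ 2) := by
  unfold cm cF cX cY
  have e : ‖q + s * (circleMap c r φ - q)‖ ^ 2 =
      (q.re + s * (c.re + r * Real.cos φ - q.re)) ^ 2 +
        (q.im + s * (c.im + r * Real.sin φ - q.im)) ^ 2 := by
    rw [Complex.sq_norm, Complex.normSq_apply]
    simp only [Complex.add_re, Complex.add_im, Complex.mul_re, Complex.mul_im, Complex.ofReal_re,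
      Complex.ofReal_im, Complex.sub_re, Complex.sub_im, circleMap_re, circleMap_im]
    ring
  rw [e, circleMap_re, circleMap_im]
  congr 1
  ring

theorem cone_complex {q c : ℂ} {r : ℝ} (hr : 0 ≤ r) {α β : ℝ} (hαβ : α ≤ β)
    (h : ∀ φ ∈ Icc α β, r ≤ (q.re - c.re) * Real.cos φ + (q.im - c.im) * Real.sin φ) :
    ∫ φ in α..β, gg c r φ ≤ Lseg q (circleMap c r β) - Lseg q (circleMap c r α) := by
  have := cone_real q.re q.im c.re c.im r hr hαβ h
  simp only [ck_eq_gg, cm_eq] at this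
  exact this

theorem arcI_le_cone {q c : ℂ} {r : ℝ} (hr : 0 < r) {a b : ℂ} (ha : ‖a‖ = 1) (hb : ‖b‖ = 1)
    (hab : 0 < cross a b) (h1 : (q.re - c.re) * a.re + (q.im - c.im) * a.im = r)
    (h2 : (q.re - c.re) * b.re + (q.im - c.im) * b.im = r) :
    arcI c r a b ≤ Lseg q (c + r * b) - Lseg q (c + r * a) := by
  have hθ0 := angle_pos ha hab
  have hθ1 := angle_lt_pi ha hab
  have ea := cos_sin_of_exp (exp_arg ha)
  have eb := cos_sin_of_exp (exp_arg_add ha hb)
  rw [← circleMap_arg c r ha, ← circleMap_arg_add c r ha hb]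
  unfold arcI
  set α := a.arg
  set θ := (b / a).arg
  apply cone_complex hr.le (by linarith)
  intro φ hφ
  obtain ⟨t, hφt⟩ : ∃ t, φ = α + t := ⟨φ - α, by ring⟩
  have ht0 : 0 ≤ t := by linarith [hφ.1]
  have ht1 : t ≤ θ := by linarith [hφ.2]
  have hs : 0 < Real.sin θ := Real.sin_pos_of_pos_of_lt_pi hθ0 hθ1
  rw [← ea.1, ← ea.2] at h1
  rw [← eb.1, ← eb.2] at h2
  have hs1 : 0 ≤ Real.sin t := Real.sin_nonneg_of_nonneg_of_le_pi ht0 (by linarith)
  have hs2 : 0 ≤ Real.sin (θ - t) :=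
    Real.sin_nonneg_of_nonneg_of_le_pi (by linarith) (by linarith)
  have hsum : Real.sin θ ≤ Real.sin (θ - t) + Real.sin t := by
    have e : Real.sin θ = Real.sin (θ - t) * Real.cos t + Real.cos (θ - t) * Real.sin t := by
      rw [← Real.sin_add]; congr 1; ring
    rw [e]
    nlinarith [Real.cos_le_one t, Real.cos_le_one (θ - t)]
  have key : ((q.re - c.re) * Real.cos φ + (q.im - c.im) * Real.sin φ) * Real.sin θ =
      Real.sin (θ - t) * r + Real.sin t * r := by
    have k : ((q.re - c.re) * Real.cos (α + t) + (q.im - c.im) * Real.sin (α + t)) *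
        Real.sin θ = Real.sin (θ - t) *
          ((q.re - c.re) * Real.cos α + (q.im - c.im) * Real.sin α) + Real.sin t *
          ((q.re - c.re) * Real.cos (α + θ) + (q.im - c.im) * Real.sin (α + θ)) := by
      rw [Real.cos_add α t, Real.sin_add α t, Real.cos_add α θ, Real.sin_add α θ, Real.sin_sub]
      ring
    rw [h1, h2] at k
    rw [hφt]
    exact k
  have : r * Real.sin θ ≤
      ((q.re - c.re) * Real.cos φ + (q.im - c.im) * Real.sin φ) * Real.sin θ := by
    rw [key]; nlinarith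
  exact le_of_mul_le_mul_right this hs

/-- The unit vector from `z` to `w`, for tangent circles with radii `r` and `s`. -/
noncomputable def dirv (z w : ℂ) (r s : ℝ) : ℂ := (w - z) / ((r + s : ℝ) : ℂ)

theorem norm_dirv {z w : ℂ} {r s : ℝ} (hr : 0 < r) (hs : 0 < s) (h : dist z w = r + s) :
    ‖dirv z w r s‖ = 1 := by
  unfold dirv
  rw [norm_div, Complex.norm_real, ← dist_eq_norm, dist_comm, h, Real.norm_eq_abs,
    abs_of_pos (by positivity)]
  exact div_self (by positivity)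

theorem cross_dirv {z w x : ℂ} {r s t : ℝ} (hr : 0 < r) (hs : 0 < s) (ht : 0 < t)
    (h : 0 < cross (w - z) (x - z)) : 0 < cross (dirv z w r s) (dirv z x r t) := by
  have e : cross (dirv z w r s) (dirv z x r t) = cross (w - z) (x - z) / ((r + s) * (r + t)) := by
    unfold cross dirv
    rw [Complex.div_ofReal_re, Complex.div_ofReal_im, Complex.div_ofReal_re,
      Complex.div_ofReal_im]
    have : r + s ≠ 0 := by positivity
    have : r + t ≠ 0 := by positivity
    field_simp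
  rw [e]
  positivity

/-- The incenter of the triangle of centers. -/
noncomputable def incen (z1 z2 z3 : ℂ) (r1 r2 r3 : ℝ) : ℂ :=
  (((r2 + r3 : ℝ) : ℂ) * z1 + ((r1 + r3 : ℝ) : ℂ) * z2 + ((r1 + r2 : ℝ) : ℂ) * z3) /
    ((2 * (r1 + r2 + r3) : ℝ) : ℂ)

theorem incen_rot (z1 z2 z3 : ℂ) (r1 r2 r3 : ℝ) :
    incen z1 z2 z3 r1 r2 r3 = incen z2 z3 z1 r2 r3 r1 := by
  unfold incen
  congr 1
  · push_cast; ring
  · push_cast; ring

theorem dist_sq (z w : ℂ) : dist z w ^ 2 = (z.re - w.re) ^ 2 + (z.im - w.im) ^ 2 := by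
  rw [Complex.dist_eq_re_im, Real.sq_sqrt (by positivity)]

theorem incen_dot {z1 z2 z3 : ℂ} {r1 r2 r3 : ℝ} (h1 : 0 < r1) (h2 : 0 < r2) (h3 : 0 < r3)
    (h12 : dist z1 z2 = r1 + r2) (h23 : dist z2 z3 = r2 + r3) (h31 : dist z3 z1 = r3 + r1) :
    ((incen z1 z2 z3 r1 r2 r3).re - z1.re) * (dirv z1 z2 r1 r2).re +
      ((incen z1 z2 z3 r1 r2 r3).im - z1.im) * (dirv z1 z2 r1 r2).im = r1 := by
  have d12 := dist_sq z1 z2
  have d23 := dist_sq z2 z3
  have d31 := dist_sq z3 z1
  rw [h12] at d12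
  rw [h23] at d23
  rw [h31] at d31
  unfold incen dirv
  rw [Complex.div_ofReal_re, Complex.div_ofReal_im, Complex.div_ofReal_re, Complex.div_ofReal_im]
  simp only [Complex.add_re, Complex.add_im, Complex.mul_re, Complex.mul_im, Complex.ofReal_re,
    Complex.ofReal_im, Complex.sub_re, Complex.sub_im]
  have : r1 + r2 + r3 ≠ 0 := by positivity
  have : r1 + r2 ≠ 0 := by positivity
  field_simp
  linear_combination (-(r1 + r3) - (r1 + r2) / 2) * d12 + ((r1 + r2) / 2) * d23 -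
    ((r1 + r2) / 2) * d31

theorem incen_dot' {z1 z2 z3 : ℂ} {r1 r2 r3 : ℝ} (h1 : 0 < r1) (h2 : 0 < r2) (h3 : 0 < r3)
    (h12 : dist z1 z2 = r1 + r2) (h23 : dist z2 z3 = r2 + r3) (h31 : dist z3 z1 = r3 + r1) :
    ((incen z1 z2 z3 r1 r2 r3).re - z1.re) * (dirv z1 z3 r1 r3).re +
      ((incen z1 z2 z3 r1 r2 r3).im - z1.im) * (dirv z1 z3 r1 r3).im = r1 := by
  have := incen_dot (z1 := z1) (z2 := z3) (z3 := z2) h1 h3 h2
    (by rw [dist_comm, h31, add_comm]) (by rw [dist_comm, h23, add_comm])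
    (by rw [dist_comm, h12, add_comm])
  have e : incen z1 z3 z2 r1 r3 r2 = incen z1 z2 z3 r1 r2 r3 := by
    unfold incen
    congr 1
    · push_cast; ring
    · push_cast; ring
  rwa [e] at this

/-- The tangency point of two tangent circles. -/
noncomputable def tpt (z w : ℂ) (r s : ℝ) : ℂ := z + r * dirv z w r s

theorem tpt_symm {z w : ℂ} {r s : ℝ} (hr : 0 < r) (hs : 0 < s) :
    tpt z w r s = tpt w z s r := by
  have : ((r:ℂ) + s) ≠ 0 := by
    have : (r + s) ≠ 0 := by positivity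
    exact_mod_cast this
  have h2 : ((s:ℂ) + r) ≠ 0 := by rwa [add_comm]
  unfold tpt dirv
  push_cast
  field_simp
  ring

/-- The sum of the integrals over the three arcs of an interstice is not positive. -/
theorem face_sum {z1 z2 z3 : ℂ} {r1 r2 r3 : ℝ} (h1 : 0 < r1) (h2 : 0 < r2) (h3 : 0 < r3)
    (h12 : dist z1 z2 = r1 + r2) (h23 : dist z2 z3 = r2 + r3) (h31 : dist z3 z1 = r3 + r1)
    (ho : 0 < cross (z2 - z1) (z3 - z1)) :
    arcI z1 r1 (dirv z1 z2 r1 r2) (dirv z1 z3 r1 r3) +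
      arcI z2 r2 (dirv z2 z3 r2 r3) (dirv z2 z1 r2 r1) +
      arcI z3 r3 (dirv z3 z1 r3 r1) (dirv z3 z2 r3 r2) ≤ 0 := by
  have ho2 : 0 < cross (z3 - z2) (z1 - z2) := by
    have : cross (z3 - z2) (z1 - z2) = cross (z2 - z1) (z3 - z1) := by
      simp only [cross, Complex.sub_re, Complex.sub_im]; ring
    rw [this]; exact ho
  have ho3 : 0 < cross (z1 - z3) (z2 - z3) := by
    have : cross (z1 - z3) (z2 - z3) = cross (z2 - z1) (z3 - z1) := by
      simp only [cross, Complex.sub_re, Complex.sub_im]; ring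
    rw [this]; exact ho
  have a1 := arcI_le_cone (q := incen z1 z2 z3 r1 r2 r3) h1 (norm_dirv h1 h2 h12)
    (norm_dirv h1 h3 (by rw [dist_comm, h31, add_comm])) (cross_dirv h1 h2 h3 ho)
    (incen_dot h1 h2 h3 h12 h23 h31) (incen_dot' h1 h2 h3 h12 h23 h31)
  have a2 := arcI_le_cone (q := incen z2 z3 z1 r2 r3 r1) h2 (norm_dirv h2 h3 h23)
    (norm_dirv h2 h1 (by rw [dist_comm, h12, add_comm])) (cross_dirv h2 h3 h1 ho2)
    (incen_dot h2 h3 h1 h23 h31 h12) (incen_dot' h2 h3 h1 h23 h31 h12)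
  have a3 := arcI_le_cone (q := incen z3 z1 z2 r3 r1 r2) h3 (norm_dirv h3 h1 h31)
    (norm_dirv h3 h2 (by rw [dist_comm, h23, add_comm])) (cross_dirv h3 h1 h2 ho3)
    (incen_dot h3 h1 h2 h31 h12 h23) (incen_dot' h3 h1 h2 h31 h12 h23)
  rw [← incen_rot z1 z2 z3] at a2
  rw [← incen_rot z2 z3 z1, ← incen_rot z1 z2 z3] at a3
  have t12 := tpt_symm (z := z1) (w := z2) h1 h2
  have t23 := tpt_symm (z := z2) (w := z3) h2 h3
  have t31 := tpt_symm (z := z3) (w := z1) h3 h1
  unfold tpt at t12 t23 t31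
  rw [t12, ← t31] at a1
  rw [t23] at a2
  linarith

end Pool.Agent.Helper50.Pic
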