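import Pool.Agent.Helper50.PicState
import Pool.Agent.Helper50.PicArc

/-!
# The bound for the corner terms
-/

set_option autoImplicit false

namespace Pool.Agent.Helper50.Pic

open Metric Set Complex

theorem QQ_sq' (c : ℂ) (r : ℝ) :
    QQ c r ^ 2 = (1 + (‖c‖ - r) ^ 2) * (1 + (‖c‖ + r) ^ 2) := by
  rw [QQ_sq]; ring

/-- The size of a circle on the sphere. -/
noncomputable def ell (c : ℂ) (r : ℝ) : ℝ := r / QQ c r

theorem ell_pos (c : ℂ) {r : ℝ} (hr : 0 < r) : 0 < ell c r := div_pos hr (QQ_pos c hr)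

/-- The corner term is bounded by a constant multiple of the size of the circle. -/
theorem corner_bound {c : ℂ} {r : ℝ} (hr : 0 < r) (hg : Good (closedBall c r)) {a b : ℂ}
    (ha : ‖a‖ = 1) (hb : ‖b‖ = 1) (hab : 0 < cross a b) (s : Sta) :
    |arcI c r a b / Real.pi + chg (c + r * a) (c + r * b) s| ≤ 135 * ell c r := by
  have hpi := Real.pi_pos
  have hθ0 := angle_pos ha hab
  have hθ1 := angle_lt_pi ha hab
  have hQ := QQ_pos c hr
  have hQ2 := QQ_sq' c r
  have hc : r < ‖c‖ := by
    by_contra hcon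
    push Not at hcon
    exact hg.h0 (by rw [mem_closedBall, dist_comm, dist_zero_right]; exact hcon)
  have hmem : ∀ {x : ℂ}, ‖x‖ = 1 → c + r * x ∈ closedBall c r := by
    intro x hx
    rw [mem_closedBall, dist_eq_norm, add_sub_cancel_left, norm_mul, hx, Complex.norm_real,
      Real.norm_eq_abs, abs_of_pos hr, mul_one]
  have hpa := hmem ha
  have hpb := hmem hb
  have hrQ : r = QQ c r * ell c r := by unfold ell; field_simp
  have hell := ell_pos c hr
  rcases le_or_gt (‖c‖ + r) 3 with h1 | h1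
  · -- small circles near the origin
    have hQ10 : QQ c r ≤ 10 := by
      have e1 : 1 + (‖c‖ - r) ^ 2 ≤ 10 := by nlinarith
      have e2 : 1 + (‖c‖ + r) ^ 2 ≤ 10 := by nlinarith
      have e3 : QQ c r ^ 2 ≤ 10 * 10 := by
        rw [hQ2]
        have : 0 ≤ 1 + (‖c‖ + r) ^ 2 := by positivity
        gcongr
      nlinarith
    have hr10 : r ≤ 10 * ell c r := by
      calc r = QQ c r * ell c r := hrQ
        _ ≤ 10 * ell c r := by gcongr
    have b1 : |arcI c r a b| ≤ Real.pi * r / 2 := abs_arc_le c hr _ hθ0.le hθ1.le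
    have b2 : |arcI c r a b / Real.pi| ≤ r / 2 := by
      rw [abs_div, abs_of_pos hpi, div_le_iff₀ hpi]
      linarith
    have b3 := hg.abs_chg_le hpa hpb s
    have b4 : ‖(c + r * a) - (c + r * b)‖ ≤ 2 * r := by
      rw [mem_closedBall] at hpa hpb
      rw [← dist_eq_norm]
      have := dist_triangle_right (c + r * a) (c + r * b) c
      linarith
    have b5 := abs_add_le (arcI c r a b / Real.pi) (chg (c + r * a) (c + r * b) s)
    linarith
  · rcases le_or_gt 2 (‖c‖ - r) with h2 | h2
    · -- circles far away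
      have hfar : ∀ z ∈ closedBall c r, 2 ≤ ‖z‖ := by
        intro z hz
        rw [mem_closedBall] at hz
        have := dist_triangle c z 0
        rw [dist_zero_right, dist_zero_right, dist_comm c z] at this
        linarith
      have e1 := hg.chg_far hfar hpa hpb s
      have e2 := abs_arc_sub_arg_le hr hc a.arg hθ0.le hθ1.le
      rw [circleMap_arg c r ha, circleMap_arg_add c r ha hb] at e2
      have e3 : arcI c r a b / Real.pi + chg (c + r * a) (c + r * b) s =
          (arcI c r a b - ((c + r * b) / (c + r * a)).arg) / Real.pi := by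
        rw [e1]; ring
      rw [e3, abs_div, abs_of_pos hpi, div_le_iff₀ hpi]
      refine e2.trans ?_
      have d0 : 0 < ‖c‖ - r := by linarith
      have d1 : 0 < ‖c‖ + r := by linarith
      have hQle : QQ c r ≤ 2 * (‖c‖ - r) * (‖c‖ + r) := by
        have f1 : 1 + (‖c‖ - r) ^ 2 ≤ 2 * (‖c‖ - r) ^ 2 := by nlinarith
        have f2 : 1 + (‖c‖ + r) ^ 2 ≤ 2 * (‖c‖ + r) ^ 2 := by nlinarith
        have f3 : QQ c r ^ 2 ≤ (2 * (‖c‖ - r) * (‖c‖ + r)) ^ 2 := by
          rw [hQ2]
          calc (1 + (‖c‖ - r) ^ 2) * (1 + (‖c‖ + r) ^ 2)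
              ≤ (2 * (‖c‖ - r) ^ 2) * (2 * (‖c‖ + r) ^ 2) := by gcongr
            _ = (2 * (‖c‖ - r) * (‖c‖ + r)) ^ 2 := by ring
        exact le_of_sq_le_sq f3 (by positivity)
      have h3 : r / (2 * (‖c‖ - r) * (‖c‖ + r)) ≤ ell c r := by
        unfold ell
        gcongr
      have h4 : 2 * Real.pi * r / ((‖c‖ - r) ^ 2 * (‖c‖ + r)) ≤
          2 * Real.pi * (r / (2 * (‖c‖ - r) * (‖c‖ + r))) := by
        rw [mul_div_assoc]
        gcongr
        nlinarith
      calc _ ≤ _ := h4
        _ ≤ 2 * Real.pi * ell c r := by gcongr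
        _ ≤ 135 * ell c r * Real.pi := by nlinarith [mul_pos hell hpi]
    · -- the remaining circles are large
      have b1 : |arcI c r a b| ≤ Real.pi := abs_arc_le_pi hr hc.le _ hθ0.le hθ1.le
      have b2 : |arcI c r a b / Real.pi| ≤ 1 := by
        rw [abs_div, abs_of_pos hpi, div_le_iff₀ hpi]
        linarith
      have b3 := hg.abs_chg_le_eight hpa hpb s
      have b5 := abs_add_le (arcI c r a b / Real.pi) (chg (c + r * a) (c + r * b) s)
      have hl : 1 / 15 ≤ ell c r := by
        unfold ell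
        rw [div_le_div_iff₀ (by norm_num) hQ]
        have f1 : QQ c r ^ 2 ≤ (15 * r) ^ 2 := by
          rw [hQ2]
          have g1 : 1 + (‖c‖ - r) ^ 2 ≤ 5 := by nlinarith
          have g2 : 0 ≤ 1 + (‖c‖ + r) ^ 2 := by positivity
          calc (1 + (‖c‖ - r) ^ 2) * (1 + (‖c‖ + r) ^ 2) ≤ 5 * (1 + (‖c‖ + r) ^ 2) := by gcongr
            _ ≤ (15 * r) ^ 2 := by
                have g3 : ‖c‖ + r - 2 ≤ 2 * r := by linarith
                have g4 : (‖c‖ + r - 2) ^ 2 ≤ (2 * r) ^ 2 := by gcongr; linarith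
                nlinarith
        have := le_of_sq_le_sq f1 (by positivity)
        linarith
      linarith

end Pool.Agent.Helper50.Pic
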