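import Pool.Agent.Helper50.PicDefs

/-!
# Cocycles on a simply connected complex are trivial
-/

set_option autoImplicit false

namespace Pool.Agent.Helper50.Pic

universe u v

variable {V : Type u} {K : Cplx V} {G : Type v} [Group G]

/-- The product of a cocycle along the path `a :: l`. -/
def wk (g : V → V → G) : V → List V → G
  | _, [] => 1
  | a, b :: l => wk g b l * g a b

theorem wk_append (g : V → V → G) (a u : V) (l l' : List V) :
    wk g a (l ++ u :: l') = wk g u l' * wk g a (l ++ [u]) := by
  induction l generalizing a with
  | nil => simp [wk]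
  | cons b l ih =>
    simp only [List.cons_append, wk]
    rw [ih]
    group

/-- The product along a list. -/
def wkL (g : V → V → G) : List V → G
  | [] => 1
  | a :: l => wk g a l

/-- The conditions on a cocycle. -/
structure IsCocycle (K : Cplx V) (g : V → V → G) : Prop where
  inv : ∀ u v, K.Adj u v → g v u * g u v = 1
  face : ∀ u v w, (K.face u v w ∨ K.face w v u) → g v w * g u v = g u w

theorem IsCocycle.move {g : V → V → G} (hg : IsCocycle K g) {l l' : List V}
    (h : K.Move l l') : wkL g l = wkL g l' := by
  cases h with
  | back l l' u v h =>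
    have key : wk g u (v :: u :: l') = wk g u l' := by
      simp only [wk]
      rw [mul_assoc, hg.inv u v h, mul_one]
    cases l with
    | nil => exact key
    | cons a l =>
      simp only [List.cons_append, wkL]
      rw [wk_append, key, ← wk_append]
  | face l l' u v w h =>
    have key : wk g u (v :: w :: l') = wk g u (w :: l') := by
      simp only [wk]
      rw [mul_assoc, hg.face u v w h]
    cases l with
    | nil => exact key
    | cons a l =>
      simp only [List.cons_append, wkL]
      rw [wk_append, key, ← wk_append]

theorem IsCocycle.eqvGen {g : V → V → G} (hg : IsCocycle K g) {l l' : List V}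
    (h : Relation.EqvGen K.Move l l') : wkL g l = wkL g l' := by
  induction h with
  | rel x y h => exact hg.move h
  | refl x => rfl
  | symm x y _ ih => exact ih.symm
  | trans x y z _ _ ih1 ih2 => exact ih1.trans ih2

/-- There is an edge path from `a` to `b` with product `x`. -/
def Reach (K : Cplx V) (g : V → V → G) (a b : V) (x : G) : Prop :=
  ∃ l, K.IsPath (a :: l) ∧ (a :: l).getLast? = some b ∧ wk g a l = x

theorem Reach.refl (g : V → V → G) (a : V) : Reach K g a a 1 :=
  ⟨[], by simp [Cplx.IsPath], by simp, rfl⟩

theorem wk_snoc (g : V → V → G) (a b c : V) (l : List V) (h : (a :: l).getLast? = some b) :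
    wk g a (l ++ [c]) = g b c * wk g a l := by
  induction l generalizing a with
  | nil =>
    simp only [List.getLast?_singleton, Option.some.injEq] at h
    subst h
    simp [wk]
  | cons d l ih =>
    rw [List.getLast?_cons_cons] at h
    simp only [List.cons_append, wk]
    rw [ih d h]
    group

theorem Reach.snoc {g : V → V → G} {a b c : V} {x : G} (h : Reach K g a b x)
    (hbc : K.Adj b c) : Reach K g a c (g b c * x) := by
  obtain ⟨l, h1, h2, h3⟩ := h
  refine ⟨l ++ [c], ?_, ?_, ?_⟩
  · unfold Cplx.IsPath at *
    rw [← List.cons_append, List.isChain_append]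
    refine ⟨h1, by simp, ?_⟩
    intro x hx y hy
    rw [h2] at hx
    simp only [Option.mem_def, Option.some.injEq, List.head?_cons] at hx hy
    rw [← hx, ← hy]
    exact hbc
  · rw [← List.cons_append, List.getLast?_append]
    simp
  · rw [wk_snoc g a b c l h2, h3]

theorem Reach.symm {g : V → V → G} (hg : IsCocycle K g) {a b : V} {x : G}
    (h : Reach K g a b x) : Reach K g b a x⁻¹ := by
  obtain ⟨l, h1, h2, h3⟩ := h
  subst h3
  induction l generalizing a with
  | nil =>
    simp only [List.getLast?_singleton, Option.some.injEq] at h2
    subst h2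
    simp only [wk, inv_one]
    exact Reach.refl g a
  | cons d l ih =>
    unfold Cplx.IsPath at h1
    rw [List.isChain_cons_cons] at h1
    rw [List.getLast?_cons_cons] at h2
    have h4 := (ih h1.2 h2).snoc h1.1.symm
    have h5 : g d a = (g a d)⁻¹ := eq_inv_of_mul_eq_one_left (hg.inv a d h1.1)
    simp only [wk]
    rw [mul_inv_rev, ← h5]
    exact h4

theorem Reach.trans {g : V → V → G} {a b c : V} {x y : G}
    (h : Reach K g a b x) (h' : Reach K g b c y) : Reach K g a c (y * x) := by
  obtain ⟨l, h1, h2, h3⟩ := h'
  subst h3
  induction l generalizing b x with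
  | nil =>
    simp only [List.getLast?_singleton, Option.some.injEq] at h2
    subst h2
    simpa only [wk, one_mul] using h
  | cons d l ih =>
    unfold Cplx.IsPath at h1
    rw [List.isChain_cons_cons] at h1
    rw [List.getLast?_cons_cons] at h2
    have h4 := ih (h.snoc h1.1) h1.2 h2
    simp only [wk]
    rw [mul_assoc]
    exact h4

theorem Reach.eq_one {g : V → V → G} (hg : IsCocycle K g) (hK : K.SimplyConn) {a : V} {x : G}
    (h : Reach K g a a x) : x = 1 := by
  obtain ⟨l, h1, h2, h3⟩ := h
  have := hg.eqvGen (hK a l h1 h2)
  simp only [wkL] at this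
  rw [← h3, this]
  rfl

/-- A cocycle on a connected and simply connected complex is trivial. -/
theorem exists_trivialization {g : V → V → G} (hg : IsCocycle K g) (hc : K.Conn)
    (hK : K.SimplyConn) (v0 : V) : ∃ f : V → G, ∀ u v, K.Adj u v → f v = g u v * f u := by
  have hex : ∀ v, ∃ x, Reach K g v0 v x := by
    intro v
    obtain ⟨l, h1, h2⟩ := hc v0 v
    exact ⟨wk g v0 l, l, h1, h2, rfl⟩
  have huniq : ∀ v x y, Reach K g v0 v x → Reach K g v0 v y → x = y := by
    intro v x y hx hy
    have := (hx.trans (hy.symm hg)).eq_one hg hK
    exact (inv_mul_eq_one.1 this).symm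
  choose f hf using hex
  exact ⟨f, fun u v huv => huniq v _ _ (hf v) ((hf u).snoc huv)⟩

end Pool.Agent.Helper50.Pic
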