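import Pool.Agent.Helper50.PicInt

/-!
# The cone lemma: comparison of an arc with the cone over it
-/

set_option autoImplicit false

namespace Pool.Agent.Helper50.Pic

open Metric Set MeasureTheory

section real

variable (q1 q2 c1 c2 r : ℝ)

/-- First coordinate of the cone map. -/
noncomputable def cX (s φ : ℝ) : ℝ := q1 + s * (c1 + r * Real.cos φ - q1)

/-- Second coordinate of the cone map. -/
noncomputable def cY (s φ : ℝ) : ℝ := q2 + s * (c2 + r * Real.sin φ - q2)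

/-- One plus the square of the norm. -/
noncomputable def cF (s φ : ℝ) : ℝ := 1 + cX q1 c1 r s φ ^ 2 + cY q2 c2 r s φ ^ 2

/-- The component `ds` of the pulled back potential. -/
noncomputable def cm (s φ : ℝ) : ℝ :=
  (q1 * (c2 + r * Real.sin φ) - q2 * (c1 + r * Real.cos φ)) / cF q1 q2 c1 c2 r s φ

/-- The component `dφ` of the pulled back potential. -/
noncomputable def ck (s φ : ℝ) : ℝ :=
  s * (cX q1 c1 r s φ * (r * Real.cos φ) + cY q2 c2 r s φ * (r * Real.sin φ)) /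
    cF q1 q2 c1 c2 r s φ

/-- Derivative of `cm` in `φ`. -/
noncomputable def cmd (s φ : ℝ) : ℝ :=
  (q1 * (r * Real.cos φ) + q2 * (r * Real.sin φ)) / cF q1 q2 c1 c2 r s φ -
    (q1 * (c2 + r * Real.sin φ) - q2 * (c1 + r * Real.cos φ)) *
      (2 * s * (-(cX q1 c1 r s φ * (r * Real.sin φ)) + cY q2 c2 r s φ * (r * Real.cos φ))) /
      cF q1 q2 c1 c2 r s φ ^ 2

/-- Derivative of `ck` in `s`. -/
noncomputable def ckd (s φ : ℝ) : ℝ :=
  (cX q1 c1 r s φ * (r * Real.cos φ) + cY q2 c2 r s φ * (r * Real.sin φ) +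
      s * ((c1 + r * Real.cos φ - q1) * (r * Real.cos φ) +
        (c2 + r * Real.sin φ - q2) * (r * Real.sin φ))) / cF q1 q2 c1 c2 r s φ -
    s * (cX q1 c1 r s φ * (r * Real.cos φ) + cY q2 c2 r s φ * (r * Real.sin φ)) *
      (2 * (cX q1 c1 r s φ * (c1 + r * Real.cos φ - q1) +
        cY q2 c2 r s φ * (c2 + r * Real.sin φ - q2))) / cF q1 q2 c1 c2 r s φ ^ 2

theorem cF_pos (s φ : ℝ) : 0 < cF q1 q2 c1 c2 r s φ := by unfold cF; positivity

theorem hasDerivAt_cm (s φ : ℝ) :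
    HasDerivAt (fun φ => cm q1 q2 c1 c2 r s φ) (cmd q1 q2 c1 c2 r s φ) φ := by
  have hc := Real.hasDerivAt_cos φ
  have hs := Real.hasDerivAt_sin φ
  have hX : HasDerivAt (fun φ => cX q1 c1 r s φ) (s * (r * -Real.sin φ)) φ :=
    ((((hc.const_mul r).const_add c1).sub_const q1).const_mul s).const_add q1
  have hY : HasDerivAt (fun φ => cY q2 c2 r s φ) (s * (r * Real.cos φ)) φ :=
    ((((hs.const_mul r).const_add c2).sub_const q2).const_mul s).const_add q2
  have hF : HasDerivAt (fun φ => cF q1 q2 c1 c2 r s φ)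
      (2 * cX q1 c1 r s φ * (s * (r * -Real.sin φ)) +
        2 * cY q2 c2 r s φ * (s * (r * Real.cos φ))) φ := by
    exact (((hX.pow 2).const_add 1).add (hY.pow 2)).congr_deriv (by norm_num)
  have hN : HasDerivAt (fun φ => q1 * (c2 + r * Real.sin φ) - q2 * (c1 + r * Real.cos φ))
      (q1 * (r * Real.cos φ) - q2 * (r * -Real.sin φ)) φ :=
    (((hs.const_mul r).const_add c2).const_mul q1).sub
      (((hc.const_mul r).const_add c1).const_mul q2)
  have h := hN.div hF (cF_pos q1 q2 c1 c2 r s φ).ne'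
  have hp := cF_pos q1 q2 c1 c2 r s φ
  refine h.congr_deriv ?_
  unfold cmd
  field_simp
  ring

theorem hasDerivAt_ck (s φ : ℝ) :
    HasDerivAt (fun s => ck q1 q2 c1 c2 r s φ) (ckd q1 q2 c1 c2 r s φ) s := by
  have hX : HasDerivAt (fun s => cX q1 c1 r s φ) (1 * (c1 + r * Real.cos φ - q1)) s :=
    ((hasDerivAt_id s).mul_const _).const_add q1
  have hY : HasDerivAt (fun s => cY q2 c2 r s φ) (1 * (c2 + r * Real.sin φ - q2)) s :=
    ((hasDerivAt_id s).mul_const _).const_add q2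
  have hF : HasDerivAt (fun s => cF q1 q2 c1 c2 r s φ)
      (2 * cX q1 c1 r s φ * (1 * (c1 + r * Real.cos φ - q1)) +
        2 * cY q2 c2 r s φ * (1 * (c2 + r * Real.sin φ - q2))) s := by
    exact (((hX.pow 2).const_add 1).add (hY.pow 2)).congr_deriv (by norm_num)
  have hN : HasDerivAt
      (fun s => s * (cX q1 c1 r s φ * (r * Real.cos φ) + cY q2 c2 r s φ * (r * Real.sin φ)))
      (1 * (cX q1 c1 r s φ * (r * Real.cos φ) + cY q2 c2 r s φ * (r * Real.sin φ)) +
        s * ((1 * (c1 + r * Real.cos φ - q1)) * (r * Real.cos φ) +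
          (1 * (c2 + r * Real.sin φ - q2)) * (r * Real.sin φ))) s :=
    (hasDerivAt_id s).mul ((hX.mul_const _).add (hY.mul_const _))
  have h := hN.div hF (cF_pos q1 q2 c1 c2 r s φ).ne'
  have hp := cF_pos q1 q2 c1 c2 r s φ
  refine h.congr_deriv ?_
  unfold ckd
  field_simp

theorem ckd_sub_cmd (s φ : ℝ) :
    ckd q1 q2 c1 c2 r s φ - cmd q1 q2 c1 c2 r s φ =
      2 * s * r * (r - ((q1 - c1) * Real.cos φ + (q2 - c2) * Real.sin φ)) /
        cF q1 q2 c1 c2 r s φ ^ 2 := by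
  have hp := cF_pos q1 q2 c1 c2 r s φ
  have h1 := Real.sin_sq_add_cos_sq φ
  unfold ckd cmd
  field_simp
  unfold cF cX cY
  generalize Real.sin φ = S at *
  generalize Real.cos φ = C at *
  linear_combination (2 * s * r * r) * h1

theorem continuous_cF : Continuous (Function.uncurry (cF q1 q2 c1 c2 r)) := by
  unfold Function.uncurry cF cX cY
  fun_prop

theorem continuous_cmd : Continuous (Function.uncurry (cmd q1 q2 c1 c2 r)) := by
  have hF := continuous_cF q1 q2 c1 c2 r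
  have hp : ∀ a : ℝ × ℝ, cF q1 q2 c1 c2 r a.1 a.2 ≠ 0 := fun a => (cF_pos _ _ _ _ _ _ _).ne'
  unfold Function.uncurry at *
  unfold cmd cX cY
  refine Continuous.sub (Continuous.div (by fun_prop) hF hp)
    (Continuous.div (by fun_prop) (hF.pow 2) fun a => pow_ne_zero 2 (hp a))

theorem continuous_ckd : Continuous (Function.uncurry (ckd q1 q2 c1 c2 r)) := by
  have hF := continuous_cF q1 q2 c1 c2 r
  have hp : ∀ a : ℝ × ℝ, cF q1 q2 c1 c2 r a.1 a.2 ≠ 0 := fun a => (cF_pos _ _ _ _ _ _ _).ne'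
  unfold Function.uncurry at *
  unfold ckd cX cY
  refine Continuous.sub (Continuous.div (by fun_prop) hF hp)
    (Continuous.div (by fun_prop) (hF.pow 2) fun a => pow_ne_zero 2 (hp a))

theorem continuous_cm : Continuous (Function.uncurry (cm q1 q2 c1 c2 r)) := by
  have hF := continuous_cF q1 q2 c1 c2 r
  have hp : ∀ a : ℝ × ℝ, cF q1 q2 c1 c2 r a.1 a.2 ≠ 0 := fun a => (cF_pos _ _ _ _ _ _ _).ne'
  unfold Function.uncurry at *
  unfold cm
  exact Continuous.div (by fun_prop) hF hp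

theorem ck_zero (φ : ℝ) : ck q1 q2 c1 c2 r 0 φ = 0 := by simp [ck]

attribute [local irreducible] cm ck cmd ckd cF

theorem cont_ckd_left (φ : ℝ) : Continuous fun s => ckd q1 q2 c1 c2 r s φ :=
  (continuous_ckd q1 q2 c1 c2 r).comp (g := Function.uncurry (ckd q1 q2 c1 c2 r))
    (f := fun s => (s, φ)) (by fun_prop)

theorem cont_cmd_left (φ : ℝ) : Continuous fun s => cmd q1 q2 c1 c2 r s φ :=
  (continuous_cmd q1 q2 c1 c2 r).comp (g := Function.uncurry (cmd q1 q2 c1 c2 r))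
    (f := fun s => (s, φ)) (by fun_prop)

theorem cont_cmd_right (s : ℝ) : Continuous fun φ => cmd q1 q2 c1 c2 r s φ :=
  (continuous_cmd q1 q2 c1 c2 r).comp (g := Function.uncurry (cmd q1 q2 c1 c2 r))
    (f := fun φ => (s, φ)) (by fun_prop)

theorem cont_cm_left (φ : ℝ) : Continuous fun s => cm q1 q2 c1 c2 r s φ :=
  (continuous_cm q1 q2 c1 c2 r).comp (g := Function.uncurry (cm q1 q2 c1 c2 r))
    (f := fun s => (s, φ)) (by fun_prop)

theorem cont_swap_ckd : Continuous (Function.uncurry fun φ s => ckd q1 q2 c1 c2 r s φ) :=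
  (continuous_ckd q1 q2 c1 c2 r).comp (g := Function.uncurry (ckd q1 q2 c1 c2 r)) continuous_swap

theorem cont_swap_cmd : Continuous (Function.uncurry fun φ s => cmd q1 q2 c1 c2 r s φ) :=
  (continuous_cmd q1 q2 c1 c2 r).comp (g := Function.uncurry (cmd q1 q2 c1 c2 r)) continuous_swap

/-- The comparison of the integral over the arc with the boundary terms of the cone. -/
theorem cone_real (hr : 0 ≤ r) {α β : ℝ} (hαβ : α ≤ β)
    (h : ∀ φ ∈ Icc α β, r ≤ (q1 - c1) * Real.cos φ + (q2 - c2) * Real.sin φ) :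
    ∫ φ in α..β, ck q1 q2 c1 c2 r 1 φ ≤
      (∫ s in (0:ℝ)..1, cm q1 q2 c1 c2 r s β) - ∫ s in (0:ℝ)..1, cm q1 q2 c1 c2 r s α := by
  -- the inner integral of `ckd`
  have h1 : ∀ φ, ∫ s in (0:ℝ)..1, ckd q1 q2 c1 c2 r s φ = ck q1 q2 c1 c2 r 1 φ := by
    intro φ
    rw [intervalIntegral.integral_eq_sub_of_hasDerivAt
      (fun s _ => hasDerivAt_ck q1 q2 c1 c2 r s φ)
      ((cont_ckd_left q1 q2 c1 c2 r φ).intervalIntegrable _ _), ck_zero, sub_zero]
  have h2 : ∀ s, ∫ φ in α..β, cmd q1 q2 c1 c2 r s φ =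
      cm q1 q2 c1 c2 r s β - cm q1 q2 c1 c2 r s α := by
    intro s
    rw [intervalIntegral.integral_eq_sub_of_hasDerivAt
      (fun φ _ => hasDerivAt_cm q1 q2 c1 c2 r s φ)
      ((cont_cmd_right q1 q2 c1 c2 r s).intervalIntegrable _ _)]
  have hpt : ∀ φ ∈ Icc α β, ∀ s ∈ Icc (0:ℝ) 1,
      ckd q1 q2 c1 c2 r s φ ≤ cmd q1 q2 c1 c2 r s φ := by
    intro φ hφ s hs
    have e := ckd_sub_cmd q1 q2 c1 c2 r s φ
    have hle : 2 * s * r * (r - ((q1 - c1) * Real.cos φ + (q2 - c2) * Real.sin φ)) /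
        cF q1 q2 c1 c2 r s φ ^ 2 ≤ 0 := by
      apply div_nonpos_of_nonpos_of_nonneg _ (sq_nonneg _)
      apply mul_nonpos_of_nonneg_of_nonpos
      · have := hs.1
        positivity
      · have := h φ hφ
        linarith
    linarith
  have h3 : ∫ φ in α..β, ∫ s in (0:ℝ)..1, ckd q1 q2 c1 c2 r s φ ≤
      ∫ φ in α..β, ∫ s in (0:ℝ)..1, cmd q1 q2 c1 c2 r s φ := by
    apply intervalIntegral.integral_mono_on hαβ
    · exact (intervalIntegral.continuous_parametric_intervalIntegral_of_continuous'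
        (cont_swap_ckd q1 q2 c1 c2 r) 0 1).intervalIntegrable _ _
    · exact (intervalIntegral.continuous_parametric_intervalIntegral_of_continuous'
        (cont_swap_cmd q1 q2 c1 c2 r) 0 1).intervalIntegrable _ _
    · intro φ hφ
      exact intervalIntegral.integral_mono_on zero_le_one
        ((cont_ckd_left q1 q2 c1 c2 r φ).intervalIntegrable _ _)
        ((cont_cmd_left q1 q2 c1 c2 r φ).intervalIntegrable _ _) (hpt φ hφ)
  have h4 : ∫ φ in α..β, ∫ s in (0:ℝ)..1, cmd q1 q2 c1 c2 r s φ =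
      ∫ s in (0:ℝ)..1, ∫ φ in α..β, cmd q1 q2 c1 c2 r s φ := by
    apply MeasureTheory.intervalIntegral_intervalIntegral_swap
    apply IntegrableOn.mono_set (t := uIcc α β ×ˢ uIcc (0:ℝ) 1)
    · exact ContinuousOn.integrableOn_compact (isCompact_uIcc.prod isCompact_uIcc)
        (cont_swap_cmd q1 q2 c1 c2 r).continuousOn
    · exact Set.prod_mono uIoc_subset_uIcc uIoc_subset_uIcc
  simp_rw [h1] at h3
  rw [h4] at h3
  simp_rw [h2] at h3
  rwa [intervalIntegral.integral_sub] at h3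
  · exact (cont_cm_left q1 q2 c1 c2 r β).intervalIntegrable _ _
  · exact (cont_cm_left q1 q2 c1 c2 r α).intervalIntegrable _ _

end real

end Pool.Agent.Helper50.Pic
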