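import Mathlib

/-!
# Circle packings for triangulated open discs: definitions
-/

set_option autoImplicit false

namespace Pool.Agent.Helper50.Pic

open Metric

universe u

/-- An oriented simplicial complex triangulating a surface without boundary, given by its
positively oriented faces: `face u v w` says that `⟨u, v, w⟩` is a face, listed in positive
order. The link of every vertex `v` is a simple closed polygon with vertices `p 0, …, p (n-1)`,
the petals of `v`, where `n ≥ 3`. -/
structure Cplx (V : Type u) where
  face : V → V → V → Prop
  rot : ∀ {u v w}, face u v w → face v w u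
  flower : ∀ v, ∃ (n : ℕ) (p : ℕ → V), 3 ≤ n ∧ (∀ i, p (i + n) = p i) ∧
    (∀ i < n, ∀ j < n, p i = p j → i = j) ∧ (∀ i, p i ≠ v) ∧
    ∀ a b, face v a b ↔ ∃ i < n, a = p i ∧ b = p (i + 1)

namespace Cplx

variable {V : Type u} (K : Cplx V)

/-- `u` and `v` are joined by an edge. -/
def Adj (u v : V) : Prop := ∃ w, K.face u v w

/-- A list of vertices is an edge path if consecutive vertices are joined by edges. -/
def IsPath (l : List V) : Prop := List.IsChain K.Adj l

/-- The complex is connected. -/
def Conn : Prop := ∀ u v : V, ∃ l : List V, K.IsPath (u :: l) ∧ (u :: l).getLast? = some v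

/-- Elementary homotopies of edge paths: `… u v u …` may be replaced by `… u …`, and if
`u`, `v`, `w` are the vertices of a face then `… u v w …` may be replaced by `… u w …`. -/
inductive Move : List V → List V → Prop
  | back (l l' : List V) (u v : V) (h : K.Adj u v) :
      Move (l ++ u :: v :: u :: l') (l ++ u :: l')
  | face (l l' : List V) (u v w : V) (h : K.face u v w ∨ K.face w v u) :
      Move (l ++ u :: v :: w :: l') (l ++ u :: w :: l')

/-- The complex is simply connected: every closed edge path is homotopic to a constant path. -/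
def SimplyConn : Prop :=
  ∀ (v : V) (l : List V), K.IsPath (v :: l) → (v :: l).getLast? = some v →
    Relation.EqvGen K.Move (v :: l) [v]

/-- A combinatorial open disc: a connected and simply connected infinite triangulated surface
without boundary. -/
structure IsOpenDisc : Prop where
  conn : K.Conn
  simplyConn : K.SimplyConn
  infinite : Infinite V

/-- The degrees of the vertices are bounded. -/
def BoundedDegree : Prop := ∃ D : ℕ, ∀ v, {u | K.Adj v u}.encard ≤ D

end Cplx

/-- The signed area of the parallelogram spanned by `a` and `b`. -/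
def cross (a b : ℂ) : ℝ := a.re * b.im - a.im * b.re

/-- A circle packing for `K` in the plane (branching is allowed): circles with centers `c v` and
radii `r v`, tangent externally along the edges, such that every face is mapped to a positively
oriented triangle of centers. -/
structure Packing {V : Type u} (K : Cplx V) where
  c : V → ℂ
  r : V → ℝ
  r_pos : ∀ v, 0 < r v
  tangent : ∀ u v, K.Adj u v → dist (c u) (c v) = r u + r v
  orient : ∀ u v w, K.face u v w → 0 < cross (c v - c u) (c w - c u)

namespace Packing

variable {V : Type u} {K : Cplx V} (P : Packing K)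

/-- The carrier: the union of the closed triangles of centers. -/
def carr : Set ℂ :=
  {z | ∃ u v w, K.face u v w ∧ z ∈ convexHull ℝ {P.c u, P.c v, P.c w}}

/-- The packing is univalent: different circles have disjoint interiors. -/
def Univalent : Prop :=
  ∀ u v, u ≠ v → Disjoint (ball (P.c u) (P.r u)) (ball (P.c v) (P.r v))

end Packing

/-- `K` is parabolic: it has a univalent packing whose carrier is the whole plane. -/
def Cplx.Parabolic {V : Type u} (K : Cplx V) : Prop :=
  ∃ P : Packing K, P.Univalent ∧ P.carr = Set.univ

/-! ### Basic facts -/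

namespace Cplx

variable {V : Type u} {K : Cplx V}

theorem rot2 {u v w : V} (h : K.face u v w) : K.face w u v := K.rot (K.rot h)

theorem exists_prev {u v w : V} (h : K.face u v w) : ∃ x, K.face u x v := by
  obtain ⟨n, p, hn, hper, -, -, hf⟩ := K.flower u
  obtain ⟨i, hi, rfl, rfl⟩ := (hf v w).1 h
  rcases Nat.eq_zero_or_pos i with rfl | h0
  · refine ⟨p (n - 1), (hf _ _).2 ⟨n - 1, by omega, rfl, ?_⟩⟩
    rw [show n - 1 + 1 = 0 + n by omega, hper]
  · refine ⟨p (i - 1), (hf _ _).2 ⟨i - 1, by omega, rfl, ?_⟩⟩
    rw [show i - 1 + 1 = i by omega]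

theorem Adj.symm {u v : V} (h : K.Adj u v) : K.Adj v u := by
  obtain ⟨w, h⟩ := h
  obtain ⟨x, hx⟩ := exists_prev h
  exact ⟨x, K.rot2 hx⟩

theorem adj_of_face {u v w : V} (h : K.face u v w) : K.Adj u v := ⟨w, h⟩

theorem adj_of_face' {u v w : V} (h : K.face u v w) : K.Adj u w := by
  have := rot2 h
  exact (adj_of_face this).symm

theorem ne_of_adj {u v : V} (h : K.Adj u v) : u ≠ v := by
  obtain ⟨w, h⟩ := h
  obtain ⟨n, p, hn, hper, -, hne, hf⟩ := K.flower u
  obtain ⟨i, hi, rfl, rfl⟩ := (hf v w).1 h
  exact (hne i).symm

/-- The third vertex of a face is determined by the first two. -/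
theorem face_unique {u v w w' : V} (h : K.face u v w) (h' : K.face u v w') : w = w' := by
  obtain ⟨n, p, hn, hper, hinj, hne, hf⟩ := K.flower u
  obtain ⟨i, hi, rfl, rfl⟩ := (hf v w).1 h
  obtain ⟨j, hj, hij, rfl⟩ := (hf _ w').1 h'
  rw [hinj i hi j hj hij]

end Cplx

end Pool.Agent.Helper50.Pic
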