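import Pool.Agent.Helper50.PicAbs
import Pool.Agent.Helper50.PicBound
import Pool.Agent.Helper50.PicCocycle

/-!
# The discrete Picard theorem for bounded degree complexes
-/

set_option autoImplicit false

namespace Pool.Agent.Helper50.Pic

open Metric Set

universe u

variable {V : Type u} {K : Cplx V}

namespace Packing

variable (P : Packing K)

theorem good_face (h0 : (0:ℂ) ∉ P.carr) (h1 : (1:ℂ) ∉ P.carr) {u v w : V}
    (h : K.face u v w) : Good (convexHull ℝ {P.c u, P.c v, P.c w}) where
  conv := convex_convexHull ℝ _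
  h0 := fun h' => h0 ⟨u, v, w, h, h'⟩
  h1 := fun h' => h1 ⟨u, v, w, h, h'⟩

theorem good_disc (h0 : (0:ℂ) ∉ P.carr) (h1 : (1:ℂ) ∉ P.carr) (v : V) :
    Good (closedBall (P.c v) (P.r v)) where
  conv := convex_closedBall _ _
  h0 := fun h' => h0 (P.closedBall_subset_carr v h')
  h1 := fun h' => h1 (P.closedBall_subset_carr v h')

theorem good_edge (h0 : (0:ℂ) ∉ P.carr) (h1 : (1:ℂ) ∉ P.carr) {u v : V} (h : K.Adj u v) :
    Good (segment ℝ (P.c u) (P.c v)) := by
  obtain ⟨w, hw⟩ := h
  have hg := P.good_face h0 h1 hw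
  exact hg.mono_segment (subset_convexHull ℝ _ (by simp)) (subset_convexHull ℝ _ (by simp))

/-- The tangency point on the edge `uv`. -/
noncomputable def tp (v u : V) : ℂ := P.c v + P.r v * P.dir v u

theorem tp_symm (v u : V) : P.tp v u = P.tp u v := tpt_symm (P.r_pos v) (P.r_pos u)

theorem tp_mem_segment {v u : V} : P.tp v u ∈ segment ℝ (P.c v) (P.c u) := by
  have hv := P.r_pos v
  have hu := P.r_pos u
  refine ⟨P.r u / (P.r v + P.r u), P.r v / (P.r v + P.r u), by positivity, by positivity,
    by field_simp; ring, ?_⟩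
  have : ((P.r v : ℂ) + P.r u) ≠ 0 := by
    have : P.r v + P.r u ≠ 0 := by positivity
    exact_mod_cast this
  simp only [Complex.real_smul, tp, dir, dirv]
  push_cast
  field_simp
  ring

theorem tp_mem_disc {v u : V} (h : K.Adj v u) : P.tp v u ∈ closedBall (P.c v) (P.r v) := by
  have hv := P.r_pos v
  rw [mem_closedBall, dist_eq_norm, tp, add_sub_cancel_left, norm_mul, P.norm_dir h,
    Complex.norm_real, Real.norm_eq_abs, abs_of_pos hv, mul_one]

theorem isCocycle (h0 : (0:ℂ) ∉ P.carr) (h1 : (1:ℂ) ∉ P.carr) :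
    IsCocycle K (fun u v => mv (P.c u) (P.c v)) where
  inv u v h := by
    have hg := P.good_edge h0 h1 h
    rw [hg.mv_symm (left_mem_segment ℝ _ _) (right_mem_segment ℝ _ _)]
    simp
  face u v w h := by
    rcases h with h | h
    · have hg := P.good_face h0 h1 h
      exact hg.mv_trans (subset_convexHull ℝ _ (by simp)) (subset_convexHull ℝ _ (by simp))
        (subset_convexHull ℝ _ (by simp))
    · have hg := P.good_face h0 h1 h
      exact hg.mv_trans (subset_convexHull ℝ _ (by simp)) (subset_convexHull ℝ _ (by simp))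
        (subset_convexHull ℝ _ (by simp))

/-- The edge potential, for a family of states. -/
noncomputable def Psi (s : V → Sta) (v u : V) : ℝ :=
  Phi (mv (P.c v) (P.tp v u) (s v)) (P.tp v u)

theorem Psi_symm (h0 : (0:ℂ) ∉ P.carr) (h1 : (1:ℂ) ∉ P.carr) {s : V → Sta}
    (hs : ∀ u v, K.Adj u v → s v = mv (P.c u) (P.c v) (s u)) {v u : V} (h : K.Adj v u) :
    P.Psi s v u = P.Psi s u v := by
  have hg := P.good_edge h0 h1 h
  unfold Psi
  rw [hs v u h, ← P.tp_symm v u]
  have := hg.mv_trans (left_mem_segment ℝ _ _) (right_mem_segment ℝ _ _)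
    (P.tp_mem_segment (v := v) (u := u))
  rw [← this]
  rfl

theorem Psi_sub (h0 : (0:ℂ) ∉ P.carr) (h1 : (1:ℂ) ∉ P.carr) (s : V → Sta) {v a b : V}
    (ha : K.Adj v a) (hb : K.Adj v b) :
    P.Psi s v b - P.Psi s v a =
      chg (P.tp v a) (P.tp v b) (mv (P.c v) (P.tp v a) (s v)) := by
  have hg := P.good_disc h0 h1 v
  unfold Psi chg
  have := hg.mv_trans (mem_closedBall_self (P.r_pos v).le) (P.tp_mem_disc ha) (P.tp_mem_disc hb)
  rw [← this]
  rfl

/-- The corner term. -/
noncomputable def X (s : V → Sta) (v a b : V) : ℝ :=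
  arcI (P.c v) (P.r v) (P.dir v a) (P.dir v b) / Real.pi + (P.Psi s v b - P.Psi s v a)

theorem no_omit (hU : ∃ Q : Packing K, Q.Univalent ∧ Q.carr = univ) (hc : K.Conn)
    (hsc : K.SimplyConn) {D : ℕ} (hD : ∀ v, {u | K.Adj v u}.encard ≤ D) [Nonempty V]
    (h0 : (0:ℂ) ∉ P.carr) (h1 : (1:ℂ) ∉ P.carr) : False := by
  have hpi := Real.pi_pos
  obtain ⟨Q, hQ1, hQ2⟩ := hU
  obtain ⟨v0⟩ := ‹Nonempty V›
  obtain ⟨f, hf⟩ := exists_trivialization (P.isCocycle h0 h1) hc hsc v0
  -- a base state
  let o : Om := ⟨fun n => if n % 2 = 0 then 0 else 1, fun n => by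
    rcases Nat.mod_two_eq_zero_or_one n with h | h
    · have : (n + 1) % 2 = 1 := by omega
      simp [h, this]
    · have : (n + 1) % 2 = 0 := by omega
      simp [h, this]⟩
  let s : V → Sta := fun v => f v (o, 0)
  have hs : ∀ u v, K.Adj u v → s v = mv (P.c u) (P.c v) (s u) := by
    intro u v huv
    simp only [s]
    rw [hf u v huv]
    rfl
  refine no_corner_terms hD v0 (fun v => ell (P.c v) (P.r v)) (fun v => ell_pos _ (P.r_pos v))
    (P.X s) (C := 135) (by norm_num) ?_ ?_ ?_ ?_
  · intro v n p hn hper hfl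
    have ht := P.turn hn hper hfl
    have hsum := ht.sum_arcI (P.c v) (P.r_pos v)
    have e1 : ∑ i ∈ Finset.range n, P.X s v (p i) (p (i + 1)) =
        (∑ i ∈ Finset.range n,
          arcI (P.c v) (P.r v) (P.dir v (p i)) (P.dir v (p (i + 1)))) / Real.pi := by
      unfold X
      rw [Finset.sum_add_distrib, Finset.sum_div,
        Finset.sum_range_sub (fun i => P.Psi s v (p i)) n]
      have := hper 0
      rw [zero_add] at this
      rw [this, sub_self, add_zero]
    rw [e1, le_div_iff₀ hpi]
    unfold ell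
    linarith
  · intro v a b hface
    have ha := Cplx.adj_of_face hface
    have hb := Cplx.adj_of_face' hface
    unfold X
    rw [P.Psi_sub h0 h1 s ha hb]
    exact corner_bound (P.r_pos v) (P.good_disc h0 h1 v) (P.norm_dir ha) (P.norm_dir hb)
      (P.cross_dir hface) _
  · intro v a b hface
    have hva := Cplx.adj_of_face hface
    have hab := Cplx.adj_of_face (K.rot hface)
    have hbv := Cplx.adj_of_face (K.rot2 hface)
    have e := face_sum (P.r_pos v) (P.r_pos a) (P.r_pos b) (P.tangent _ _ hva)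
      (P.tangent _ _ hab) (P.tangent _ _ hbv) (P.orient _ _ _ hface)
    have p1 := P.Psi_symm h0 h1 hs hva
    have p2 := P.Psi_symm h0 h1 hs hab
    have p3 := P.Psi_symm h0 h1 hs hbv
    have e' : arcI (P.c v) (P.r v) (P.dir v a) (P.dir v b) +
        arcI (P.c a) (P.r a) (P.dir a b) (P.dir a v) +
        arcI (P.c b) (P.r b) (P.dir b v) (P.dir b a) ≤ 0 := e
    unfold X
    have e2 : (arcI (P.c v) (P.r v) (P.dir v a) (P.dir v b) +
        arcI (P.c a) (P.r a) (P.dir a b) (P.dir a v) +
        arcI (P.c b) (P.r b) (P.dir b v) (P.dir b a)) / Real.pi ≤ 0 :=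
      div_nonpos_of_nonpos_of_nonneg e' hpi.le
    rw [add_div, add_div] at e2
    linarith
  · intro ε hε
    exact exists_test Q hQ1 (fun R => finite_meet hQ1 hc hQ2 R) hD v0 hε

/-- The image of a packing under `z ↦ (z - w) / a`. -/
noncomputable def affine (w a : ℂ) (ha : a ≠ 0) : Packing K where
  c v := (P.c v - w) / a
  r v := P.r v / ‖a‖
  r_pos v := div_pos (P.r_pos v) (norm_pos_iff.2 ha)
  tangent u v h := by
    have := P.tangent u v h
    rw [dist_eq_norm] at *
    rw [← sub_div, sub_sub_sub_cancel_right, norm_div, this]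
    ring
  orient u v w' h := by
    have h1 := P.orient u v w' h
    have hn : 0 < Complex.normSq a := Complex.normSq_pos.2 ha
    have e : cross ((P.c v - w) / a - (P.c u - w) / a) ((P.c w' - w) / a - (P.c u - w) / a) =
        cross (P.c v - P.c u) (P.c w' - P.c u) / Complex.normSq a := by
      rw [← sub_div, ← sub_div, sub_sub_sub_cancel_right, sub_sub_sub_cancel_right]
      generalize P.c v - P.c u = x
      generalize P.c w' - P.c u = y
      unfold cross
      rw [Complex.div_re, Complex.div_im, Complex.div_re, Complex.div_im]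
      have e2 : Complex.normSq a = a.re * a.re + a.im * a.im := Complex.normSq_apply a
      field_simp
      rw [e2]
      ring
    rw [e]
    positivity

theorem mem_carr_affine {w a : ℂ} (ha : a ≠ 0) {z : ℂ} (hz : z ∈ (P.affine w a ha).carr) :
    z * a + w ∈ P.carr := by
  obtain ⟨u, v, x, hf, hz⟩ := hz
  refine ⟨u, v, x, hf, ?_⟩
  have hsub : convexHull ℝ {(P.affine w a ha).c u, (P.affine w a ha).c v,
      (P.affine w a ha).c x} ⊆ {z | z * a + w ∈ convexHull ℝ {P.c u, P.c v, P.c x}} := by
    apply convexHull_min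
    · have key : ∀ y, (y - w) / a * a + w = y := by
        intro y; field_simp; ring
      rintro y (rfl | rfl | rfl)
      · change (P.c u - w) / a * a + w ∈ convexHull ℝ {P.c u, P.c v, P.c x}
        rw [key]; exact subset_convexHull ℝ _ (by simp)
      · change (P.c v - w) / a * a + w ∈ convexHull ℝ {P.c u, P.c v, P.c x}
        rw [key]; exact subset_convexHull ℝ _ (by simp)
      · change (P.c x - w) / a * a + w ∈ convexHull ℝ {P.c u, P.c v, P.c x}
        rw [key]; exact subset_convexHull ℝ _ (by simp)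
    · intro y hy y' hy' s t hs ht hst
      change (s • y + t • y') * a + w ∈ convexHull ℝ {P.c u, P.c v, P.c x}
      have := (convex_convexHull ℝ {P.c u, P.c v, P.c x}) hy hy' hs ht hst
      convert this using 1
      simp only [Complex.real_smul]
      have e : (s:ℂ) + t = 1 := by exact_mod_cast hst
      linear_combination (-w) * e
  exact hsub hz

end Packing

/-- **Discrete Picard theorem.** -/
theorem picard (K : Cplx V) (hK : K.IsOpenDisc) (hb : K.BoundedDegree) (hp : K.Parabolic)
    (P : Packing K) (w₁ w₂ : ℂ) (h₁ : w₁ ∉ P.carr) (h₂ : w₂ ∉ P.carr) : w₁ = w₂ := by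
  by_contra hne
  obtain ⟨D, hD⟩ := hb
  have ha : w₂ - w₁ ≠ 0 := sub_ne_zero.2 (Ne.symm hne)
  have : Infinite V := hK.infinite
  refine (P.affine w₁ (w₂ - w₁) ha).no_omit hp hK.conn hK.simplyConn hD ?_ ?_
  · intro h
    apply h₁
    have := P.mem_carr_affine ha h
    simpa using this
  · intro h
    apply h₂
    have := P.mem_carr_affine ha h
    simpa using this

end Pool.Agent.Helper50.Pic
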