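import Pool.Agent.Helper50.PicTri

/-!
# Local finiteness of univalent packings of the whole plane
-/

set_option autoImplicit false

namespace Pool.Agent.Helper50.Pic

open Metric Set

universe u

variable {V : Type u} {K : Cplx V}

theorem flower_face {x : V} {n : ℕ} {p : ℕ → V} (hper : ∀ i, p (i + n) = p i) (hn : 3 ≤ n)
    (hf : ∀ a b, K.face x a b ↔ ∃ i < n, a = p i ∧ b = p (i + 1)) (i : ℕ) :
    K.face x (p i) (p (i + 1)) := by
  have hp : Function.Periodic p n := hper
  have h1 : p (i % n) = p i := hp.map_mod_nat i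
  have h2 : p (i % n + 1) = p (i + 1) := by
    have h3 := hp.map_mod_nat (i % n + 1)
    have h4 := hp.map_mod_nat (i + 1)
    rw [← h3, ← h4, Nat.mod_add_mod]
  exact (hf _ _).2 ⟨i % n, Nat.mod_lt _ (by omega), h1.symm, h2.symm⟩

namespace Packing

variable {P : Packing K}

theorem Univalent.sep (hU : P.Univalent) {u v : V} (h : u ≠ v) :
    P.r u + P.r v ≤ dist (P.c u) (P.c v) :=
  (disjoint_ball_ball_iff (P.r_pos u) (P.r_pos v)).1 (hU u v h)

/-- If `s` lies on `[c y, c b]`, in `B_y` and in another disc `B_u`, then `s` also lies in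
`B_b`. -/
theorem ni_aux (hU : P.Univalent) {y b u : V} (hyu : y ≠ u) (hyb : K.Adj y b) {s : ℂ}
    (hs : s ∈ segment ℝ (P.c y) (P.c b)) (h1 : s ∈ closedBall (P.c y) (P.r y))
    (h2 : s ∈ closedBall (P.c u) (P.r u)) : s ∈ closedBall (P.c b) (P.r b) := by
  have e := dist_add_dist_of_mem_segment hs
  have t := P.tangent y b hyb
  have sp := hU.sep hyu
  have tri := dist_triangle (P.c y) s (P.c u)
  rw [mem_closedBall] at *
  have := dist_comm (P.c y) s
  linarith

/-- No point of the boundary of a face lies in the closed disc of a fourth vertex and on an edge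
issuing from it. -/
theorem ni_aux2 (hU : P.Univalent) {y b u : V} (hyu : y ≠ u) (hbu : b ≠ u) (hyb : K.Adj y b)
    {s : ℂ} (hs : s ∈ segment ℝ (P.c y) (P.c b)) (h2 : s ∈ closedBall (P.c u) (P.r u)) :
    False := by
  have h3 : s ∈ closedBall (P.c y) (P.r y) ∧ s ∈ closedBall (P.c b) (P.r b) := by
    rcases mem_ball_of_segment (P.tangent y b hyb) hs with h | h
    · exact ⟨h, ni_aux hU hyu hyb hs h h2⟩
    · rw [segment_symm] at hs
      exact ⟨ni_aux hU hbu hyb.symm hs h h2, h⟩
  exact three_discs (P.r_pos y) (P.r_pos b) (P.r_pos u)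
    (hU.sep (Cplx.ne_of_adj hyb)) (hU.sep hbu) (hU.sep hyu) h3.1 h3.2 h2

/-- The frontier of a face is covered by the closed discs of its vertices. -/
theorem face_frontier {u v w : V} (h : K.face u v w) {s : ℂ}
    (hs : s ∈ segment ℝ (P.c u) (P.c v) ∨ s ∈ segment ℝ (P.c v) (P.c w) ∨
      s ∈ segment ℝ (P.c w) (P.c u)) :
    ∃ x, (x = u ∨ x = v ∨ x = w) ∧ s ∈ closedBall (P.c x) (P.r x) := by
  rcases hs with hs | hs | hs
  · rcases mem_ball_of_segment (P.tangent _ _ (Cplx.adj_of_face h)) hs with h | h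
    · exact ⟨u, by tauto, h⟩
    · exact ⟨v, by tauto, h⟩
  · rcases mem_ball_of_segment (P.tangent _ _ (Cplx.adj_of_face (K.rot h))) hs with h | h
    · exact ⟨v, by tauto, h⟩
    · exact ⟨w, by tauto, h⟩
  · rcases mem_ball_of_segment (P.tangent _ _ (Cplx.adj_of_face (K.rot2 h))) hs with h | h
    · exact ⟨w, by tauto, h⟩
    · exact ⟨u, by tauto, h⟩

/-- `Inn P u v w y`: the center of a fourth vertex `y` lies in the face `⟨u,v,w⟩`. -/
def Inn (P : Packing K) (u v w y : V) : Prop :=
  y ≠ u ∧ y ≠ v ∧ y ≠ w ∧ P.c y ∈ tri (P.c u) (P.c v) (P.c w)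

theorem Inn.rot {u v w y : V} (h : Inn P u v w y) : Inn P v w u y :=
  ⟨h.2.1, h.2.2.1, h.1, by rw [← tri_rot]; exact h.2.2.2⟩

theorem ni_step (hU : P.Univalent) {u v w y b : V} (h : K.face u v w) (hy : Inn P u v w y)
    (hyb : K.Adj y b) (h1 : b ≠ u) (h2 : b ≠ v) (h3 : b ≠ w) : Inn P u v w b := by
  refine ⟨h1, h2, h3, ?_⟩
  by_contra hcon
  obtain ⟨s, hs, -, hs'⟩ := exists_frontier (P.orient u v w h) hy.2.2.2 hcon
  obtain ⟨x, hx, hsx⟩ := face_frontier h hs'
  obtain ⟨g1, g2, g3, -⟩ := hy
  rcases hx with rfl | rfl | rfl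
  · exact ni_aux2 hU g1 h1 hyb hs hsx
  · exact ni_aux2 hU g2 h2 hyb hs hsx
  · exact ni_aux2 hU g3 h3 hyb hs hsx

theorem ni_flower (hU : P.Univalent) {u v w y : V} (h : K.face u v w) (hy : Inn P u v w y)
    (huy : K.Adj u y) : False := by
  obtain ⟨n, p, hn, hper, hinj, hne, hf⟩ := K.flower u
  obtain ⟨i, hi, hv, hw⟩ := (hf v w).1 h
  obtain ⟨z, hz⟩ := huy
  obtain ⟨j, hj, hyj, -⟩ := (hf y z).1 hz
  have key : ∀ m, i + 2 ≤ m → Inn P u v w (p m) → False := by
    intro m
    induction m with
    | zero => intro h _; omega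
    | succ m ih =>
      intro him hA
      have fm : K.face u (p m) (p (m + 1)) := flower_face hper hn hf m
      have notw : p m ≠ w := by
        intro hmw
        rw [hmw] at fm
        have o := P.orient _ _ _ fm
        have t := hA.2.2.2.2.2
        simp only [cross, Complex.sub_re, Complex.sub_im] at o t
        nlinarith
      have notv : p m ≠ v := by
        intro hmv
        rw [hmv] at fm
        exact hA.2.2.1 (Cplx.face_unique fm h)
      rcases Nat.lt_or_ge m (i + 2) with hlt | hge
      · have : m = i + 1 := by omega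
        subst this
        exact notw hw.symm
      · refine ih hge (ni_step hU h hA ?_ (hne m) notv notw)
        exact Cplx.adj_of_face (K.rot2 (K.rot2 fm)) |>.symm |> fun _ =>
          (Cplx.adj_of_face (K.rot fm)).symm
  refine key (j + 2 * n) (by omega) ?_
  have : p (j + 2 * n) = y := by
    rw [two_mul, ← add_assoc, hper, hper, hyj]
  rw [this]; exact hy

/-- No center of a fourth vertex lies in a closed face. -/
theorem no_center (hU : P.Univalent) (hK : K.Conn) {u v w y : V} (h : K.face u v w)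
    (hy : Inn P u v w y) : False := by
  have key : ∀ (l : List V) (y : V), K.IsPath (y :: l) → (y :: l).getLast? = some u →
      Inn P u v w y → False := by
    intro l
    induction l with
    | nil =>
      intro y _ h2 h3
      simp only [List.getLast?_singleton, Option.some.injEq] at h2
      exact h3.1 h2
    | cons b l ih =>
      intro y h1 h2 h3
      have hyb : K.Adj y b := by
        unfold Cplx.IsPath at h1
        rw [List.isChain_cons_cons] at h1
        exact h1.1
      by_cases e1 : b = u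
      · subst e1
        exact ni_flower hU h h3 hyb.symm
      by_cases e2 : b = v
      · subst e2
        exact ni_flower hU (K.rot h) h3.rot hyb.symm
      by_cases e3 : b = w
      · subst e3
        exact ni_flower hU (K.rot2 h) h3.rot.rot hyb.symm
      refine ih b ?_ ?_ (ni_step hU h h3 hyb e1 e2 e3)
      · unfold Cplx.IsPath at h1 ⊢
        rw [List.isChain_cons_cons] at h1
        exact h1.2
      · rw [List.getLast?_cons_cons] at h2
        exact h2
  obtain ⟨l, h1, h2⟩ := hK y u
  exact key l y h1 h2 hy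

/-- Only the discs of the vertices of a face meet the face. -/
theorem meets_face (hU : P.Univalent) (hK : K.Conn) {u v w y : V} (h : K.face u v w)
    {x : ℂ} (hx : x ∈ ball (P.c y) (P.r y)) (hx' : x ∈ tri (P.c u) (P.c v) (P.c w)) :
    y = u ∨ y = v ∨ y = w := by
  by_contra hcon
  push Not at hcon
  obtain ⟨h1, h2, h3⟩ := hcon
  have hc : P.c y ∉ tri (P.c u) (P.c v) (P.c w) := fun hc => no_center hU hK h ⟨h1, h2, h3, hc⟩
  obtain ⟨s, hs, -, hs'⟩ := exists_frontier (P.orient u v w h) hx' hc
  obtain ⟨z, hz, hsz⟩ := face_frontier h hs'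
  have hs2 : s ∈ ball (P.c y) (P.r y) :=
    (convex_ball (P.c y) (P.r y)).segment_subset hx (mem_ball_self (P.r_pos y)) hs
  have hyz : y ≠ z := by rcases hz with rfl | rfl | rfl <;> assumption
  have := hU.sep hyz
  have t := dist_triangle (P.c y) s (P.c z)
  rw [mem_closedBall] at hsz
  rw [mem_ball, dist_comm] at hs2
  linarith

theorem local_edge (hU : P.Univalent) (hK : K.Conn) {u v w : V} (h : K.face u v w) {x : ℂ}
    (hx : x ∈ segment ℝ (P.c u) (P.c v)) :
    ∃ U ∈ nhds x, {y | (ball (P.c y) (P.r y) ∩ U).Nonempty}.Finite := by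
  have hself : ∀ a, x ∈ ball (P.c a) (P.r a) →
      ∃ U ∈ nhds x, {y | (ball (P.c y) (P.r y) ∩ U).Nonempty}.Finite := by
    intro a ha
    refine ⟨ball (P.c a) (P.r a), isOpen_ball.mem_nhds ha, (finite_singleton a).subset ?_⟩
    rintro y ⟨z, hz1, hz2⟩
    by_contra hne
    exact Set.disjoint_left.1 (hU y a hne) hz1 hz2
  by_cases hu : x ∈ ball (P.c u) (P.r u)
  · exact hself u hu
  by_cases hv : x ∈ ball (P.c v) (P.r v)
  · exact hself v hv
  obtain ⟨s, t, hs, ht, hst, hxe⟩ := hx
  have hs0 : 0 < s := by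
    refine lt_of_le_of_ne hs fun e => hv ?_
    rw [← e] at hst hxe
    have : t = 1 := by linarith
    rw [this, zero_smul, one_smul, zero_add] at hxe
    rw [← hxe]
    exact mem_ball_self (P.r_pos v)
  have ht0 : 0 < t := by
    refine lt_of_le_of_ne ht fun e => hu ?_
    rw [← e] at hst hxe
    have : s = 1 := by linarith
    rw [this, zero_smul, one_smul, add_zero] at hxe
    rw [← hxe]
    exact mem_ball_self (P.r_pos u)
  obtain ⟨w', hw'⟩ := Cplx.Adj.symm (Cplx.adj_of_face h)
  have o := P.orient _ _ _ h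
  have o' := P.orient _ _ _ hw'
  have hs' : s = 1 - t := by linarith
  subst hs'
  have e1 : x.re = (1 - t) * (P.c u).re + t * (P.c v).re := by
    rw [← hxe]
    simp [Complex.real_smul, Complex.mul_re]
  have e2 : x.im = (1 - t) * (P.c u).im + t * (P.c v).im := by
    rw [← hxe]
    simp [Complex.real_smul, Complex.mul_im]
  have p1 : 0 < cross (P.c w - P.c v) (x - P.c v) := by
    have : cross (P.c w - P.c v) (x - P.c v) =
        (1 - t) * cross (P.c v - P.c u) (P.c w - P.c u) := by
      simp only [cross, Complex.sub_re, Complex.sub_im, e1, e2]; ring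
    rw [this]; positivity
  have p2 : 0 < cross (P.c u - P.c w) (x - P.c w) := by
    have : cross (P.c u - P.c w) (x - P.c w) = t * cross (P.c v - P.c u) (P.c w - P.c u) := by
      simp only [cross, Complex.sub_re, Complex.sub_im, e1, e2]; ring
    rw [this]; positivity
  have p3 : 0 < cross (P.c w' - P.c u) (x - P.c u) := by
    have : cross (P.c w' - P.c u) (x - P.c u) = t * cross (P.c u - P.c v) (P.c w' - P.c v) := by
      simp only [cross, Complex.sub_re, Complex.sub_im, e1, e2]; ring
    rw [this]; positivity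
  have p4 : 0 < cross (P.c v - P.c w') (x - P.c w') := by
    have : cross (P.c v - P.c w') (x - P.c w') =
        (1 - t) * cross (P.c u - P.c v) (P.c w' - P.c v) := by
      simp only [cross, Complex.sub_re, Complex.sub_im, e1, e2]; ring
    rw [this]; positivity
  refine ⟨tri (P.c u) (P.c v) (P.c w) ∪ tri (P.c v) (P.c u) (P.c w'), ?_, ?_⟩
  · have c1 := (continuous_cross (P.c w - P.c v) (P.c v)).continuousAt.eventually (lt_mem_nhds p1)
    have c2 := (continuous_cross (P.c u - P.c w) (P.c w)).continuousAt.eventually (lt_mem_nhds p2)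
    have c3 := (continuous_cross (P.c w' - P.c u) (P.c u)).continuousAt.eventually (lt_mem_nhds p3)
    have c4 := (continuous_cross (P.c v - P.c w') (P.c w')).continuousAt.eventually
      (lt_mem_nhds p4)
    filter_upwards [c1, c2, c3, c4] with z z1 z2 z3 z4
    rcases le_total 0 (cross (P.c v - P.c u) (z - P.c u)) with hz | hz
    · exact Or.inl ⟨hz, z1.le, z2.le⟩
    · refine Or.inr ⟨?_, z3.le, z4.le⟩
      have : cross (P.c u - P.c v) (z - P.c v) = - cross (P.c v - P.c u) (z - P.c u) := by
        simp only [cross, Complex.sub_re, Complex.sub_im]; ring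
      rw [this]; linarith
  · refine (Set.toFinite {u, v, w, w'}).subset ?_
    rintro y ⟨z, hz1, hz2 | hz2⟩
    · rcases meets_face hU hK h hz1 hz2 with rfl | rfl | rfl <;> simp
    · rcases meets_face hU hK hw' hz1 hz2 with rfl | rfl | rfl <;> simp

theorem local_finite (hU : P.Univalent) (hK : K.Conn) (hc : P.carr = univ) (x : ℂ) :
    ∃ U ∈ nhds x, {y | (ball (P.c y) (P.r y) ∩ U).Nonempty}.Finite := by
  have hx : x ∈ P.carr := by rw [hc]; trivial
  obtain ⟨u, v, w, h, hx⟩ := hx
  rw [tri_eq (P.orient u v w h)] at hx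
  by_cases hi : tri (P.c u) (P.c v) (P.c w) ∈ nhds x
  · refine ⟨_, hi, (Set.toFinite {u, v, w}).subset ?_⟩
    rintro y ⟨z, hz1, hz2⟩
    rcases meets_face hU hK h hz1 hz2 with rfl | rfl | rfl <;> simp
  · have hf : x ∈ frontier (tri (P.c u) (P.c v) (P.c w)) :=
      ⟨subset_closure hx, fun h' => hi (mem_interior_iff_mem_nhds.1 h')⟩
    rcases (frontier_tri (P.orient u v w h) hf).2 with h1 | h1 | h1
    · exact local_edge hU hK h h1
    · exact local_edge hU hK (K.rot h) h1
    · exact local_edge hU hK (K.rot2 h) h1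

/-- Only finitely many discs of a univalent packing with carrier `ℂ` meet a bounded set. -/
theorem finite_meet (hU : P.Univalent) (hK : K.Conn) (hc : P.carr = univ) (R : ℝ) :
    {y | (ball (P.c y) (P.r y) ∩ closedBall 0 R).Nonempty}.Finite := by
  refine (isCompact_closedBall (0 : ℂ) R).induction_on
    (p := fun s => {y | (ball (P.c y) (P.r y) ∩ s).Nonempty}.Finite) ?_ ?_ ?_ ?_
  · simp
  · intro s t hst ht
    refine ht.subset ?_
    rintro y ⟨z, hz1, hz2⟩
    exact ⟨z, hz1, hst hz2⟩
  · intro s t hs ht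
    refine (hs.union ht).subset ?_
    rintro y ⟨z, hz1, hz2 | hz2⟩
    · exact Or.inl ⟨z, hz1, hz2⟩
    · exact Or.inr ⟨z, hz1, hz2⟩
  · intro x _
    obtain ⟨U, hU, hfin⟩ := local_finite hU hK hc x
    exact ⟨U, mem_nhdsWithin_of_mem_nhds hU, hfin⟩

end Packing

end Pool.Agent.Helper50.Pic
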