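import Pool.Agent.Helper50.PicArc
import Pool.Agent.Helper50.PicLF

/-!
# The flower of a vertex: sum of the arcs, and the disc lies in the carrier
-/

set_option autoImplicit false

namespace Pool.Agent.Helper50.Pic

open Metric Set MeasureTheory

/-- A closed chain of directions turning to the left. -/
structure Turn (n : ℕ) (d : ℕ → ℂ) : Prop where
  hn : 0 < n
  per : d n = d 0
  unit : ∀ i, ‖d i‖ = 1
  pos : ∀ i, 0 < cross (d i) (d (i + 1))

/-- The lifted angles. -/
noncomputable def lift (d : ℕ → ℂ) : ℕ → ℝ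
  | 0 => (d 0).arg
  | i + 1 => lift d i + (d (i + 1) / d i).arg

theorem Turn.exp_lift {n : ℕ} {d : ℕ → ℂ} (h : Turn n d) (i : ℕ) :
    Complex.exp (lift d i * Complex.I) = d i := by
  induction i with
  | zero => exact exp_arg (h.unit 0)
  | succ i ih =>
    have hne : d i ≠ 0 := by
      intro h0
      have := h.unit i
      rw [h0, norm_zero] at this
      exact zero_ne_one this
    have hu : ‖d (i + 1) / d i‖ = 1 := by rw [norm_div, h.unit, h.unit, div_one]
    unfold lift
    push_cast
    rw [add_mul, Complex.exp_add, ih, exp_arg hu]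
    field_simp

theorem Turn.lift_lt {n : ℕ} {d : ℕ → ℂ} (h : Turn n d) (i : ℕ) : lift d i < lift d (i + 1) := by
  have := angle_pos (h.unit i) (h.pos i)
  conv_rhs => unfold lift
  linarith

theorem Turn.lift_strictMono {n : ℕ} {d : ℕ → ℂ} (h : Turn n d) : StrictMono (lift d) :=
  strictMono_nat_of_lt_succ h.lift_lt

theorem Turn.exists_int {n : ℕ} {d : ℕ → ℂ} (h : Turn n d) :
    ∃ m : ℤ, 1 ≤ m ∧ lift d n = lift d 0 + m • (2 * Real.pi) := by
  have e : Complex.exp (lift d n * Complex.I) = Complex.exp (lift d 0 * Complex.I) := by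
    rw [h.exp_lift, h.exp_lift, h.per]
  obtain ⟨m, hm⟩ := Complex.exp_eq_exp_iff_exists_int.1 e
  have h1 : lift d n = lift d 0 + m * (2 * Real.pi) := by
    have h2 := congrArg Complex.im hm
    simp at h2
    exact h2
  refine ⟨m, ?_, by rw [h1, zsmul_eq_mul]⟩
  have h2 := h.lift_strictMono h.hn
  have hpi := Real.pi_pos
  have h3 : 0 < (m:ℝ) := by
    by_contra hcon
    push Not at hcon
    nlinarith
  exact_mod_cast h3

theorem Turn.sum_arcI {n : ℕ} {d : ℕ → ℂ} (h : Turn n d) (c : ℂ) {r : ℝ} (hr : 0 < r) :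
    2 * Real.pi * (r / QQ c r) ^ 2 ≤ ∑ i ∈ Finset.range n, arcI c r (d i) (d (i + 1)) := by
  have h1 : ∀ i, arcI c r (d i) (d (i + 1)) = ∫ φ in lift d i..lift d (i + 1), gg c r φ :=
    fun i => arcI_eq c r (h.unit i) (h.exp_lift i)
  have h2 : ∑ i ∈ Finset.range n, arcI c r (d i) (d (i + 1)) =
      ∫ φ in lift d 0..lift d n, gg c r φ := by
    rw [Finset.sum_congr rfl fun i _ => h1 i]
    exact intervalIntegral.sum_integral_adjacent_intervals fun i _ => ii_gg c r _ _
  obtain ⟨m, hm, hmn⟩ := h.exists_int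
  rw [h2, hmn, (periodic_gg c r).intervalIntegral_add_zsmul_eq m _ (ii_gg c r), zsmul_eq_mul,
    integral_period]
  have h3 := integral_full_nonneg c hr
  have h4 := integral_full_ge c hr
  have h5 : (1:ℝ) ≤ m := by exact_mod_cast hm
  nlinarith

/-- Every direction lies in one of the sectors. -/
theorem Turn.exists_sector {n : ℕ} {d : ℕ → ℂ} (h : Turn n d) {e : ℂ} (he : ‖e‖ = 1) :
    ∃ i < n, ∃ a b : ℝ, 0 ≤ a ∧ 0 ≤ b ∧ e = a * d i + b * d (i + 1) := by
  have hpi := Real.pi_pos
  obtain ⟨m, hm, hmn⟩ := h.exists_int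
  obtain ⟨k, hk, -⟩ := existsUnique_add_zsmul_mem_Ico (a := 2 * Real.pi) (by positivity) e.arg
    (lift d 0)
  set ψ := e.arg + k • (2 * Real.pi) with hψ
  have hexp : Complex.exp (ψ * Complex.I) = e := by
    rw [hψ, zsmul_eq_mul]
    push_cast
    rw [add_mul, Complex.exp_add, exp_arg he,
      show (k:ℂ) * (2 * Real.pi) * Complex.I = k * (2 * Real.pi * Complex.I) by ring,
      Complex.exp_int_mul_two_pi_mul_I, mul_one]
  have hlt : ψ < lift d n := by
    rw [hmn, zsmul_eq_mul]
    have h5 : (1:ℝ) ≤ m := by exact_mod_cast hm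
    have := hk.2
    nlinarith
  have hex : ∃ j, ψ < lift d j := ⟨n, hlt⟩
  classical
  have hf1 := Nat.find_spec hex
  have hf2 : Nat.find hex ≤ n := Nat.find_min' hex hlt
  have hf0 : Nat.find hex ≠ 0 := by
    intro h0
    rw [h0] at hf1
    exact absurd hk.1 (not_le.2 hf1)
  obtain ⟨i, hi⟩ := Nat.exists_eq_succ_of_ne_zero hf0
  rw [hi] at hf1 hf2
  have hle : lift d i ≤ ψ := by
    have := Nat.find_min hex (m := i) (by rw [hi]; exact Nat.lt_succ_self i)
    exact not_lt.1 this
  refine ⟨i, hf2, ?_⟩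
  have hθ0 := angle_pos (h.unit i) (h.pos i)
  have hθ1 := angle_lt_pi (h.unit i) (h.pos i)
  have ea := cos_sin_of_exp (h.exp_lift i)
  have eb := cos_sin_of_exp (h.exp_lift (i + 1))
  have ee := cos_sin_of_exp hexp
  have hl1 : lift d (i + 1) = lift d i + (d (i + 1) / d i).arg := rfl
  rw [hl1] at eb
  have hf1' : ψ < lift d i + (d (i + 1) / d i).arg := hf1
  obtain ⟨t, ht⟩ : ∃ t, ψ = lift d i + t := ⟨ψ - lift d i, by ring⟩
  rw [ht] at ee hf1' hle
  generalize (d (i + 1) / d i).arg = θ at *
  generalize lift d i = α at *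
  have hs : 0 < Real.sin θ := Real.sin_pos_of_pos_of_lt_pi hθ0 hθ1
  have ht0 : 0 ≤ t := by linarith
  have ht1 : t ≤ θ := by linarith
  refine ⟨Real.sin (θ - t) / Real.sin θ, Real.sin t / Real.sin θ,
    div_nonneg (Real.sin_nonneg_of_nonneg_of_le_pi (by linarith) (by linarith)) hs.le,
    div_nonneg (Real.sin_nonneg_of_nonneg_of_le_pi ht0 (by linarith)) hs.le, ?_⟩
  apply Complex.ext
  · simp only [Complex.add_re, Complex.mul_re, Complex.ofReal_re, Complex.ofReal_im]
    rw [← ea.1, ← ea.2, ← eb.1, ← eb.2, ← ee.1]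
    field_simp
    rw [Real.cos_add α t, Real.cos_add α θ, Real.sin_sub]
    ring
  · simp only [Complex.add_im, Complex.mul_im, Complex.ofReal_re, Complex.ofReal_im]
    rw [← ea.1, ← ea.2, ← eb.1, ← eb.2, ← ee.2]
    field_simp
    rw [Real.sin_add α t, Real.sin_add α θ, Real.sin_sub]
    ring

/-- A point of the disc in the sector of a face lies in the face. -/
theorem sector_mem {z w1 w2 x : ℂ} {r s1 s2 : ℝ} (hr : 0 < r) (h1 : dist z w1 = r + s1)
    (h2 : dist z w2 = r + s2) (h12 : dist w1 w2 = s1 + s2) (hx : x ∈ closedBall z r)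
    {a b : ℝ} (ha : 0 ≤ a) (hb : 0 ≤ b) (he : x = z + a * (w1 - z) + b * (w2 - z)) :
    x ∈ convexHull ℝ {z, w1, w2} := by
  rcases le_or_gt (a + b) 1 with hab | hab
  · have hc := convex_convexHull ℝ ({z, w1, w2} : Set ℂ)
    have m0 : z ∈ convexHull ℝ ({z, w1, w2} : Set ℂ) := subset_convexHull ℝ _ (by simp)
    have m1 : w1 ∈ convexHull ℝ ({z, w1, w2} : Set ℂ) := subset_convexHull ℝ _ (by simp)
    have m2 : w2 ∈ convexHull ℝ ({z, w1, w2} : Set ℂ) := subset_convexHull ℝ _ (by simp)
    have key := hc.sum_mem (t := Finset.univ) (w := ![1 - a - b, a, b]) (z := ![z, w1, w2])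
      (by intro i _; fin_cases i <;> simp <;> linarith)
      (by rw [Fin.sum_univ_three]; simp only [Matrix.cons_val_zero, Matrix.cons_val_one,
            Matrix.cons_val]; ring)
      (by intro i _; fin_cases i <;> assumption)
    rw [Fin.sum_univ_three] at key
    simp only [Matrix.cons_val_zero, Matrix.cons_val_one, Matrix.cons_val, Complex.real_smul]
      at key
    rw [he]
    convert key using 1
    push_cast
    ring
  · exfalso
    have hpos : 0 < a + b := by linarith
    have hne : ((a:ℂ) + b) ≠ 0 := by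
      have := hpos.ne'
      exact_mod_cast this
    set y : ℂ := z + ((a + b : ℝ) : ℂ)⁻¹ * (x - z) with hy
    have hyseg : y ∈ segment ℝ w1 w2 := by
      refine ⟨a / (a + b), b / (a + b), by positivity, by positivity, by field_simp, ?_⟩
      rw [hy, he]
      simp only [Complex.real_smul]
      push_cast
      field_simp
      ring
    have hyz : dist y z < r := by
      rw [hy, dist_eq_norm, add_sub_cancel_left, norm_mul, norm_inv, Complex.norm_real,
        Real.norm_eq_abs, abs_of_pos hpos]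
      rw [mem_closedBall, dist_eq_norm] at hx
      calc (a + b)⁻¹ * ‖x - z‖ ≤ (a + b)⁻¹ * r := by gcongr
        _ < 1 * r := by
            gcongr
            exact inv_lt_one_of_one_lt₀ hab
        _ = r := one_mul r
    rcases mem_ball_of_segment h12 hyseg with h | h
    · rw [mem_closedBall] at h
      have := dist_triangle z y w1
      rw [dist_comm z y] at this
      linarith
    · rw [mem_closedBall] at h
      have := dist_triangle z y w2
      rw [dist_comm z y] at this
      linarith

universe u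

variable {V : Type u} {K : Cplx V}

namespace Packing

variable (P : Packing K)

/-- The direction from `v` to `u`. -/
noncomputable def dir (v u : V) : ℂ := dirv (P.c v) (P.c u) (P.r v) (P.r u)

theorem norm_dir {v u : V} (h : K.Adj v u) : ‖P.dir v u‖ = 1 :=
  norm_dirv (P.r_pos v) (P.r_pos u) (P.tangent v u h)

theorem cross_dir {v u w : V} (h : K.face v u w) : 0 < cross (P.dir v u) (P.dir v w) :=
  cross_dirv (P.r_pos v) (P.r_pos u) (P.r_pos w) (P.orient v u w h)

theorem turn {v : V} {n : ℕ} {p : ℕ → V} (hn : 3 ≤ n) (hper : ∀ i, p (i + n) = p i)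
    (hf : ∀ a b, K.face v a b ↔ ∃ i < n, a = p i ∧ b = p (i + 1)) :
    Turn n (fun i => P.dir v (p i)) where
  hn := by omega
  per := by
    have := hper 0
    rw [zero_add] at this
    simp only [this]
  unit i := P.norm_dir (Cplx.adj_of_face (flower_face hper hn hf i))
  pos i := P.cross_dir (flower_face hper hn hf i)

/-- The closed discs lie in the carrier. -/
theorem closedBall_subset_carr (v : V) : closedBall (P.c v) (P.r v) ⊆ P.carr := by
  intro x hx
  obtain ⟨n, p, hn, hper, -, -, hf⟩ := K.flower v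
  have ht := P.turn hn hper hf
  rcases eq_or_ne x (P.c v) with rfl | hne
  · exact ⟨v, p 0, p 1, flower_face hper hn hf 0, subset_convexHull ℝ _ (by simp)⟩
  · have hx0 : 0 < ‖x - P.c v‖ := norm_pos_iff.2 (sub_ne_zero.2 hne)
    have hu : ‖(x - P.c v) / ((‖x - P.c v‖ : ℝ) : ℂ)‖ = 1 := by
      rw [norm_div, Complex.norm_real, norm_norm, div_self hx0.ne']
    obtain ⟨i, -, a, b, ha, hb, he⟩ := ht.exists_sector hu
    have hface := flower_face hper hn hf i
    refine ⟨v, p i, p (i + 1), hface, ?_⟩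
    have hv := P.r_pos v
    have h1 := P.r_pos (p i)
    have h2 := P.r_pos (p (i + 1))
    have t1 : dist (P.c v) (P.c (p i)) = P.r v + P.r (p i) :=
      P.tangent _ _ (Cplx.adj_of_face hface)
    have t2 : dist (P.c v) (P.c (p (i + 1))) = P.r v + P.r (p (i + 1)) :=
      P.tangent _ _ (Cplx.adj_of_face' hface)
    have t3 : dist (P.c (p i)) (P.c (p (i + 1))) = P.r (p i) + P.r (p (i + 1)) :=
      P.tangent _ _ (Cplx.adj_of_face (K.rot hface))
    refine sector_mem (r := P.r v) hv t1 t2 t3 hx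
      (a := ‖x - P.c v‖ * a / (P.r v + P.r (p i)))
      (b := ‖x - P.c v‖ * b / (P.r v + P.r (p (i + 1)))) (by positivity) (by positivity) ?_
    have e1 : ((P.r v + P.r (p i) : ℝ) : ℂ) ≠ 0 := by
      have : P.r v + P.r (p i) ≠ 0 := by positivity
      exact_mod_cast this
    have e2 : ((P.r v + P.r (p (i + 1)) : ℝ) : ℂ) ≠ 0 := by
      have : P.r v + P.r (p (i + 1)) ≠ 0 := by positivity
      exact_mod_cast this
    have e0 : ((‖x - P.c v‖ : ℝ) : ℂ) ≠ 0 := by exact_mod_cast hx0.ne'
    simp only [dir, dirv] at he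
    rw [div_eq_iff e0] at he
    have : x = P.c v + (x - P.c v) := by ring
    rw [this]
    nth_rewrite 1 [he]
    rw [add_sub_cancel_left]
    push_cast at e1 e2 ⊢
    field_simp
    ring

end Packing

end Pool.Agent.Helper50.Pic
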