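import Pool.Agent.Helper50.PicDefs

/-!
# Integrals of the spherical area potential over circles and arcs
-/

set_option autoImplicit false

namespace Pool.Agent.Helper50.Pic

open Metric Set MeasureTheory Complex

/-- The integrand: `Im (conj z * z') / (1 + |z|^2)` for `z = c + r e^{iφ}`. -/
noncomputable def gg (c : ℂ) (r φ : ℝ) : ℝ :=
  ((starRingEnd ℂ) (circleMap c r φ) * circleMap 0 r φ).re / (1 + ‖circleMap c r φ‖ ^ 2)

theorem one_add_sq_pos (z : ℂ) : 0 < 1 + ‖z‖ ^ 2 := by positivity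

theorem re_eq (c : ℂ) (r φ : ℝ) :
    ((starRingEnd ℂ) (circleMap c r φ) * circleMap 0 r φ).re =
      (‖circleMap c r φ‖ ^ 2 + r ^ 2 - ‖c‖ ^ 2) / 2 := by
  have h1 : circleMap c r φ = c + circleMap 0 r φ := by simp [circleMap]
  have h2 : ‖circleMap 0 r φ‖ ^ 2 = r ^ 2 := by simp
  rw [h1]
  generalize circleMap 0 r φ = w at *
  rw [← h2, Complex.sq_norm, Complex.sq_norm, Complex.sq_norm, normSq_apply, normSq_apply,
    normSq_apply]
  simp only [map_add, add_mul, Complex.add_re, Complex.mul_re, Complex.conj_re, Complex.conj_im,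
    Complex.add_im]
  ring

theorem gg_eq (c : ℂ) (r φ : ℝ) :
    gg c r φ = 1 / 2 - (1 + ‖c‖ ^ 2 - r ^ 2) / 2 * (1 / (1 + ‖circleMap c r φ‖ ^ 2)) := by
  unfold gg
  rw [re_eq]
  have := one_add_sq_pos (circleMap c r φ)
  field_simp
  ring

theorem norm_sq_circleMap (c : ℂ) (r φ : ℝ) :
    ‖circleMap c r φ‖ ^ 2 =
      ‖c‖ ^ 2 + r ^ 2 + 2 * r * ((starRingEnd ℂ) c * circleMap 0 1 φ).re := by
  have h1 : circleMap c r φ = c + r * circleMap 0 1 φ := by simp [circleMap]
  have h2 : ‖circleMap 0 1 φ‖ ^ 2 = 1 := by simp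
  rw [h1]
  generalize circleMap 0 1 φ = w at *
  rw [Complex.sq_norm, normSq_apply] at h2
  rw [Complex.sq_norm, Complex.sq_norm, normSq_apply, normSq_apply]
  simp only [Complex.add_re, Complex.mul_re, Complex.conj_re, Complex.conj_im,
    Complex.add_im, Complex.mul_im, ofReal_re, ofReal_im]
  linear_combination (r ^ 2) * h2

theorem poisson_one {w : ℂ} (hw : ‖w‖ < 1) :
    ∫ φ in (0:ℝ)..2 * Real.pi, (1 - ‖w‖ ^ 2) / ‖circleMap 0 1 φ - w‖ ^ 2 = 2 * Real.pi := by
  have h : DiffContOnCl ℂ (fun _ : ℂ => (1:ℂ)) (ball 0 1) := diffContOnCl_const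
  have key := h.circleAverage_poissonKernel_smul' (w := w) (by simpa using hw)
  rw [Real.circleAverage_def] at key
  simp only [sub_zero, Complex.real_smul, mul_one, norm_circleMap_zero, abs_one, one_pow] at key
  rw [intervalIntegral.integral_ofReal] at key
  have hpi : (Real.pi : ℂ) ≠ 0 := by exact_mod_cast Real.pi_ne_zero
  have k2 : ((∫ φ in (0:ℝ)..2 * Real.pi, (1 - ‖w‖ ^ 2) / ‖circleMap 0 1 φ - w‖ ^ 2 : ℝ) : ℂ) =
      ((2 * Real.pi : ℝ) : ℂ) := by
    push_cast at key ⊢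
    field_simp at key
    rw [key]
  exact_mod_cast k2

theorem poisson_gen (c : ℂ) {r M : ℝ} (hr : 0 ≤ r) (hM : 2 * r * ‖c‖ < M) :
    ∫ φ in (0:ℝ)..2 * Real.pi, 1 / (M + 2 * r * ((starRingEnd ℂ) c * circleMap 0 1 φ).re) =
      2 * Real.pi / √(M ^ 2 - 4 * r ^ 2 * ‖c‖ ^ 2) := by
  set S := √(M ^ 2 - 4 * r ^ 2 * ‖c‖ ^ 2) with hS
  have hc := norm_nonneg c
  have hM0 : 0 < M := lt_of_le_of_lt (by positivity) hM
  have hd : 0 < M ^ 2 - 4 * r ^ 2 * ‖c‖ ^ 2 := by
    have : 0 ≤ 2 * r * ‖c‖ := by positivity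
    nlinarith
  have hS0 : 0 < S := Real.sqrt_pos.2 hd
  have hS2 : S ^ 2 = M ^ 2 - 4 * r ^ 2 * ‖c‖ ^ 2 := Real.sq_sqrt hd.le
  set l := (M + S) / 2 with hl
  have hl0 : 0 < l := by positivity
  have hl2 : l ^ 2 - M * l + r ^ 2 * ‖c‖ ^ 2 = 0 := by rw [hl]; nlinarith
  set w : ℂ := ((-(r / l) : ℝ) : ℂ) * c with hw
  have hwn : ‖w‖ ^ 2 = r ^ 2 * ‖c‖ ^ 2 / l ^ 2 := by
    rw [hw, norm_mul, Complex.norm_real, mul_pow, Real.norm_eq_abs, sq_abs]
    field_simp
  have h1w : l * (1 - ‖w‖ ^ 2) = S := by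
    rw [hwn]
    field_simp
    have : 2 * l - M = S := by rw [hl]; ring
    nlinarith
  have hw1 : ‖w‖ < 1 := by
    have h2 : 0 < 1 - ‖w‖ ^ 2 := by
      by_contra hcon
      push Not at hcon
      have : l * (1 - ‖w‖ ^ 2) ≤ 0 := mul_nonpos_of_nonneg_of_nonpos hl0.le hcon
      linarith
    by_contra hcon
    push Not at hcon
    nlinarith
  have key := poisson_one hw1
  have e : ∀ φ : ℝ, 1 / (M + 2 * r * ((starRingEnd ℂ) c * circleMap 0 1 φ).re) =
      S⁻¹ * ((1 - ‖w‖ ^ 2) / ‖circleMap 0 1 φ - w‖ ^ 2) := by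
    intro φ
    have h2 : ‖circleMap 0 1 φ‖ ^ 2 = 1 := by simp
    have h3 : ‖circleMap 0 1 φ - w‖ ^ 2 =
        1 + ‖w‖ ^ 2 + 2 * (r / l) * ((starRingEnd ℂ) c * circleMap 0 1 φ).re := by
      generalize circleMap 0 1 φ = x at *
      rw [hw]
      rw [Complex.sq_norm, normSq_apply] at h2
      rw [Complex.sq_norm, Complex.sq_norm, normSq_apply, normSq_apply]
      simp only [Complex.sub_re, Complex.mul_re, Complex.conj_re, Complex.conj_im,
        Complex.sub_im, Complex.mul_im, ofReal_re, ofReal_im]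
      linear_combination h2
    have h4 : M + 2 * r * ((starRingEnd ℂ) c * circleMap 0 1 φ).re =
        l * ‖circleMap 0 1 φ - w‖ ^ 2 := by
      rw [h3, hwn]
      field_simp
      nlinarith
    rw [h4]
    have h5 : 0 < ‖circleMap 0 1 φ - w‖ ^ 2 := by
      have : circleMap 0 1 φ ≠ w := by
        intro h
        rw [← h] at hw1
        simp at hw1
      have := norm_pos_iff.2 (sub_ne_zero.2 this)
      positivity
    rw [← h1w]
    have : 1 - ‖w‖ ^ 2 ≠ 0 := by
      intro h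
      rw [h, mul_zero] at h1w
      linarith
    field_simp
  simp_rw [e]
  rw [intervalIntegral.integral_const_mul, key]
  field_simp

/-- The quantity `Q`, with `Q^2 = (1 + (|c|-r)^2) (1 + (|c|+r)^2)`. -/
noncomputable def QQ (c : ℂ) (r : ℝ) : ℝ := √((1 + ‖c‖ ^ 2 - r ^ 2) ^ 2 + 4 * r ^ 2)

theorem QQ_pos (c : ℂ) {r : ℝ} (hr : 0 < r) : 0 < QQ c r := Real.sqrt_pos.2 (by positivity)

theorem QQ_sq (c : ℂ) (r : ℝ) : QQ c r ^ 2 = (1 + ‖c‖ ^ 2 - r ^ 2) ^ 2 + 4 * r ^ 2 :=
  Real.sq_sqrt (by positivity)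

theorem continuous_gg (c : ℂ) (r : ℝ) : Continuous (gg c r) := by
  have hc : Continuous fun φ => circleMap c r φ := continuous_circleMap c r
  have hc0 : Continuous fun φ => circleMap 0 r φ := continuous_circleMap 0 r
  unfold gg
  refine Continuous.div ?_ ?_ fun φ => (one_add_sq_pos _).ne'
  · exact Complex.continuous_re.comp ((Complex.continuous_conj.comp hc).mul hc0)
  · fun_prop

theorem periodic_gg (c : ℂ) (r : ℝ) : Function.Periodic (gg c r) (2 * Real.pi) := by
  intro φ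
  unfold gg
  rw [periodic_circleMap c r φ, periodic_circleMap 0 r φ]

theorem two_r_norm_lt (c : ℂ) (r : ℝ) : 2 * r * ‖c‖ < 1 + ‖c‖ ^ 2 + r ^ 2 := by
  nlinarith [sq_nonneg (‖c‖ - r)]

theorem integral_inv (c : ℂ) {r : ℝ} (hr : 0 < r) :
    ∫ φ in (0:ℝ)..2 * Real.pi, 1 / (1 + ‖circleMap c r φ‖ ^ 2) = 2 * Real.pi / QQ c r := by
  have key := poisson_gen c hr.le (two_r_norm_lt c r)
  have e : (1 + ‖c‖ ^ 2 + r ^ 2) ^ 2 - 4 * r ^ 2 * ‖c‖ ^ 2 =
      (1 + ‖c‖ ^ 2 - r ^ 2) ^ 2 + 4 * r ^ 2 := by ring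
  rw [e] at key
  unfold QQ
  rw [← key]
  congr 1
  ext φ
  rw [norm_sq_circleMap]
  ring

theorem integral_full (c : ℂ) {r : ℝ} (hr : 0 < r) :
    ∫ φ in (0:ℝ)..2 * Real.pi, gg c r φ =
      Real.pi * (1 - (1 + ‖c‖ ^ 2 - r ^ 2) / QQ c r) := by
  have hcont : Continuous fun φ : ℝ => 1 / (1 + ‖circleMap c r φ‖ ^ 2) := by
    have hc : Continuous fun φ => circleMap c r φ := continuous_circleMap c r
    refine Continuous.div (by fun_prop) (by fun_prop) fun φ => (one_add_sq_pos _).ne'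
  simp_rw [gg_eq]
  rw [intervalIntegral.integral_sub (by simp) ((hcont.intervalIntegrable _ _).const_mul _),
    intervalIntegral.integral_const_mul, integral_inv c hr]
  simp only [intervalIntegral.integral_const, smul_eq_mul]
  ring

/-- The area of a disc on the sphere is at least of the order of the square of its size. -/
theorem integral_full_ge (c : ℂ) {r : ℝ} (hr : 0 < r) :
    2 * Real.pi * (r / QQ c r) ^ 2 ≤ ∫ φ in (0:ℝ)..2 * Real.pi, gg c r φ := by
  rw [integral_full c hr]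
  have hQ := QQ_pos c hr
  have hQ2 := QQ_sq c r
  set Q := QQ c r
  set m := 1 + ‖c‖ ^ 2 - r ^ 2
  have hm : m ≤ Q := by
    by_contra hcon
    push Not at hcon
    nlinarith
  have h1 : 2 * (r / Q) ^ 2 ≤ 1 - m / Q := by
    have e : 1 - m / Q - 2 * (r / Q) ^ 2 = (Q ^ 2 - m * Q - 2 * r ^ 2) / Q ^ 2 := by
      field_simp
    have : 0 ≤ (Q ^ 2 - m * Q - 2 * r ^ 2) / Q ^ 2 := by
      apply div_nonneg _ (by positivity)
      nlinarith [sq_nonneg (Q - m)]
    linarith
  calc 2 * Real.pi * (r / Q) ^ 2 = Real.pi * (2 * (r / Q) ^ 2) := by ring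
    _ ≤ Real.pi * (1 - m / Q) := by
        have := Real.pi_pos
        gcongr

theorem integral_full_nonneg (c : ℂ) {r : ℝ} (hr : 0 < r) :
    0 ≤ ∫ φ in (0:ℝ)..2 * Real.pi, gg c r φ :=
  le_trans (by have := Real.pi_pos; positivity) (integral_full_ge c hr)

theorem abs_gg_le (c : ℂ) {r : ℝ} (hr : 0 < r) (φ : ℝ) : |gg c r φ| ≤ r / 2 := by
  unfold gg
  rw [abs_div, abs_of_pos (one_add_sq_pos _), div_le_iff₀ (one_add_sq_pos _)]
  refine (Complex.abs_re_le_norm _).trans ?_
  rw [norm_mul, RCLike.norm_conj, norm_circleMap_zero, abs_of_pos hr]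
  nlinarith [sq_nonneg (‖circleMap c r φ‖ - 1)]

theorem gg_le_half {c : ℂ} {r : ℝ} (hr : 0 < r) (h : r ≤ ‖c‖) (φ : ℝ) : gg c r φ ≤ 1 / 2 := by
  rw [gg_eq]
  have : 0 ≤ (1 + ‖c‖ ^ 2 - r ^ 2) / 2 * (1 / (1 + ‖circleMap c r φ‖ ^ 2)) := by
    have h1 : 0 ≤ 1 + ‖c‖ ^ 2 - r ^ 2 := by nlinarith
    have := one_add_sq_pos (circleMap c r φ)
    positivity
  linarith

theorem ii_gg (c : ℂ) (r a b : ℝ) : IntervalIntegrable (gg c r) volume a b :=
  (continuous_gg c r).intervalIntegrable a b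

theorem integral_period (c : ℂ) (r α : ℝ) :
    ∫ φ in α..α + 2 * Real.pi, gg c r φ = ∫ φ in (0:ℝ)..2 * Real.pi, gg c r φ := by
  have := (periodic_gg c r).intervalIntegral_add_eq α 0
  rwa [zero_add] at this

theorem abs_arc_le (c : ℂ) {r : ℝ} (hr : 0 < r) (α : ℝ) {θ : ℝ} (h0 : 0 ≤ θ)
    (h1 : θ ≤ Real.pi) : |∫ φ in α..α + θ, gg c r φ| ≤ Real.pi * r / 2 := by
  have := intervalIntegral.norm_integral_le_of_norm_le_const (a := α) (b := α + θ)
    (f := gg c r) (C := r / 2) (fun φ _ => by rw [Real.norm_eq_abs]; exact abs_gg_le c hr φ)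
  rw [Real.norm_eq_abs, add_sub_cancel_left, abs_of_nonneg h0] at this
  nlinarith

theorem abs_arc_le_pi {c : ℂ} {r : ℝ} (hr : 0 < r) (hc : r ≤ ‖c‖) (α : ℝ) {θ : ℝ} (h0 : 0 ≤ θ)
    (h1 : θ ≤ Real.pi) : |∫ φ in α..α + θ, gg c r φ| ≤ Real.pi := by
  have hpi := Real.pi_pos
  have up : ∀ a b, a ≤ b → ∫ φ in a..b, gg c r φ ≤ (b - a) / 2 := by
    intro a b hab
    have := intervalIntegral.integral_mono_on hab (ii_gg c r a b)
      (g := fun _ => (1:ℝ) / 2) (by simp) (fun φ _ => gg_le_half hr hc φ)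
    rw [intervalIntegral.integral_const, smul_eq_mul] at this
    linarith
  have h2 := up α (α + θ) (by linarith)
  have h3 := up (α + θ) (α + 2 * Real.pi) (by linarith)
  have h4 := intervalIntegral.integral_add_adjacent_intervals (ii_gg c r α (α + θ))
    (ii_gg c r (α + θ) (α + 2 * Real.pi))
  rw [integral_period] at h4
  have h5 := integral_full_nonneg c hr
  rw [abs_le]
  constructor <;> linarith

/-- The quotient of two points of a convex set avoiding `0` lies in the slit plane. -/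
theorem div_mem_slitPlane {C : Set ℂ} (hC : Convex ℝ C) (h0 : (0:ℂ) ∉ C) {p q : ℂ}
    (hp : p ∈ C) (hq : q ∈ C) : q / p ∈ slitPlane := by
  by_contra hcon
  rw [mem_slitPlane_iff, not_or, not_not, not_lt] at hcon
  obtain ⟨h1, h2⟩ := hcon
  have hp0 : p ≠ 0 := fun h => h0 (h ▸ hp)
  set t := -(q / p).re with ht
  have ht0 : 0 ≤ t := by rw [ht]; linarith
  have hq' : q = -(t:ℂ) * p := by
    have : q / p = -(t:ℂ) := by
      apply Complex.ext
      · simp [ht]
      · simp [h2]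
    rw [← this]; field_simp
  apply h0
  have hm := hC hp hq (a := t / (1 + t)) (b := 1 / (1 + t)) (by positivity) (by positivity)
    (by field_simp; ring)
  convert hm using 1
  rw [hq']
  simp only [Complex.real_smul]
  have : (1 + (t:ℂ)) ≠ 0 := by
    have : (1 + t) ≠ 0 := by positivity
    exact_mod_cast this
  push_cast
  field_simp
  ring

/-- The integrand of the argument. -/
noncomputable def hh (c : ℂ) (r φ : ℝ) : ℝ :=
  ((starRingEnd ℂ) (circleMap c r φ) * circleMap 0 r φ).re / ‖circleMap c r φ‖ ^ 2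

theorem circleMap_ne_zero_of_lt {c : ℂ} {r : ℝ} (hr : 0 < r) (hc : r < ‖c‖) (φ : ℝ) :
    circleMap c r φ ≠ 0 := by
  intro h
  have h1 : circleMap c r φ ∈ closedBall c r := circleMap_mem_closedBall c hr.le φ
  rw [h, mem_closedBall, dist_comm, dist_zero_right] at h1
  linarith

theorem norm_circleMap_ge {c : ℂ} {r : ℝ} (hr : 0 < r) (φ : ℝ) :
    ‖c‖ - r ≤ ‖circleMap c r φ‖ := by
  have h1 : circleMap c r φ ∈ closedBall c r := circleMap_mem_closedBall c hr.le φ
  rw [mem_closedBall] at h1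
  have h2 := dist_triangle c (circleMap c r φ) 0
  rw [dist_zero_right, dist_zero_right, dist_comm] at h2
  linarith

theorem continuous_hh {c : ℂ} {r : ℝ} (hr : 0 < r) (hc : r < ‖c‖) : Continuous (hh c r) := by
  have h1 : Continuous fun φ => circleMap c r φ := continuous_circleMap c r
  have h2 : Continuous fun φ => circleMap 0 r φ := continuous_circleMap 0 r
  unfold hh
  refine Continuous.div ?_ ?_ fun φ => ?_
  · exact Complex.continuous_re.comp ((Complex.continuous_conj.comp h1).mul h2)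
  · fun_prop
  · have := norm_pos_iff.2 (circleMap_ne_zero_of_lt hr hc φ)
    positivity

theorem integral_hh {c : ℂ} {r : ℝ} (hr : 0 < r) (hc : r < ‖c‖) (α β : ℝ) :
    ∫ φ in α..β, hh c r φ = (circleMap c r β / circleMap c r α).arg := by
  have h0 : (0:ℂ) ∉ closedBall c r := by
    rw [mem_closedBall, dist_comm, dist_zero_right]; linarith
  have hne := circleMap_ne_zero_of_lt hr hc
  have hcm : Continuous fun φ => circleMap c r φ := continuous_circleMap c r
  have hcm0 : Continuous fun φ => circleMap 0 r φ := continuous_circleMap 0 r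
  have key : ∫ φ in α..β, (circleMap 0 r φ * I) / circleMap c r φ =
      Complex.log (circleMap c r β / circleMap c r α) -
        Complex.log (circleMap c r α / circleMap c r α) := by
    apply intervalIntegral.integral_eq_sub_of_hasDerivAt
      (f := fun φ => Complex.log (circleMap c r φ / circleMap c r α))
    · intro φ _
      have h1 : HasDerivAt (fun φ => circleMap c r φ / circleMap c r α)
          (circleMap 0 r φ * I / circleMap c r α) φ := (hasDerivAt_circleMap c r φ).div_const _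
      have h2 := h1.clog_real (div_mem_slitPlane (convex_closedBall c r) h0
        (circleMap_mem_closedBall c hr.le α) (circleMap_mem_closedBall c hr.le φ))
      have e1 : circleMap 0 r φ * I / circleMap c r α / (circleMap c r φ / circleMap c r α) =
          circleMap 0 r φ * I / circleMap c r φ := by
        have := hne φ
        have := hne α
        field_simp
      rw [e1] at h2
      exact h2
    · apply Continuous.intervalIntegrable
      exact (hcm0.mul continuous_const).div hcm hne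
  rw [div_self (hne α), Complex.log_one, sub_zero] at key
  have k2 := congrArg Complex.im key
  rw [Complex.log_im] at k2
  rw [← k2]
  have e : ∀ φ, hh c r φ = Complex.imCLM ((circleMap 0 r φ * I) / circleMap c r φ) := by
    intro φ
    unfold hh
    rw [Complex.imCLM_apply, Complex.div_im, Complex.sq_norm]
    have : normSq (circleMap c r φ) ≠ 0 := fun h => hne φ (Complex.normSq_eq_zero.1 h)
    simp only [Complex.mul_re, Complex.mul_im, Complex.conj_re, Complex.conj_im, Complex.I_re,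
      Complex.I_im]
    field_simp
    ring
  simp_rw [e]
  rw [Complex.imCLM.intervalIntegral_comp_comm]
  · rfl
  · apply Continuous.intervalIntegrable
    exact (hcm0.mul continuous_const).div hcm hne

theorem integral_inv_sq {c : ℂ} {r : ℝ} (hr : 0 < r) (hc : r < ‖c‖) :
    ∫ φ in (0:ℝ)..2 * Real.pi, 1 / ‖circleMap c r φ‖ ^ 2 = 2 * Real.pi / (‖c‖ ^ 2 - r ^ 2) := by
  have key := poisson_gen c hr.le (M := ‖c‖ ^ 2 + r ^ 2) (by nlinarith [sq_pos_of_pos (sub_pos.2 hc)])
  have e : (‖c‖ ^ 2 + r ^ 2) ^ 2 - 4 * r ^ 2 * ‖c‖ ^ 2 = (‖c‖ ^ 2 - r ^ 2) ^ 2 := by ring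
  rw [e, Real.sqrt_sq (by nlinarith)] at key
  rw [← key]
  congr 1
  ext φ
  rw [norm_sq_circleMap]

/-- Away from the origin, the integral of the potential is close to the change of the argument. -/
theorem abs_arc_sub_arg_le {c : ℂ} {r : ℝ} (hr : 0 < r) (hc : r < ‖c‖) (α : ℝ) {θ : ℝ}
    (h0 : 0 ≤ θ) (h1 : θ ≤ Real.pi) :
    |(∫ φ in α..α + θ, gg c r φ) - (circleMap c r (α + θ) / circleMap c r α).arg| ≤
      2 * Real.pi * r / ((‖c‖ - r) ^ 2 * (‖c‖ + r)) := by
  have hpi := Real.pi_pos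
  have hd : 0 < ‖c‖ - r := by linarith
  have hcm : Continuous fun φ => circleMap c r φ := continuous_circleMap c r
  have hcont : Continuous fun φ : ℝ => 1 / ‖circleMap c r φ‖ ^ 2 := by
    refine Continuous.div (by fun_prop) (by fun_prop) fun φ => ?_
    have := norm_pos_iff.2 (circleMap_ne_zero_of_lt hr hc φ)
    positivity
  rw [← integral_hh hr hc, ← intervalIntegral.integral_sub (ii_gg c r _ _)
    ((continuous_hh hr hc).intervalIntegrable _ _)]
  have hb : ∀ φ, |gg c r φ - hh c r φ| ≤ (r / (‖c‖ - r)) * (1 / ‖circleMap c r φ‖ ^ 2) := by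
    intro φ
    have hz := norm_pos_iff.2 (circleMap_ne_zero_of_lt hr hc φ)
    have hz2 := norm_circleMap_ge (c := c) hr φ
    have hp := one_add_sq_pos (circleMap c r φ)
    have hre := Complex.abs_re_le_norm ((starRingEnd ℂ) (circleMap c r φ) * circleMap 0 r φ)
    rw [norm_mul, RCLike.norm_conj, norm_circleMap_zero, abs_of_pos hr] at hre
    unfold gg hh
    set z := ‖circleMap c r φ‖ with hzdef
    set x := ((starRingEnd ℂ) (circleMap c r φ) * circleMap 0 r φ).re
    have e : x / (1 + z ^ 2) - x / z ^ 2 = -(x / (z ^ 2 * (1 + z ^ 2))) := by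
      field_simp
      ring
    rw [e, abs_neg, abs_div, abs_of_pos (by positivity : 0 < z ^ 2 * (1 + z ^ 2))]
    rw [div_mul_div_comm, mul_one, div_le_div_iff₀ (by positivity) (by positivity)]
    calc |x| * ((‖c‖ - r) * z ^ 2) ≤ (z * r) * (z * z ^ 2) := by gcongr
      _ ≤ r * (z ^ 2 * (1 + z ^ 2)) := by nlinarith [sq_nonneg z, mul_pos hr (pow_pos hz 2)]
  have h2 : |∫ φ in α..α + θ, (gg c r φ - hh c r φ)| ≤
      ∫ φ in α..α + θ, (r / (‖c‖ - r)) * (1 / ‖circleMap c r φ‖ ^ 2) := by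
    rw [← Real.norm_eq_abs]
    apply intervalIntegral.norm_integral_le_of_norm_le (by linarith)
    · filter_upwards with φ _ using by rw [Real.norm_eq_abs]; exact hb φ
    · exact (hcont.const_mul _).intervalIntegrable _ _
  refine h2.trans ?_
  rw [intervalIntegral.integral_const_mul]
  have h3 : ∫ φ in α..α + θ, 1 / ‖circleMap c r φ‖ ^ 2 ≤
      ∫ φ in α..α + 2 * Real.pi, 1 / ‖circleMap c r φ‖ ^ 2 := by
    apply intervalIntegral.integral_mono_interval le_rfl (by linarith) (by linarith)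
    · filter_upwards with φ using by positivity
    · exact hcont.intervalIntegrable _ _
  have h4 : ∫ φ in α..α + 2 * Real.pi, 1 / ‖circleMap c r φ‖ ^ 2 =
      2 * Real.pi / (‖c‖ ^ 2 - r ^ 2) := by
    have hper : Function.Periodic (fun φ => 1 / ‖circleMap c r φ‖ ^ 2) (2 * Real.pi) := by
      intro φ
      simp only
      rw [periodic_circleMap c r φ]
    have := hper.intervalIntegral_add_eq α 0
    rw [zero_add] at this
    rw [this, integral_inv_sq hr hc]
  rw [h4] at h3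
  calc r / (‖c‖ - r) * ∫ φ in α..α + θ, 1 / ‖circleMap c r φ‖ ^ 2
      ≤ r / (‖c‖ - r) * (2 * Real.pi / (‖c‖ ^ 2 - r ^ 2)) := by gcongr
    _ = 2 * Real.pi * r / ((‖c‖ - r) ^ 2 * (‖c‖ + r)) := by
        have e : ‖c‖ ^ 2 - r ^ 2 = (‖c‖ - r) * (‖c‖ + r) := by ring
        have : 0 < ‖c‖ + r := by linarith
        rw [e]
        field_simp

end Pool.Agent.Helper50.Pic
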