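import Pool.Agent.Helper50.PicInt

/-!
# The potential functions on the closed upper half-plane
-/

set_option autoImplicit false

namespace Pool.Agent.Helper50.Pic

open Metric Set Complex

/-- Cut-off distance from `0`. -/
noncomputable def G0 (z : ℂ) : ℝ := min 1 ‖z‖

/-- Cut-off distance from `1`. -/
noncomputable def G1 (z : ℂ) : ℝ := min 1 ‖z - 1‖

/-- The function `h`, vanishing on `[0,1]` and equal to `1` far away. -/
noncomputable def hf (z : ℂ) : ℝ := min 1 ((‖z‖ + ‖z - 1‖ - 1) / 2)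

/-- The modified angle. -/
noncomputable def psh (z : ℂ) : ℝ := 1 - (1 - z.arg / Real.pi) * hf z

theorem hf_nonneg (z : ℂ) : 0 ≤ hf z := by
  unfold hf
  refine le_min zero_le_one ?_
  have : ‖(1:ℂ)‖ ≤ ‖z‖ + ‖z - 1‖ := by
    have := norm_sub_le z (z - 1)
    simpa using this
  rw [norm_one] at this
  linarith

theorem hf_le_one (z : ℂ) : hf z ≤ 1 := min_le_left _ _

theorem hf_le_norm (z : ℂ) : hf z ≤ ‖z‖ := by
  unfold hf
  refine (min_le_right _ _).trans ?_
  have := norm_sub_le z 1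
  rw [norm_one] at this
  linarith

theorem hf_lip (z w : ℂ) : |hf z - hf w| ≤ ‖z - w‖ := by
  unfold hf
  refine (abs_min_sub_min_le_max _ _ _ _).trans (max_le (by simp) ?_)
  have h1 := abs_norm_sub_norm_le z w
  have h2 := abs_norm_sub_norm_le (z - 1) (w - 1)
  rw [sub_sub_sub_cancel_right] at h2
  have e : (‖z‖ + ‖z - 1‖ - 1) / 2 - (‖w‖ + ‖w - 1‖ - 1) / 2 =
    (‖z‖ - ‖w‖) / 2 + (‖z - 1‖ - ‖w - 1‖) / 2 := by ring
  rw [e]
  rw [abs_le] at *
  constructor <;> linarith [h1.1, h1.2, h2.1, h2.2]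

theorem G0_lip (z w : ℂ) : |G0 z - G0 w| ≤ ‖z - w‖ := by
  unfold G0
  refine (abs_min_sub_min_le_max _ _ _ _).trans (max_le (by simp) ?_)
  exact abs_norm_sub_norm_le z w

theorem G1_lip (z w : ℂ) : |G1 z - G1 w| ≤ ‖z - w‖ := by
  unfold G1
  refine (abs_min_sub_min_le_max _ _ _ _).trans (max_le (by simp) ?_)
  have := abs_norm_sub_norm_le (z - 1) (w - 1)
  rwa [sub_sub_sub_cancel_right] at this

theorem G0_mem (z : ℂ) : 0 ≤ G0 z ∧ G0 z ≤ 1 :=
  ⟨le_min zero_le_one (norm_nonneg _), min_le_left _ _⟩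

theorem G1_mem (z : ℂ) : 0 ≤ G1 z ∧ G1 z ≤ 1 :=
  ⟨le_min zero_le_one (norm_nonneg _), min_le_left _ _⟩

theorem arg_lip {z w : ℂ} (hz : 0 ≤ z.im) (hw : 0 ≤ w.im) :
    |z.arg - w.arg| * ‖z‖ ≤ Real.pi * ‖z - w‖ := by
  have hpi := Real.pi_pos
  have a0 := arg_nonneg_iff.2 hz
  have b0 := arg_nonneg_iff.2 hw
  have a1 := arg_le_pi z
  have b1 := arg_le_pi w
  have ez1 := Complex.norm_mul_cos_arg z
  have ez2 := Complex.norm_mul_sin_arg z
  have ew1 := Complex.norm_mul_cos_arg w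
  have ew2 := Complex.norm_mul_sin_arg w
  set ρ := ‖z‖
  set σ := ‖w‖
  have hρ : 0 ≤ ρ := norm_nonneg z
  have hσ : 0 ≤ σ := norm_nonneg w
  set δ := |z.arg - w.arg| with hδ
  have hδ0 : 0 ≤ δ := abs_nonneg _
  have hδ1 : δ ≤ Real.pi := by rw [hδ, abs_le]; constructor <;> linarith
  have hn : ‖z - w‖ ^ 2 = ρ ^ 2 + σ ^ 2 - 2 * ρ * σ * Real.cos δ := by
    rw [Complex.sq_norm, normSq_apply, Complex.sub_re, Complex.sub_im, ← ez1, ← ez2, ← ew1, ← ew2,
      hδ, Real.cos_abs, Real.cos_sub]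
    linear_combination (ρ ^ 2) * Real.sin_sq_add_cos_sq z.arg +
      (σ ^ 2) * Real.sin_sq_add_cos_sq w.arg
  have hs := Real.sin_sq_add_cos_sq δ
  apply abs_le_of_sq_le_sq' _ (by positivity) |>.2
  rw [mul_pow, mul_pow, hn]
  rcases le_total δ (Real.pi / 2) with h | h
  · have j := Real.mul_le_sin hδ0 h
    have j2 : δ ≤ Real.pi * Real.sin δ := by
      have e : Real.pi * (2 / Real.pi * δ) = 2 * δ := by field_simp
      nlinarith [mul_le_mul_of_nonneg_left j hpi.le]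
    have j3 : δ ^ 2 ≤ Real.pi ^ 2 * Real.sin δ ^ 2 := by
      rw [← mul_pow]; gcongr
    calc δ ^ 2 * ρ ^ 2 ≤ (Real.pi ^ 2 * Real.sin δ ^ 2) * ρ ^ 2 := by gcongr
      _ = Real.pi ^ 2 * (ρ ^ 2 * Real.sin δ ^ 2) := by ring
      _ ≤ Real.pi ^ 2 * (ρ ^ 2 + σ ^ 2 - 2 * ρ * σ * Real.cos δ) := by
          gcongr
          nlinarith [sq_nonneg (σ - ρ * Real.cos δ)]
  · have hc : Real.cos δ ≤ 0 := Real.cos_nonpos_of_pi_div_two_le_of_le h (by linarith)
    calc δ ^ 2 * ρ ^ 2 ≤ Real.pi ^ 2 * ρ ^ 2 := by gcongr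
      _ ≤ Real.pi ^ 2 * (ρ ^ 2 + σ ^ 2 - 2 * ρ * σ * Real.cos δ) := by
          gcongr
          have : 0 ≤ 2 * ρ * σ * (-Real.cos δ) := by
            have : 0 ≤ -Real.cos δ := by linarith
            positivity
          nlinarith [sq_nonneg σ]

theorem psh_lip {z w : ℂ} (hz : 0 ≤ z.im) (hw : 0 ≤ w.im) : |psh z - psh w| ≤ 2 * ‖z - w‖ := by
  have hpi := Real.pi_pos
  have key := arg_lip hz hw
  have b0 := arg_nonneg_iff.2 hw
  have b1 := arg_le_pi w
  have e : psh z - psh w = (z.arg - w.arg) / Real.pi * hf z +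
      (1 - w.arg / Real.pi) * (hf w - hf z) := by
    unfold psh; ring
  rw [e]
  have h1 : |(z.arg - w.arg) / Real.pi * hf z| ≤ ‖z - w‖ := by
    rw [abs_mul, abs_div, abs_of_pos hpi, abs_of_nonneg (hf_nonneg z)]
    calc |z.arg - w.arg| / Real.pi * hf z ≤ |z.arg - w.arg| / Real.pi * ‖z‖ := by
          gcongr; exact hf_le_norm z
      _ = (|z.arg - w.arg| * ‖z‖) / Real.pi := by ring
      _ ≤ (Real.pi * ‖z - w‖) / Real.pi := by gcongr
      _ = ‖z - w‖ := by field_simp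
  have h2 : |(1 - w.arg / Real.pi) * (hf w - hf z)| ≤ ‖z - w‖ := by
    rw [abs_mul]
    have h3 : |1 - w.arg / Real.pi| ≤ 1 := by
      have h4 : w.arg / Real.pi ≤ 1 := (div_le_one hpi).2 b1
      have h5 : 0 ≤ w.arg / Real.pi := by positivity
      rw [abs_le]; constructor <;> linarith
    have h6 := hf_lip w z
    rw [norm_sub_rev] at h6
    calc |1 - w.arg / Real.pi| * |hf w - hf z| ≤ 1 * ‖z - w‖ := by gcongr
      _ = ‖z - w‖ := one_mul _
  calc _ ≤ _ := abs_add_le _ _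
    _ ≤ 2 * ‖z - w‖ := by linarith

theorem psh_mem {z : ℂ} (hz : 0 ≤ z.im) : 0 ≤ psh z ∧ psh z ≤ 1 := by
  have hpi := Real.pi_pos
  have b0 := arg_nonneg_iff.2 hz
  have b1 := arg_le_pi z
  have h4 : z.arg / Real.pi ≤ 1 := (div_le_one hpi).2 b1
  have h5 : 0 ≤ z.arg / Real.pi := by positivity
  have h6 := hf_nonneg z
  have h7 := hf_le_one z
  unfold psh
  constructor
  · nlinarith
  · nlinarith

/-- The coefficients of `G0`. -/
noncomputable def ca : Fin 3 → ℝ := ![1, -1, -1]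

/-- The coefficients of `G1`. -/
noncomputable def cb : Fin 3 → ℝ := ![0, 0, -2]

/-- The potential `Λ_x` on the closed upper half-plane. -/
noncomputable def Lam (x : Fin 3) (z : ℂ) : ℝ := -psh z + ca x * G0 z + cb x * G1 z

theorem Lam_lip (x : Fin 3) {z w : ℂ} (hz : 0 ≤ z.im) (hw : 0 ≤ w.im) :
    |Lam x z - Lam x w| ≤ 5 * ‖z - w‖ := by
  have h1 := psh_lip hz hw
  have h2 := G0_lip z w
  have h3 := G1_lip z w
  have h0 := norm_nonneg (z - w)
  unfold Lam
  rw [abs_le] at *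
  fin_cases x <;> simp [ca, cb] <;> constructor <;> linarith [h1.1, h1.2, h2.1, h2.2, h3.1, h3.2]

theorem Lam_bd (x : Fin 3) {z w : ℂ} (hz : 0 ≤ z.im) (hw : 0 ≤ w.im) :
    |Lam x z - Lam x w| ≤ 4 := by
  have h1 := psh_mem hz
  have h2 := psh_mem hw
  have h3 := G0_mem z
  have h4 := G0_mem w
  have h5 := G1_mem z
  have h6 := G1_mem w
  unfold Lam
  rw [abs_le] at *
  fin_cases x <;> simp [ca, cb] <;> constructor <;>
    linarith [h1.1, h1.2, h2.1, h2.2, h3.1, h3.2, h4.1, h4.2, h5.1, h5.2, h6.1, h6.2]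

theorem Lam_far (x : Fin 3) {z : ℂ} (hz : 2 ≤ ‖z‖) :
    Lam x z = -(z.arg / Real.pi) + ca x + cb x := by
  have h1 : 1 ≤ ‖z - 1‖ := by
    have := norm_sub_norm_le z 1
    rw [norm_one] at this
    linarith
  have e0 : G0 z = 1 := min_eq_left (by linarith)
  have e1 : G1 z = 1 := min_eq_left h1
  have e2 : hf z = 1 := min_eq_left (by linarith)
  unfold Lam psh
  rw [e0, e1, e2]
  ring

/-- The index of the interval `(-∞,0)`, `(0,1)` or `(1,∞)`. -/
noncomputable def kk (t : ℝ) : Fin 3 := if t < 0 then 0 else if t < 1 then 1 else 2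

/-- The constant value of `Λ_x + Λ_y` on the interval with index `k`. -/
noncomputable def dl (k x y : Fin 3) : ℝ :=
  if k = 0 then -2 + cb x + cb y else -2 + ca x + ca y

theorem dl_symm (k x y : Fin 3) : dl k x y = dl k y x := by
  unfold dl
  split_ifs <;> ring

theorem Lam_neg (x : Fin 3) {t : ℝ} (ht : t < 0) :
    Lam x (t : ℂ) = -1 + ca x * G0 t + cb x := by
  have e1 : G1 (t:ℂ) = 1 := by
    apply min_eq_left
    rw [← Complex.ofReal_one, ← Complex.ofReal_sub, Complex.norm_real, Real.norm_eq_abs,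
      abs_of_neg (by linarith)]
    linarith
  unfold Lam psh
  rw [e1, Complex.arg_ofReal_of_neg ht, div_self Real.pi_ne_zero]
  ring

theorem Lam_mid (x : Fin 3) {t : ℝ} (h0 : 0 < t) (h1 : t < 1) :
    Lam x (t : ℂ) = -1 + ca x * t + cb x * (1 - t) := by
  have n0 : ‖(t:ℂ)‖ = t := by rw [Complex.norm_real, Real.norm_eq_abs, abs_of_pos h0]
  have n1 : ‖(t:ℂ) - 1‖ = 1 - t := by
    rw [← Complex.ofReal_one, ← Complex.ofReal_sub, Complex.norm_real, Real.norm_eq_abs,
      abs_of_neg (by linarith)]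
    ring
  unfold Lam psh hf G0 G1
  rw [n0, n1, min_eq_right h1.le, min_eq_right (by linarith : 1 - t ≤ 1)]
  have : (t + (1 - t) - 1) / 2 = 0 := by ring
  rw [this, min_eq_right zero_le_one]
  ring

theorem Lam_big (x : Fin 3) {t : ℝ} (h1 : 1 < t) :
    Lam x (t : ℂ) = -1 + ca x + (1 + cb x) * G1 t := by
  have n0 : ‖(t:ℂ)‖ = t := by rw [Complex.norm_real, Real.norm_eq_abs, abs_of_pos (by linarith)]
  have n1 : ‖(t:ℂ) - 1‖ = t - 1 := by
    rw [← Complex.ofReal_one, ← Complex.ofReal_sub, Complex.norm_real, Real.norm_eq_abs,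
      abs_of_pos (by linarith)]
  have e0 : G0 (t:ℂ) = 1 := by
    apply min_eq_left
    rw [n0]; linarith
  have e1 : hf (t:ℂ) = G1 t := by
    unfold hf G1
    rw [n0, n1]
    congr 1
    ring
  unfold Lam psh
  rw [e0, e1, Complex.arg_ofReal_of_nonneg (by linarith)]
  ring

/-- The sum of two potentials is constant on an interval exactly one of whose labels is the
index of the interval. -/
theorem Lam_add {x y : Fin 3} {t : ℝ} (h0 : t ≠ 0) (h1 : t ≠ 1)
    (hx : (x = kk t ∧ y ≠ kk t) ∨ (x ≠ kk t ∧ y = kk t)) :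
    Lam x t + Lam y t = dl (kk t) x y := by
  unfold kk at *
  rcases lt_trichotomy t 0 with ht | ht | ht
  · rw [if_pos ht] at *
    rw [Lam_neg x ht, Lam_neg y ht]
    unfold dl
    rw [if_pos rfl]
    have : ca x + ca y = 0 := by
      fin_cases x <;> fin_cases y <;> simp_all [ca]
    linear_combination (G0 (t:ℂ)) * this
  · exact absurd ht h0
  · rw [if_neg (not_lt.2 ht.le)] at *
    rcases lt_trichotomy t 1 with ht1 | ht1 | ht1
    · rw [if_pos ht1] at *
      rw [Lam_mid x ht ht1, Lam_mid y ht ht1]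
      unfold dl
      rw [if_neg (by decide)]
      have : ca x + ca y = cb x + cb y := by
        fin_cases x <;> fin_cases y <;> simp_all [ca, cb] <;> norm_num
      linear_combination (t - 1) * this
    · exact absurd ht1 h1
    · rw [if_neg (not_lt.2 ht1.le)] at *
      rw [Lam_big x ht1, Lam_big y ht1]
      unfold dl
      rw [if_neg (by decide)]
      have : cb x + cb y = -2 := by
        fin_cases x <;> fin_cases y <;> simp_all [cb]
      linear_combination (G1 (t:ℂ)) * this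

end Pool.Agent.Helper50.Pic
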