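import Pool.Agent.Helper50.PicLam

/-!
# The state space (an infinite cyclic extension of the tree of half-planes)
-/

set_option autoImplicit false

namespace Pool.Agent.Helper50.Pic

open Metric Set Complex

/-- Infinite reduced words in three letters. -/
@[ext] structure Om where
  w : ℕ → Fin 3
  ne : ∀ n, w n ≠ w (n + 1)

/-- Adding a letter in front. -/
def cns (k : Fin 3) (w : ℕ → Fin 3) : ℕ → Fin 3
  | 0 => k
  | n + 1 => w n

/-- Crossing the interval `k`: remove the first letter if it is `k`, otherwise add `k`. -/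
def stp (k : Fin 3) (o : Om) : Om where
  w := if o.w 0 = k then fun n => o.w (n + 1) else cns k o.w
  ne := by
    split_ifs with h
    · exact fun n => o.ne (n + 1)
    · intro n
      cases n with
      | zero => exact fun e => h e.symm
      | succ n => exact o.ne n

theorem stp_of_eq {k : Fin 3} {o : Om} (h : o.w 0 = k) : (stp k o).w = fun n => o.w (n + 1) :=
  if_pos h

theorem stp_of_ne {k : Fin 3} {o : Om} (h : o.w 0 ≠ k) : (stp k o).w = cns k o.w :=
  if_neg h

theorem stp_head_of_eq {k : Fin 3} {o : Om} (h : o.w 0 = k) : (stp k o).w 0 ≠ k := by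
  rw [stp_of_eq h]
  intro e
  exact o.ne 0 (h.trans e.symm)

theorem stp_head_of_ne {k : Fin 3} {o : Om} (h : o.w 0 ≠ k) : (stp k o).w 0 = k := by
  rw [stp_of_ne h]
  rfl

theorem stp_stp (k : Fin 3) (o : Om) : stp k (stp k o) = o := by
  by_cases h : o.w 0 = k
  · have h2 := stp_head_of_eq h
    apply Om.ext
    rw [stp_of_ne h2, stp_of_eq h]
    funext n
    cases n with
    | zero => exact h.symm
    | succ n => rfl
  · have h2 := stp_head_of_ne h
    apply Om.ext
    rw [stp_of_eq h2, stp_of_ne h]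
    rfl

/-- States: a word and a real number. -/
abbrev Sta : Type := Om × ℝ

/-- The transition from the upper to the lower half-plane through the interval `k`. -/
noncomputable def TT (k : Fin 3) : Equiv.Perm Sta where
  toFun s := (stp k s.1, s.2 + dl k (s.1.w 0) ((stp k s.1).w 0))
  invFun s := (stp k s.1, s.2 - dl k (s.1.w 0) ((stp k s.1).w 0))
  left_inv s := by
    obtain ⟨w, c⟩ := s
    simp only [stp_stp, dl_symm k ((stp k w).w 0)]
    exact Prod.ext rfl (by simp)
  right_inv s := by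
    obtain ⟨w, c⟩ := s
    simp only [stp_stp, dl_symm k ((stp k w).w 0)]
    exact Prod.ext rfl (by simp)

/-- The value of the multivalued potential. -/
noncomputable def Phi (s : Sta) (p : ℂ) : ℝ :=
  if 0 ≤ p.im then s.2 + Lam (s.1.w 0) p else s.2 - Lam (s.1.w 0) ((starRingEnd ℂ) p)

/-- Continuity of the potential across the real axis. -/
theorem Phi_cross (s : Sta) {t : ℝ} (h0 : t ≠ 0) (h1 : t ≠ 1) :
    s.2 + Lam (s.1.w 0) t = ((TT (kk t)) s).2 - Lam (((TT (kk t)) s).1.w 0) t := by
  have e : (s.1.w 0 = kk t ∧ (stp (kk t) s.1).w 0 ≠ kk t) ∨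
      (s.1.w 0 ≠ kk t ∧ (stp (kk t) s.1).w 0 = kk t) := by
    by_cases h : s.1.w 0 = kk t
    · exact Or.inl ⟨h, stp_head_of_eq h⟩
    · exact Or.inr ⟨h, stp_head_of_ne h⟩
  have := Lam_add h0 h1 e
  change s.2 + Lam (s.1.w 0) t = (s.2 + dl (kk t) (s.1.w 0) ((stp (kk t) s.1).w 0)) -
    Lam ((stp (kk t) s.1).w 0) t
  rw [← this]
  ring

open Classical in
/-- The transition permutation of a point relative to the upper half-plane. -/
noncomputable def hp (k : Fin 3) (p : ℂ) : Equiv.Perm Sta := if 0 ≤ p.im then 1 else TT k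

open Classical in
/-- The index of the interval met by a set. -/
noncomputable def kC (C : Set ℂ) : Fin 3 :=
  if h : ∃ t : ℝ, (t : ℂ) ∈ C then kk h.choose else 0

/-- The transition along the segment from `p` to `q`. -/
noncomputable def mv (p q : ℂ) : Equiv.Perm Sta :=
  hp (kC (segment ℝ p q)) q * (hp (kC (segment ℝ p q)) p)⁻¹

/-- Sets avoiding `0` and `1`. -/
structure Good (C : Set ℂ) : Prop where
  conv : Convex ℝ C
  h0 : (0:ℂ) ∉ C
  h1 : (1:ℂ) ∉ C

theorem Good.mono_segment {C : Set ℂ} (h : Good C) {p q : ℂ} (hp : p ∈ C) (hq : q ∈ C) :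
    Good (segment ℝ p q) where
  conv := convex_segment p q
  h0 := fun h' => h.h0 (h.conv.segment_subset hp hq h')
  h1 := fun h' => h.h1 (h.conv.segment_subset hp hq h')

theorem Good.real_ne {C : Set ℂ} (h : Good C) {t : ℝ} (ht : (t:ℂ) ∈ C) : t ≠ 0 ∧ t ≠ 1 :=
  ⟨fun e => h.h0 (by rw [e] at ht; simpa using ht),
    fun e => h.h1 (by rw [e] at ht; simpa using ht)⟩

theorem Good.ordConnected {C : Set ℂ} (h : Good C) {s t x : ℝ} (hs : (s:ℂ) ∈ C)
    (ht : (t:ℂ) ∈ C) (h1 : s ≤ x) (h2 : x ≤ t) : (x:ℂ) ∈ C := by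
  rcases eq_or_lt_of_le (h1.trans h2) with e | hlt
  · have : x = s := by linarith
    rw [this]; exact hs
  · have hd : 0 < t - s := by linarith
    have key := h.conv hs ht (a := (t - x) / (t - s)) (b := (x - s) / (t - s))
      (div_nonneg (by linarith) hd.le) (div_nonneg (by linarith) hd.le) (by field_simp; ring)
    convert key using 1
    simp only [Complex.real_smul]
    have : ((t:ℂ) - s) ≠ 0 := by
      have := hd.ne'
      exact_mod_cast this
    push_cast
    field_simp
    ring

theorem Good.kk_eq {C : Set ℂ} (h : Good C) {s t : ℝ} (hs : (s:ℂ) ∈ C) (ht : (t:ℂ) ∈ C) :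
    kk s = kk t := by
  have main : ∀ {s t : ℝ}, (s:ℂ) ∈ C → (t:ℂ) ∈ C → s ≤ t → kk s = kk t := by
    intro s t hs ht hst
    have n0 : ¬ (s < 0 ∧ 0 < t) := fun h' => h.h0 (by
      have := h.ordConnected hs ht (x := 0) h'.1.le h'.2.le
      simpa using this)
    have n1 : ¬ (s < 1 ∧ 1 < t) := fun h' => h.h1 (by
      have := h.ordConnected hs ht (x := 1) h'.1.le h'.2.le
      simpa using this)
    obtain ⟨s0, s1⟩ := h.real_ne hs
    obtain ⟨t0, t1⟩ := h.real_ne ht
    unfold kk
    by_cases a : s < 0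
    · have b : t < 0 := by
        by_contra hb
        exact n0 ⟨a, lt_of_le_of_ne (not_lt.1 hb) t0.symm⟩
      rw [if_pos a, if_pos b]
    · have b : ¬ t < 0 := fun hb => a (by linarith)
      rw [if_neg a, if_neg b]
      by_cases a' : s < 1
      · have b' : t < 1 := by
          by_contra hb
          exact n1 ⟨a', lt_of_le_of_ne (not_lt.1 hb) t1.symm⟩
        rw [if_pos a', if_pos b']
      · have b' : ¬ t < 1 := fun hb => a' (by linarith)
        rw [if_neg a', if_neg b']
  rcases le_total s t with hst | hst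
  · exact main hs ht hst
  · exact (main ht hs hst).symm

theorem Good.kC_eq {C : Set ℂ} (h : Good C) {t : ℝ} (ht : (t:ℂ) ∈ C) : kC C = kk t := by
  unfold kC
  have hex : ∃ t : ℝ, (t : ℂ) ∈ C := ⟨t, ht⟩
  rw [dif_pos hex]
  exact h.kk_eq hex.choose_spec ht

/-- Points on different sides of the real axis: the segment meets the real axis. -/
theorem exists_crossing {p q : ℂ} (hp : 0 ≤ p.im) (hq : q.im < 0) :
    ∃ t : ℝ, (t : ℂ) ∈ segment ℝ p q ∧
      t * (p.im - q.im) = p.im * q.re - p.re * q.im := by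
  have hd : 0 < p.im - q.im := by linarith
  refine ⟨(p.im * q.re - p.re * q.im) / (p.im - q.im), ?_, by field_simp⟩
  refine ⟨-q.im / (p.im - q.im), p.im / (p.im - q.im), div_nonneg (by linarith) hd.le,
    div_nonneg hp hd.le, by field_simp; ring, ?_⟩
  apply Complex.ext
  · simp only [Complex.add_re, Complex.real_smul, Complex.mul_re, Complex.ofReal_re,
      Complex.ofReal_im]
    field_simp
    ring
  · simp only [Complex.add_im, Complex.real_smul, Complex.mul_im, Complex.ofReal_re,
      Complex.ofReal_im]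
    field_simp
    ring

theorem Good.mv_eq {C : Set ℂ} (h : Good C) {p q : ℂ} (hpC : p ∈ C) (hqC : q ∈ C) :
    mv p q = hp (kC C) q * (hp (kC C) p)⁻¹ := by
  unfold mv
  have hseg := h.mono_segment hpC hqC
  have hsub := h.conv.segment_subset hpC hqC
  have hk : ∀ t : ℝ, (t:ℂ) ∈ segment ℝ p q → kC (segment ℝ p q) = kC C := by
    intro t ht
    rw [hseg.kC_eq ht, h.kC_eq (hsub ht)]
  by_cases a : 0 ≤ p.im
  · by_cases b : 0 ≤ q.im
    · unfold hp
      rw [if_pos a, if_pos b, if_pos a, if_pos b]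
    · obtain ⟨t, ht, -⟩ := exists_crossing a (not_le.1 b)
      rw [hk t ht]
  · by_cases b : 0 ≤ q.im
    · obtain ⟨t, ht, -⟩ := exists_crossing b (not_le.1 a)
      rw [segment_symm] at ht
      rw [hk t ht]
    · unfold hp
      rw [if_neg a, if_neg b, if_neg a, if_neg b, mul_inv_cancel, mul_inv_cancel]

theorem Good.mv_trans {C : Set ℂ} (h : Good C) {p q x : ℂ} (hpC : p ∈ C) (hqC : q ∈ C)
    (hxC : x ∈ C) : mv q x * mv p q = mv p x := by
  rw [h.mv_eq hpC hqC, h.mv_eq hqC hxC, h.mv_eq hpC hxC]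
  group

theorem Good.mv_symm {C : Set ℂ} (h : Good C) {p q : ℂ} (hpC : p ∈ C) (hqC : q ∈ C) :
    mv q p = (mv p q)⁻¹ := by
  rw [h.mv_eq hpC hqC, h.mv_eq hqC hpC]
  group

/-- The change of the potential from `p` to `q`. -/
noncomputable def chg (p q : ℂ) (s : Sta) : ℝ := Phi (mv p q s) q - Phi s p

theorem Good.chg_symm {C : Set ℂ} (h : Good C) {p q : ℂ} (hpC : p ∈ C) (hqC : q ∈ C) (s : Sta) :
    chg p q s = - chg q p (mv p q s) := by
  unfold chg
  have : mv q p (mv p q s) = s := by
    rw [h.mv_symm hpC hqC]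
    simp
  rw [this]
  ring

theorem Good.chg_up_up {C : Set ℂ} (h : Good C) {p q : ℂ} (hpC : p ∈ C) (hqC : q ∈ C) (s : Sta)
    (a : 0 ≤ p.im) (b : 0 ≤ q.im) : chg p q s = Lam (s.1.w 0) q - Lam (s.1.w 0) p := by
  unfold chg
  rw [h.mv_eq hpC hqC]
  unfold hp Phi
  rw [if_pos a, if_pos b, if_pos b, if_pos a]
  simp

theorem Good.chg_down_down {C : Set ℂ} (h : Good C) {p q : ℂ} (hpC : p ∈ C) (hqC : q ∈ C)
    (s : Sta) (a : ¬ 0 ≤ p.im) (b : ¬ 0 ≤ q.im) :
    chg p q s = Lam (s.1.w 0) ((starRingEnd ℂ) p) - Lam (s.1.w 0) ((starRingEnd ℂ) q) := by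
  unfold chg
  rw [h.mv_eq hpC hqC]
  unfold hp Phi
  rw [if_neg a, if_neg b, if_neg b, if_neg a, mul_inv_cancel]
  simp only [Equiv.Perm.coe_one, id_eq]
  ring

theorem Good.chg_up_down {C : Set ℂ} (h : Good C) {p q : ℂ} (hpC : p ∈ C) (hqC : q ∈ C)
    (s : Sta) (a : 0 ≤ p.im) (b : ¬ 0 ≤ q.im) {t : ℝ} (ht : (t : ℂ) ∈ C) :
    ∃ x y : Fin 3, chg p q s = (Lam x t - Lam x p) +
      (Lam y t - Lam y ((starRingEnd ℂ) q)) := by
  have hne := h.real_ne ht
  have key := Phi_cross s hne.1 hne.2
  refine ⟨s.1.w 0, ((TT (kk t)) s).1.w 0, ?_⟩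
  unfold chg
  rw [h.mv_eq hpC hqC, h.kC_eq ht]
  unfold hp Phi
  rw [if_pos a, if_neg b, if_neg b, if_pos a, inv_one, mul_one]
  linarith

theorem conj_im_nonneg {q : ℂ} (b : ¬ 0 ≤ q.im) : 0 ≤ ((starRingEnd ℂ) q).im := by
  rw [Complex.conj_im]; linarith [not_le.1 b]

theorem norm_conj_sub (p q : ℂ) : ‖(starRingEnd ℂ) p - (starRingEnd ℂ) q‖ = ‖p - q‖ := by
  rw [← map_sub, RCLike.norm_conj]

theorem ofReal_im_nonneg (t : ℝ) : 0 ≤ ((t : ℂ)).im := by simp

theorem Good.abs_chg_le {C : Set ℂ} (h : Good C) {p q : ℂ} (hpC : p ∈ C) (hqC : q ∈ C)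
    (s : Sta) : |chg p q s| ≤ 5 * ‖p - q‖ := by
  have ud : ∀ {p q : ℂ}, p ∈ C → q ∈ C → ∀ s : Sta, 0 ≤ p.im → ¬ 0 ≤ q.im →
      |chg p q s| ≤ 5 * ‖p - q‖ := by
    intro p q hpC hqC s a b
    obtain ⟨t, ht, -⟩ := exists_crossing a (not_le.1 b)
    obtain ⟨x, y, e⟩ := h.chg_up_down hpC hqC s a b (h.conv.segment_subset hpC hqC ht)
    have h1 := Lam_lip x (ofReal_im_nonneg t) a
    have h2 := Lam_lip y (ofReal_im_nonneg t) (conj_im_nonneg b)
    have h3 := dist_add_dist_of_mem_segment ht
    rw [dist_eq_norm, dist_eq_norm, dist_eq_norm] at h3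
    have h4 : ‖(t:ℂ) - (starRingEnd ℂ) q‖ = ‖(t:ℂ) - q‖ := by
      have := norm_conj_sub (t:ℂ) q
      rwa [Complex.conj_ofReal] at this
    rw [norm_sub_rev] at h1
    rw [h4] at h2
    rw [e]
    have := abs_add_le (Lam x t - Lam x p) (Lam y t - Lam y ((starRingEnd ℂ) q))
    linarith
  by_cases a : 0 ≤ p.im
  · by_cases b : 0 ≤ q.im
    · rw [h.chg_up_up hpC hqC s a b, norm_sub_rev]
      exact Lam_lip _ b a
    · exact ud hpC hqC s a b
  · by_cases b : 0 ≤ q.im
    · rw [h.chg_symm hpC hqC, abs_neg, norm_sub_rev]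
      exact ud hqC hpC _ b a
    · rw [h.chg_down_down hpC hqC s a b, ← norm_conj_sub]
      exact Lam_lip _ (conj_im_nonneg a) (conj_im_nonneg b)

theorem Good.abs_chg_le_eight {C : Set ℂ} (h : Good C) {p q : ℂ} (hpC : p ∈ C) (hqC : q ∈ C)
    (s : Sta) : |chg p q s| ≤ 8 := by
  have ud : ∀ {p q : ℂ}, p ∈ C → q ∈ C → ∀ s : Sta, 0 ≤ p.im → ¬ 0 ≤ q.im →
      |chg p q s| ≤ 8 := by
    intro p q hpC hqC s a b
    obtain ⟨t, ht, -⟩ := exists_crossing a (not_le.1 b)
    obtain ⟨x, y, e⟩ := h.chg_up_down hpC hqC s a b (h.conv.segment_subset hpC hqC ht)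
    have h1 := Lam_bd x (ofReal_im_nonneg t) a
    have h2 := Lam_bd y (ofReal_im_nonneg t) (conj_im_nonneg b)
    rw [e]
    have := abs_add_le (Lam x t - Lam x p) (Lam y t - Lam y ((starRingEnd ℂ) q))
    linarith
  by_cases a : 0 ≤ p.im
  · by_cases b : 0 ≤ q.im
    · rw [h.chg_up_up hpC hqC s a b]
      have := Lam_bd (s.1.w 0) b a
      linarith
    · exact ud hpC hqC s a b
  · by_cases b : 0 ≤ q.im
    · rw [h.chg_symm hpC hqC, abs_neg]
      exact ud hqC hpC _ b a
    · rw [h.chg_down_down hpC hqC s a b]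
      have := Lam_bd (s.1.w 0) (conj_im_nonneg a) (conj_im_nonneg b)
      linarith

/-- The argument of a quotient, as a difference of arguments up to `2π`. -/
theorem arg_div_eq {p q : ℂ} (hp : p ≠ 0) (hq : q ≠ 0) :
    ∃ n : ℤ, (q / p).arg = q.arg - p.arg + n * (2 * Real.pi) := by
  have h := Complex.arg_div_coe_angle hq hp
  rw [← Real.Angle.coe_sub, Real.Angle.angle_eq_iff_two_pi_dvd_sub] at h
  obtain ⟨n, hn⟩ := h
  exact ⟨n, by linarith⟩

theorem Good.chg_far {C : Set ℂ} (h : Good C) (hfar : ∀ z ∈ C, 2 ≤ ‖z‖) {p q : ℂ}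
    (hpC : p ∈ C) (hqC : q ∈ C) (s : Sta) :
    chg p q s = -((q / p).arg / Real.pi) := by
  have hpi := Real.pi_pos
  have hne : ∀ {z}, z ∈ C → z ≠ 0 := fun hz e => h.h0 (e ▸ hz)
  have hslit : ∀ {p q : ℂ}, p ∈ C → q ∈ C → -Real.pi < (q / p).arg ∧ (q / p).arg < Real.pi := by
    intro p q hp hq
    have h1 := Complex.mem_slitPlane_iff_arg.1 (div_mem_slitPlane h.conv h.h0 hp hq)
    exact ⟨Complex.neg_pi_lt_arg _, lt_of_le_of_ne (Complex.arg_le_pi _) h1.1⟩
  have ud : ∀ {p q : ℂ}, p ∈ C → q ∈ C → ∀ s : Sta, 0 ≤ p.im → ¬ 0 ≤ q.im →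
      chg p q s = -((q / p).arg / Real.pi) := by
    intro p q hpC hqC s a b
    obtain ⟨t, ht, hte⟩ := exists_crossing a (not_le.1 b)
    have htC := h.conv.segment_subset hpC hqC ht
    obtain ⟨x, y, e⟩ := h.chg_up_down hpC hqC s a b htC
    obtain ⟨n, hn⟩ := arg_div_eq (hne hpC) (hne hqC)
    have hb := hslit hpC hqC
    have hp1 := arg_nonneg_iff.2 a
    have hp2 := arg_le_pi p
    have hq1 := arg_neg_iff.2 (not_le.1 b)
    have hq2 := neg_pi_lt_arg q
    have him : (q / p).im * normSq p = -(t * (p.im - q.im)) := by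
      have hns : normSq p ≠ 0 := fun e => hne hpC (normSq_eq_zero.1 e)
      rw [hte, Complex.div_im]
      field_simp
      ring
    have hns : 0 < normSq p := normSq_pos.2 (hne hpC)
    have hd : 0 < p.im - q.im := by linarith [not_le.1 b]
    have hconj : ((starRingEnd ℂ) q).arg = -q.arg := by
      rw [Complex.arg_conj, if_neg]
      intro e
      linarith
    have hqn : 2 ≤ ‖(starRingEnd ℂ) q‖ := by rw [RCLike.norm_conj]; exact hfar q hqC
    rw [e, Lam_far x (hfar _ htC), Lam_far y (hfar _ htC), Lam_far x (hfar p hpC),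
      Lam_far y hqn, hconj, hn]
    rcases lt_trichotomy t 0 with ht0 | ht0 | ht0
    · have h1 : 0 < (q / p).im := by
        by_contra hcon
        push Not at hcon
        have : (q / p).im * normSq p ≤ 0 := mul_nonpos_of_nonpos_of_nonneg hcon hns.le
        nlinarith
      have h2 : 0 ≤ (q / p).arg := arg_nonneg_iff.2 h1.le
      rw [hn] at h2 hb
      have n1 : n = 1 := by
        have c1 : (0:ℝ) < n := by
          by_contra hcon
          push Not at hcon
          nlinarith
        have c2 : (n:ℝ) < 2 := by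
          by_contra hcon
          push Not at hcon
          nlinarith
        have c1' : 0 < n := by exact_mod_cast c1
        have c2' : n < 2 := by exact_mod_cast c2
        omega
      rw [Complex.arg_ofReal_of_neg ht0, n1]
      field_simp
      push_cast
      ring
    · exact absurd ht0 (h.real_ne htC).1
    · have h1 : (q / p).im < 0 := by
        by_contra hcon
        push Not at hcon
        have : 0 ≤ (q / p).im * normSq p := mul_nonneg hcon hns.le
        nlinarith
      have h2 : (q / p).arg < 0 := arg_neg_iff.2 h1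
      rw [hn] at h2 hb
      have n0 : n = 0 := by
        have c1 : (n:ℝ) < 1 := by
          by_contra hcon
          push Not at hcon
          nlinarith
        have c2 : (-1:ℝ) < n := by
          by_contra hcon
          push Not at hcon
          nlinarith
        have c1' : n < 1 := by exact_mod_cast c1
        have c2' : -1 < n := by exact_mod_cast c2
        omega
      rw [Complex.arg_ofReal_of_nonneg ht0.le, n0]
      field_simp
      push_cast
      ring
  by_cases a : 0 ≤ p.im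
  · by_cases b : 0 ≤ q.im
    · rw [h.chg_up_up hpC hqC s a b, Lam_far _ (hfar q hqC), Lam_far _ (hfar p hpC)]
      obtain ⟨n, hn⟩ := arg_div_eq (hne hpC) (hne hqC)
      have hb := hslit hpC hqC
      have hp1 := arg_nonneg_iff.2 a
      have hp2 := arg_le_pi p
      have hq1 := arg_nonneg_iff.2 b
      have hq2 := arg_le_pi q
      rw [hn] at hb
      have n0 : n = 0 := by
        have c1 : (n:ℝ) < 1 := by
          by_contra hcon
          push Not at hcon
          nlinarith
        have c2 : (-1:ℝ) < n := by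
          by_contra hcon
          push Not at hcon
          nlinarith
        have c1' : n < 1 := by exact_mod_cast c1
        have c2' : -1 < n := by exact_mod_cast c2
        omega
      rw [hn, n0]
      push_cast
      field_simp
      ring
    · exact ud hpC hqC s a b
  · by_cases b : 0 ≤ q.im
    · rw [h.chg_symm hpC hqC, ud hqC hpC _ b a]
      have h1 : p / q = (q / p)⁻¹ := by rw [inv_div]
      rw [h1, Complex.arg_inv, if_neg (hslit hpC hqC).2.ne]
      ring
    · rw [h.chg_down_down hpC hqC s a b]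
      have hconj : ∀ {z : ℂ}, z ∈ C → ¬ 0 ≤ z.im → ((starRingEnd ℂ) z).arg = -z.arg := by
        intro z hz hb
        rw [Complex.arg_conj, if_neg]
        intro e
        have := arg_neg_iff.2 (not_le.1 hb)
        linarith
      rw [Lam_far _ (by rw [RCLike.norm_conj]; exact hfar p hpC),
        Lam_far _ (by rw [RCLike.norm_conj]; exact hfar q hqC), hconj hpC a, hconj hqC b]
      obtain ⟨n, hn⟩ := arg_div_eq (hne hpC) (hne hqC)
      have hb := hslit hpC hqC
      have hp1 := arg_neg_iff.2 (not_le.1 a)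
      have hp2 := neg_pi_lt_arg p
      have hq1 := arg_neg_iff.2 (not_le.1 b)
      have hq2 := neg_pi_lt_arg q
      rw [hn] at hb
      have n0 : n = 0 := by
        have c1 : (n:ℝ) < 1 := by
          by_contra hcon
          push Not at hcon
          nlinarith
        have c2 : (-1:ℝ) < n := by
          by_contra hcon
          push Not at hcon
          nlinarith
        have c1' : n < 1 := by exact_mod_cast c1
        have c2' : -1 < n := by exact_mod_cast c2
        omega
      rw [hn, n0]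
      push_cast
      field_simp
      ring

end Pool.Agent.Helper50.Pic
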