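import Pool.Agent.Helper50.PicDefs

/-!
# Oriented triangles in the plane
-/

set_option autoImplicit false

namespace Pool.Agent.Helper50.Pic

open Metric Set

/-- The closed triangle as an intersection of three half-planes. -/
def tri (a b c : ℂ) : Set ℂ :=
  {z | 0 ≤ cross (b - a) (z - a) ∧ 0 ≤ cross (c - b) (z - b) ∧ 0 ≤ cross (a - c) (z - c)}

theorem tri_rot (a b c : ℂ) : tri a b c = tri b c a := by
  ext z
  simp only [tri, mem_ofPred_eq]
  tauto

theorem cross_rot (a b c : ℂ) : cross (b - a) (c - a) = cross (c - b) (a - b) := by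
  simp only [cross, Complex.sub_re, Complex.sub_im]; ring

theorem continuous_cross (a b : ℂ) : Continuous fun z : ℂ => cross a (z - b) := by
  unfold cross
  fun_prop

theorem convex_halfplane (a b : ℂ) : Convex ℝ {z : ℂ | 0 ≤ cross a (z - b)} := by
  intro x hx y hy s t hs ht hst
  simp only [mem_ofPred_eq, cross, Complex.sub_re, Complex.sub_im, Complex.add_re, Complex.add_im,
    Complex.real_smul, Complex.mul_re, Complex.mul_im, Complex.ofReal_re, Complex.ofReal_im] at *
  have e : a.re * (s * x.im + 0 * x.re + (t * y.im + 0 * y.re) - b.im) -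
      a.im * (s * x.re - 0 * x.im + (t * y.re - 0 * y.im) - b.re) =
      s * (a.re * (x.im - b.im) - a.im * (x.re - b.re)) +
      t * (a.re * (y.im - b.im) - a.im * (y.re - b.re)) := by
    have : t = 1 - s := by linarith
    subst this; ring
  rw [e]
  positivity

theorem convex_tri (a b c : ℂ) : Convex ℝ (tri a b c) := by
  have := ((convex_halfplane (b - a) a).inter (convex_halfplane (c - b) b)).inter
    (convex_halfplane (a - c) c)
  convert this using 1
  ext z
  simp only [tri, mem_ofPred_eq, mem_inter_iff, and_assoc]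

theorem isClosed_tri (a b c : ℂ) : IsClosed (tri a b c) := by
  have h1 := isClosed_le continuous_const (continuous_cross (b - a) a) (f := fun _ => (0:ℝ))
  have h2 := isClosed_le continuous_const (continuous_cross (c - b) b) (f := fun _ => (0:ℝ))
  have h3 := isClosed_le continuous_const (continuous_cross (a - c) c) (f := fun _ => (0:ℝ))
  have := (h1.inter h2).inter h3
  convert this using 1
  ext z
  simp only [tri, mem_ofPred_eq, mem_inter_iff, and_assoc]

theorem bary (a b c z : ℂ) (h : cross (b - a) (c - a) ≠ 0) :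
    z = ((cross (c - b) (z - b) / cross (b - a) (c - a) : ℝ) : ℂ) * a +
      ((cross (a - c) (z - c) / cross (b - a) (c - a) : ℝ) : ℂ) * b +
      ((cross (b - a) (z - a) / cross (b - a) (c - a) : ℝ) : ℂ) * c := by
  apply Complex.ext
  · simp only [Complex.add_re, Complex.mul_re, Complex.ofReal_re, Complex.ofReal_im]
    field_simp
    simp only [cross, Complex.sub_re, Complex.sub_im]
    ring
  · simp only [Complex.add_im, Complex.mul_im, Complex.ofReal_re, Complex.ofReal_im]
    field_simp
    simp only [cross, Complex.sub_re, Complex.sub_im]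
    ring

theorem cross_sum (a b c z : ℂ) :
    cross (c - b) (z - b) + cross (a - c) (z - c) + cross (b - a) (z - a) =
      cross (b - a) (c - a) := by
  simp only [cross, Complex.sub_re, Complex.sub_im]; ring

theorem left_mem_tri {a b c : ℂ} (h : 0 < cross (b - a) (c - a)) : a ∈ tri a b c := by
  refine ⟨?_, ?_, ?_⟩
  · simp [cross]
  · rw [← cross_rot]; exact h.le
  · have : cross (a - c) (a - c) = 0 := by simp only [cross]; ring
    rw [this]

theorem tri_eq {a b c : ℂ} (h : 0 < cross (b - a) (c - a)) :
    convexHull ℝ {a, b, c} = tri a b c := by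
  apply Subset.antisymm
  · apply convexHull_min _ (convex_tri a b c)
    rintro z (rfl | rfl | rfl)
    · exact left_mem_tri h
    · rw [tri_rot]; exact left_mem_tri (by rw [← cross_rot]; exact h)
    · rw [tri_rot, tri_rot]; exact left_mem_tri (by rw [← cross_rot, ← cross_rot]; exact h)
  · intro z hz
    have key := (convex_convexHull ℝ ({a, b, c} : Set ℂ)).sum_mem (t := Finset.univ)
      (w := ![cross (c - b) (z - b) / cross (b - a) (c - a),
        cross (a - c) (z - c) / cross (b - a) (c - a),
        cross (b - a) (z - a) / cross (b - a) (c - a)]) (z := ![a, b, c]) ?_ ?_ ?_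
    · have e := bary a b c z h.ne'
      rw [Fin.sum_univ_three] at key
      simp only [Matrix.cons_val_zero, Matrix.cons_val_one, Matrix.cons_val, Complex.real_smul]
        at key
      rw [e]
      exact key
    · intro i _
      fin_cases i
      · exact div_nonneg hz.2.1 h.le
      · exact div_nonneg hz.2.2 h.le
      · exact div_nonneg hz.1 h.le
    · rw [Fin.sum_univ_three]
      simp only [Matrix.cons_val_zero, Matrix.cons_val_one, Matrix.cons_val]
      rw [← add_div, ← add_div, cross_sum, div_self h.ne']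
    · intro i _
      apply subset_convexHull
      fin_cases i <;> simp

theorem mem_segment_of_cross {a b c z : ℂ} (h : 0 < cross (b - a) (c - a))
    (hz : z ∈ tri a b c) (h0 : cross (b - a) (z - a) = 0) : z ∈ segment ℝ a b := by
  refine ⟨cross (c - b) (z - b) / cross (b - a) (c - a),
    cross (a - c) (z - c) / cross (b - a) (c - a), div_nonneg hz.2.1 h.le,
    div_nonneg hz.2.2 h.le, ?_, ?_⟩
  · have := cross_sum a b c z
    rw [h0, add_zero] at this
    rw [← add_div, this, div_self h.ne']
  · have := bary a b c z h.ne'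
    rw [h0] at this
    simp only [zero_div, Complex.ofReal_zero, zero_mul, add_zero] at this
    simp only [Complex.real_smul]
    exact this.symm

/-- Interior points of a triangle. -/
theorem tri_mem_nhds {a b c z : ℂ} (h1 : 0 < cross (b - a) (z - a))
    (h2 : 0 < cross (c - b) (z - b)) (h3 : 0 < cross (a - c) (z - c)) :
    tri a b c ∈ nhds z := by
  have c1 := (continuous_cross (b - a) a).continuousAt.eventually (lt_mem_nhds h1)
  have c2 := (continuous_cross (c - b) b).continuousAt.eventually (lt_mem_nhds h2)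
  have c3 := (continuous_cross (a - c) c).continuousAt.eventually (lt_mem_nhds h3)
  filter_upwards [c1, c2, c3] with w w1 w2 w3 using ⟨w1.le, w2.le, w3.le⟩

theorem frontier_tri {a b c z : ℂ} (h : 0 < cross (b - a) (c - a))
    (hz : z ∈ frontier (tri a b c)) :
    z ∈ tri a b c ∧ (z ∈ segment ℝ a b ∨ z ∈ segment ℝ b c ∨ z ∈ segment ℝ c a) := by
  have hm : z ∈ tri a b c := (isClosed_tri a b c).frontier_subset hz
  refine ⟨hm, ?_⟩
  by_contra hcon
  push Not at hcon
  obtain ⟨n1, n2, n3⟩ := hcon
  have h1 : 0 < cross (b - a) (z - a) :=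
    lt_of_le_of_ne hm.1 fun e => n1 (mem_segment_of_cross h hm e.symm)
  have h2 : 0 < cross (c - b) (z - b) :=
    lt_of_le_of_ne hm.2.1 fun e => n2 (mem_segment_of_cross (a := b) (b := c) (c := a)
      (by rw [← cross_rot]; exact h) (by rw [← tri_rot]; exact hm) e.symm)
  have h3 : 0 < cross (a - c) (z - c) :=
    lt_of_le_of_ne hm.2.2 fun e => n3 (mem_segment_of_cross (a := c) (b := a) (c := b)
      (by rw [← cross_rot, ← cross_rot]; exact h) (by rw [← tri_rot, ← tri_rot]; exact hm) e.symm)
  have := mem_interior_iff_mem_nhds.2 (tri_mem_nhds h1 h2 h3)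
  exact hz.2 this

theorem inter_frontier {t s : Set ℂ} (ht : IsPreconnected t) (h1 : (t ∩ s).Nonempty)
    (h2 : (t ∩ sᶜ).Nonempty) : (t ∩ frontier s).Nonempty := by
  by_contra hcon
  rw [not_nonempty_iff_eq_empty] at hcon
  have hn : ∀ x ∈ t, x ∉ frontier s := fun x hx hf => by
    have : x ∈ t ∩ frontier s := ⟨hx, hf⟩
    rw [hcon] at this
    exact this
  obtain ⟨x, hx, hxs⟩ := h1
  obtain ⟨y, hy, hys⟩ := h2
  obtain ⟨z, -, hz1, hz2⟩ := ht (interior s) (closure s)ᶜ isOpen_interior isClosed_closure.isOpen_compl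
    (fun z hz => by
      by_cases h : z ∈ closure s
      · left
        by_contra h'
        exact hn z hz ⟨h, h'⟩
      · right; exact h)
    ⟨x, hx, by by_contra h'; exact hn x hx ⟨subset_closure hxs, h'⟩⟩
    ⟨y, hy, fun h => hn y hy ⟨h, fun h' => hys (interior_subset h')⟩⟩
  exact hz2 (subset_closure (interior_subset hz1))

/-- A segment from a point of the triangle to a point outside meets the boundary. -/
theorem exists_frontier {a b c x y : ℂ} (h : 0 < cross (b - a) (c - a))
    (hx : x ∈ tri a b c) (hy : y ∉ tri a b c) :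
    ∃ s ∈ segment ℝ x y, s ∈ tri a b c ∧
      (s ∈ segment ℝ a b ∨ s ∈ segment ℝ b c ∨ s ∈ segment ℝ c a) := by
  have hc : IsPreconnected (segment ℝ x y) := (convex_segment x y).isPreconnected
  obtain ⟨s, hs, hs'⟩ := inter_frontier hc (s := tri a b c)
    ⟨x, left_mem_segment ℝ x y, hx⟩ ⟨y, right_mem_segment ℝ x y, hy⟩
  exact ⟨s, hs, frontier_tri h hs'⟩

/-- A point of the edge between two tangent circles lies in one of the closed discs. -/
theorem mem_ball_of_segment {a b s : ℂ} {ra rb : ℝ} (h : dist a b = ra + rb)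
    (hs : s ∈ segment ℝ a b) : s ∈ closedBall a ra ∨ s ∈ closedBall b rb := by
  have e := dist_add_dist_of_mem_segment hs
  by_contra hcon
  push Not at hcon
  simp only [mem_closedBall, not_le] at hcon
  rw [dist_comm a s] at e
  linarith [hcon.1, hcon.2]

/-- Three discs with disjoint interiors have no common point. -/
theorem three_discs {a b c x : ℂ} {ra rb rc : ℝ} (ha : 0 < ra) (hb : 0 < rb) (hc : 0 < rc)
    (hab : ra + rb ≤ dist a b) (hbc : rb + rc ≤ dist b c) (hac : ra + rc ≤ dist a c)
    (xa : x ∈ closedBall a ra) (xb : x ∈ closedBall b rb) (xc : x ∈ closedBall c rc) : False := by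
  have key : ∀ (a b : ℂ) (ra rb : ℝ), 0 < ra → 0 < rb → ra + rb ≤ dist a b →
      x ∈ closedBall a ra → x ∈ closedBall b rb →
      ((a.re - x.re) * (b.re - x.re) + (a.im - x.im) * (b.im - x.im)) / (ra * rb) ≤ -1 := by
    intro a b ra rb ha hb hab xa xb
    rw [mem_closedBall, dist_comm, Complex.dist_eq_re_im, Real.sqrt_le_left ha.le] at xa
    rw [mem_closedBall, dist_comm, Complex.dist_eq_re_im, Real.sqrt_le_left hb.le] at xb
    rw [Complex.dist_eq_re_im, Real.le_sqrt' (by positivity)] at hab
    rw [div_le_iff₀ (by positivity)]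
    nlinarith
  have k1 := key a b ra rb ha hb hab xa xb
  have k2 := key b c rb rc hb hc hbc xb xc
  have k3 := key a c ra rc ha hc hac xa xc
  have n : ∀ (a : ℂ) (ra : ℝ), 0 < ra → x ∈ closedBall a ra →
      ((a.re - x.re) / ra) ^ 2 + ((a.im - x.im) / ra) ^ 2 ≤ 1 := by
    intro a ra ha xa
    rw [mem_closedBall, dist_comm, Complex.dist_eq_re_im, Real.sqrt_le_left ha.le] at xa
    rw [div_pow, div_pow, ← add_div, div_le_one (by positivity)]
    exact xa
  have n1 := n a ra ha xa
  have n2 := n b rb hb xb
  have n3 := n c rc hc xc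
  have s1 := sq_nonneg ((a.re - x.re) / ra + (b.re - x.re) / rb + (c.re - x.re) / rc)
  have s2 := sq_nonneg ((a.im - x.im) / ra + (b.im - x.im) / rb + (c.im - x.im) / rc)
  have e : ∀ (a b : ℂ) (ra rb : ℝ), 0 < ra → 0 < rb →
      ((a.re - x.re) * (b.re - x.re) + (a.im - x.im) * (b.im - x.im)) / (ra * rb) =
      ((a.re - x.re) / ra) * ((b.re - x.re) / rb) + ((a.im - x.im) / ra) * ((b.im - x.im) / rb) := by
    intro a b ra rb ha hb
    field_simp
  rw [e a b ra rb ha hb] at k1
  rw [e b c rb rc hb hc] at k2
  rw [e a c ra rc ha hc] at k3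
  nlinarith

end Pool.Agent.Helper50.Pic
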